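import Mathlib
import Pool.Agent.Helper50.FC.CartanL

/-! Z4-Cart: Lie algebras.
* `cartan_no`: CARTAN'S CRITERION: a non-zero finite-dimensional perfect Lie algebra has a non-zero Killing form.  Make a type synonym of `L` into a
  `LieRing`/`LieAlgebra ℂ` by `br`; `LieAlgebra.isSolvable_of_killingForm_apply_lie_eq_zero` (Mathlib/Algebra/Lie/CartanCriterion.lean) gives solvable;
  perfect and solvable is zero (derived series).
* `trace_inv`: `br (br x y) = [br x, br y]` in `End L` by Jacobi, and `tr ([X,Y] Z) = tr (X [Y,Z])`.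
* `four_term`: a formal identity for every anticommutative product (expand both sides; signs checked numerically). -/

set_option autoImplicit false

namespace Pool.Agent.Helper12.Z4

open scoped BigOperators

variable {N F : Type} [AddCommGroup N] [Module ℂ N] [AddCommGroup F] [Module ℂ F]

theorem cartan_no {L : Type} [AddCommGroup L] [Module ℂ L] [Module.Finite ℂ L] [Nontrivial L]
    (br : L →ₗ[ℂ] L →ₗ[ℂ] L) (h1 : ∀ x, br x x = 0)
    (h2 : ∀ x y z, br x (br y z) + br y (br z x) + br z (br x y) = 0)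
    (h3 : Submodule.span ℂ {z | ∃ x y, z = br x y} = ⊤)
    (h4 : ∀ x y, LinearMap.trace ℂ L (br x ∘ₗ br y) = 0) : False := by
  have h5 : (Set.range fun p : L × L => br p.1 p.2) = {z | ∃ x y, z = br x y} := by
    ext z
    constructor
    · rintro ⟨⟨x, y⟩, h⟩
      exact ⟨x, y, h.symm⟩
    · rintro ⟨x, y, h⟩
      exact ⟨(x, y), h.symm⟩
  have h6 := Pool.Agent.Helper50.FC.cartanL br h1 h2 (by rw [h5]; exact h3) (fun x => h4 x x)
  exact not_subsingleton L h6

/-- the trace form of a Lie algebra is invariant -/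
theorem trace_inv {L : Type} [AddCommGroup L] [Module ℂ L] [Module.Finite ℂ L]
    (br : L →ₗ[ℂ] L →ₗ[ℂ] L) (h1 : ∀ x, br x x = 0)
    (h2 : ∀ x y z, br x (br y z) + br y (br z x) + br z (br x y) = 0) (x y z : L) :
    LinearMap.trace ℂ L (br (br x y) ∘ₗ br z) = LinearMap.trace ℂ L (br x ∘ₗ br (br y z)) := by
  have hs : ∀ a b, br a b = -br b a := by
    intro a b
    have h3 := h1 (a + b)
    rw [map_add, map_add, LinearMap.add_apply, LinearMap.add_apply, h1, h1, zero_add,
      add_zero] at h3
    exact eq_neg_of_add_eq_zero_right h3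
  have key : ∀ a b, br (br a b) = br a * br b - br b * br a := by
    intro a b
    ext c
    rw [LinearMap.sub_apply, Module.End.mul_apply, Module.End.mul_apply]
    have h3 := h2 a b c
    rw [hs c (br a b), hs c a, map_neg] at h3
    have h4 : br (br a b) c - (br a (br b c) - br b (br a c)) = 0 := by
      have h5 : br (br a b) c - (br a (br b c) - br b (br a c)) =
        -(br a (br b c) + -br b (br a c) + -br (br a b) c) := by abel
      rw [h5, h3, neg_zero]
    exact sub_eq_zero.1 h4
  have e1 : br (br x y) ∘ₗ br z = (br x * br y - br y * br x) * br z := by rw [key]; rfl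
  have e2 : br x ∘ₗ br (br y z) = br x * (br y * br z - br z * br y) := by rw [key]; rfl
  rw [e1, e2, sub_mul, mul_sub, map_sub, map_sub, ← mul_assoc (br x) (br y) (br z)]
  congr 1
  rw [mul_assoc, LinearMap.trace_mul_comm, mul_assoc]

/-- Jacobiator -/
def Jac (br : N →ₗ[ℂ] N →ₗ[ℂ] N) (a b c : N) : N := br a (br b c) + br b (br c a) + br c (br a b)

theorem four_term {br : N →ₗ[ℂ] N →ₗ[ℂ] N} (h : ∀ x, br x x = 0) (x1 x2 x3 x4 : N) :
    Jac br (br x1 x2) x3 x4 - Jac br (br x1 x3) x2 x4 + Jac br (br x1 x4) x2 x3 +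
      Jac br (br x2 x3) x1 x4 - Jac br (br x2 x4) x1 x3 + Jac br (br x3 x4) x1 x2 =
    br x3 (Jac br x1 x2 x4) - br x4 (Jac br x1 x2 x3) - br x2 (Jac br x1 x3 x4) +
      br x1 (Jac br x2 x3 x4) := by
  have s : ∀ a b, br a b = -br b a := by
    intro a b
    have h3 := h (a + b)
    rw [map_add, map_add, LinearMap.add_apply, LinearMap.add_apply, h, h, zero_add,
      add_zero] at h3
    exact eq_neg_of_add_eq_zero_right h3
  simp only [Jac, map_add]
  rw [s (br x3 x4) (br x1 x2), s (br x2 x4) (br x1 x3), s (br x2 x3) (br x1 x4),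
    s (br x1 x2) x3, s (br x1 x3) x2, s (br x1 x4) x2, s (br x2 x3) x1, s (br x2 x4) x1,
    s (br x3 x4) x1, s x4 x1, s x3 x1, s x4 x2]
  simp only [map_neg]
  abel

end Pool.Agent.Helper12.Z4
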