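import Pool.Agent.Helper71.FC.Flag

/-! Z4 (MP_45a28a, frozen statement S00166, block IY4): common definitions.
`EE θ 3` is the space of cubic 1-forms annihilated by `θ`; `KX θ x` are those which vanish at the point `x`;
`RL θ` are the linear relations between the members of `EE θ 3`, as linear maps `X : ℂ^n → EE θ 3` with `(X x)(x) = 0`.
`RK ε k` are the relations of degree `k` between given forms `ε i`. -/

set_option autoImplicit false

namespace Pool.Agent.Helper12.Z4

open MvPolynomial
open scoped BigOperators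
open Pool.Agent.Helper71.FL (w12 pf ct Dec Closed dd at0 emb res)
open Pool.Agent.Helper93 (lsub lmap OF pb)
open Pool.Agent.Helper71.FC

variable {n : ℕ}

/-- cubic 1-forms annihilated by `θ` and vanishing at `x` -/
noncomputable def KX (θ : F2 n) (x : Fin n → ℂ) : Submodule ℂ (EE θ 3) where
  carrier := {f | ∀ j, eval x ((f : F1 n) j) = 0}
  add_mem' := by
    intro a b ha hb j
    have h1 : ((a + b : EE θ 3) : F1 n) j = (a : F1 n) j + (b : F1 n) j := rfl
    rw [h1, map_add, ha j, hb j, add_zero]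
  zero_mem' := by
    intro j
    have h1 : ((0 : EE θ 3) : F1 n) j = 0 := rfl
    rw [h1, map_zero]
  smul_mem' := by
    intro c a ha j
    have h1 : ((c • a : EE θ 3) : F1 n) j = c • (a : F1 n) j := rfl
    rw [h1, smul_eq_C_mul, map_mul, ha j, mul_zero]

theorem mem_KX {θ : F2 n} {x : Fin n → ℂ} {f : EE θ 3} :
    f ∈ KX θ x ↔ ∀ j, eval x ((f : F1 n) j) = 0 := Iff.rfl

/-- linear relations between the cubic 1-forms annihilated by `θ` -/
noncomputable def RL (θ : F2 n) : Submodule ℂ ((Fin n → ℂ) →ₗ[ℂ] EE θ 3) where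
  carrier := {X | ∀ x, X x ∈ KX θ x}
  add_mem' := by
    intro a b ha hb x
    exact (KX θ x).add_mem (ha x) (hb x)
  zero_mem' := by
    intro x
    exact (KX θ x).zero_mem
  smul_mem' := by
    intro c a ha x
    exact (KX θ x).smul_mem c (ha x)

theorem mem_RL {θ : F2 n} {X : (Fin n → ℂ) →ₗ[ℂ] EE θ 3} :
    X ∈ RL θ ↔ ∀ x, X x ∈ KX θ x := Iff.rfl

/-- relations of degree `k` between given 1-forms -/
noncomputable def RK {e : ℕ} (ε : Fin e → F1 n) (k : ℕ) : Submodule ℂ (Fin e → Pn n) where
  carrier := {c | (∀ i, (c i).IsHomogeneous k) ∧ ∀ j, ∑ i, c i * ε i j = 0}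
  add_mem' := by
    rintro a b ⟨h1, h2⟩ ⟨h3, h4⟩
    refine ⟨fun i => (h1 i).add (h3 i), fun j => ?_⟩
    have : ∑ i, (a + b) i * ε i j = ∑ i, a i * ε i j + ∑ i, b i * ε i j := by
      rw [← Finset.sum_add_distrib]
      exact Finset.sum_congr rfl fun i _ => by rw [Pi.add_apply, add_mul]
    rw [this, h2, h4, add_zero]
  zero_mem' := by
    refine ⟨fun i => isHomogeneous_zero _ _ _, fun j => ?_⟩
    simp
  smul_mem' := by
    rintro c a ⟨h1, h2⟩
    refine ⟨fun i => ?_, fun j => ?_⟩
    · have := (isHomogeneous_C (Fin n) c).mul (h1 i)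
      rw [zero_add] at this
      rw [Pi.smul_apply, smul_eq_C_mul]
      exact this
    · have : ∑ i, (c • a) i * ε i j = C c * ∑ i, a i * ε i j := by
        rw [Finset.mul_sum]
        exact Finset.sum_congr rfl fun i _ => by rw [Pi.smul_apply, smul_eq_C_mul, mul_assoc]
      rw [this, h2, mul_zero]

/-- `av θ v` as a member of `EE θ 3` -/
noncomputable def avE (θ : F2 n) (h : Fol θ) : (Fin n → ℂ) →ₗ[ℂ] EE θ 3 where
  toFun v := ⟨av θ v, av_mem_EE h.dec h.hom v⟩
  map_add' := by
    intro v w
    apply Subtype.ext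
    funext i
    show av θ (v + w) i = av θ v i + av θ w i
    unfold av ct cv
    rw [← Finset.sum_add_distrib]
    refine Finset.sum_congr rfl fun j _ => ?_
    rw [Pi.add_apply, C_add, add_mul]
  map_smul' := by
    intro c v
    apply Subtype.ext
    funext i
    show av θ (c • v) i = c • av θ v i
    unfold av ct cv
    rw [Finset.smul_sum]
    refine Finset.sum_congr rfl fun j _ => ?_
    rw [Pi.smul_apply, smul_eq_mul, C_mul, mul_assoc, smul_eq_C_mul]

theorem avE_coe (θ : F2 n) (h : Fol θ) (v : Fin n → ℂ) : (avE θ h v : F1 n) = av θ v := rfl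

theorem avE_inj (θ : F2 n) (h : Fol θ) (hc : ¬ Cone θ) : Function.Injective (avE θ h) := by
  rw [← LinearMap.ker_eq_bot, LinearMap.ker_eq_bot']
  intro v hv
  by_contra h0
  refine hc ⟨v, h0, fun j => ?_⟩
  have := congrFun (congrArg Subtype.val hv) j
  exact this

end Pool.Agent.Helper12.Z4
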