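import Pool.Agent.Helper12.Z4.R2a

/-! Z4-R2b: `c` of rank 2: normal forms of the two tangent fields.  `R = <e0, e1>`, `ρ_r := β(r, .)`, `w := β(e0,e1)`.
(*) from `R2_star`: in `Λ²N` (R6) resp. modulo `Θ` (R5): `v∧β(r,x) + r∧β(x,v) + x∧β(v,r) = - c(v,x) m_r`, `r ∈ R`.
R6.  `r = e0, v = e1`: `e1∧ρ_0(x) - e0∧ρ_1(x) - x∧w = 0` for all `x`; modulo `R∧N`: `w ∈ R`, `w = f0 e0 + f1 e1`, and
`e1∧(ρ_0(x) + f1 x) = e0∧(ρ_1(x) - f0 x)`: `ρ_0(x) = -f1 x`, `ρ_1(x) = f0 x` modulo `R`.  The elements `B r n`, `r ∈ R`, span `ι V` (dimension 5, `q = 0` on them), so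
the `β(r,n)` span `N`; so `(f0,f1) ≠ 0`; choose the basis `r1, r2` of `R` such that `ρ_{r1}(N) ⊂ R`, `ρ_{r2} = 1` mod `R`, `β(r1,r2) = r1`; the eigenvalues of `ρ_{r2}` are
`-1 (r1), 0 (r2), 1, 1`: choose `x3, x4` with `ρ_{r2} x_j = x_j`; then `ρ_{r1} x_j = b_j r2` (from `r2∧ρ_{r1}(x) = r1∧(ρ_{r2}(x) - x) = 0`), `b ≠ 0` because the `β(r,n)` span `N`:
`ρ_{r1} x3 = r2, ρ_{r1} x4 = 0`.  `V` has the basis `b0 = [r1 r2], b1 = [r1 x3], b2 = [r2 x3], b3 = [r1 x4], b4 = [r2 x4]` (`[r n] := p (B r n)`, `π [r n] = β(r,n)`):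
`π = r1, r2, x3, 0, x4`; `E := p B r1 π`, `W := p B r2 π` have the form `Fm1`.
R5, kernel `Θ`.  `c(Θ) = 0` gives `Θ ∈ R∧N`: `Θ = e0∧a + e1∧b`, `e0, e1, a, b` a basis (non-degenerate).  `e1∧ρ_0(x) - e0∧ρ_1(x) - x∧w = φ(x) Θ`, again `w = f0 e0 + f1 e1 ∈ R`,
`ρ_0(x) = -f1 x + φ(x) b`, `ρ_1(x) = f0 x - φ(x) a` modulo `R`, `φ(R) = 0`; `β(Θ) = 0` (`B(Θ) = 0`): `ρ_0(a) + ρ_1(b) = 0`: `f1 = -φ(b)`, `f0 = -φ(a)`.
`φ = 0` would give `β(R,N) ⊂ R`, but the `B r n` span a space of dimension 4 and `π` has 1-dimensional kernel.  Change of the basis `e0, e1` of `R` (and dual change of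
`a, b`): `φ(a) = 0, φ(b) = 1`: `w = -e1`; `ρ_0`: `e0 ↦ 0, e1 ↦ -e1, a ↦ a, b ↦ 2b` mod `R`: choose `a, b` (mod `R`) as eigenvectors.  Then `Θ = e0∧a + e1∧b + κ e0∧e1`,
`e1∧(ρ_0(x) - x) - e0∧ρ_1(x) = φ(x) Θ`: `x = a`: `ρ_1(a) = ε e0`; `x = b`: `ρ_1(b) = -a - κ e1 + κ' e0`; `β(Θ) = a + ρ_1(b) - κ e1 = 0`: `κ = κ' = 0`.  So
`ρ_1`: `e0 ↦ e1, e1 ↦ 0, a ↦ ε e0, b ↦ -a`.  With `[r n] = p (B r n)`: `π[e0 e1] = -e1, π[e0 a] = a, [e1 b] = -[e0 a], π[e0 b] = 2b, π[e1 a] = ε e0`.  `E := p B e1 π`, `W := p B e0 π`.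
`ε ≠ 0`: `b3 = [e0 b], b2 = E b3 = -2 [e0 a], b1 = E b2 = -2 [e1 a], b0 = E b1 = 2 ε [e0 e1]`, `b4 ∈ ker π`: `Fm2`.
`ε = 0`: `b2 = [e0 b], b1 = -2 [e0 a], b0 = -2 [e1 a]`, `b4 ∈ V` with `π b4 = e0` (`π` onto), `b3 = E b4 = -[e0 e1]`: `Fm3`. -/

set_option autoImplicit false

namespace Pool.Agent.Helper12.Z4

open MvPolynomial
open scoped BigOperators
open Pool.Agent.Helper71.FC

variable {N F : Type} [AddCommGroup N] [Module ℂ N] [AddCommGroup F] [Module ℂ F]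

/-- `S^2 + S^1`, `Z = S^1` -/
structure Fm1 (b : Module.Basis (Fin 5) ℂ V5) (E W : V5 →ₗ[ℂ] V5) : Prop where
  e0 : E (b 0) = 0
  e1 : E (b 1) = b 0
  e2 : E (b 2) = b 1
  e3 : E (b 3) = 0
  e4 : E (b 4) = b 3
  w0 : W (b 0) = -b 0
  w1 : W (b 1) = 0
  w2 : W (b 2) = b 2
  w3 : W (b 3) = 0
  w4 : W (b 4) = b 4

/-- `S^3 + S^0`, `Z = S^3` -/
structure Fm2 (b : Module.Basis (Fin 5) ℂ V5) (E W : V5 →ₗ[ℂ] V5) : Prop where
  e0 : E (b 0) = 0
  e1 : E (b 1) = b 0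
  e2 : E (b 2) = b 1
  e3 : E (b 3) = b 2
  e4 : E (b 4) = 0
  w0 : W (b 0) = -b 0
  w1 : W (b 1) = 0
  w2 : W (b 2) = b 2
  w3 : W (b 3) = (2 : ℂ) • b 3
  w4 : W (b 4) = 0

/-- `S^2 + S^1`, `Z = 2 S^2 - S^1` -/
structure Fm3 (b : Module.Basis (Fin 5) ℂ V5) (E W : V5 →ₗ[ℂ] V5) : Prop where
  e0 : E (b 0) = 0
  e1 : E (b 1) = b 0
  e2 : E (b 2) = b 1
  e3 : E (b 3) = 0
  e4 : E (b 4) = b 3
  w0 : W (b 0) = 0
  w1 : W (b 1) = b 1
  w2 : W (b 2) = (2 : ℂ) • b 2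
  w3 : W (b 3) = -b 3
  w4 : W (b 4) = 0

private lemma alt_swap {B : N →ₗ[ℂ] N →ₗ[ℂ] F} (hB : ∀ x, B x x = 0) (x y : N) :
    B x y = - B y x := by
  have h := hB (x + y)
  simp only [map_add, LinearMap.add_apply, hB, zero_add, add_zero] at h
  exact eq_neg_of_add_eq_zero_right h

private lemma expand {B : N →ₗ[ℂ] N →ₗ[ℂ] F} (hB : ∀ x, B x x = 0)
    (g : Module.Basis (Fin 4) ℂ N) (x y : N) :
    B x y = (g.repr x 0 * g.repr y 1 - g.repr x 1 * g.repr y 0) • B (g 0) (g 1) +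
      (g.repr x 0 * g.repr y 2 - g.repr x 2 * g.repr y 0) • B (g 0) (g 2) +
      (g.repr x 0 * g.repr y 3 - g.repr x 3 * g.repr y 0) • B (g 0) (g 3) +
      (g.repr x 1 * g.repr y 2 - g.repr x 2 * g.repr y 1) • B (g 1) (g 2) +
      (g.repr x 1 * g.repr y 3 - g.repr x 3 * g.repr y 1) • B (g 1) (g 3) +
      (g.repr x 2 * g.repr y 3 - g.repr x 3 * g.repr y 2) • B (g 2) (g 3) := by
  have hx := g.sum_repr x
  have hy := g.sum_repr y
  rw [Fin.sum_univ_four] at hx hy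
  conv_lhs => rw [← hx, ← hy]
  simp only [map_add, map_smul, LinearMap.add_apply, LinearMap.smul_apply, hB]
  rw [alt_swap hB (g 1) (g 0), alt_swap hB (g 2) (g 0), alt_swap hB (g 3) (g 0),
    alt_swap hB (g 2) (g 1), alt_swap hB (g 3) (g 1), alt_swap hB (g 3) (g 2)]
  module

private lemma star_coef {B : N →ₗ[ℂ] N →ₗ[ℂ] F} (hB : ∀ x, B x x = 0)
    (g : Module.Basis (Fin 4) ℂ N) (h6 : R6 B g) (y z x w : N)
    (h : B (g 1) y - B (g 0) z - B x w = 0) :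
    g.repr y 0 + g.repr z 1 + (g.repr x 0 * g.repr w 1 - g.repr x 1 * g.repr w 0) = 0 ∧
    g.repr z 2 + (g.repr x 0 * g.repr w 2 - g.repr x 2 * g.repr w 0) = 0 ∧
    g.repr z 3 + (g.repr x 0 * g.repr w 3 - g.repr x 3 * g.repr w 0) = 0 ∧
    g.repr y 2 - (g.repr x 1 * g.repr w 2 - g.repr x 2 * g.repr w 1) = 0 ∧
    g.repr y 3 - (g.repr x 1 * g.repr w 3 - g.repr x 3 * g.repr w 1) = 0 ∧
    g.repr x 2 * g.repr w 3 - g.repr x 3 * g.repr w 2 = 0 := by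
  rw [expand hB g (g 1) y, expand hB g (g 0) z, expand hB g x w] at h
  have r10 : g.repr (g 1) 0 = 0 := by simp
  have r11 : g.repr (g 1) 1 = 1 := by simp
  have r12 : g.repr (g 1) 2 = 0 := by simp
  have r13 : g.repr (g 1) 3 = 0 := by simp
  have r00 : g.repr (g 0) 0 = 1 := by simp
  have r01 : g.repr (g 0) 1 = 0 := by simp
  have r02 : g.repr (g 0) 2 = 0 := by simp
  have r03 : g.repr (g 0) 3 = 0 := by simp
  rw [r10, r11, r12, r13, r00, r01, r02, r03] at h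
  have h7 := Fintype.linearIndependent_iff.mp h6
    ![-(g.repr y 0 + g.repr z 1 + (g.repr x 0 * g.repr w 1 - g.repr x 1 * g.repr w 0)),
      -(g.repr z 2 + (g.repr x 0 * g.repr w 2 - g.repr x 2 * g.repr w 0)),
      -(g.repr z 3 + (g.repr x 0 * g.repr w 3 - g.repr x 3 * g.repr w 0)),
      g.repr y 2 - (g.repr x 1 * g.repr w 2 - g.repr x 2 * g.repr w 1),
      g.repr y 3 - (g.repr x 1 * g.repr w 3 - g.repr x 3 * g.repr w 1),
      -(g.repr x 2 * g.repr w 3 - g.repr x 3 * g.repr w 2)] (by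
      rw [Fin.sum_univ_six, ← h]
      simp only [Matrix.cons_val]
      module)
  refine ⟨?_, ?_, ?_, ?_, ?_, ?_⟩
  · exact neg_eq_zero.mp (h7 0)
  · exact neg_eq_zero.mp (h7 1)
  · exact neg_eq_zero.mp (h7 2)
  · exact h7 3
  · exact h7 4
  · exact neg_eq_zero.mp (h7 5)

private lemma mkb (e : Module.Basis (Fin 4) ℂ N) (f : Fin 4 → N)
    (h : ∀ i, ∃ c : Fin 4 → ℂ, e i = c 0 • f 0 + c 1 • f 1 + c 2 • f 2 + c 3 • f 3) :
    ∃ e' : Module.Basis (Fin 4) ℂ N, ∀ i, e' i = f i := by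
  have hfr : Module.finrank ℂ N = 4 := by
    rw [Module.finrank_eq_card_basis e, Fintype.card_fin]
  have hsp : ⊤ ≤ Submodule.span ℂ (Set.range f) := by
    rw [← e.span_eq, Submodule.span_le]
    rintro _ ⟨i, rfl⟩
    obtain ⟨c, hc⟩ := h i
    rw [hc]
    have hm : ∀ j, f j ∈ Submodule.span ℂ (Set.range f) := fun j =>
      Submodule.subset_span ⟨j, rfl⟩
    exact Submodule.add_mem _ (Submodule.add_mem _ (Submodule.add_mem _
      (Submodule.smul_mem _ _ (hm 0)) (Submodule.smul_mem _ _ (hm 1)))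
      (Submodule.smul_mem _ _ (hm 2))) (Submodule.smul_mem _ _ (hm 3))
  refine ⟨basisOfTopLeSpanOfCardEqFinrank f hsp (by rw [hfr, Fintype.card_fin]), fun i => ?_⟩
  rw [coe_basisOfTopLeSpanOfCardEqFinrank]

private lemma basV (d : YS N F) {p : F →ₗ[ℂ] V5} (hp : ∀ v, p (d.ι v) = v)
    (g : Module.Basis (Fin 4) ℂ N) (h6 : R6 d.B g) (h0 : ∀ x, d.c (g 0) x = 0)
    (h1 : ∀ x, d.c (g 1) x = 0) :
    ∃ b : Module.Basis (Fin 5) ℂ V5, b 0 = p (d.B (g 0) (g 1)) ∧ b 1 = p (d.B (g 0) (g 2)) ∧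
      b 2 = p (d.B (g 1) (g 2)) ∧ b 3 = p (d.B (g 0) (g 3)) ∧ b 4 = p (d.B (g 1) (g 3)) := by
  set v : Fin 5 → V5 := ![p (d.B (g 0) (g 1)), p (d.B (g 0) (g 2)), p (d.B (g 1) (g 2)),
    p (d.B (g 0) (g 3)), p (d.B (g 1) (g 3))] with hv
  have e0 : ∀ n, d.ι (p (d.B (g 0) n)) = d.B (g 0) n := fun n => d.eq_ι hp (h0 n)
  have e1 : ∀ n, d.ι (p (d.B (g 1) n)) = d.B (g 1) n := fun n => d.eq_ι hp (h1 n)
  have hli : LinearIndependent ℂ v := by
    rw [Fintype.linearIndependent_iff]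
    intro c hc
    have h2 := congrArg d.ι hc
    rw [Fin.sum_univ_five, map_zero] at h2
    simp only [map_add, map_smul, hv, Matrix.cons_val, e0, e1] at h2
    have h7 := Fintype.linearIndependent_iff.mp h6 ![c 0, c 1, c 3, c 2, c 4, 0] (by
      rw [Fin.sum_univ_six, ← h2]
      simp only [Matrix.cons_val]
      module)
    intro i
    fin_cases i
    · exact h7 0
    · exact h7 1
    · exact h7 3
    · exact h7 2
    · exact h7 4
  have hfr : Fintype.card (Fin 5) = Module.finrank ℂ V5 := by simp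
  refine ⟨basisOfLinearIndependentOfCardEqFinrank hli hfr, ?_, ?_, ?_, ?_, ?_⟩ <;>
    rw [coe_basisOfLinearIndependentOfCardEqFinrank] <;> rfl

/-- a functional vanishing on the products `β(g 0, .)`, `β(g 1, .)` is zero -/
private lemma fun0 (d : YS N F) {p : F →ₗ[ℂ] V5} (hp : ∀ v, p (d.ι v) = v)
    (g : Module.Basis (Fin 4) ℂ N) (h6 : R6 d.B g) (h0 : ∀ x, d.c (g 0) x = 0)
    (h1 : ∀ x, d.c (g 1) x = 0) (k : Fin 4) (a : g.repr (d.β p (g 0) (g 1)) k = 0)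
    (b2 : g.repr (d.β p (g 0) (g 2)) k = 0) (b3 : g.repr (d.β p (g 0) (g 3)) k = 0)
    (c2 : g.repr (d.β p (g 1) (g 2)) k = 0) (c3 : g.repr (d.β p (g 1) (g 3)) k = 0) : False := by
  obtain ⟨b, hb0, hb1, hb2, hb3, hb4⟩ := basV d hp g h6 h0 h1
  have h : (g.coord k) ∘ₗ d.π = 0 := by
    apply b.ext
    intro i
    fin_cases i
    · show g.repr (d.π (b 0)) k = 0
      rw [hb0]; exact a
    · show g.repr (d.π (b 1)) k = 0
      rw [hb1]; exact b2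
    · show g.repr (d.π (b 2)) k = 0
      rw [hb2]; exact c2
    · show g.repr (d.π (b 3)) k = 0
      rw [hb3]; exact b3
    · show g.repr (d.π (b 4)) k = 0
      rw [hb4]; exact c3
  obtain ⟨x, hx⟩ := d.π_surj (g k)
  have h2 := congrArg (fun L : V5 →ₗ[ℂ] ℂ => L x) h
  have h3 : g.repr (d.π x) k = 0 := h2
  rw [hx, Module.Basis.repr_self, Finsupp.single_eq_same] at h3
  exact one_ne_zero h3

private lemma fin_R6 (d : YS N F) {p : F →ₗ[ℂ] V5} (hp : ∀ v, p (d.ι v) = v)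
    (g : Module.Basis (Fin 4) ℂ N) (h6 : R6 d.B g) (h0 : ∀ x, d.c (g 0) x = 0)
    (h1 : ∀ x, d.c (g 1) x = 0) (a : d.β p (g 0) (g 1) = g 0) (b2 : d.β p (g 0) (g 2) = g 1)
    (b3 : d.β p (g 0) (g 3) = 0) (c2 : d.β p (g 1) (g 2) = g 2) (c3 : d.β p (g 1) (g 3) = g 3) :
    ∃ (b : Module.Basis (Fin 5) ℂ V5) (E W : V5 →ₗ[ℂ] V5), (∀ x, d.ι (E x) ∈ d.K x) ∧
      (∀ x, d.ι (W x) ∈ d.K x) ∧ Fm1 b E W := by
  obtain ⟨b, hb0, hb1, hb2, hb3, hb4⟩ := basV d hp g h6 h0 h1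
  have p0 : d.π (b 0) = g 0 := by rw [hb0]; exact a
  have p1 : d.π (b 1) = g 1 := by rw [hb1]; exact b2
  have p2 : d.π (b 2) = g 2 := by rw [hb2]; exact c2
  have p3 : d.π (b 3) = 0 := by rw [hb3]; exact b3
  have p4 : d.π (b 4) = g 3 := by rw [hb4]; exact c3
  have sw := alt_swap d.B_alt
  refine ⟨b, p ∘ₗ (d.B (g 0)) ∘ₗ d.π, p ∘ₗ (d.B (g 1)) ∘ₗ d.π, fun x => ?_, fun x => ?_, ?_⟩
  · show d.ι (p (d.B (g 0) (d.π x))) ∈ d.K x
    rw [d.eq_ι hp (h0 _)]; exact d.hB _ _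
  · show d.ι (p (d.B (g 1) (d.π x))) ∈ d.K x
    rw [d.eq_ι hp (h1 _)]; exact d.hB _ _
  · constructor
    · show p (d.B (g 0) (d.π (b 0))) = 0
      rw [p0, d.B_alt, map_zero]
    · show p (d.B (g 0) (d.π (b 1))) = b 0
      rw [p1, hb0]
    · show p (d.B (g 0) (d.π (b 2))) = b 1
      rw [p2, hb1]
    · show p (d.B (g 0) (d.π (b 3))) = 0
      rw [p3, map_zero, map_zero]
    · show p (d.B (g 0) (d.π (b 4))) = b 3
      rw [p4, hb3]
    · show p (d.B (g 1) (d.π (b 0))) = - b 0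
      rw [p0, hb0, sw, map_neg]
    · show p (d.B (g 1) (d.π (b 1))) = 0
      rw [p1, d.B_alt, map_zero]
    · show p (d.B (g 1) (d.π (b 2))) = b 2
      rw [p2, hb2]
    · show p (d.B (g 1) (d.π (b 3))) = 0
      rw [p3, map_zero, map_zero]
    · show p (d.B (g 1) (d.π (b 4))) = b 4
      rw [p4, hb4]

theorem YS.R2_R6 (d : YS N F) {p : F →ₗ[ℂ] V5} (hp : ∀ v, p (d.ι v) = v)
    {e : Module.Basis (Fin 4) ℂ N} (hs : Rk2 d.c e) (h6 : R6 d.B e) {m0 m1 : F}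
    (hm0 : ∀ v x, d.D p v (e 0) x = -(d.c v x • m0))
    (hm1 : ∀ v x, d.D p v (e 1) x = -(d.c v x • m1)) :
    ∃ (b : Module.Basis (Fin 5) ℂ V5) (E W : V5 →ₗ[ℂ] V5), (∀ x, d.ι (E x) ∈ d.K x) ∧
      (∀ x, d.ι (W x) ∈ d.K x) ∧ Fm1 b E W := by
  have sw := alt_swap d.B_alt
  have hβ0 : ∀ x, d.β p x x = 0 := by
    intro x
    rw [d.β_apply, d.B_alt, map_zero, map_zero]
  have sb := alt_swap hβ0
  have star : ∀ x, d.B (e 1) (d.β p (e 0) x) - d.B (e 0) (d.β p (e 1) x) -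
      d.B x (d.β p (e 0) (e 1)) = 0 := by
    intro x
    have h := hm0 (e 1) x
    rw [hs.h1, zero_smul, neg_zero] at h
    unfold YS.D at h
    rw [sb x (e 1), sb (e 1) (e 0), map_neg, map_neg] at h
    rw [← h]; abel
  set w := d.β p (e 0) (e 1) with hw
  have w2 : e.repr w 2 = 0 := by
    have h := (star_coef d.B_alt e h6 _ _ _ _ (star (e 3))).2.2.2.2.2
    simpa using h
  have w3 : e.repr w 3 = 0 := by
    have h := (star_coef d.B_alt e h6 _ _ _ _ (star (e 2))).2.2.2.2.2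
    simpa using h
  set w0 := e.repr w 0 with hw0
  set w1 := e.repr w 1 with hw1
  have hwe : w = w0 • e 0 + w1 • e 1 := by
    have h := e.sum_repr w
    rw [Fin.sum_univ_four, w2, w3] at h
    rw [← h, hw0, hw1]; simp
  have hne : ¬ (w0 = 0 ∧ w1 = 0) := by
    rintro ⟨h0, h1⟩
    have hc := fun x => star_coef d.B_alt e h6 _ _ _ _ (star x)
    apply fun0 d hp e h6 hs.h0 hs.h1 2 w2
    · have h := (hc (e 2)).2.2.2.1
      rw [← hw1, h1, w2] at h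
      simpa using h
    · have h := (hc (e 3)).2.2.2.1
      rw [← hw1, h1, w2] at h
      simpa using h
    · have h := (hc (e 2)).2.1
      rw [← hw0, h0, w2] at h
      simpa using h
    · have h := (hc (e 3)).2.1
      rw [← hw0, h0, w2] at h
      simpa using h
  obtain ⟨s, t, hst⟩ : ∃ s t : ℂ, w0 * t - w1 * s = 1 := by
    by_cases h0 : w0 = 0
    · have h1 : w1 ≠ 0 := fun h1 => hne ⟨h0, h1⟩
      exact ⟨-w1⁻¹, 0, by field_simp; ring⟩
    · exact ⟨0, w0⁻¹, by field_simp; ring⟩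
  -- the basis `g = (r1, r2, e2, e3)`
  obtain ⟨g, hg⟩ := mkb e ![w, s • e 0 + t • e 1, e 2, e 3] (by
    intro i
    fin_cases i
    · refine ⟨![t, -w1, 0, 0], ?_⟩
      simp only [Matrix.cons_val, hwe]
      show e 0 = _
      have : e 0 = (w0 * t - w1 * s) • e 0 := by rw [hst, one_smul]
      conv_lhs => rw [this]
      module
    · refine ⟨![-s, w0, 0, 0], ?_⟩
      simp only [Matrix.cons_val, hwe]
      show e 1 = _
      have : e 1 = (w0 * t - w1 * s) • e 1 := by rw [hst, one_smul]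
      conv_lhs => rw [this]
      module
    · exact ⟨![0, 0, 1, 0], by simp⟩
    · exact ⟨![0, 0, 0, 1], by simp⟩)
  have g0 : g 0 = w := hg 0
  have g1 : g 1 = s • e 0 + t • e 1 := hg 1
  have gc0 : ∀ x, d.c (g 0) x = 0 := by
    intro x
    rw [g0, hwe, map_add, map_smul, map_smul, LinearMap.add_apply, LinearMap.smul_apply,
      LinearMap.smul_apply, hs.h0, hs.h1]
    simp
  have gc1 : ∀ x, d.c (g 1) x = 0 := by
    intro x
    rw [g1, map_add, map_smul, map_smul, LinearMap.add_apply, LinearMap.smul_apply,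
      LinearMap.smul_apply, hs.h0, hs.h1]
    simp
  have ga : d.β p (g 0) (g 1) = g 0 := by
    rw [g0, g1]
    conv_lhs => rw [hwe]
    simp only [map_add, map_smul, LinearMap.add_apply, LinearMap.smul_apply, hβ0]
    rw [sb (e 1) (e 0), ← hw]
    have : w = (w0 * t - w1 * s) • w := by rw [hst, one_smul]
    conv_rhs => rw [this]
    module
  have gstar : ∀ x, d.B (g 1) (d.β p (g 0) x) - d.B (g 0) (d.β p (g 1) x) -
      d.B x (d.β p (g 0) (g 1)) = 0 := by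
    intro x
    rw [ga]
    have h := star x
    rw [g1, g0]
    have h8 : d.B (s • e 0 + t • e 1) (d.β p w x) - d.B w (d.β p (s • e 0 + t • e 1) x) =
        (w0 * t - w1 * s) • (d.B (e 1) (d.β p (e 0) x) - d.B (e 0) (d.β p (e 1) x)) := by
      rw [hwe]
      simp only [map_add, map_smul, LinearMap.add_apply, LinearMap.smul_apply]
      module
    rw [h8, hst, one_smul]
    exact h
  have g6 := h6.any d.B_alt g
  -- eigenvectors
  have hz : ∀ k : Fin 4, (k = 2 ∨ k = 3) → ∃ z0 z1 : ℂ,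
      d.β p (g 1) (g k) = z0 • g 0 + z1 • g 1 + g k := by
    intro k hk
    have hc := star_coef d.B_alt g g6 _ _ _ _ (gstar (g k))
    rw [ga] at hc
    refine ⟨g.repr (d.β p (g 1) (g k)) 0, g.repr (d.β p (g 1) (g k)) 1, ?_⟩
    have h := g.sum_repr (d.β p (g 1) (g k))
    rw [Fin.sum_univ_four] at h
    have h2 := hc.2.1
    have h3 := hc.2.2.1
    rcases hk with rfl | rfl
    · simp at h2 h3
      have h2' : g.repr (d.β p (g 1) (g 2)) 2 = 1 := by linear_combination h2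
      rw [h2', h3] at h
      rw [← h]; simp
    · simp at h2 h3
      have h3' : g.repr (d.β p (g 1) (g 3)) 3 = 1 := by linear_combination h3
      rw [h3', h2] at h
      rw [← h]; simp
  obtain ⟨z20, z21, hz2⟩ := hz 2 (Or.inl rfl)
  obtain ⟨z30, z31, hz3⟩ := hz 3 (Or.inr rfl)
  obtain ⟨f, hf⟩ := mkb g ![g 0, g 1, (z20 / 2) • g 0 + z21 • g 1 + g 2,
      (z30 / 2) • g 0 + z31 • g 1 + g 3] (by
    intro i
    fin_cases i
    · exact ⟨![1, 0, 0, 0], by simp⟩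
    · exact ⟨![0, 1, 0, 0], by simp⟩
    · refine ⟨![-(z20 / 2), -z21, 1, 0], ?_⟩
      simp only [Matrix.cons_val]
      show g 2 = _
      module
    · refine ⟨![-(z30 / 2), -z31, 0, 1], ?_⟩
      simp only [Matrix.cons_val]
      show g 3 = _
      module)
  have f0 : f 0 = g 0 := hf 0
  have f1 : f 1 = g 1 := hf 1
  have f2 : f 2 = (z20 / 2) • g 0 + z21 • g 1 + g 2 := hf 2
  have f3 : f 3 = (z30 / 2) • g 0 + z31 • g 1 + g 3 := hf 3
  have ga' : d.β p (g 1) (g 0) = - g 0 := by rw [sb, ga]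
  have fc2 : d.β p (f 1) (f 2) = f 2 := by
    rw [f1, f2]
    simp only [map_add, map_smul, hβ0, ga', hz2]
    module
  have fc3 : d.β p (f 1) (f 3) = f 3 := by
    rw [f1, f3]
    simp only [map_add, map_smul, hβ0, ga', hz3]
    module
  have f6 := h6.any d.B_alt f
  have fa : d.β p (f 0) (f 1) = f 0 := by rw [f0, f1, ga]
  have fstar : ∀ x, d.B (f 1) (d.β p (f 0) x) - d.B (f 0) (d.β p (f 1) x) -
      d.B x (d.β p (f 0) (f 1)) = 0 := by
    rw [f0, f1]; exact gstar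
  have hk : ∀ k : Fin 4, (k = 2 ∨ k = 3) → ∃ c : ℂ, d.β p (f 0) (f k) = c • f 1 := by
    intro k hk
    have hc := star_coef d.B_alt f f6 _ _ _ _ (fstar (f k))
    rw [fa] at hc
    refine ⟨f.repr (d.β p (f 0) (f k)) 1, ?_⟩
    have h := f.sum_repr (d.β p (f 0) (f k))
    rw [Fin.sum_univ_four] at h
    have h1 := hc.1
    have h4 := hc.2.2.2.1
    have h5 := hc.2.2.2.2.1
    rcases hk with rfl | rfl
    · rw [fc2] at h1
      simp at h1 h4 h5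
      rw [h1, h4, h5] at h
      rw [← h]; simp
    · rw [fc3] at h1
      simp at h1 h4 h5
      rw [h1, h4, h5] at h
      rw [← h]; simp
  obtain ⟨k2, hk2⟩ := hk 2 (Or.inl rfl)
  obtain ⟨k3, hk3⟩ := hk 3 (Or.inr rfl)
  have fc0' : ∀ x, d.c (f 0) x = 0 := by rw [f0]; exact gc0
  have fc1' : ∀ x, d.c (f 1) x = 0 := by rw [f1]; exact gc1
  have hkne : ¬ (k2 = 0 ∧ k3 = 0) := by
    rintro ⟨h2, h3⟩
    apply fun0 d hp f f6 fc0' fc1' 1
    · rw [fa]; simp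
    · rw [hk2, h2]; simp
    · rw [hk3, h3]; simp
    · rw [fc2]; simp
    · rw [fc3]; simp
  by_cases h2 : k2 = 0
  · have h3 : k3 ≠ 0 := fun h3 => hkne ⟨h2, h3⟩
    obtain ⟨r, hr⟩ := mkb f ![f 0, f 1, k3⁻¹ • f 3, f 2] (by
      intro i
      fin_cases i
      · exact ⟨![1, 0, 0, 0], by simp⟩
      · exact ⟨![0, 1, 0, 0], by simp⟩
      · exact ⟨![0, 0, 0, 1], by simp⟩
      · refine ⟨![0, 0, k3, 0], ?_⟩
        simp [smul_smul, h3])
    have r0 : r 0 = f 0 := hr 0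
    have r1 : r 1 = f 1 := hr 1
    have r2 : r 2 = k3⁻¹ • f 3 := hr 2
    have r3 : r 3 = f 2 := hr 3
    refine fin_R6 d hp r (h6.any d.B_alt r) (by rw [r0]; exact fc0') (by rw [r1]; exact fc1')
      (by rw [r0, r1, fa]) ?_ ?_ ?_ ?_
    · rw [r0, r2, r1, map_smul, hk3, smul_smul, inv_mul_cancel₀ h3, one_smul]
    · rw [r0, r3, hk2, h2, zero_smul]
    · rw [r1, r2, map_smul, fc3]
    · rw [r1, r3, fc2]
  · obtain ⟨r, hr⟩ := mkb f ![f 0, f 1, k2⁻¹ • f 2, f 3 - (k3 / k2) • f 2] (by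
      intro i
      fin_cases i
      · exact ⟨![1, 0, 0, 0], by simp⟩
      · exact ⟨![0, 1, 0, 0], by simp⟩
      · refine ⟨![0, 0, k2, 0], ?_⟩
        simp [smul_smul, h2]
      · refine ⟨![0, 0, k3, 1], ?_⟩
        simp only [Matrix.cons_val]
        show f 3 = _
        module)
    have r0 : r 0 = f 0 := hr 0
    have r1 : r 1 = f 1 := hr 1
    have r2 : r 2 = k2⁻¹ • f 2 := hr 2
    have r3 : r 3 = f 3 - (k3 / k2) • f 2 := hr 3
    refine fin_R6 d hp r (h6.any d.B_alt r) (by rw [r0]; exact fc0') (by rw [r1]; exact fc1')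
      (by rw [r0, r1, fa]) ?_ ?_ ?_ ?_
    · rw [r0, r2, r1, map_smul, hk2, smul_smul, inv_mul_cancel₀ h2, one_smul]
    · rw [r0, r3, map_sub, map_smul, hk2, hk3, smul_smul, div_mul_cancel₀ _ h2, sub_self]
    · rw [r1, r2, map_smul, fc2]
    · rw [r1, r3, map_sub, map_smul, fc2, fc3]

end Pool.Agent.Helper12.Z4
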