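import Pool.Agent.Helper12.Z4.Rank
import Pool.Agent.Helper28.Z4.Div

/-! Z4-Fx: facts about `θ : F2 5` with `dim EE θ 3 = 6` in the form used by the structure `YS`.
* `quad_K`: `ξ := κ(x, .)` is a 1-form with linear coefficients, `ξ ∧ θ = 0` at general `x` because `θ_x` is decomposable and `ξ_x` vanishes on its kernel
  `{v : a_v(x) = 0}`; so `ξ ∈ EE θ 1 = ⊥`.
* `noU_K`: at general `x` (`finrank_KX`) `dim KX θ x = 4`, so the values at `x` of `U` span a line: all `w11 f f'`, `f, f' ∈ U`, vanish at general points, so they are 0: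
  `prop_no`.
* `nodiv_K`: helper28's `div_no` with `e k = av θ (Pi.single k 1)`, `X i k` the linear form `x ↦ (X i x) k`, `y i` the linear form; `y 3 ∤ y 0` because they are
  independent; a minor of `X 0 x, X 1 x, X 2 x` is not zero. -/

set_option autoImplicit false

namespace Pool.Agent.Helper12.Z4

open MvPolynomial
open scoped BigOperators
open Pool.Agent.Helper71.FL (w12 pf ct Dec Closed dd at0 emb res)
open Pool.Agent.Helper93 (lsub lmap OF pb)
open Pool.Agent.Helper71.FC

/-- the polynomial of a linear form -/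
private noncomputable def lp {n : ℕ} (f : (Fin n → ℂ) →ₗ[ℂ] ℂ) : Pn n :=
  ∑ i, C (f (Pi.single i 1)) * X i

private theorem eval_lp {n : ℕ} (f : (Fin n → ℂ) →ₗ[ℂ] ℂ) (x : Fin n → ℂ) :
    eval x (lp f) = f x := by
  unfold lp
  conv_rhs => rw [← Finset.univ_sum_single x]
  rw [map_sum, map_sum]
  refine Finset.sum_congr rfl fun i _ => ?_
  have h1 : (Pi.single i (x i) : Fin n → ℂ) = x i • Pi.single i (1 : ℂ) := by
    rw [← Pi.single_smul, smul_eq_mul, mul_one]
  rw [h1, map_smul, map_mul, eval_C, eval_X, smul_eq_mul, mul_comm]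

private theorem lp_hom {n : ℕ} (f : (Fin n → ℂ) →ₗ[ℂ] ℂ) : (lp f).IsHomogeneous 1 := by
  refine IsHomogeneous.sum _ _ _ fun i _ => ?_
  have := (isHomogeneous_C (Fin n) (f (Pi.single i 1))).mul (isHomogeneous_X ℂ i)
  simpa using this

private theorem zero_of_gen {n : ℕ} {P : Pn n} (h : Gen (fun x : Fin n → ℂ => eval x P = 0)) :
    P = 0 := by
  obtain ⟨F, hF, h⟩ := h
  have h1 : P * F = 0 := by
    refine MvPolynomial.funext fun x => ?_
    rw [map_mul, map_zero]
    by_cases hx : eval x F = 0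
    · rw [hx, mul_zero]
    · rw [h x hx, zero_mul]
  exact (mul_eq_zero.mp h1).resolve_right hF

private theorem av_apply {n : ℕ} (θ : F2 n) (v : Fin n → ℂ) (j : Fin n) :
    av θ v j = ∑ i, C (v i) * θ i j := rfl

theorem quad_K {n : ℕ} {θ : F2 n} (h : Fol θ) (h1 : EE θ 1 = ⊥)
    (κ : (Fin n → ℂ) →ₗ[ℂ] (Fin n → ℂ) →ₗ[ℂ] ℂ)
    (hκ : Gen (fun x : Fin n → ℂ => ∀ v, avE θ h v ∈ KX θ x → κ x v = 0)) : κ = 0 := by
  set ξ : F1 n := fun j => lp (κ.flip (Pi.single j 1)) with hξ
  have hev : ∀ (x : Fin n → ℂ) (j : Fin n), eval x (ξ j) = κ x (Pi.single j 1) :=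
    fun x j => eval_lp _ _
  have hw : ∀ i j l, w12 ξ θ i j l = 0 := by
    intro i j l
    refine zero_of_gen (Gen.mono hκ fun x hx => ?_)
    set v : Fin n → ℂ := eval x (θ j l) • (Pi.single i (1 : ℂ) : Fin n → ℂ) +
      eval x (θ l i) • (Pi.single j (1 : ℂ) : Fin n → ℂ) +
      eval x (θ i j) • (Pi.single l (1 : ℂ) : Fin n → ℂ) with hv
    have hvK : avE θ h v ∈ KX θ x := by
      rw [mem_KX]
      intro m
      rw [avE_coe, av_apply, map_sum]
      have h3 : ∀ a : Fin n, eval x (C (v a) * θ a m) =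
          eval x (θ j l) * ((Pi.single i (1 : ℂ) : Fin n → ℂ) a * eval x (θ a m)) +
          eval x (θ l i) * ((Pi.single j (1 : ℂ) : Fin n → ℂ) a * eval x (θ a m)) +
          eval x (θ i j) * ((Pi.single l (1 : ℂ) : Fin n → ℂ) a * eval x (θ a m)) := by
        intro a
        rw [map_mul, eval_C, hv]
        simp only [Pi.add_apply, Pi.smul_apply, smul_eq_mul]
        ring
      have h4 : ∀ b : Fin n, ∑ a, (Pi.single b (1 : ℂ) : Fin n → ℂ) a * eval x (θ a m) =
          eval x (θ b m) := by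
        intro b
        rw [Finset.sum_eq_single b]
        · rw [Pi.single_eq_same, one_mul]
        · intro a _ ha
          rw [Pi.single_eq_of_ne ha, zero_mul]
        · intro hb; exact absurd (Finset.mem_univ _) hb
      rw [Finset.sum_congr rfl (fun a _ => h3 a), Finset.sum_add_distrib, Finset.sum_add_distrib,
        ← Finset.mul_sum, ← Finset.mul_sum, ← Finset.mul_sum, h4, h4, h4]
      have hp := congrArg (eval x) (h.dec.2.2 i j l m)
      unfold pf at hp
      rw [map_add, map_sub, map_mul, map_mul, map_mul, map_zero] at hp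
      have hs := congrArg (eval x) (h.dec.2.1 l i)
      rw [map_neg] at hs
      rw [hs]
      linear_combination hp
    have h5 := hx v hvK
    rw [hv, map_add, map_add, map_smul, map_smul, map_smul] at h5
    show eval x (ξ i * θ j l + ξ j * θ l i + ξ l * θ i j) = 0
    rw [map_add, map_add, map_mul, map_mul, map_mul, hev, hev, hev]
    simp only [smul_eq_mul] at h5
    linear_combination h5
  have hmem : ξ ∈ EE θ 1 := ⟨fun i => lp_hom _, hw⟩
  rw [h1, Submodule.mem_bot] at hmem
  refine LinearMap.ext fun x => ?_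
  refine LinearMap.pi_ext' fun j => ?_
  refine LinearMap.ext_ring ?_
  have h6 := hev x j
  rw [hmem] at h6
  show κ x (Pi.single j 1) = 0
  rw [← h6]
  exact map_zero _

private theorem dep {k E : Type} [Field k] [AddCommGroup E] [Module k E] [Module.Finite k E]
    (K U : Submodule k E) (hKU : K ≤ U) (h : Module.finrank k U ≤ Module.finrank k K + 1)
    {f f' : E} (hf : f ∈ U) (hf' : f' ∈ U) :
    ∃ c c' : k, (c ≠ 0 ∨ c' ≠ 0) ∧ c • f + c' • f' ∈ K := by
  have hdim : Module.finrank k (U.map K.mkQ) ≤ 1 := by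
    have e1 := LinearMap.finrank_range_add_finrank_ker (K.mkQ.domRestrict U)
    have e2 : LinearMap.range (K.mkQ.domRestrict U) = U.map K.mkQ :=
      LinearMap.range_domRestrict U K.mkQ
    have e3 : Module.finrank k (LinearMap.ker (K.mkQ.domRestrict U)) = Module.finrank k K := by
      have e4 : LinearMap.ker (K.mkQ.domRestrict U) = K.comap U.subtype := by
        ext y
        rw [LinearMap.mem_ker, Submodule.mem_comap]
        show K.mkQ (y : E) = 0 ↔ _
        rw [Submodule.mkQ_apply, Submodule.Quotient.mk_eq_zero]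
        rfl
      rw [e4]
      exact (Submodule.comapSubtypeEquivOfLe hKU).finrank_eq
    rw [e2, e3] at e1
    omega
  obtain ⟨v, hv⟩ := finrank_le_one_iff.mp hdim
  obtain ⟨c, hc⟩ := hv ⟨K.mkQ f, Submodule.mem_map_of_mem hf⟩
  obtain ⟨c', hc'⟩ := hv ⟨K.mkQ f', Submodule.mem_map_of_mem hf'⟩
  have hc1 : c • (v : E ⧸ K) = K.mkQ f := congrArg Subtype.val hc
  have hc1' : c' • (v : E ⧸ K) = K.mkQ f' := congrArg Subtype.val hc'
  by_cases h0 : c = 0
  · refine ⟨1, 0, Or.inl one_ne_zero, ?_⟩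
    rw [h0, zero_smul] at hc1
    have := hc1.symm
    rw [Submodule.mkQ_apply, Submodule.Quotient.mk_eq_zero] at this
    rw [one_smul, zero_smul, add_zero]
    exact this
  · refine ⟨c', - c, Or.inr (neg_ne_zero.mpr h0), ?_⟩
    have e5 : K.mkQ (c' • f + (- c) • f') = 0 := by
      rw [map_add, map_smul, map_smul, ← hc1, ← hc1', smul_smul, smul_smul, ← add_smul]
      have : c' * c + - c * c' = 0 := by ring
      rw [this, zero_smul]
    rw [Submodule.mkQ_apply, Submodule.Quotient.mk_eq_zero] at e5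
    exact e5

private theorem exists_pair {k E M : Type} [Field k] [AddCommGroup E] [Module k E]
    [Module.Finite k E] [AddCommGroup M] [Module k M] (φ : E →ₗ[k] M) (hφ : Function.Injective φ)
    (U : Submodule k E) (h : 2 ≤ Module.finrank k U) :
    ∃ f ∈ U, ∃ f' ∈ U, LinearIndependent k ![φ f, φ f'] := by
  obtain ⟨g, hg⟩ := exists_linearIndependent_of_le_finrank h
  have e2 := hg.map' (φ ∘ₗ U.subtype) (by
    rw [LinearMap.ker_eq_bot]
    exact hφ.comp Subtype.val_injective)
  refine ⟨g 0, (g 0).2, g 1, (g 1).2, ?_⟩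
  have e3 : (φ ∘ₗ U.subtype) ∘ g = ![φ (g 0 : E), φ (g 1 : E)] := by
    funext i
    fin_cases i <;> rfl
  rw [← e3]
  exact e2

theorem noU_K {n : ℕ} {θ : F2 n} (h : Fol θ) (h2 : ∀ k ≤ 2, EE θ k = ⊥)
    (h6 : Module.finrank ℂ (EE θ 3) = 6) (U : Submodule ℂ (EE θ 3))
    (hU : Module.finrank ℂ U = 5) : ¬ Gen (fun x : Fin n → ℂ => KX θ x ≤ U) := by
  intro hg
  have hfin : Module.Finite ℂ (EE θ 3) := finite_EE θ 3
  have hgen := Gen.and hg (finrank_KX h)
  have key : ∀ f ∈ U, ∀ f' ∈ U, ∀ i j, w11 (f : F1 n) (f' : F1 n) i j = 0 := by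
    intro f hf f' hf' i j
    refine zero_of_gen (Gen.mono hgen fun x hx => ?_)
    obtain ⟨hxU, hx4⟩ := hx
    obtain ⟨c, c', hcc, hrel⟩ := dep (KX θ x) U hxU (by omega) hf hf'
    have hval : ∀ m, c * eval x ((f : F1 n) m) + c' * eval x ((f' : F1 n) m) = 0 := by
      intro m
      have e6 := mem_KX.mp hrel m
      have e7 : ((c • f + c' • f' : EE θ 3) : F1 n) m =
          C c * (f : F1 n) m + C c' * (f' : F1 n) m := by
        show c • (f : F1 n) m + c' • (f' : F1 n) m = _
        rw [smul_eq_C_mul, smul_eq_C_mul]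
      rw [e7, map_add, map_mul, map_mul, eval_C, eval_C] at e6
      exact e6
    show eval x ((f : F1 n) i * (f' : F1 n) j - (f : F1 n) j * (f' : F1 n) i) = 0
    rw [map_sub, map_mul, map_mul]
    rcases hcc with hc | hc
    · apply mul_left_cancel₀ hc
      rw [mul_zero]
      linear_combination (eval x ((f' : F1 n) j)) * hval i - (eval x ((f' : F1 n) i)) * hval j
    · apply mul_left_cancel₀ hc
      rw [mul_zero]
      linear_combination (eval x ((f : F1 n) i)) * hval j - (eval x ((f : F1 n) j)) * hval i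
  obtain ⟨f, hf, f', hf', hli⟩ := exists_pair (EE θ 3).subtype Subtype.val_injective U
    (by rw [hU]; norm_num)
  exact prop_no h h2 f.2 f'.2 hli (key _ hf _ hf')

theorem nodiv_K {θ : F2 5} (h : Fol θ) (y : Fin 4 → ((Fin 5 → ℂ) →ₗ[ℂ] ℂ))
    (hy : LinearIndependent ℂ y) (X : Fin 4 → ((Fin 5 → ℂ) →ₗ[ℂ] (Fin 5 → ℂ)))
    (hX : ∀ i x, avE θ h (X i x) ∈ KX θ x) (hs : ∀ x, ∑ i, y i x • X i x = 0)
    (hr : ∃ x, LinearIndependent ℂ ![X 0 x, X 1 x, X 2 x]) : False := by
  have hav1 : ∀ k j, av θ (Pi.single k 1) j = θ k j := by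
    intro k j
    rw [av_apply, Finset.sum_eq_single k]
    · rw [Pi.single_eq_same, C_1, one_mul]
    · intro a _ ha
      rw [Pi.single_eq_of_ne ha, C_0, zero_mul]
    · intro hb; exact absurd (Finset.mem_univ _) hb
  have h3 : y 3 ≠ 0 := hy.ne_zero 3
  have hev : ∀ (x : Fin 5 → ℂ) (i : Fin 4) (k : Fin 5),
      eval x (lp ((LinearMap.proj k : (Fin 5 → ℂ) →ₗ[ℂ] ℂ) ∘ₗ X i)) = X i x k :=
    fun x i k => eval_lp _ _
  refine Pool.Agent.Helper28.Z4.div_no h (fun k => av θ (Pi.single k 1))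
    (fun k => av_mem_EE h.dec h.hom _) ?_ (fun i => lp (y i)) (fun i => lp_hom _) ?_ ?_
    (fun i k => lp ((LinearMap.proj k : (Fin 5 → ℂ) →ₗ[ℂ] ℂ) ∘ₗ X i)) (fun i k => lp_hom _) ?_ ?_ ?_
  · intro v
    refine ⟨v, ?_⟩
    funext j
    rw [av_apply, Finset.sum_apply]
    refine Finset.sum_congr rfl fun k _ => ?_
    rw [Pi.smul_apply, smul_eq_C_mul, hav1]
  · intro h0
    apply h3
    refine LinearMap.ext fun x => ?_
    rw [← eval_lp (y 3) x, h0]
    exact map_zero _
  · rintro ⟨p, hp⟩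
    obtain ⟨x0, hx0⟩ : ∃ x0, y 3 x0 ≠ 0 := by
      by_contra hcon
      push Not at hcon
      exact h3 (LinearMap.ext hcon)
    have hker : ∀ x, y 3 x = 0 → y 0 x = 0 := by
      intro x hx
      rw [← eval_lp (y 0) x, hp, map_mul, eval_lp, hx, zero_mul]
    have hrel : ∀ x, y 0 x = (y 0 x0 / y 3 x0) * y 3 x := by
      intro x
      have e1 : y 3 (x - (y 3 x / y 3 x0) • x0) = 0 := by
        rw [map_sub, map_smul, smul_eq_mul]
        field_simp
        ring
      have e2 := hker _ e1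
      rw [map_sub, map_smul, smul_eq_mul] at e2
      have e3 : y 0 x = (y 3 x / y 3 x0) * y 0 x0 := by linear_combination e2
      rw [e3]
      field_simp
    rw [Fintype.linearIndependent_iff] at hy
    have e4 := hy ![1, 0, 0, - (y 0 x0 / y 3 x0)] (by
      refine LinearMap.ext fun x => ?_
      rw [Fin.sum_univ_four]
      simp only [Matrix.cons_val_zero, Matrix.cons_val_one, Matrix.cons_val, LinearMap.add_apply,
        LinearMap.smul_apply, smul_eq_mul, LinearMap.zero_apply]
      rw [hrel x]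
      ring) 0
    exact one_ne_zero e4
  · intro i j
    refine MvPolynomial.funext fun x => ?_
    rw [map_sum, map_zero]
    have e1 := mem_KX.mp (hX i x) j
    rw [avE_coe, av_apply, map_sum] at e1
    rw [← e1]
    refine Finset.sum_congr rfl fun k _ => ?_
    rw [map_mul, map_mul, hev, hav1, eval_C]
  · intro k
    refine MvPolynomial.funext fun x => ?_
    rw [map_sum, map_zero]
    have e1 := congrFun (hs x) k
    rw [Finset.sum_apply] at e1
    rw [Pi.zero_apply] at e1
    rw [← e1]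
    refine Finset.sum_congr rfl fun i _ => ?_
    rw [map_mul, hev, eval_lp, Pi.smul_apply, smul_eq_mul]
  · obtain ⟨x, hx⟩ := hr
    have hV : LinearIndependent ℂ (fun l : Fin 3 => X l.castSucc x) := by
      convert hx using 1
      funext l
      fin_cases l <;> rfl
    obtain ⟨p, hp⟩ := Pool.Agent.Helper28.Z4.exists_mins hV
    refine ⟨p, fun h0 => hp ?_⟩
    have h1 := Pool.Agent.Helper1.FG.alp_map
      (fun l : Fin 3 => fun k => lp ((LinearMap.proj k : (Fin 5 → ℂ) →ₗ[ℂ] ℂ) ∘ₗ X l.castSucc))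
      (eval x) (Pi.single p.1 1) (Pi.single p.2 1)
    have h2 : ∀ i : Fin 5, (fun j => eval x ((Pi.single i 1 : Fin 5 → Pn 5) j)) =
        (Pi.single i 1 : Fin 5 → ℂ) := by
      intro i
      funext j
      by_cases hij : j = i
      · subst hij
        simp
      · simp [hij]
    have h4 : (fun (l : Fin 3) (i : Fin 5) => eval x (lp ((LinearMap.proj i : (Fin 5 → ℂ) →ₗ[ℂ] ℂ) ∘ₗ
        X l.castSucc))) = fun (l : Fin 3) => X l.castSucc x := by
      funext l i
      exact hev x _ i
    rw [h2, h2, h4] at h1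
    show Pool.Agent.Helper1.FG.alp _ _ _ = 0
    rw [h1]
    have h5 : Pool.Agent.Helper1.FG.alp (fun l : Fin 3 => fun k =>
        lp ((LinearMap.proj k : (Fin 5 → ℂ) →ₗ[ℂ] ℂ) ∘ₗ X l.castSucc)) (Pi.single p.1 1)
        (Pi.single p.2 1) = 0 := h0
    rw [h5, map_zero]

end Pool.Agent.Helper12.Z4
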