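import Pool.Agent.Helper12.Z4.Rank
import Pool.Agent.Helper50.FC.Point

/-! Z4-Pt: POINT and TANG for linear relations.  `q : EE θ 3 → ℂ` has kernel `{a_v}`.
* `point_K`: if `q = 0` every `f` is an `a_v`; otherwise choose `τ` with `q τ = 1` and a retraction `p` with `f = a_(p f) + q(f) τ`.  `X` becomes the linear field
  `x ↦ p (X x)` with the linear form `x ↦ q (X x)`: `i_X θ + q τ = 0` (polynomial identity, `MvPolynomial.funext`).  `Helper50.FC.point` (with `pair_zero`) at `x`, where both linear forms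
  vanish: `a_w(x) = (q (X u') - q (X' u)) τ(x)`, `w = p (X' u) - p (X u')` the value of the commutator at `x`; so `(X' u - X u')(x) = 0`.
* `tang_K`: `τ` with `q τ = 1`, `p τ = 0`, `m := ct Y (dd τ) ∈ EE θ 3` (`ctdd_mem`; degree `1 + 2`), `point` with `q' = 0`:
  `a_w(x) = q (X (Y x)) τ(x) + q (X x) m(x)`, `w = Y (p (X x)) - p (X (Y x))`. -/

set_option autoImplicit false

namespace Pool.Agent.Helper12.Z4

open MvPolynomial
open scoped BigOperators
open Pool.Agent.Helper71.FL (w12 pf ct Dec Closed dd at0 emb res)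
open Pool.Agent.Helper93 (lsub lmap OF pb)
open Pool.Agent.Helper71.FC

variable {n : ℕ}

/-- the linear polynomial of a linear functional -/
private noncomputable def lp (L : (Fin n → ℂ) →ₗ[ℂ] ℂ) : Pn n := ∑ i, C (L (Pi.single i 1)) * X i

private theorem eval_lp (L : (Fin n → ℂ) →ₗ[ℂ] ℂ) (x : Fin n → ℂ) : eval x (lp L) = L x := by
  unfold lp
  rw [map_sum]
  have h1 : x = ∑ i, x i • (Pi.single i 1 : Fin n → ℂ) := by
    funext j
    rw [Finset.sum_apply, Finset.sum_eq_single j]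
    · simp
    · intro i _ hi
      rw [Pi.smul_apply, Pi.single_eq_of_ne (Ne.symm hi), smul_zero]
    · intro h
      exact absurd (Finset.mem_univ _) h
  conv_rhs => rw [h1]
  rw [map_sum]
  refine Finset.sum_congr rfl fun i _ => ?_
  rw [map_mul, eval_C, eval_X, map_smul, smul_eq_mul, mul_comm]

private theorem pderiv_lp (L : (Fin n → ℂ) →ₗ[ℂ] ℂ) (j : Fin n) :
    pderiv j (lp L) = C (L (Pi.single j 1)) := by
  unfold lp
  rw [map_sum, Finset.sum_eq_single j]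
  · rw [pderiv_C_mul, pderiv_X_self, mul_one]
  · intro i _ hi
    rw [pderiv_C_mul, pderiv_X_of_ne hi, mul_zero]
  · intro h
    exact absurd (Finset.mem_univ _) h

/-- the linear vector field of a linear map -/
private noncomputable def fld (P : (Fin n → ℂ) →ₗ[ℂ] (Fin n → ℂ)) : F1 n :=
  fun i => lp ((LinearMap.proj i).comp P)

private theorem eval_fld (P : (Fin n → ℂ) →ₗ[ℂ] (Fin n → ℂ)) (x : Fin n → ℂ) (i : Fin n) :
    eval x (fld P i) = P x i := by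
  unfold fld
  rw [eval_lp]
  rfl

private theorem eval_dv (P : (Fin n → ℂ) →ₗ[ℂ] (Fin n → ℂ)) (L : (Fin n → ℂ) →ₗ[ℂ] ℂ)
    (x : Fin n → ℂ) : eval x (Pool.Agent.Helper50.FC.dv (fld P) (lp L)) = L (P x) := by
  unfold Pool.Agent.Helper50.FC.dv
  rw [map_sum]
  have h1 : ∑ j, eval x (fld P j * pderiv j (lp L)) = ∑ j, eval (P x) (C (L (Pi.single j 1)) * X j) := by
    refine Finset.sum_congr rfl fun j _ => ?_
    rw [map_mul, map_mul, pderiv_lp, eval_fld, eval_C, eval_C, eval_X, mul_comm]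
  rw [h1, ← map_sum]
  exact eval_lp L (P x)

private theorem eval_av (θ : F2 n) (v x : Fin n → ℂ) (j : Fin n) :
    eval x (av θ v j) = ∑ i, v i * eval x (θ i j) := by
  unfold av ct cv
  rw [map_sum]
  refine Finset.sum_congr rfl fun i _ => ?_
  rw [map_mul, eval_C]

private theorem eval_ctfld (θ : F2 n) (P : (Fin n → ℂ) →ₗ[ℂ] (Fin n → ℂ)) (y : Fin n → ℂ) (j : Fin n) :
    eval y (ct (fld P) θ j) = ∑ i, P y i * eval y (θ i j) := by
  unfold ct
  rw [map_sum]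
  refine Finset.sum_congr rfl fun i _ => ?_
  rw [map_mul, eval_fld]

private theorem ne_of_fol {θ : F2 n} (h : Fol θ) : ∃ i j, θ i j ≠ 0 := by
  by_contra hn
  push Not at hn
  have h1 := h.prim 0 (fun i j => by rw [hn i j])
  exact not_isUnit_zero h1

private theorem rel_poly {θ : F2 n} (h : Fol θ) (q : EE θ 3 →ₗ[ℂ] ℂ) (τ : EE θ 3)
    {X : (Fin n → ℂ) →ₗ[ℂ] EE θ 3} (hX : ∀ x, X x ∈ KX θ x)
    (P : (Fin n → ℂ) →ₗ[ℂ] (Fin n → ℂ)) (hP : ∀ y, X y = avE θ h (P y) + q (X y) • τ)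
    (j : Fin n) : ct (fld P) θ j + lp (q.comp X) * (τ : F1 n) j = 0 := by
  apply MvPolynomial.funext
  intro y
  rw [map_add, map_mul, eval_lp, map_zero]
  have h1 := hX y j
  have h2 : ((X y : EE θ 3) : F1 n) j = av θ (P y) j + q (X y) • (τ : F1 n) j :=
    congrFun (congrArg Subtype.val (hP y)) j
  rw [h2, map_add, eval_av, smul_eq_C_mul, map_mul, eval_C] at h1
  rw [eval_ctfld]
  exact h1

private theorem core {θ : F2 n} (h : Fol θ) (q : EE θ 3 →ₗ[ℂ] ℂ) (τ : EE θ 3)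
    {X X' : (Fin n → ℂ) →ₗ[ℂ] EE θ 3} (hX : ∀ x, X x ∈ KX θ x) (hX' : ∀ x, X' x ∈ KX θ x)
    (P P' : (Fin n → ℂ) →ₗ[ℂ] (Fin n → ℂ)) (hP : ∀ y, X y = avE θ h (P y) + q (X y) • τ)
    (hP' : ∀ y, X' y = avE θ h (P' y) + q (X' y) • τ) (x : Fin n → ℂ) (k : Fin n) :
    ∑ i, (P' (P x) i - P (P' x) i) * eval x (θ i k) =
      (q (X (P' x)) - q (X' (P x))) * eval x ((τ : F1 n) k) +
        q (X x) * eval x (ct (fld P') (dd (τ : F1 n)) k) -
        q (X' x) * eval x (ct (fld P) (dd (τ : F1 n)) k) := by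
  have e1 := rel_poly h q τ hX P hP
  have e2 := rel_poly h q τ hX' P' hP'
  have hτ := τ.2.2
  have p1 := Pool.Agent.Helper50.FC.pair_zero h.dec.1 h.dec.2.1 (ne_of_fol h) e1 hτ
  have p2 := Pool.Agent.Helper50.FC.pair_zero h.dec.1 h.dec.2.1 (ne_of_fol h) e2 hτ
  have h1 := congrArg (eval x)
    (Pool.Agent.Helper50.FC.point h.dec.1 h.dec.2.1 h.closed e1 e2 p1 p2 k)
  rw [map_sub, map_add, map_mul, map_mul, map_mul, map_sub, eval_lp, eval_lp] at h1
  rw [eval_dv, eval_dv] at h1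
  have h2 : eval x (ct (Pool.Agent.Helper50.FC.brk (fld P) (fld P')) θ k) =
      ∑ i, (P' (P x) i - P (P' x) i) * eval x (θ i k) := by
    unfold ct
    rw [map_sum]
    refine Finset.sum_congr rfl fun i _ => ?_
    rw [map_mul]
    congr 1
    unfold Pool.Agent.Helper50.FC.brk
    rw [map_sub]
    unfold fld
    have e3 := eval_dv P ((LinearMap.proj i).comp P') x
    have e4 := eval_dv P' ((LinearMap.proj i).comp P) x
    unfold fld at e3 e4
    rw [e3, e4]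
    rfl
  rw [h2] at h1
  exact h1

private theorem lift_at {θ : F2 n} (h : Fol θ) (q : EE θ 3 →ₗ[ℂ] ℂ) (τ : EE θ 3)
    (p : EE θ 3 →ₗ[ℂ] (Fin n → ℂ)) (hp : ∀ f, f = avE θ h (p f) + q f • τ)
    (X : (Fin n → ℂ) →ₗ[ℂ] EE θ 3) {x u : Fin n → ℂ} (hx : x ≠ 0) (hq : q (X x) = 0)
    (hu : X x = avE θ h u) :
    ∃ P : (Fin n → ℂ) →ₗ[ℂ] (Fin n → ℂ), (∀ y, X y = avE θ h (P y) + q (X y) • τ) ∧ P x = u := by
  obtain ⟨i, hi⟩ : ∃ i, x i ≠ 0 := by
    by_contra hn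
    push Not at hn
    exact hx (funext hn)
  refine ⟨p.comp X + ((x i)⁻¹ • LinearMap.proj i : (Fin n → ℂ) →ₗ[ℂ] ℂ).smulRight (u - p (X x)),
    ?_, ?_⟩
  · intro y
    have h1 : avE θ h (u - p (X x)) = 0 := by
      have h2 := hp (X x)
      rw [hq, zero_smul, add_zero] at h2
      rw [map_sub, ← h2, ← hu, sub_self]
    rw [LinearMap.add_apply, LinearMap.smulRight_apply, map_add, map_smul, h1, smul_zero, add_zero]
    exact hp (X y)
  · rw [LinearMap.add_apply, LinearMap.smulRight_apply, LinearMap.smul_apply]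
    have h1 : (LinearMap.proj i : (Fin n → ℂ) →ₗ[ℂ] ℂ) x = x i := rfl
    rw [h1, smul_eq_mul, inv_mul_cancel₀ hi, one_smul, LinearMap.comp_apply]
    abel

private theorem exists_lift {θ : F2 n} (h : Fol θ) (q : EE θ 3 →ₗ[ℂ] ℂ)
    (hq : ∀ f, q f = 0 ↔ ∃ v, avE θ h v = f) : ∃ (τ : EE θ 3) (p : EE θ 3 →ₗ[ℂ] (Fin n → ℂ)),
      ∀ f, f = avE θ h (p f) + q f • τ := by
  obtain ⟨τ, hτ⟩ : ∃ τ : EE θ 3, ∀ f, q (f - q f • τ) = 0 := by
    by_cases h0 : ∃ f, q f ≠ 0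
    · obtain ⟨f, hf⟩ := h0
      refine ⟨(q f)⁻¹ • f, fun g => ?_⟩
      rw [map_sub, map_smul, map_smul, smul_eq_mul, smul_eq_mul, inv_mul_cancel₀ hf, mul_one,
        sub_self]
    · push Not at h0
      exact ⟨0, fun f => h0 _⟩
  let A : (Fin n → ℂ) →ₗ[ℂ] LinearMap.ker q := (avE θ h).codRestrict (LinearMap.ker q) (fun v => by
    rw [LinearMap.mem_ker]
    exact (hq _).2 ⟨v, rfl⟩)
  have hA : LinearMap.range A = ⊤ := by
    rw [LinearMap.range_eq_top]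
    rintro ⟨f, hf⟩
    obtain ⟨v, hv⟩ := (hq f).1 (LinearMap.mem_ker.1 hf)
    exact ⟨v, Subtype.ext hv⟩
  have : Module.Projective ℂ (LinearMap.ker q) :=
    Module.Projective.of_basis (Module.Basis.ofVectorSpace ℂ (LinearMap.ker q))
  obtain ⟨s, hs⟩ := A.exists_rightInverse_of_surjective hA
  let R : EE θ 3 →ₗ[ℂ] LinearMap.ker q :=
    (LinearMap.id - q.smulRight τ).codRestrict (LinearMap.ker q) (fun f => by
      rw [LinearMap.mem_ker]
      exact hτ f)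
  refine ⟨τ, s.comp R, fun f => ?_⟩
  have h1 : A (s (R f)) = R f := LinearMap.congr_fun hs (R f)
  have h2 : avE θ h (s (R f)) = f - q f • τ := congrArg Subtype.val h1
  rw [LinearMap.comp_apply, h2]
  abel

theorem point_K {θ : F2 n} (h : Fol θ) (q : EE θ 3 →ₗ[ℂ] ℂ)
    (hq : ∀ f, q f = 0 ↔ ∃ v, avE θ h v = f) {X X' : (Fin n → ℂ) →ₗ[ℂ] EE θ 3}
    (hX : ∀ x, X x ∈ KX θ x) (hX' : ∀ x, X' x ∈ KX θ x) {x u u' : Fin n → ℂ}
    (hu : X x = avE θ h u) (hu' : X' x = avE θ h u') : X' u - X u' ∈ KX θ x := by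
  have hmem : ∀ f : EE θ 3, (∀ j, eval x ((f : F1 n) j) = 0) → f ∈ KX θ x := fun f hf => hf
  by_cases hx : x = 0
  · refine hmem _ fun j => ?_
    have h1 := (X' u - X u').2.1 j
    rw [hx, eval_zero, constantCoeff_eq]
    exact h1.coeff_eq_zero (by simp)
  obtain ⟨τ, p, hp⟩ := exists_lift h q hq
  have hq1 : q (X x) = 0 := (hq _).2 ⟨u, hu.symm⟩
  have hq2 : q (X' x) = 0 := (hq _).2 ⟨u', hu'.symm⟩
  obtain ⟨P, hP, hPx⟩ := lift_at h q τ p hp X hx hq1 hu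
  obtain ⟨P', hP', hPx'⟩ := lift_at h q τ p hp X' hx hq2 hu'
  refine hmem _ fun j => ?_
  have h1 := core h q τ hX hX' P P' hP hP' x j
  rw [hq1, hq2, hPx, hPx', zero_mul, zero_mul, add_zero, sub_zero] at h1
  have h2 : ((X' u - X u' : EE θ 3) : F1 n) j = ((X' u : EE θ 3) : F1 n) j -
      ((X u' : EE θ 3) : F1 n) j := rfl
  have h3 : ((X' u : EE θ 3) : F1 n) j = av θ (P' u) j + q (X' u) • (τ : F1 n) j :=
    congrFun (congrArg Subtype.val (hP' u)) j
  have h4 : ((X u' : EE θ 3) : F1 n) j = av θ (P u') j + q (X u') • (τ : F1 n) j :=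
    congrFun (congrArg Subtype.val (hP u')) j
  rw [h2, h3, h4, map_sub, map_add, map_add, eval_av, eval_av, smul_eq_C_mul, smul_eq_C_mul,
    map_mul, map_mul, eval_C, eval_C]
  simp only [sub_mul, Finset.sum_sub_distrib] at h1
  linear_combination h1

theorem tang_K {θ : F2 n} (h : Fol θ) (q : EE θ 3 →ₗ[ℂ] ℂ)
    (hq : ∀ f, q f = 0 ↔ ∃ v, avE θ h v = f) (hq1 : ∃ f, q f = 1)
    (p : EE θ 3 →ₗ[ℂ] (Fin n → ℂ)) (hp : ∀ v, p (avE θ h v) = v)
    (Y : (Fin n → ℂ) →ₗ[ℂ] (Fin n → ℂ)) (hY : ∀ x, avE θ h (Y x) ∈ KX θ x) :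
    ∃ m : EE θ 3, ∀ X : (Fin n → ℂ) →ₗ[ℂ] EE θ 3, (∀ x, X x ∈ KX θ x) →
      ∀ x, X (Y x) - avE θ h (Y (p (X x))) + q (X x) • m ∈ KX θ x := by
  have hmem : ∀ (x : Fin n → ℂ) (f : EE θ 3), (∀ j, eval x ((f : F1 n) j) = 0) → f ∈ KX θ x :=
    fun x f hf => hf
  obtain ⟨f1, hf1⟩ := hq1
  have hqa : ∀ v, q (avE θ h v) = 0 := fun v => (hq _).2 ⟨v, rfl⟩
  obtain ⟨τ, hτ1, hτ2⟩ : ∃ τ : EE θ 3, q τ = 1 ∧ p τ = 0 := by
    refine ⟨f1 - avE θ h (p f1), ?_, ?_⟩
    · rw [map_sub, hf1, hqa, sub_zero]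
    · rw [map_sub, hp, sub_self]
  have hdec : ∀ f, f = avE θ h (p f) + q f • τ := by
    intro f
    have h1 : q (f - q f • τ) = 0 := by
      rw [map_sub, map_smul, hτ1, smul_eq_mul, mul_one, sub_self]
    obtain ⟨v, hv⟩ := (hq _).1 h1
    have h2 : v = p f := by
      rw [← hp v, hv, map_sub, map_smul, hτ2, smul_zero, sub_zero]
    rw [← h2, hv]
    abel
  have hY' : ∀ y, ((avE θ h).comp Y) y ∈ KX θ y := hY
  have hYP : ∀ y, ((avE θ h).comp Y) y = avE θ h (Y y) + q (((avE θ h).comp Y) y) • τ := by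
    intro y
    rw [LinearMap.comp_apply, hqa, zero_smul, add_zero]
  have hY0 : ∀ j, ct (fld Y) θ j = 0 := by
    intro j
    apply MvPolynomial.funext
    intro y
    rw [eval_ctfld, ← eval_av, map_zero]
    exact hY y j
  have hm : ct (fld Y) (dd (τ : F1 n)) ∈ EE θ 3 := by
    refine ⟨fun i => ?_, fun i j k => ?_⟩
    · unfold ct
      refine IsHomogeneous.sum _ _ _ fun a _ => ?_
      have h1 : (fld Y a).IsHomogeneous 1 := by
        unfold fld lp
        refine IsHomogeneous.sum _ _ _ fun b _ => ?_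
        have := (isHomogeneous_C (Fin n) (((LinearMap.proj a).comp Y) (Pi.single b 1) : ℂ)).mul
          (isHomogeneous_X ℂ b)
        rwa [zero_add] at this
      have h2 : (dd (τ : F1 n) a i).IsHomogeneous 2 := by
        have h3 : ((pderiv a) ((τ : F1 n) i)).IsHomogeneous 2 := (τ.2.1 i).pderiv
        have h4 : ((pderiv i) ((τ : F1 n) a)).IsHomogeneous 2 := (τ.2.1 a).pderiv
        exact h3.sub h4
      exact h1.mul h2
    · exact Pool.Agent.Helper50.FC.ctdd_mem h.closed h.dec.2.1 τ.2.2 hY0 i j k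
  refine ⟨⟨_, hm⟩, fun X hX x => ?_⟩
  refine hmem _ _ fun j => ?_
  have h1 := core h q τ hX hY' (p.comp X) Y (fun y => hdec (X y)) hYP x j
  have h5 : ∀ y, q (((avE θ h).comp Y) y) = 0 := fun y => hqa _
  rw [h5, h5, sub_zero, zero_mul, sub_zero] at h1
  have h2 : ((X (Y x) - avE θ h (Y (p (X x))) + q (X x) • (⟨_, hm⟩ : EE θ 3) : EE θ 3) : F1 n) j =
      ((X (Y x) : EE θ 3) : F1 n) j - av θ (Y (p (X x))) j +
        q (X x) • ct (fld Y) (dd (τ : F1 n)) j := rfl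
  have h3 : ((X (Y x) : EE θ 3) : F1 n) j = av θ (p (X (Y x))) j + q (X (Y x)) • (τ : F1 n) j :=
    congrFun (congrArg Subtype.val (hdec (X (Y x)))) j
  rw [h2, h3, map_add, map_sub, map_add, eval_av, eval_av, smul_eq_C_mul, smul_eq_C_mul,
    map_mul, map_mul, eval_C, eval_C]
  simp only [sub_mul, Finset.sum_sub_distrib, LinearMap.comp_apply] at h1
  linear_combination -h1

end Pool.Agent.Helper12.Z4
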