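import Pool.Agent.Helper12.Z4.YS
import Pool.Agent.Helper12.Z4.Pt
import Pool.Agent.Helper12.Z4.Fx

/-! Z4-Mk: construction of the structure `YS` when `dim ker Bt = 1`. -/

set_option autoImplicit false

namespace Pool.Agent.Helper12.Z4

open MvPolynomial
open scoped BigOperators
open Pool.Agent.Helper71.FL (w12 pf ct Dec Closed dd at0 emb res)
open Pool.Agent.Helper93 (lsub lmap OF pb)
open Pool.Agent.Helper71.FC

private theorem mk_rank {V M : Type} [AddCommGroup V] [Module ℂ V] [Module.Finite ℂ V]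
    [AddCommGroup M] [Module ℂ M] (f : V →ₗ[ℂ] M) :
    Module.finrank ℂ (LinearMap.range f) + Module.finrank ℂ (LinearMap.ker f) =
      Module.finrank ℂ V := LinearMap.finrank_range_add_finrank_ker f

private theorem mk_sup {M : Type} [AddCommGroup M] [Module ℂ M] [Module.Finite ℂ M]
    (R S : Submodule ℂ M) (hle : R ≤ S) (hR : Module.finrank ℂ R = 4)
    (hS : Module.finrank ℂ S = 5) : ∃ t ∈ S, t ∉ R ∧ R ⊔ Submodule.span ℂ {t} = S := by
  have hlt : R < S := by
    refine lt_of_le_of_ne hle fun he => ?_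
    rw [he, hS] at hR
    omega
  obtain ⟨t, ht, htn⟩ := SetLike.exists_of_lt hlt
  refine ⟨t, ht, htn, ?_⟩
  have hle' : R ⊔ Submodule.span ℂ {t} ≤ S :=
    sup_le hle (by rw [Submodule.span_singleton_le_iff_mem]; exact ht)
  apply Submodule.eq_of_le_of_finrank_le hle'
  have hlt' : R < R ⊔ Submodule.span ℂ {t} := by
    refine lt_of_le_of_ne le_sup_left fun he => htn ?_
    rw [he]
    exact Submodule.mem_sup_right (Submodule.mem_span_singleton_self t)
  have := Submodule.finrank_lt_finrank_of_lt hlt'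
  omega

private theorem mk_sup2 {F : Type} [AddCommGroup F] [Module ℂ F] [Module.Finite ℂ F]
    (R S : Submodule ℂ ((Fin 5 → ℂ) →ₗ[ℂ] F)) (hle : R ≤ S) (hR : Module.finrank ℂ R = 4)
    (hS : Module.finrank ℂ S = 5) : ∃ t ∈ S, t ∉ R ∧ R ⊔ Submodule.span ℂ {t} = S :=
  mk_sup R S hle hR hS

/-- the product descends to `N = V / ℂ e0`; no decomposables in its kernel by RANK3 -/
theorem exists_YS {θ : F2 5} (h : Fol θ) (hc : ¬ Cone θ) (h2 : ∀ k ≤ 2, EE θ k = ⊥)
    (h6 : Module.finrank ℂ (EE θ 3) = 6) (h5 : Module.finrank ℂ (RL θ) = 5)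
    (Bt : (Fin 5 → ℂ) →ₗ[ℂ] (Fin 5 → ℂ) →ₗ[ℂ] EE θ 3) (hK : ∀ v, Bt v ∈ RL θ)
    (hBt : ∀ x, Bt x x = 0) (hker : Module.finrank ℂ (LinearMap.ker Bt) = 1) :
    ∃ d : YS (Fin 4 → ℂ) (EE θ 3), d.K = KX θ ∧ d.ι = avE θ h := by
  have hfin : Module.Finite ℂ (EE θ 3) := finite_EE θ 3
  have hsw : ∀ x y, Bt x y = - Bt y x := by
    intro x y
    have h1 := hBt (x + y)
    simp only [map_add, LinearMap.add_apply, hBt, zero_add, add_zero] at h1
    exact eq_neg_of_add_eq_zero_right h1
  -- projection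
  have hQ : Module.finrank ℂ ((Fin 5 → ℂ) ⧸ LinearMap.ker Bt) = Module.finrank ℂ (Fin 4 → ℂ) := by
    have := Submodule.finrank_quotient_add_finrank (LinearMap.ker Bt)
    rw [Module.finrank_fin_fun] at this
    rw [Module.finrank_fin_fun]
    omega
  let eQ := LinearEquiv.ofFinrankEq _ _ hQ
  let π : (Fin 5 → ℂ) →ₗ[ℂ] (Fin 4 → ℂ) := eQ.toLinearMap ∘ₗ (LinearMap.ker Bt).mkQ
  have hπs : Function.Surjective π := by
    intro n
    obtain ⟨v, hv⟩ := Submodule.mkQ_surjective (LinearMap.ker Bt) (eQ.symm n)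
    refine ⟨v, ?_⟩
    show eQ ((LinearMap.ker Bt).mkQ v) = n
    rw [hv, LinearEquiv.apply_symm_apply]
  have hπ0 : ∀ v, π v = 0 ↔ Bt v = 0 := by
    intro v
    show eQ ((LinearMap.ker Bt).mkQ v) = 0 ↔ Bt v = 0
    rw [LinearEquiv.map_eq_zero_iff, Submodule.mkQ_apply, Submodule.Quotient.mk_eq_zero,
      LinearMap.mem_ker]
  obtain ⟨s, hs⟩ := π.exists_rightInverse_of_surjective (LinearMap.range_eq_top.mpr hπs)
  have hs' : ∀ n, π (s n) = n := fun n => LinearMap.congr_fun hs n
  have hsB : ∀ v, Bt (s (π v)) = Bt v := by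
    intro v
    have h1 : π (s (π v) - v) = 0 := by rw [map_sub, hs', sub_self]
    have h3 := (hπ0 _).mp h1
    rw [map_sub] at h3
    exact sub_eq_zero.mp h3
  let B : (Fin 4 → ℂ) →ₗ[ℂ] (Fin 4 → ℂ) →ₗ[ℂ] EE θ 3 := Bt.compl₁₂ s s
  have hB : ∀ v x, B (π v) (π x) = Bt v x := by
    intro v x
    show Bt (s (π v)) (s (π x)) = Bt v x
    rw [hsB, hsw, hsB, hsw, neg_neg]
  -- quotient map
  have hιinj := avE_inj θ h hc
  have hr : Module.finrank ℂ (LinearMap.range (avE θ h)) = 5 := by
    rw [LinearMap.finrank_range_of_inj hιinj, Module.finrank_fin_fun]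
  have hQ' : Module.finrank ℂ (EE θ 3 ⧸ LinearMap.range (avE θ h)) = Module.finrank ℂ ℂ := by
    have := Submodule.finrank_quotient_add_finrank (LinearMap.range (avE θ h))
    rw [h6, hr] at this
    rw [Module.finrank_self]
    omega
  let eq' := LinearEquiv.ofFinrankEq _ _ hQ'
  let q : EE θ 3 →ₗ[ℂ] ℂ := eq'.toLinearMap ∘ₗ (LinearMap.range (avE θ h)).mkQ
  have hq : ∀ f, q f = 0 ↔ ∃ v, avE θ h v = f := by
    intro f
    show eq' ((LinearMap.range (avE θ h)).mkQ f) = 0 ↔ _
    rw [LinearEquiv.map_eq_zero_iff, Submodule.mkQ_apply, Submodule.Quotient.mk_eq_zero,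
      LinearMap.mem_range]
  have hq1 : ∃ f, q f = 1 := by
    obtain ⟨f, hf⟩ := Submodule.mkQ_surjective (LinearMap.range (avE θ h)) (eq'.symm 1)
    refine ⟨f, ?_⟩
    show eq' ((LinearMap.range (avE θ h)).mkQ f) = 1
    rw [hf, LinearEquiv.apply_symm_apply]
  -- the fifth relation
  have hrB : Module.finrank ℂ (LinearMap.range Bt) = 4 := by
    have := mk_rank (V := Fin 5 → ℂ) (M := (Fin 5 → ℂ) →ₗ[ℂ] EE θ 3) Bt
    rw [hker, Module.finrank_fin_fun] at this
    omega
  have hle : LinearMap.range Bt ≤ RL θ := by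
    rintro _ ⟨v, rfl⟩
    exact hK v
  obtain ⟨Λ, hΛ, hΛn, hW⟩ := mk_sup2 (F := EE θ 3) (LinearMap.range Bt) (RL θ) hle hrB h5
  have hall : ∀ X : (Fin 5 → ℂ) →ₗ[ℂ] EE θ 3, (∀ x, X x ∈ KX θ x) →
      ∃ (n : Fin 4 → ℂ) (g : ℂ), ∀ x, X x = B n (π x) + g • Λ x := by
    intro X hX
    have h1 : X ∈ LinearMap.range Bt ⊔ Submodule.span ℂ {Λ} := by
      rw [hW]
      exact hX
    obtain ⟨_, ⟨v, rfl⟩, Z, hZ, hXE⟩ := Submodule.mem_sup.mp h1
    obtain ⟨g, rfl⟩ := Submodule.mem_span_singleton.mp hZ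
    refine ⟨π v, g, fun x => ?_⟩
    rw [hB, ← hXE]
    rfl
  have hnl : ∀ n, ∃ x, Λ x ≠ B n (π x) := by
    intro n
    by_contra hcon
    push Not at hcon
    apply hΛn
    refine ⟨s n, ?_⟩
    apply LinearMap.ext
    intro x
    rw [hcon x, ← hB, hs']
  have hBnd : ND B := by
    intro x y hxy hind
    obtain ⟨v, rfl⟩ := hπs x
    obtain ⟨w, rfl⟩ := hπs y
    rw [hB] at hxy
    rw [LinearIndependent.pair_iff] at hind
    have hX := hK v
    -- kernel of `Bt v`
    obtain ⟨e, he0, hespan⟩ := finrank_eq_one_iff'.mp hker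
    have heB : Bt (e : Fin 5 → ℂ) = 0 := LinearMap.mem_ker.mp e.2
    have hv0 : Bt v = 0 := by
      apply rank3 (h2 2 le_rfl) hX
      have h1 := LinearMap.finrank_range_add_finrank_ker (Bt v)
      rw [Module.finrank_fin_fun] at h1
      have h3 : 3 ≤ Module.finrank ℂ (LinearMap.ker (Bt v)) := by
        have hm : ∀ i : Fin 3, (![v, w, (e : Fin 5 → ℂ)] i) ∈ LinearMap.ker (Bt v) := by
          intro i
          rw [LinearMap.mem_ker]
          fin_cases i
          · exact hBt v
          · exact hxy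
          · show Bt v (e : Fin 5 → ℂ) = 0
            rw [hsw, heB]
            simp
        have hli : LinearIndependent ℂ (fun i : Fin 3 =>
            (⟨![v, w, (e : Fin 5 → ℂ)] i, hm i⟩ : LinearMap.ker (Bt v))) := by
          rw [Fintype.linearIndependent_iff]
          intro g hg
          have hg' : g 0 • v + g 1 • w + g 2 • (e : Fin 5 → ℂ) = 0 := by
            have := congrArg Subtype.val hg
            rw [Fin.sum_univ_three] at this
            simpa using this
          have hπe : π (e : Fin 5 → ℂ) = 0 := (hπ0 _).mpr heB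
          have h4 := congrArg π hg'
          rw [map_add, map_add, map_smul, map_smul, map_smul, hπe, smul_zero, add_zero,
            map_zero] at h4
          obtain ⟨g0, g1⟩ := hind _ _ h4
          rw [g0, g1, zero_smul, zero_smul, zero_add, zero_add] at hg'
          have he0' : (e : Fin 5 → ℂ) ≠ 0 := fun hh => he0 (Subtype.ext hh)
          have g2 := (smul_eq_zero.mp hg').resolve_right he0'
          intro i
          fin_cases i
          · exact g0
          · exact g1
          · exact g2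
        have := hli.fintype_card_le_finrank
        simpa using this
      omega
    have hπv : π v = 0 := (hπ0 v).mpr hv0
    have := hind 1 0 (by rw [hπv]; simp)
    exact one_ne_zero this.1
  refine ⟨{ K := KX θ
            ι := avE θ h
            q := q
            π := π
            B := B
            Λ := Λ
            dimN := Module.finrank_fin_fun ℂ
            dimF := h6
            ι_inj := fun v hv => hιinj (by rw [hv, map_zero])
            q_iff := hq
            q_ne := hq1
            π_surj := hπs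
            B_alt := fun n => hBt (s n)
            B_nd := hBnd
            hB := fun n x => ?_
            hΛ := hΛ
            all := hall
            nl := hnl
            point := fun X X' hX hX' x u u' hu hu' => point_K h q hq hX hX' hu hu'
            tang := fun p hp Y hY => tang_K h q hq hq1 p hp Y hY
            gen4 := ?_
            quad := fun κ hκ => quad_K h (h2 1 (by norm_num)) κ hκ
            noU := fun U hU => noU_K h h2 h6 U hU
            nodiv := fun y hy X hX hs hr => nodiv_K h y hy X hX hs hr }, rfl, rfl⟩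
  · obtain ⟨v, rfl⟩ := hπs n
    rw [hB]
    exact hK v x
  · obtain ⟨G, hG, hG'⟩ := finrank_KX h
    refine ⟨G, hG, fun x hx => ?_⟩
    have := hG' x hx
    rw [h6] at this
    omega

end Pool.Agent.Helper12.Z4
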