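import Pool.Agent.Helper12.Z4.R2b

/-! Z4-R2c: case R5 of `R2b.lean` (proof in the header there). -/

set_option autoImplicit false

namespace Pool.Agent.Helper12.Z4

open MvPolynomial
open scoped BigOperators
open Pool.Agent.Helper71.FC

variable {N F : Type} [AddCommGroup N] [Module ℂ N] [AddCommGroup F] [Module ℂ F]

private theorem q5_swap {G : Type} [AddCommGroup G] [Module ℂ G] {B : N →ₗ[ℂ] N →ₗ[ℂ] G} (hB : ∀ x, B x x = 0)
    (x y : N) : B x y = -B y x := by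
  have h := hB (x + y)
  simp only [map_add, LinearMap.add_apply, hB, zero_add, add_zero] at h
  exact eq_neg_of_add_eq_zero_right h

/-- the five vectors of `R5` -/
private noncomputable def q5_five (B : N →ₗ[ℂ] N →ₗ[ℂ] F) (e : Module.Basis (Fin 4) ℂ N) : Fin 5 → F :=
  ![B (e 0) (e 1), B (e 0) (e 2), B (e 0) (e 3), B (e 1) (e 2), B (e 1) (e 3)]

private theorem q5_mem {B : N →ₗ[ℂ] N →ₗ[ℂ] F} (hB : ∀ x, B x x = 0) {f : Module.Basis (Fin 4) ℂ N}
    (hf : B (f 0) (f 1) + B (f 2) (f 3) = 0) (n m : N) :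
    B n m ∈ Submodule.span ℂ (Set.range (q5_five B f)) := by
  set S := Submodule.span ℂ (Set.range (q5_five B f)) with hS
  have hg : ∀ k, q5_five B f k ∈ S := fun k => Submodule.subset_span ⟨k, rfl⟩
  have h01 : B (f 0) (f 1) ∈ S := hg 0
  have h02 : B (f 0) (f 2) ∈ S := hg 1
  have h03 : B (f 0) (f 3) ∈ S := hg 2
  have h12 : B (f 1) (f 2) ∈ S := hg 3
  have h13 : B (f 1) (f 3) ∈ S := hg 4
  have h23 : B (f 2) (f 3) ∈ S := by
    rw [eq_neg_of_add_eq_zero_right hf]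
    exact S.neg_mem h01
  have key : ∀ i j : Fin 4, B (f i) (f j) ∈ S := by
    intro i j
    fin_cases i <;> fin_cases j
    · show B (f 0) (f 0) ∈ S
      rw [hB]; exact S.zero_mem
    · exact h01
    · exact h02
    · exact h03
    · show B (f 1) (f 0) ∈ S
      rw [q5_swap hB]; exact S.neg_mem h01
    · show B (f 1) (f 1) ∈ S
      rw [hB]; exact S.zero_mem
    · exact h12
    · exact h13
    · show B (f 2) (f 0) ∈ S
      rw [q5_swap hB]; exact S.neg_mem h02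
    · show B (f 2) (f 1) ∈ S
      rw [q5_swap hB]; exact S.neg_mem h12
    · show B (f 2) (f 2) ∈ S
      rw [hB]; exact S.zero_mem
    · exact h23
    · show B (f 3) (f 0) ∈ S
      rw [q5_swap hB]; exact S.neg_mem h03
    · show B (f 3) (f 1) ∈ S
      rw [q5_swap hB]; exact S.neg_mem h13
    · show B (f 3) (f 2) ∈ S
      rw [q5_swap hB]; exact S.neg_mem h23
    · show B (f 3) (f 3) ∈ S
      rw [hB]; exact S.zero_mem
  rw [← f.sum_repr n, ← f.sum_repr m]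
  simp only [map_sum, LinearMap.sum_apply, map_smul, LinearMap.smul_apply]
  exact S.sum_mem fun i _ => S.smul_mem _ (S.sum_mem fun j _ => S.smul_mem _ (key _ _))

/-- `R5` for another basis -/
private theorem q5_change {B : N →ₗ[ℂ] N →ₗ[ℂ] F} (hB : ∀ x, B x x = 0) {e f : Module.Basis (Fin 4) ℂ N}
    (h : R5 B e) (hf : B (f 0) (f 1) + B (f 2) (f 3) = 0) : R5 B f := by
  refine ⟨hf, ?_⟩
  show LinearIndependent ℂ (q5_five B f)
  have h1 : Module.finrank ℂ (Submodule.span ℂ (Set.range (q5_five B e))) = 5 :=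
    finrank_span_eq_card h.2
  have h2 : Submodule.span ℂ (Set.range (q5_five B e)) ≤ Submodule.span ℂ (Set.range (q5_five B f)) := by
    rw [Submodule.span_le]
    rintro _ ⟨k, rfl⟩
    fin_cases k
    · exact q5_mem hB hf (e 0) (e 1)
    · exact q5_mem hB hf (e 0) (e 2)
    · exact q5_mem hB hf (e 0) (e 3)
    · exact q5_mem hB hf (e 1) (e 2)
    · exact q5_mem hB hf (e 1) (e 3)
  have h4 : FiniteDimensional ℂ (Submodule.span ℂ (Set.range (q5_five B f))) :=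
    FiniteDimensional.span_of_finite ℂ (Set.finite_range _)
  have h3 := Submodule.finrank_mono h2
  rw [linearIndependent_iff_card_le_finrank_span]
  unfold Set.finrank
  rw [Fintype.card_fin]
  omega

/-- a basis from four vectors which span -/
private theorem q5_basis (hN : Module.finrank ℂ N = 4) (f : Module.Basis (Fin 4) ℂ N) (v : Fin 4 → N)
    (M : Fin 4 → Fin 4 → ℂ) (h : ∀ i, ∑ j, M i j • v j = f i) :
    ∃ g : Module.Basis (Fin 4) ℂ N, ∀ i, g i = v i := by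
  have h1 : ⊤ ≤ Submodule.span ℂ (Set.range v) := by
    rw [← f.span_eq, Submodule.span_le]
    rintro _ ⟨i, rfl⟩
    rw [← h i]
    exact Submodule.sum_mem _ fun j _ => Submodule.smul_mem _ _ (Submodule.subset_span ⟨j, rfl⟩)
  exact ⟨basisOfTopLeSpanOfCardEqFinrank v h1 (by rw [hN, Fintype.card_fin]), fun i =>
    congrFun (coe_basisOfTopLeSpanOfCardEqFinrank v h1 _) i⟩

/-- a basis adapted to the radical of `c` -/
private theorem q5_rad (hN : Module.finrank ℂ N = 4) {B : N →ₗ[ℂ] N →ₗ[ℂ] F} (hB : ∀ x, B x x = 0)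
    (hnd : ND B) {q : F →ₗ[ℂ] ℂ} {e e' : Module.Basis (Fin 4) ℂ N} (h0 : ∀ x, q (B (e 0) x) = 0)
    (h1 : ∀ x, q (B (e 1) x) = 0) (h23 : q (B (e 2) (e 3)) = 1) (h5 : R5 B e') :
    ∃ f : Module.Basis (Fin 4) ℂ N, f 0 = e 0 ∧ f 2 = e 1 ∧ B (f 0) (f 1) + B (f 2) (f 3) = 0 := by
  -- a relation
  obtain ⟨θ, hθ, hθ0⟩ : ∃ θ : Fin 6 → ℂ, ∑ i, θ i • (![B (e 0) (e 1), B (e 0) (e 2), B (e 0) (e 3),
      B (e 1) (e 2), B (e 1) (e 3), B (e 2) (e 3)] : Fin 6 → F) i = 0 ∧ ∃ i, θ i ≠ 0 := by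
    rw [← Fintype.not_linearIndependent_iff]
    intro hli
    have h6 := finrank_span_eq_card hli
    have h7 : Submodule.span ℂ (Set.range (![B (e 0) (e 1), B (e 0) (e 2), B (e 0) (e 3),
      B (e 1) (e 2), B (e 1) (e 3), B (e 2) (e 3)] : Fin 6 → F)) ≤
        Submodule.span ℂ (Set.range (q5_five B e')) := by
      rw [Submodule.span_le]
      rintro _ ⟨k, rfl⟩
      fin_cases k
      · exact q5_mem hB h5.1 (e 0) (e 1)
      · exact q5_mem hB h5.1 (e 0) (e 2)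
      · exact q5_mem hB h5.1 (e 0) (e 3)
      · exact q5_mem hB h5.1 (e 1) (e 2)
      · exact q5_mem hB h5.1 (e 1) (e 3)
      · exact q5_mem hB h5.1 (e 2) (e 3)
    have h8 : FiniteDimensional ℂ (Submodule.span ℂ (Set.range (q5_five B e'))) :=
      FiniteDimensional.span_of_finite ℂ (Set.finite_range _)
    have h9 := Submodule.finrank_mono h7
    have h10 : Module.finrank ℂ (Submodule.span ℂ (Set.range (q5_five B e'))) ≤ 5 := by
      have := finrank_range_le_card (R := ℂ) (q5_five B e')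
      rw [Fintype.card_fin] at this
      exact this
    rw [h6, Fintype.card_fin] at h9
    omega
  have hsum : θ 0 • B (e 0) (e 1) + θ 1 • B (e 0) (e 2) + θ 2 • B (e 0) (e 3) + θ 3 • B (e 1) (e 2) +
      θ 4 • B (e 1) (e 3) + θ 5 • B (e 2) (e 3) = 0 := by
    rw [Fin.sum_univ_six] at hθ
    exact hθ
  have hθ5 : θ 5 = 0 := by
    have h := congrArg q hsum
    simp only [map_add, map_smul, h0, h1, h23, map_zero, smul_zero, zero_add, smul_eq_mul, mul_one, mul_zero] at h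
    exact h
  rw [hθ5, zero_smul, add_zero] at hsum
  -- the determinant
  have hli := e.linearIndependent
  have hcoord : ∀ g : Fin 4 → ℂ, g 0 • e 0 + g 1 • e 1 + g 2 • e 2 + g 3 • e 3 = 0 → ∀ i, g i = 0 := by
    intro g hg
    rw [Fintype.linearIndependent_iff] at hli
    apply hli g
    rw [Fin.sum_univ_four]
    exact hg
  have hΔ : θ 1 * θ 4 - θ 2 * θ 3 ≠ 0 := by
    intro hΔ
    by_cases hb : θ 3 = 0 ∧ θ 4 = 0
    · obtain ⟨hb3, hb4⟩ := hb
      rw [hb3, hb4, zero_smul, zero_smul, add_zero, add_zero] at hsum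
      have h6 : B (e 0) (θ 0 • e 1 + θ 1 • e 2 + θ 2 • e 3) = 0 := by
        rw [map_add, map_add, map_smul, map_smul, map_smul]
        exact hsum
      apply hnd _ _ h6
      rw [LinearIndependent.pair_iff]
      intro s t hst
      have h7 := hcoord ![s, t * θ 0, t * θ 1, t * θ 2] (by
        show s • e 0 + (t * θ 0) • e 1 + (t * θ 1) • e 2 + (t * θ 2) • e 3 = 0
        rw [← hst]
        module)
      have e0 : s = 0 := h7 0
      have e1 : t * θ 0 = 0 := h7 1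
      have e2 : t * θ 1 = 0 := h7 2
      have e3 : t * θ 2 = 0 := h7 3
      refine ⟨e0, ?_⟩
      by_contra ht
      obtain ⟨i, hi⟩ := hθ0
      apply hi
      fin_cases i
      · exact (mul_eq_zero.mp e1).resolve_left ht
      · exact (mul_eq_zero.mp e2).resolve_left ht
      · exact (mul_eq_zero.mp e3).resolve_left ht
      · exact hb3
      · exact hb4
      · exact hθ5
    · obtain ⟨l, hl1, hl2⟩ : ∃ l : ℂ, θ 1 = l * θ 3 ∧ θ 2 = l * θ 4 := by
        by_cases h3 : θ 3 = 0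
        · have h4 : θ 4 ≠ 0 := fun h => hb ⟨h3, h⟩
          refine ⟨θ 2 / θ 4, ?_, by field_simp⟩
          rw [h3, mul_zero]
          rw [h3, mul_zero, sub_zero] at hΔ
          exact (mul_eq_zero.mp hΔ).resolve_right h4
        · refine ⟨θ 1 / θ 3, by field_simp, ?_⟩
          field_simp
          linear_combination -hΔ
      have h6 : B (e 1 + l • e 0) (θ 3 • e 2 + θ 4 • e 3 - θ 0 • e 0) = 0 := by
        simp only [map_add, map_sub, map_smul, LinearMap.add_apply, LinearMap.smul_apply, hB]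
        rw [q5_swap hB (e 1) (e 0)]
        rw [hl1, hl2] at hsum
        refine Eq.trans ?_ hsum
        module
      apply hnd _ _ h6
      rw [LinearIndependent.pair_iff]
      intro s t hst
      have h7 := hcoord ![s * l - t * θ 0, s, t * θ 3, t * θ 4] (by
        show (s * l - t * θ 0) • e 0 + s • e 1 + (t * θ 3) • e 2 + (t * θ 4) • e 3 = 0
        rw [← hst]
        module)
      have e1 : s = 0 := h7 1
      have e2 : t * θ 3 = 0 := h7 2
      have e3 : t * θ 4 = 0 := h7 3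
      refine ⟨e1, ?_⟩
      by_contra ht
      exact hb ⟨(mul_eq_zero.mp e2).resolve_left ht, (mul_eq_zero.mp e3).resolve_left ht⟩
  obtain ⟨δ, hδ⟩ : ∃ δ : ℂ, (θ 1 * θ 4 - θ 2 * θ 3) * δ = 1 := ⟨_, mul_inv_cancel₀ hΔ⟩
  obtain ⟨f, hf⟩ := q5_basis hN e ![e 0, θ 0 • e 1 + θ 1 • e 2 + θ 2 • e 3, e 1, θ 3 • e 2 + θ 4 • e 3]
    ![![1, 0, 0, 0], ![0, 0, 1, 0], ![0, θ 4 * δ, -(θ 0 * θ 4 * δ), -(θ 2 * δ)],
      ![0, -(θ 3 * δ), θ 0 * θ 3 * δ, θ 1 * δ]] (by
      intro i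
      rw [Fin.sum_univ_four]
      fin_cases i
      · show (1 : ℂ) • e 0 + (0 : ℂ) • (θ 0 • e 1 + θ 1 • e 2 + θ 2 • e 3) + (0 : ℂ) • e 1 +
          (0 : ℂ) • (θ 3 • e 2 + θ 4 • e 3) = e 0
        module
      · show (0 : ℂ) • e 0 + (0 : ℂ) • (θ 0 • e 1 + θ 1 • e 2 + θ 2 • e 3) + (1 : ℂ) • e 1 +
          (0 : ℂ) • (θ 3 • e 2 + θ 4 • e 3) = e 1
        module
      · show (0 : ℂ) • e 0 + (θ 4 * δ) • (θ 0 • e 1 + θ 1 • e 2 + θ 2 • e 3) +
          (-(θ 0 * θ 4 * δ)) • e 1 + (-(θ 2 * δ)) • (θ 3 • e 2 + θ 4 • e 3) = e 2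
        match_scalars
        all_goals first | ring1 | linear_combination hδ
      · show (0 : ℂ) • e 0 + (-(θ 3 * δ)) • (θ 0 • e 1 + θ 1 • e 2 + θ 2 • e 3) +
          (θ 0 * θ 3 * δ) • e 1 + (θ 1 * δ) • (θ 3 • e 2 + θ 4 • e 3) = e 3
        match_scalars
        all_goals first | ring1 | linear_combination hδ)
  refine ⟨f, hf 0, hf 2, ?_⟩
  rw [hf 0, hf 1, hf 2, hf 3]
  show B (e 0) (θ 0 • e 1 + θ 1 • e 2 + θ 2 • e 3) + B (e 1) (θ 3 • e 2 + θ 4 • e 3) = 0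
  simp only [map_add, map_smul]
  rw [← hsum]
  module

/-- the coordinates of `β` -/
private theorem q5_key {B : N →ₗ[ℂ] N →ₗ[ℂ] F} (hB : ∀ x, B x x = 0) {β : N →ₗ[ℂ] N →ₗ[ℂ] N}
    (hβ : ∀ x, β x x = 0) {f : Module.Basis (Fin 4) ℂ N} (h5 : R5 B f)
    (hβ0 : β (f 0) (f 1) + β (f 2) (f 3) = 0)
    (h1 : B (f 0) (β (f 1) (f 2)) + B (f 1) (β (f 2) (f 0)) + B (f 2) (β (f 0) (f 1)) = 0)
    (h2 : B (f 0) (β (f 2) (f 3)) + B (f 2) (β (f 3) (f 0)) + B (f 3) (β (f 0) (f 2)) = 0) :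
    ∃ u0 u1 u2 u3 s2 t0 : ℂ, β (f 0) (f 1) = u0 • f 0 + u1 • f 1 + u2 • f 2 + u3 • f 3 ∧
      β (f 0) (f 2) = -(u3 • f 0) - u1 • f 2 ∧
      β (f 0) (f 3) = u2 • f 0 + s2 • f 2 + (2 * u1) • f 3 ∧
      β (f 1) (f 2) = t0 • f 0 + (2 * u3) • f 1 + u0 • f 2 := by
  have hex : ∀ x : N, ∃ a b c d : ℂ, x = a • f 0 + b • f 1 + c • f 2 + d • f 3 := by
    intro x
    refine ⟨f.repr x 0, f.repr x 1, f.repr x 2, f.repr x 3, ?_⟩
    conv_lhs => rw [← f.sum_repr x, Fin.sum_univ_four]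
  obtain ⟨u0, u1, u2, u3, hu⟩ := hex (β (f 0) (f 1))
  obtain ⟨w0, w1, w2, w3, hw⟩ := hex (β (f 0) (f 2))
  obtain ⟨s0, s1, s2, s3, hs⟩ := hex (β (f 0) (f 3))
  obtain ⟨t0, t1, t2, t3, ht⟩ := hex (β (f 1) (f 2))
  have hli := h5.2
  rw [Fintype.linearIndependent_iff] at hli
  have hcoord : ∀ g : Fin 5 → ℂ, g 0 • B (f 0) (f 1) + g 1 • B (f 0) (f 2) + g 2 • B (f 0) (f 3) +
      g 3 • B (f 1) (f 2) + g 4 • B (f 1) (f 3) = 0 → ∀ i, g i = 0 := by
    intro g hg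
    apply hli g
    rw [Fin.sum_univ_five]
    exact hg
  have e10 := q5_swap hB (f 1) (f 0)
  have e20 := q5_swap hB (f 2) (f 0)
  have e30 := q5_swap hB (f 3) (f 0)
  have e21 := q5_swap hB (f 2) (f 1)
  have e31 := q5_swap hB (f 3) (f 1)
  have e23 : B (f 2) (f 3) = -B (f 0) (f 1) := eq_neg_of_add_eq_zero_right h5.1
  have e32 : B (f 3) (f 2) = B (f 0) (f 1) := by
    rw [q5_swap hB, e23, neg_neg]
  have b23 : β (f 2) (f 3) = -β (f 0) (f 1) := eq_neg_of_add_eq_zero_right hβ0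
  rw [ht, q5_swap hβ (f 2) (f 0), hw, hu] at h1
  rw [b23, q5_swap hβ (f 3) (f 0), hw, hu, hs] at h2
  have k1 := hcoord ![t1 + w0 - u3, t2 - u0, t3, -w2 - u1, -w3] (by
    show (t1 + w0 - u3) • B (f 0) (f 1) + (t2 - u0) • B (f 0) (f 2) + t3 • B (f 0) (f 3) +
      (-w2 - u1) • B (f 1) (f 2) + (-w3) • B (f 1) (f 3) = 0
    rw [← h1]
    simp only [map_add, map_neg, map_smul, hB, e10, e20, e21, e23]
    module)
  have k2 := hcoord ![-u1 + s3 + w2, -u2 + s0, -u3 - w0, s1, -w1] (by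
    show (-u1 + s3 + w2) • B (f 0) (f 1) + (-u2 + s0) • B (f 0) (f 2) + (-u3 - w0) • B (f 0) (f 3) +
      s1 • B (f 1) (f 2) + (-w1) • B (f 1) (f 3) = 0
    rw [← h2]
    simp only [map_add, map_neg, map_smul, hB, e20, e21, e23, e30, e31, e32]
    module)
  have a0 : t1 + w0 - u3 = 0 := k1 0
  have a1 : t2 - u0 = 0 := k1 1
  have a2 : t3 = 0 := k1 2
  have a3 : -w2 - u1 = 0 := k1 3
  have a4 : -w3 = 0 := k1 4
  have c0 : -u1 + s3 + w2 = 0 := k2 0
  have c1 : -u2 + s0 = 0 := k2 1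
  have c2 : -u3 - w0 = 0 := k2 2
  have c3 : s1 = 0 := k2 3
  have c4 : -w1 = 0 := k2 4
  have x0 : w0 = -u3 := by linear_combination -c2
  have x1 : w1 = 0 := by linear_combination -c4
  have x2 : w2 = -u1 := by linear_combination -a3
  have x3 : w3 = 0 := by linear_combination -a4
  have y0 : s0 = u2 := by linear_combination c1
  have y3 : s3 = 2 * u1 := by linear_combination c0 + a3
  have z1 : t1 = 2 * u3 := by linear_combination a0 + c2
  have z2 : t2 = u0 := by linear_combination a1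
  refine ⟨u0, u1, u2, u3, s2, t0, hu, ?_, ?_, ?_⟩
  · rw [hw, x0, x1, x2, x3]
    module
  · rw [hs, y0, c3, y3]
    module
  · rw [ht, z1, z2, a2]
    module

theorem YS.R2_R5 (d : YS N F) {p : F →ₗ[ℂ] V5} (hp : ∀ v, p (d.ι v) = v)
    {e e' : Module.Basis (Fin 4) ℂ N} (hs : Rk2 d.c e) (h5 : R5 d.B e') {m0 m1 : F}
    (hm0 : ∀ v x, d.D p v (e 0) x = -(d.c v x • m0))
    (hm1 : ∀ v x, d.D p v (e 1) x = -(d.c v x • m1)) :
    ∃ (b : Module.Basis (Fin 5) ℂ V5) (E W : V5 →ₗ[ℂ] V5), (∀ x, d.ι (E x) ∈ d.K x) ∧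
      (∀ x, d.ι (W x) ∈ d.K x) ∧ (Fm2 b E W ∨ Fm3 b E W) := by
  classical
  have hB := d.B_alt
  have hnd := d.B_nd
  have hβ : ∀ x, d.β p x x = 0 := fun x => by rw [d.β_apply, hB, map_zero, map_zero]
  have hβΘ : ∀ f : Module.Basis (Fin 4) ℂ N, d.B (f 0) (f 1) + d.B (f 2) (f 3) = 0 →
      d.β p (f 0) (f 1) + d.β p (f 2) (f 3) = 0 := by
    intro f hf
    rw [d.β_apply, d.β_apply, ← map_add, ← map_add, hf, map_zero, map_zero]
  -- `D` vanishes on two elements of the radical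
  have hD10 : ∀ x, d.B (e 1) (d.β p (e 0) x) + d.B (e 0) (d.β p x (e 1)) + d.B x (d.β p (e 1) (e 0)) = 0 := by
    intro x
    have h := hm0 (e 1) x
    rw [hs.h1, zero_smul, neg_zero] at h
    exact h
  have hDR : ∀ (s t s' t' : ℂ) (x : N),
      d.B (s • e 0 + t • e 1) (d.β p (s' • e 0 + t' • e 1) x) +
        d.B (s' • e 0 + t' • e 1) (d.β p x (s • e 0 + t • e 1)) +
        d.B x (d.β p (s • e 0 + t • e 1) (s' • e 0 + t' • e 1)) = 0 := by
    intro s t s' t' x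
    have h := hD10 x
    have e1 := q5_swap hβ x (e 0)
    have e2 := q5_swap hβ x (e 1)
    have e3 := q5_swap hβ (e 0) (e 1)
    simp only [map_add, map_smul, LinearMap.add_apply, LinearMap.smul_apply, hβ, e1, e2, e3, map_neg] at h ⊢
    have h' : (t * s' - s * t') • (d.B (e 1) (d.β p (e 0) x) + -d.B (e 0) (d.β p (e 1) x) +
        d.B x (d.β p (e 1) (e 0))) = 0 := by rw [h, smul_zero]
    rw [← h']
    simp only [map_zero, smul_zero]
    module
  -- general facts on admissible bases: `f 0`, `f 2` in the radical, `B (f 0) (f 1) + B (f 2) (f 3) = 0`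
  have hadm : ∀ f : Module.Basis (Fin 4) ℂ N, (∃ s t : ℂ, f 0 = s • e 0 + t • e 1) →
      (∃ s t : ℂ, f 2 = s • e 0 + t • e 1) → d.B (f 0) (f 1) + d.B (f 2) (f 3) = 0 →
      R5 d.B f ∧ ∃ u0 u1 u2 u3 s2 t0 : ℂ, d.β p (f 0) (f 1) = u0 • f 0 + u1 • f 1 + u2 • f 2 + u3 • f 3 ∧
      d.β p (f 0) (f 2) = -(u3 • f 0) - u1 • f 2 ∧
      d.β p (f 0) (f 3) = u2 • f 0 + s2 • f 2 + (2 * u1) • f 3 ∧
      d.β p (f 1) (f 2) = t0 • f 0 + (2 * u3) • f 1 + u0 • f 2 := by
    rintro f ⟨s, t, h0⟩ ⟨s', t', h2⟩ hf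
    have hR := q5_change hB h5 hf
    refine ⟨hR, q5_key hB hβ hR (hβΘ f hf) ?_ ?_⟩
    · have h := hDR s' t' s t (f 1)
      rw [← h0, ← h2] at h
      rw [← h]
      abel
    · have h := hDR s t s' t' (f 3)
      rw [← h0, ← h2] at h
      exact h
  obtain ⟨f, hf0, hf2, hfΘ⟩ := q5_rad d.dimN hB hnd (q := d.q) hs.h0 hs.h1 hs.h23 h5
  obtain ⟨hR, u0, u1, u2, u3, s2, t0, hu, hw, hss, ht⟩ := hadm f ⟨1, 0, by rw [hf0]; module⟩
    ⟨0, 1, by rw [hf2]; module⟩ hfΘ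
  have hq0 : ∀ x, d.q (d.B (e 0) x) = 0 := hs.h0
  have hq1 : ∀ x, d.q (d.B (e 1) x) = 0 := hs.h1
  have hker : Module.finrank ℂ (LinearMap.ker d.π) = 1 := by
    have h := LinearMap.finrank_range_add_finrank_ker d.π
    rw [LinearMap.range_eq_top.2 d.π_surj, finrank_top, d.dimN, Module.finrank_fin_fun] at h
    omega
  -- `(u1, u3) ≠ 0`
  have hne : ¬ (u1 = 0 ∧ u3 = 0) := by
    rintro ⟨h1, h3⟩
    rw [h1, h3, zero_smul, zero_smul, add_zero, add_zero] at hu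
    rw [h3, h1, zero_smul, zero_smul, neg_zero, sub_zero] at hw
    rw [h1, mul_zero, zero_smul, add_zero] at hss
    rw [h3, mul_zero, zero_smul, add_zero] at ht
    have hqf0 : ∀ x, d.q (d.B (f 0) x) = 0 := fun x => by rw [hf0]; exact hq0 x
    have hqf2 : ∀ x, d.q (d.B x (f 2)) = 0 := fun x => by rw [hf2, q5_swap hB, map_neg, hq1, neg_zero]
    set x : Fin 4 → V5 := ![p (d.B (f 0) (f 1)), p (d.B (f 0) (f 2)), p (d.B (f 0) (f 3)),
      p (d.B (f 1) (f 2))] with hx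
    let L : (Fin 4 → ℂ) →ₗ[ℂ] V5 := Fintype.linearCombination ℂ x
    have hL : ∀ c : Fin 4 → ℂ, L c = c 0 • p (d.B (f 0) (f 1)) + c 1 • p (d.B (f 0) (f 2)) +
        c 2 • p (d.B (f 0) (f 3)) + c 3 • p (d.B (f 1) (f 2)) := by
      intro c
      show Fintype.linearCombination ℂ x c = _
      rw [Fintype.linearCombination_apply, Fin.sum_univ_four]
      rfl
    have hLinj : Function.Injective L := by
      rw [injective_iff_map_eq_zero]
      intro c hc
      have h6 : d.ι (L c) = 0 := by rw [hc]; exact LinearMap.map_zero d.ι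
      rw [hL, map_add, map_add, map_add, map_smul, map_smul, map_smul, map_smul,
        d.eq_ι hp (hqf0 _), d.eq_ι hp (hqf0 _), d.eq_ι hp (hqf0 _), d.eq_ι hp (hqf2 _)] at h6
      have h7 := hR.2
      rw [Fintype.linearIndependent_iff] at h7
      have h8 := h7 ![c 0, c 1, c 2, c 3, 0] (by
        rw [Fin.sum_univ_five]
        show c 0 • d.B (f 0) (f 1) + c 1 • d.B (f 0) (f 2) + c 2 • d.B (f 0) (f 3) +
          c 3 • d.B (f 1) (f 2) + (0 : ℂ) • d.B (f 1) (f 3) = 0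
        rw [zero_smul, add_zero, h6])
      funext i
      fin_cases i
      · exact h8 0
      · exact h8 1
      · exact h8 2
      · exact h8 3
    have hrange : LinearMap.range (d.π ∘ₗ L) ≤ Submodule.span ℂ (Set.range ![f 0, f 2]) := by
      rintro _ ⟨c, rfl⟩
      rw [LinearMap.comp_apply, hL]
      simp only [map_add, map_smul]
      have b01 : d.π (p (d.B (f 0) (f 1))) = d.β p (f 0) (f 1) := rfl
      have b02 : d.π (p (d.B (f 0) (f 2))) = d.β p (f 0) (f 2) := rfl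
      have b03 : d.π (p (d.B (f 0) (f 3))) = d.β p (f 0) (f 3) := rfl
      have b12 : d.π (p (d.B (f 1) (f 2))) = d.β p (f 1) (f 2) := rfl
      rw [b01, b02, b03, b12, hu, hw, hss, ht]
      have m0 : f 0 ∈ Submodule.span ℂ (Set.range ![f 0, f 2]) := Submodule.subset_span ⟨0, rfl⟩
      have m2 : f 2 ∈ Submodule.span ℂ (Set.range ![f 0, f 2]) := Submodule.subset_span ⟨1, rfl⟩
      have h9 : c 0 • (u0 • f 0 + u2 • f 2) + c 1 • (0 : N) + c 2 • (u2 • f 0 + s2 • f 2) +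
          c 3 • (t0 • f 0 + u0 • f 2) = (c 0 * u0 + c 2 * u2 + c 3 * t0) • f 0 +
          (c 0 * u2 + c 2 * s2 + c 3 * u0) • f 2 := by module
      rw [h9]
      exact Submodule.add_mem _ (Submodule.smul_mem _ _ m0) (Submodule.smul_mem _ _ m2)
    have hfd : FiniteDimensional ℂ (Submodule.span ℂ (Set.range ![f 0, f 2])) :=
      FiniteDimensional.span_of_finite ℂ (Set.finite_range _)
    have h10 := Submodule.finrank_mono hrange
    have h11 : Module.finrank ℂ (Submodule.span ℂ (Set.range ![f 0, f 2])) ≤ 2 := by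
      have := finrank_range_le_card (R := ℂ) ![f 0, f 2]
      rw [Fintype.card_fin] at this
      exact this
    have h12 := LinearMap.finrank_range_add_finrank_ker (d.π ∘ₗ L)
    rw [Module.finrank_fin_fun] at h12
    have h13 : (LinearMap.ker (d.π ∘ₗ L)).map L ≤ LinearMap.ker d.π := by
      rintro _ ⟨c, hc, rfl⟩
      exact hc
    have h14 := Submodule.finrank_mono h13
    have h15 := (Submodule.equivMapOfInjective L hLinj (LinearMap.ker (d.π ∘ₗ L))).finrank_eq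
    omega
  obtain ⟨α, γ, hαγ⟩ : ∃ α γ : ℂ, α * u1 - γ * u3 = 1 := by
    by_cases h1 : u1 = 0
    · have h3 : u3 ≠ 0 := fun h => hne ⟨h1, h⟩
      exact ⟨0, -1 / u3, by field_simp; ring⟩
    · exact ⟨1 / u1, 0, by field_simp; ring⟩
  -- first change of the basis
  obtain ⟨g, hg⟩ := q5_basis d.dimN f ![α • f 0 + γ • f 2, u1 • f 1 - u3 • f 3, u3 • f 0 + u1 • f 2,
      -(γ • f 1) + α • f 3] ![![u1, 0, -γ, 0], ![0, α, 0, u3], ![-u3, 0, α, 0], ![0, γ, 0, u1]] (by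
    intro i
    rw [Fin.sum_univ_four]
    fin_cases i
    · show u1 • (α • f 0 + γ • f 2) + (0 : ℂ) • (u1 • f 1 - u3 • f 3) + (-γ) • (u3 • f 0 + u1 • f 2) +
        (0 : ℂ) • (-(γ • f 1) + α • f 3) = f 0
      match_scalars
      · linear_combination hαγ
      · ring
      · ring
      · ring
    · show (0 : ℂ) • (α • f 0 + γ • f 2) + α • (u1 • f 1 - u3 • f 3) + (0 : ℂ) • (u3 • f 0 + u1 • f 2) +
        u3 • (-(γ • f 1) + α • f 3) = f 1
      match_scalars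
      · ring
      · ring
      · linear_combination hαγ
      · ring
    · show (-u3) • (α • f 0 + γ • f 2) + (0 : ℂ) • (u1 • f 1 - u3 • f 3) + α • (u3 • f 0 + u1 • f 2) +
        (0 : ℂ) • (-(γ • f 1) + α • f 3) = f 2
      match_scalars
      · ring
      · linear_combination hαγ
      · ring
      · ring
    · show (0 : ℂ) • (α • f 0 + γ • f 2) + γ • (u1 • f 1 - u3 • f 3) + (0 : ℂ) • (u3 • f 0 + u1 • f 2) +
        u1 • (-(γ • f 1) + α • f 3) = f 3
      match_scalars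
      · ring
      · ring
      · ring
      · linear_combination hαγ)
  have hg0 : g 0 = α • f 0 + γ • f 2 := hg 0
  have hg1 : g 1 = u1 • f 1 - u3 • f 3 := hg 1
  have hg2 : g 2 = u3 • f 0 + u1 • f 2 := hg 2
  have hg3 : g 3 = -(γ • f 1) + α • f 3 := hg 3
  have hgΘ : d.B (g 0) (g 1) + d.B (g 2) (g 3) = 0 := by
    rw [hg0, hg1, hg2, hg3]
    have h : (α * u1 - γ * u3) • (d.B (f 0) (f 1) + d.B (f 2) (f 3)) = 0 := by rw [hfΘ, smul_zero]
    rw [← h]
    simp only [map_add, map_sub, map_neg, map_smul, LinearMap.add_apply, LinearMap.smul_apply]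
    module
  obtain ⟨-, v0, v1, v2, v3, r2, y0, kv, kw, ks, kt⟩ := hadm g ⟨α, γ, by rw [hg0, hf0, hf2]⟩
    ⟨u3, u1, by rw [hg2, hf0, hf2]⟩ hgΘ
  have hw2 : d.β p (g 0) (g 2) = -g 2 := by
    rw [hg0, hg2]
    have h : (α * u1 - γ * u3) • d.β p (f 0) (f 2) = d.β p (α • f 0 + γ • f 2) (u3 • f 0 + u1 • f 2) := by
      simp only [map_add, map_smul, LinearMap.add_apply, LinearMap.smul_apply, hβ]
      rw [q5_swap hβ (f 2) (f 0)]
      module
    rw [← h, hαγ, one_smul, hw]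
    module
  have hgc : ∀ c : Fin 4 → ℂ, c 0 • g 0 + c 1 • g 1 + c 2 • g 2 + c 3 • g 3 = 0 → ∀ i, c i = 0 := by
    intro c hc
    have hli := g.linearIndependent
    rw [Fintype.linearIndependent_iff] at hli
    apply hli c
    rw [Fin.sum_univ_four]
    exact hc
  have hv : v1 = 1 ∧ v3 = 0 := by
    have h := hgc ![-v3, 0, -v1 + 1, 0] (by
      show (-v3) • g 0 + (0 : ℂ) • g 1 + (-v1 + 1) • g 2 + (0 : ℂ) • g 3 = 0
      have h : -(v3 • g 0) - v1 • g 2 = -g 2 := by rw [← kw, hw2]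
      rw [← sub_eq_zero] at h
      rw [← h]
      module)
    have h0 : -v3 = 0 := h 0
    have h2 : -v1 + 1 = 0 := h 2
    exact ⟨by linear_combination -h2, by linear_combination -h0⟩
  obtain ⟨hv1, hv3⟩ := hv
  rw [hv1, hv3] at kv
  rw [hv1] at ks
  rw [hv3] at kt
  -- second change of the basis
  obtain ⟨k, hk⟩ := q5_basis d.dimN g ![g 0, g 1 + v0 • g 0 + (v2 / 2) • g 2, g 2,
      g 3 + (v2 / 2) • g 0 + (r2 / 3) • g 2] ![![1, 0, 0, 0], ![-v0, 1, -(v2 / 2), 0], ![0, 0, 1, 0],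
      ![-(v2 / 2), 0, -(r2 / 3), 1]] (by
    intro i
    rw [Fin.sum_univ_four]
    fin_cases i
    · show (1 : ℂ) • g 0 + (0 : ℂ) • (g 1 + v0 • g 0 + (v2 / 2) • g 2) + (0 : ℂ) • g 2 +
        (0 : ℂ) • (g 3 + (v2 / 2) • g 0 + (r2 / 3) • g 2) = g 0
      module
    · show (-v0) • g 0 + (1 : ℂ) • (g 1 + v0 • g 0 + (v2 / 2) • g 2) + (-(v2 / 2)) • g 2 +
        (0 : ℂ) • (g 3 + (v2 / 2) • g 0 + (r2 / 3) • g 2) = g 1
      module
    · show (0 : ℂ) • g 0 + (0 : ℂ) • (g 1 + v0 • g 0 + (v2 / 2) • g 2) + (1 : ℂ) • g 2 +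
        (0 : ℂ) • (g 3 + (v2 / 2) • g 0 + (r2 / 3) • g 2) = g 2
      module
    · show (-(v2 / 2)) • g 0 + (0 : ℂ) • (g 1 + v0 • g 0 + (v2 / 2) • g 2) + (-(r2 / 3)) • g 2 +
        (1 : ℂ) • (g 3 + (v2 / 2) • g 0 + (r2 / 3) • g 2) = g 3
      module)
  have hk0 : k 0 = g 0 := hk 0
  have hk1 : k 1 = g 1 + v0 • g 0 + (v2 / 2) • g 2 := hk 1
  have hk2 : k 2 = g 2 := hk 2
  have hk3 : k 3 = g 3 + (v2 / 2) • g 0 + (r2 / 3) • g 2 := hk 3
  have hkΘ : d.B (k 0) (k 1) + d.B (k 2) (k 3) = 0 := by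
    rw [hk0, hk1, hk2, hk3, ← hgΘ]
    simp only [map_add, map_smul, hB]
    rw [q5_swap hB (g 2) (g 0)]
    module
  have hRk := q5_change hB h5 hkΘ
  have k01 : d.β p (k 0) (k 1) = k 1 := by
    rw [hk0, hk1]
    simp only [map_add, map_smul, hβ, kv, hw2]
    module
  have k02 : d.β p (k 0) (k 2) = -k 2 := by rw [hk0, hk2, hw2]
  have k03 : d.β p (k 0) (k 3) = (2 : ℂ) • k 3 := by
    rw [hk0, hk3]
    simp only [map_add, map_smul, hβ, ks, hw2]
    module
  have k23 : d.β p (k 2) (k 3) = -k 1 := by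
    rw [eq_neg_of_add_eq_zero_right (hβΘ k hkΘ), k01]
  have k21 : d.β p (k 2) (k 1) = (-y0) • k 0 := by
    rw [hk2, hk1, hk0]
    simp only [map_add, map_smul, hβ]
    rw [q5_swap hβ (g 2) (g 1), q5_swap hβ (g 2) (g 0), kt, hw2]
    module
  -- the fields
  have hkq0 : ∀ x, d.q (d.B (k 0) x) = 0 := by
    intro x
    rw [hk0, hg0, hf0, hf2]
    simp only [map_add, map_smul, LinearMap.add_apply, LinearMap.smul_apply, hq0, hq1, smul_zero, add_zero]
  have hkq2 : ∀ x, d.q (d.B (k 2) x) = 0 := by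
    intro x
    rw [hk2, hg2, hf0, hf2]
    simp only [map_add, map_smul, LinearMap.add_apply, LinearMap.smul_apply, hq0, hq1, smul_zero, add_zero]
  have hkc : ∀ c : Fin 4 → ℂ, c 0 • k 0 + c 1 • k 1 + c 2 • k 2 + c 3 • k 3 = 0 → ∀ i, c i = 0 := by
    intro c hc
    have hli := k.linearIndependent
    rw [Fintype.linearIndependent_iff] at hli
    apply hli c
    rw [Fin.sum_univ_four]
    exact hc
  have k20 : d.β p (k 2) (k 0) = k 2 := by rw [q5_swap hβ, k02, neg_neg]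
  have B01 : d.B (k 0) (k 1) = -d.B (k 2) (k 3) := eq_neg_of_add_eq_zero_left hkΘ
  have hπ : ∀ n m, d.π (p (d.B n m)) = d.β p n m := fun _ _ => rfl
  let E : V5 →ₗ[ℂ] V5 := p ∘ₗ (d.B (k 2)) ∘ₗ d.π
  let W : V5 →ₗ[ℂ] V5 := p ∘ₗ (d.B (k 0)) ∘ₗ d.π
  have hE : ∀ x, E x = p (d.B (k 2) (d.π x)) := fun x => rfl
  have hW : ∀ x, W x = p (d.B (k 0) (d.π x)) := fun x => rfl
  have hEK : ∀ x, d.ι (E x) ∈ d.K x := by
    intro x
    rw [hE, d.eq_ι hp (hkq2 _)]
    exact d.hB _ _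
  have hWK : ∀ x, d.ι (W x) ∈ d.K x := by
    intro x
    rw [hW, d.eq_ι hp (hkq0 _)]
    exact d.hB _ _
  have hbas : ∀ b : Fin 5 → V5, (∀ g : Fin 5 → ℂ, g 0 • b 0 + g 1 • b 1 + g 2 • b 2 + g 3 • b 3 +
      g 4 • b 4 = 0 → ∀ i, g i = 0) → ∃ b' : Module.Basis (Fin 5) ℂ V5, ∀ i, b' i = b i := by
    intro b hb
    have hli : LinearIndependent ℂ b := by
      rw [Fintype.linearIndependent_iff]
      intro g hg
      rw [Fin.sum_univ_five] at hg
      exact hb g hg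
    refine ⟨basisOfLinearIndependentOfCardEqFinrank hli (by rw [Module.finrank_fin_fun, Fintype.card_fin]),
      fun i => ?_⟩
    rw [coe_basisOfLinearIndependentOfCardEqFinrank]
  by_cases hε : y0 = 0
  · -- `ε = 0`
    rw [hε, neg_zero, zero_smul] at k21
    obtain ⟨b4, hb4⟩ := d.π_surj (k 0)
    have p2 : d.π (p (d.B (k 0) (k 3))) = (2 : ℂ) • k 3 := by rw [hπ, k03]
    have p1 : d.π (E (p (d.B (k 0) (k 3)))) = (-2 : ℂ) • k 1 := by
      rw [hE, p2, hπ, map_smul, k23]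
      module
    have p0 : d.π (E (E (p (d.B (k 0) (k 3))))) = 0 := by
      rw [hE (E _), p1, hπ, map_smul, k21, smul_zero]
    have p3 : d.π (E b4) = k 2 := by rw [hE, hb4, hπ, k20]
    have hne0 : E (E (p (d.B (k 0) (k 3)))) ≠ 0 := by
      intro h
      have h6 := congrArg d.ι h
      rw [hE (E _), p1, map_zero, d.eq_ι hp (hkq2 _), map_smul, q5_swap hB (k 2) (k 1)] at h6
      have h7 : d.B (k 1) (k 2) ≠ 0 := hRk.2.ne_zero 3
      apply h7
      have h8 : (2 : ℂ) • d.B (k 1) (k 2) = 0 := by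
        rw [← h6]
        module
      exact (smul_eq_zero.mp h8).resolve_left (by norm_num)
    obtain ⟨b, hb⟩ := hbas ![E (E (p (d.B (k 0) (k 3)))), E (p (d.B (k 0) (k 3))), p (d.B (k 0) (k 3)), E b4,
      b4] (by
      intro g hg
      have hg' : g 0 • E (E (p (d.B (k 0) (k 3)))) + g 1 • E (p (d.B (k 0) (k 3))) +
        g 2 • p (d.B (k 0) (k 3)) + g 3 • E b4 + g 4 • b4 = 0 := hg
      have h6 := congrArg d.π hg'
      simp only [map_add, map_smul, map_zero, p0, p1, p2, p3, hb4] at h6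
      have h7 := hkc ![g 4, -2 * g 1, g 3, 2 * g 2] (by
        show g 4 • k 0 + (-2 * g 1) • k 1 + g 3 • k 2 + (2 * g 2) • k 3 = 0
        rw [← h6]
        module)
      have a4 : g 4 = 0 := h7 0
      have a1 : -2 * g 1 = 0 := h7 1
      have a3 : g 3 = 0 := h7 2
      have a2 : 2 * g 2 = 0 := h7 3
      have a1' : g 1 = 0 := by linear_combination (-1 / 2) * a1
      have a2' : g 2 = 0 := by linear_combination (1 / 2) * a2
      rw [a4, a3, a1', a2', zero_smul, zero_smul, zero_smul, zero_smul, add_zero, add_zero, add_zero,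
        add_zero] at hg'
      have a0 : g 0 = 0 := (smul_eq_zero.mp hg').resolve_right hne0
      intro i
      fin_cases i
      · exact a0
      · exact a1'
      · exact a2'
      · exact a3
      · exact a4)
    have c0 : b 0 = E (E (p (d.B (k 0) (k 3)))) := hb 0
    have c1 : b 1 = E (p (d.B (k 0) (k 3))) := hb 1
    have c2 : b 2 = p (d.B (k 0) (k 3)) := hb 2
    have c3 : b 3 = E b4 := hb 3
    have c4 : b 4 = b4 := hb 4
    refine ⟨b, E, W, hEK, hWK, Or.inr ?_⟩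
    refine ⟨?_, ?_, ?_, ?_, ?_, ?_, ?_, ?_, ?_, ?_⟩
    · rw [c0, hE (E (E _)), p0, map_zero, map_zero]
    · rw [c1, c0]
    · rw [c2, c1]
    · rw [c3, hE (E _), p3, hB, map_zero]
    · rw [c4, c3]
    · rw [c0, hW, p0, map_zero, map_zero]
    · rw [c1, hW, p1, hE, p2, map_smul, B01, map_smul]
      simp only [map_smul, map_neg]
      module
    · rw [c2, hW, p2, map_smul, map_smul]
    · rw [c3, hW, p3, hE, hb4, q5_swap hB, map_neg]
    · rw [c4, hW, hb4, hB, map_zero]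
  · -- `ε ≠ 0`
    obtain ⟨b4, hb4, hb4n⟩ : ∃ b4, d.π b4 = 0 ∧ b4 ≠ 0 := by
      have hnt : Nontrivial (LinearMap.ker d.π) := Module.nontrivial_of_finrank_pos (R := ℂ) (by omega)
      obtain ⟨x, hx⟩ := exists_ne (0 : LinearMap.ker d.π)
      exact ⟨x, x.2, fun h => hx (Subtype.ext h)⟩
    have p3 : d.π (p (d.B (k 0) (k 3))) = (2 : ℂ) • k 3 := by rw [hπ, k03]
    have p2 : d.π (E (p (d.B (k 0) (k 3)))) = (-2 : ℂ) • k 1 := by
      rw [hE, p3, hπ, map_smul, k23]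
      module
    have p1 : d.π (E (E (p (d.B (k 0) (k 3))))) = (2 * y0) • k 0 := by
      rw [hE (E _), p2, hπ, map_smul, k21]
      module
    have p0 : d.π (E (E (E (p (d.B (k 0) (k 3)))))) = (2 * y0) • k 2 := by
      rw [hE (E (E _)), p1, hπ, map_smul, k20]
    obtain ⟨b, hb⟩ := hbas ![E (E (E (p (d.B (k 0) (k 3))))), E (E (p (d.B (k 0) (k 3)))),
      E (p (d.B (k 0) (k 3))), p (d.B (k 0) (k 3)), b4] (by
      intro g hg
      have hg' : g 0 • E (E (E (p (d.B (k 0) (k 3))))) + g 1 • E (E (p (d.B (k 0) (k 3)))) +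
        g 2 • E (p (d.B (k 0) (k 3))) + g 3 • p (d.B (k 0) (k 3)) + g 4 • b4 = 0 := hg
      have h6 := congrArg d.π hg'
      simp only [map_add, map_smul, map_zero, p0, p1, p2, p3, hb4] at h6
      have h7 := hkc ![2 * y0 * g 1, -2 * g 2, 2 * y0 * g 0, 2 * g 3] (by
        show (2 * y0 * g 1) • k 0 + (-2 * g 2) • k 1 + (2 * y0 * g 0) • k 2 + (2 * g 3) • k 3 = 0
        rw [← h6]
        module)
      have a1 : 2 * y0 * g 1 = 0 := h7 0
      have a2 : -2 * g 2 = 0 := h7 1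
      have a0 : 2 * y0 * g 0 = 0 := h7 2
      have a3 : 2 * g 3 = 0 := h7 3
      have h2y : (2 : ℂ) * y0 ≠ 0 := mul_ne_zero (by norm_num) hε
      have a0' : g 0 = 0 := (mul_eq_zero.mp a0).resolve_left h2y
      have a1' : g 1 = 0 := (mul_eq_zero.mp a1).resolve_left h2y
      have a2' : g 2 = 0 := by linear_combination (-1 / 2) * a2
      have a3' : g 3 = 0 := by linear_combination (1 / 2) * a3
      rw [a0', a1', a2', a3', zero_smul, zero_smul, zero_smul, zero_smul, add_zero, add_zero, add_zero,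
        zero_add] at hg'
      have a4 : g 4 = 0 := (smul_eq_zero.mp hg').resolve_right hb4n
      intro i
      fin_cases i
      · exact a0'
      · exact a1'
      · exact a2'
      · exact a3'
      · exact a4)
    have c0 : b 0 = E (E (E (p (d.B (k 0) (k 3))))) := hb 0
    have c1 : b 1 = E (E (p (d.B (k 0) (k 3)))) := hb 1
    have c2 : b 2 = E (p (d.B (k 0) (k 3))) := hb 2
    have c3 : b 3 = p (d.B (k 0) (k 3)) := hb 3
    have c4 : b 4 = b4 := hb 4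
    refine ⟨b, E, W, hEK, hWK, Or.inl ?_⟩
    refine ⟨?_, ?_, ?_, ?_, ?_, ?_, ?_, ?_, ?_, ?_⟩
    · rw [c0, hE (E (E (E _))), p0, map_smul, hB, smul_zero, map_zero]
    · rw [c1, c0]
    · rw [c2, c1]
    · rw [c3, c2]
    · rw [c4, hE, hb4, map_zero, map_zero]
    · rw [c0, hW, p0, hE (E (E _)), p1]
      simp only [map_smul]
      rw [q5_swap hB (k 2) (k 0)]
      simp only [map_neg]
      module
    · rw [c1, hW, p1, map_smul, hB, smul_zero, map_zero]
    · rw [c2, hW, p2, hE, p3, map_smul, B01, map_smul]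
      simp only [map_smul, map_neg]
      module
    · rw [c3, hW, p3, map_smul, map_smul]
    · rw [c4, hW, hb4, map_zero, map_zero]

/-- the outcome of all cases -/
theorem YS.main (d : YS N F) : (∃ (b : Module.Basis (Fin 5) ℂ V5) (E W : V5 →ₗ[ℂ] V5),
    (∀ x, d.ι (E x) ∈ d.K x) ∧ (∀ x, d.ι (W x) ∈ d.K x) ∧
      (Fm1 b E W ∨ Fm2 b E W ∨ Fm3 b E W)) ∨
    ∃ e : Module.Basis (Fin 4) ℂ N, Symp d.c e := by
  rcases rank4 d.dimN (c := d.c) (fun x => by rw [d.c_apply, d.B_alt, map_zero]) with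
    h | ⟨e, h0, h1, h2⟩ | ⟨e, h1, h2, h3, h4, h5, h6⟩
  · exact absurd h d.c_ne
  · obtain ⟨p, hp⟩ := d.exists_p
    obtain ⟨m0, m1, hm0, hm1⟩ := d.R2_star hp ⟨h0, h1, h2⟩
    left
    rcases d.dich with h6 | ⟨e', h5⟩
    · obtain ⟨b, E, W, a1, a2, a3⟩ := d.R2_R6 hp ⟨h0, h1, h2⟩ (h6 e) hm0 hm1
      exact ⟨b, E, W, a1, a2, Or.inl a3⟩
    · obtain ⟨b, E, W, a1, a2, a3⟩ := d.R2_R5 hp ⟨h0, h1, h2⟩ h5 hm0 hm1
      exact ⟨b, E, W, a1, a2, Or.inr a3⟩
  · exact Or.inr ⟨e, ⟨h1, h2, h3, h4, h5, h6⟩⟩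

end Pool.Agent.Helper12.Z4
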