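import Pool.Agent.Helper12.Z4.R4c

/-! Z4-R4d: `c` of rank 4: the end.  `L := N × ℂ` with `br = brE (β p) c e`, `e = π Y`, is a Lie algebra (`R4_lie`).
* perfect: R6 and `dimF`: `B` is onto (`F` is spanned by the `B n m`).  For `n ∈ N` take `v` with `π v = n`, `ι v = Σ B n_i m_i`, `q (ι v) = 0`: applying `(π p, q)`:
  `(n, 0) = Σ br (n_i,0) (m_i,0)`; and `br` of a pair with `c = 1` gives `E`.
* Killing form: `κ(x,v) := tr (br (πx,0) ∘ br (πv,0))`, `x, v ∈ V`.  For general `x` and `ι v ∈ K x` (`Kform`; `ι Y π = B z' π + g' Λ` with `g' ≠ 0` by `all`, `hYn`):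
  `ι v = B n (πx) + g ι Y (πx)`, so `c(n, πx) = 0`, `v = p (B n (πx)) + g Y (πx)` and `(πv, 0) = br (n, g) (πx, 0)`; by `trace_inv` and `h1`
  `κ(x,v) = tr (br [(n,g),(πx,0)] br (πx,0)) = tr (br (n,g) br [(πx,0),(πx,0)]) = 0`.  `quad`: `κ = 0` on `N`.
* `κ(E, x)`: for `c(v,w) = 1`, `E = [v,w] - β(v,w)`: `κ(E,x) = κ([v,w],x) = κ(v,[w,x]) = c(w,x) κ(v,E)`; `x = v`: `κ(E,v) = -κ(v,E) = -κ(E,v)`, so `κ(E,v) = 0` for all `v ∈ N`
  and `κ(E,E) = κ(v,[w,E]) = κ(v, -e w) = 0`.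
* `cartan_no`. -/

set_option autoImplicit false

namespace Pool.Agent.Helper12.Z4

open MvPolynomial
open scoped BigOperators
open Pool.Agent.Helper71.FC

variable {N F : Type} [AddCommGroup N] [Module ℂ N] [AddCommGroup F] [Module ℂ F]

theorem YS.R4_end (d : YS N F) {p : F →ₗ[ℂ] V5} (hp : ∀ v, p (d.ι v) = v)
    {b : Module.Basis (Fin 4) ℂ N} (hs : Symp d.c b) (h6 : R6 d.B b) {Y : N →ₗ[ℂ] V5}
    (hY : ∀ x, d.ι (Y (d.π x)) ∈ d.K x) (hYn : ∀ n, ∃ x, d.ι (Y x) ≠ d.B n x)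
    (hlie : ∀ x y z : N × ℂ, Jac (brE (d.β p) d.c (d.π ∘ₗ Y)) x y z = 0) : False := by
  classical
  have hNfin : Module.Finite ℂ N := Module.finite_of_finrank_pos (by rw [d.dimN]; norm_num)
  have hFfin : Module.Finite ℂ F := Module.finite_of_finrank_pos (by rw [d.dimF]; norm_num)
  set br := brE (d.β p) d.c (d.π ∘ₗ Y) with hbr
  have hap : ∀ x y : N × ℂ, br x y =
      (d.β p x.1 y.1 + x.2 • d.π (Y y.1) - y.2 • d.π (Y x.1), d.c x.1 y.1) := fun x y => rfl
  have hcalt : ∀ n, d.c n n = 0 := by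
    intro n
    rw [d.c_apply, d.B_alt, map_zero]
  have hβalt : ∀ n, d.β p n n = 0 := by
    intro n
    rw [d.β_apply, d.B_alt, map_zero, map_zero]
  have hqι : ∀ v, d.q (d.ι v) = 0 := fun v => (d.q_iff _).mpr ⟨v, rfl⟩
  have h1 : ∀ x, br x x = 0 := by
    intro x
    rw [hap, hβalt, hcalt, zero_add, sub_self]
    rfl
  have h2 : ∀ x y z, br x (br y z) + br y (br z x) + br z (br x y) = 0 :=
    fun x y z => hlie x y z
  -- the trace form
  have htadd1 : ∀ x x' y : N × ℂ, LinearMap.trace ℂ (N × ℂ) (br (x + x') ∘ₗ br y) =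
      LinearMap.trace ℂ (N × ℂ) (br x ∘ₗ br y) + LinearMap.trace ℂ (N × ℂ) (br x' ∘ₗ br y) := by
    intro x x' y
    rw [map_add, LinearMap.add_comp, map_add]
  have htadd2 : ∀ x y y' : N × ℂ, LinearMap.trace ℂ (N × ℂ) (br x ∘ₗ br (y + y')) =
      LinearMap.trace ℂ (N × ℂ) (br x ∘ₗ br y) + LinearMap.trace ℂ (N × ℂ) (br x ∘ₗ br y') := by
    intro x y y'
    rw [map_add, LinearMap.comp_add, map_add]
  have htsm1 : ∀ (a : ℂ) (x y : N × ℂ), LinearMap.trace ℂ (N × ℂ) (br (a • x) ∘ₗ br y) =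
      a * LinearMap.trace ℂ (N × ℂ) (br x ∘ₗ br y) := by
    intro a x y
    rw [map_smul, LinearMap.smul_comp, map_smul, smul_eq_mul]
  have htsm2 : ∀ (a : ℂ) (x y : N × ℂ), LinearMap.trace ℂ (N × ℂ) (br x ∘ₗ br (a • y)) =
      a * LinearMap.trace ℂ (N × ℂ) (br x ∘ₗ br y) := by
    intro a x y
    rw [map_smul, LinearMap.comp_smul, map_smul, smul_eq_mul]
  have hcomm : ∀ x y : N × ℂ, LinearMap.trace ℂ (N × ℂ) (br x ∘ₗ br y) =
      LinearMap.trace ℂ (N × ℂ) (br y ∘ₗ br x) := by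
    intro x y
    exact LinearMap.trace_comp_comm' (br y) (br x)
  let κ : V5 →ₗ[ℂ] V5 →ₗ[ℂ] ℂ := LinearMap.mk₂ ℂ
    (fun x y => LinearMap.trace ℂ (N × ℂ) (br (d.π x, 0) ∘ₗ br (d.π y, 0)))
    (by
      intro x x' y
      have h : ((d.π (x + x'), 0) : N × ℂ) = (d.π x, 0) + (d.π x', 0) := by
        rw [map_add, Prod.mk_add_mk, add_zero]
      rw [h, htadd1])
    (by
      intro a x y
      have h : ((d.π (a • x), 0) : N × ℂ) = a • (d.π x, 0) := by
        rw [map_smul, Prod.smul_mk, smul_zero]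
      rw [h, htsm1, smul_eq_mul])
    (by
      intro x y y'
      have h : ((d.π (y + y'), 0) : N × ℂ) = (d.π y, 0) + (d.π y', 0) := by
        rw [map_add, Prod.mk_add_mk, add_zero]
      rw [h, htadd2])
    (by
      intro a x y
      have h : ((d.π (a • y), 0) : N × ℂ) = a • (d.π y, 0) := by
        rw [map_smul, Prod.smul_mk, smul_zero]
      rw [h, htsm2, smul_eq_mul])
  have hκ : ∀ x y, κ x y = LinearMap.trace ℂ (N × ℂ) (br (d.π x, 0) ∘ₗ br (d.π y, 0)) :=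
    fun x y => rfl
  -- the field `Y` is not a combination of the `B n`
  obtain ⟨z', g', hzg⟩ := d.all (d.ι ∘ₗ Y ∘ₗ d.π) (fun x => hY x)
  have hzg' : ∀ x, d.ι (Y (d.π x)) = d.B z' (d.π x) + g' • d.Λ x := fun x => hzg x
  have hg' : g' ≠ 0 := by
    intro h0
    obtain ⟨n, hn⟩ := hYn z'
    obtain ⟨x, rfl⟩ := d.π_surj n
    apply hn
    rw [hzg' x, h0, zero_smul, add_zero]
  -- general x
  have hgen : Gen (fun x : V5 => ∀ v, d.ι v ∈ d.K x → κ x v = 0) := by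
    obtain ⟨G, hG0, hG⟩ := d.Kform
    refine ⟨G, hG0, ?_⟩
    intro x hx v hv
    obtain ⟨n, g, hng⟩ := hG x hx (d.ι v) hv
    have hΛ : d.Λ x = g'⁻¹ • (d.ι (Y (d.π x)) - d.B z' (d.π x)) := by
      rw [hzg' x, add_sub_cancel_left, smul_smul, inv_mul_cancel₀ hg', one_smul]
    have hng2 : d.ι v = d.B (n - (g * g'⁻¹) • z') (d.π x) + (g * g'⁻¹) • d.ι (Y (d.π x)) := by
      rw [hng, hΛ, smul_smul, smul_sub, map_sub, map_smul, LinearMap.sub_apply,
        LinearMap.smul_apply]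
      abel
    set n' := n - (g * g'⁻¹) • z' with hn'
    set g2 := g * g'⁻¹ with hg2
    have hc0 : d.c n' (d.π x) = 0 := by
      have h := congrArg d.q hng2
      rw [hqι, map_add, map_smul, hqι, smul_zero, add_zero] at h
      rw [d.c_apply]
      exact h.symm
    have hπv : d.π v = d.β p n' (d.π x) + g2 • d.π (Y (d.π x)) := by
      have h := congrArg (fun f => d.π (p f)) hng2
      simp only [hp, map_add, map_smul] at h
      rw [d.β_apply]
      exact h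
    have hbrv : ((d.π v, 0) : N × ℂ) = br (n', g2) (d.π x, 0) := by
      rw [hap, hπv]
      simp only [zero_smul, sub_zero, hc0]
    rw [hκ, hbrv, hcomm]
    have h := trace_inv br h1 h2 (n', g2) (d.π x, 0) (d.π x, 0)
    rw [h, h1, map_zero, LinearMap.comp_zero, map_zero]
  have hκ0 : κ = 0 := d.quad κ hgen
  have hNN : ∀ n m : N, LinearMap.trace ℂ (N × ℂ) (br (n, 0) ∘ₗ br (m, 0)) = 0 := by
    intro n m
    obtain ⟨x, rfl⟩ := d.π_surj n
    obtain ⟨y, rfl⟩ := d.π_surj m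
    rw [← hκ, hκ0]
    rfl
  -- the element `E = (0, 1)`
  have hE1 : ∀ n : N, br (b 0, 0) (b 1, 0) = (d.β p (b 0) (b 1), 0) + ((0, 1) : N × ℂ) := by
    intro n
    rw [hap]
    simp only [zero_smul, add_zero, sub_zero, hs.h01, Prod.mk_add_mk, zero_add]
  have hE2 : ((0, 1) : N × ℂ) = br (b 0, 0) (b 1, 0) + (-1 : ℂ) • (d.β p (b 0) (b 1), 0) := by
    rw [hE1 0, neg_smul, one_smul]
    abel
  have hEx : ∀ x : N, LinearMap.trace ℂ (N × ℂ) (br (0, 1) ∘ₗ br (x, 0)) =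
      d.c (b 1) x * LinearMap.trace ℂ (N × ℂ) (br (b 0, 0) ∘ₗ br (0, 1)) := by
    intro x
    conv_lhs => rw [hE2]
    rw [htadd1, htsm1, hNN, mul_zero, add_zero, trace_inv br h1 h2]
    have h : br (b 1, 0) (x, 0) = (d.β p (b 1) x, 0) + d.c (b 1) x • ((0, 1) : N × ℂ) := by
      rw [hap]
      simp only [zero_smul, add_zero, sub_zero, Prod.smul_mk, smul_zero, smul_eq_mul, mul_one,
        Prod.mk_add_mk, zero_add]
    rw [h, htadd2, htsm2, hNN, zero_add]
  have hc10 : d.c (b 1) (b 0) = -1 := by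
    have h := hcalt (b 0 + b 1)
    simp only [map_add, LinearMap.add_apply, hcalt, hs.h01, zero_add, add_zero] at h
    linear_combination h
  have hE0 : LinearMap.trace ℂ (N × ℂ) (br (b 0, 0) ∘ₗ br (0, 1)) = 0 := by
    have h := hEx (b 0)
    rw [hc10, hcomm] at h
    linear_combination h / 2
  have hEN : ∀ x : N, LinearMap.trace ℂ (N × ℂ) (br (0, 1) ∘ₗ br (x, 0)) = 0 := by
    intro x
    rw [hEx x, hE0, mul_zero]
  have hEE : LinearMap.trace ℂ (N × ℂ) (br (0, 1) ∘ₗ br (0, 1)) = 0 := by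
    have h0 : LinearMap.trace ℂ (N × ℂ) (br (0, 1) ∘ₗ br (0, 1)) =
        LinearMap.trace ℂ (N × ℂ) (br (br (b 0, 0) (b 1, 0) +
          (-1 : ℂ) • (d.β p (b 0) (b 1), 0)) ∘ₗ br (0, 1)) := by
      rw [← hE2]
    rw [h0, htadd1, htsm1, hcomm (d.β p (b 0) (b 1), 0), hEN, mul_zero, add_zero,
      trace_inv br h1 h2]
    have h : br (b 1, 0) (0, 1) = (- d.π (Y (b 1)), 0) := by
      rw [hap]
      simp only [map_zero, zero_smul, add_zero, one_smul, zero_sub]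
    rw [h, hNN]
  have h4 : ∀ x y, LinearMap.trace ℂ (N × ℂ) (br x ∘ₗ br y) = 0 := by
    intro x y
    have hx : x = (x.1, 0) + x.2 • ((0, 1) : N × ℂ) := by
      ext <;> simp
    have hy : y = (y.1, 0) + y.2 • ((0, 1) : N × ℂ) := by
      ext <;> simp
    rw [hx, hy, htadd1, htadd2, htadd2, htsm1, htsm1, htsm2, htsm2, hNN, hEN, hEE,
      hcomm (x.1, 0) (0, 1), hEN]
    simp only [mul_zero, add_zero]
  -- perfect
  have h3 : Submodule.span ℂ {z | ∃ x y, z = br x y} = ⊤ := by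
    set W := Submodule.span ℂ {z | ∃ x y, z = br x y} with hW
    have hbrW : ∀ x y, br x y ∈ W := fun x y => Submodule.subset_span ⟨x, y, rfl⟩
    let Θ : F →ₗ[ℂ] (N × ℂ) := (d.π ∘ₗ p).prod d.q
    have hΘ : ∀ f, Θ f = (d.π (p f), d.q f) := fun f => rfl
    have hΘB : ∀ n m, Θ (d.B n m) ∈ W := by
      intro n m
      have h : Θ (d.B n m) = br (n, 0) (m, 0) := by
        rw [hΘ, hap]
        simp only [zero_smul, add_zero, sub_zero]
        rfl
      rw [h]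
      exact hbrW _ _
    have hspan : ∀ f, Θ f ∈ W := by
      have hli := h6
      unfold R6 at hli
      have htop := hli.span_eq_top_of_card_eq_finrank (by rw [d.dimF]; rfl)
      intro f
      have hf : f ∈ Submodule.span ℂ (Set.range ![d.B (b 0) (b 1), d.B (b 0) (b 2),
          d.B (b 0) (b 3), d.B (b 1) (b 2), d.B (b 1) (b 3), d.B (b 2) (b 3)]) := by
        rw [htop]; exact Submodule.mem_top
      have hle : Submodule.span ℂ (Set.range ![d.B (b 0) (b 1), d.B (b 0) (b 2),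
          d.B (b 0) (b 3), d.B (b 1) (b 2), d.B (b 1) (b 3), d.B (b 2) (b 3)]) ≤ W.comap Θ := by
        rw [Submodule.span_le]
        rintro _ ⟨i, rfl⟩
        fin_cases i <;> exact hΘB _ _
      exact hle hf
    have hn0 : ∀ n : N, ((n, 0) : N × ℂ) ∈ W := by
      intro n
      obtain ⟨v, rfl⟩ := d.π_surj n
      have h := hspan (d.ι v)
      rw [hΘ, hp, hqι] at h
      exact h
    have hE : ((0, 1) : N × ℂ) ∈ W := by
      rw [hE2]
      exact W.add_mem (hbrW _ _) (W.smul_mem _ (hn0 _))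
    rw [eq_top_iff]
    intro x _
    have hx : x = (x.1, 0) + x.2 • ((0, 1) : N × ℂ) := by
      ext <;> simp
    rw [hx]
    exact W.add_mem (hn0 _) (W.smul_mem _ hE)
  have : Nontrivial (N × ℂ) := ⟨⟨(0, 1), 0, fun h => one_ne_zero (congrArg Prod.snd h)⟩⟩
  exact cartan_no br h1 h2 h3 h4

theorem YS.R4 (d : YS N F) {e : Module.Basis (Fin 4) ℂ N} (hs : Symp d.c e) : False := by
  rcases d.dich with h6 | ⟨e', h5⟩
  · obtain ⟨p, Y, hp, hY, hD, hYn⟩ := d.R4_norm hs (h6 e)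
    obtain ⟨s, m, hL⟩ := d.R4_tang hp hY hYn
    exact d.R4_end hp hs (h6 e) hY hYn (d.R4_lie hp hs (h6 e) hD hL)
  · exact d.R4_R5 hs h5

end Pool.Agent.Helper12.Z4
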