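import Pool.Agent.Helper12.Z4.Defs

/-! Z4-RLv: values on the standard basis embed `RL θ` in a space with standard instances (use it for dimension arguments). -/

set_option autoImplicit false

namespace Pool.Agent.Helper12.Z4

open MvPolynomial
open scoped BigOperators
open Pool.Agent.Helper71.FC


/-- the values of a linear map on the basis -/
noncomputable def RLval {n : ℕ} (θ : F2 n) : RL θ →ₗ[ℂ] (Fin n → F1 n) where
  toFun X := fun i => ((X.1 (Pi.single i 1) : EE θ 3) : F1 n)
  map_add' := fun _ _ => rfl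
  map_smul' := fun _ _ => rfl

theorem RLval_inj {n : ℕ} (θ : F2 n) : Function.Injective (RLval θ) := by
  intro X Y h
  apply Subtype.ext
  apply LinearMap.pi_ext'
  intro i
  apply LinearMap.ext_ring
  apply Subtype.ext
  exact congrFun h i

theorem RL_surj {n : ℕ} {θ : F2 n} (Bt : (Fin n → ℂ) →ₗ[ℂ] RL θ) (hi : ∀ v, Bt v = 0 → v = 0)
    (h5 : Module.finrank ℂ (RL θ) = n) (X : RL θ) : ∃ v, Bt v = X := by
  rcases Nat.eq_zero_or_pos n with h0 | h0
  · subst h0
    refine ⟨0, ?_⟩
    apply RLval_inj θ
    funext i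
    exact i.elim0
  have hinj : Function.Injective (RLval θ ∘ₗ Bt) := by
    rw [injective_iff_map_eq_zero]
    intro v hv
    apply hi
    apply RLval_inj θ
    rw [map_zero]
    exact hv
  have e1 : Module.finrank ℂ (LinearMap.range (RLval θ)) = n := by
    rw [LinearMap.finrank_range_of_inj (RLval_inj θ), h5]
  have e2 : Module.finrank ℂ (LinearMap.range (RLval θ ∘ₗ Bt)) = n := by
    rw [LinearMap.finrank_range_of_inj hinj, Module.finrank_fin_fun]
  have hle : LinearMap.range (RLval θ ∘ₗ Bt) ≤ LinearMap.range (RLval θ) :=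
    LinearMap.range_comp_le_range _ _
  have : Module.Finite ℂ (LinearMap.range (RLval θ)) := Module.finite_of_finrank_pos (by omega)
  have heq := Submodule.eq_of_le_of_finrank_eq hle (e2.trans e1.symm)
  have hX : RLval θ X ∈ LinearMap.range (RLval θ ∘ₗ Bt) := by
    rw [heq]
    exact ⟨X, rfl⟩
  obtain ⟨v, hv⟩ := hX
  exact ⟨v, RLval_inj θ hv⟩

end Pool.Agent.Helper12.Z4
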