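import Pool.Agent.Helper12.Z4.Num
import Pool.Agent.Helper12.Z4.RLv
import Pool.Agent.Helper12.Z4.Mk
import Pool.Agent.Helper12.Z4.R4d
import Pool.Agent.Helper12.Z4.R2c
import Pool.Agent.Helper50.FC.Z4ii

/-! Z4-Main: interface statements of the block `z = 4` and its assembly `iy4_of`. -/

set_option autoImplicit false

namespace Pool.Agent.Helper12.Z4

open MvPolynomial
open scoped BigOperators
open Pool.Agent.Helper71.FL (w12 pf ct Dec Closed dd at0 emb res)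
open Pool.Agent.Helper93 (lsub lmap OF pb)
open Pool.Agent.Helper71.FC

/-- block [H], `e_3(P) = 5` -/
def IH1 : Prop := ∀ η : F2 4, Fol η → EE η 2 = ⊥ → ge η 3 0 = 0 → ge η 3 1 = 0 → ge η 3 2 = 1 →
  Module.finrank ℂ (EE η 3) = 5 → ge η 3 3 = 5 → False

/-- block [H], `e_3(P) = 6`, `e_3(H) = 5` -/
def IH2 : Prop := ∀ η : F2 4, Fol η → EE η 2 = ⊥ → ge η 3 0 = 0 → ge η 3 1 = 0 → ge η 3 2 = 1 →
  Module.finrank ℂ (EE η 3) = 5 → ge η 3 3 = 6 → 3 ≤ Module.finrank ℂ (RL η)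

/-- block B1 -/
def IB1 : Prop := ∀ θ : F2 5, CY θ → ge θ 3 0 = 0 → ge θ 3 1 = 0 → ge θ 3 2 = 1 → ge θ 3 3 = 6 →
  ge θ 4 2 = 0 → ge θ 4 3 = 5 → Module.finrank ℂ (EE θ 3) = 5 →
  GenM (fun φ : Fin 5 → Fin 4 → ℂ => 3 ≤ Module.finrank ℂ (RL (pb2 φ θ))) → False

/-- block [V], `e_3(V) = 5`, `e_3(H) = 6` -/
def IV1 : Prop := ∀ θ : F2 5, CY θ → ge θ 3 0 = 0 → ge θ 3 1 = 0 → ge θ 3 2 = 1 → ge θ 3 3 = 6 →
  ge θ 4 2 = 0 → ge θ 4 3 = 6 → Module.finrank ℂ (EE θ 3) = 5 → False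

/-- block [V], counting -/
def IV2 : Prop := ∀ θ : F2 5, CY θ → ge θ 3 0 = 0 → ge θ 3 1 = 0 → ge θ 3 2 = 1 → ge θ 3 3 = 6 →
  ge θ 4 2 = 0 → ge θ 4 3 = 6 → Module.finrank ℂ (EE θ 3) = 6 →
  Module.finrank ℂ (RL θ) = 5 ∧ ∃ Bt : (Fin 5 → ℂ) →ₗ[ℂ] RL θ, Bt ≠ 0 ∧
    (∀ x, (Bt x : (Fin 5 → ℂ) →ₗ[ℂ] EE θ 3) x = 0) ∧
    Module.finrank ℂ (LinearMap.ker Bt) ≤ 1 ∧
    Gen (fun x : Fin 5 → ℂ => ∀ X ∈ RL θ, X x = 0 →
      ∃ c : ℂ, X = c • (Bt x : (Fin 5 → ℂ) →ₗ[ℂ] EE θ 3))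

/-- the exclusion of the normal forms (helper28) -/
def INF : Prop := ∀ (θ : F2 5) (h : Fol θ), ¬ Cone θ → (∀ k ≤ 2, EE θ k = ⊥) →
  ∀ (b : Module.Basis (Fin 5) ℂ V5) (E W : V5 →ₗ[ℂ] V5), (∀ x, avE θ h (E x) ∈ KX θ x) →
    (∀ x, avE θ h (W x) ∈ KX θ x) → (Fm1 b E W ∨ Fm2 b E W ∨ Fm3 b E W) → False

/-- the case `dim ker Bt = 1` -/
theorem ker_one (hNF : INF) {θ : F2 5} (h : CY θ) (h6 : Module.finrank ℂ (EE θ 3) = 6)
    (h5 : Module.finrank ℂ (RL θ) = 5)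
    (Bt : (Fin 5 → ℂ) →ₗ[ℂ] (Fin 5 → ℂ) →ₗ[ℂ] EE θ 3) (hK : ∀ v, Bt v ∈ RL θ)
    (hBt : ∀ x, Bt x x = 0) (hker : Module.finrank ℂ (LinearMap.ker Bt) = 1) : False := by
  have h2 : ∀ k ≤ 2, EE θ k = ⊥ := by
    intro k hk
    interval_cases k
    · exact h.e0
    · exact h.e1
    · exact h.e2
  obtain ⟨d, hdK, hdι⟩ := exists_YS h.fol h.nc h2 h6 h5 Bt hK hBt hker
  rcases d.main with ⟨b, E, W, h1, h3, h4⟩ | ⟨e, hs⟩
  · rw [hdK, hdι] at h1 h3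
    exact hNF θ h.fol h.nc h2 b E W h1 h3 h4
  · exact d.R4 hs

theorem iy4_of (hP : IP1) (hH1 : IH1) (hH2 : IH2) (hB1 : IB1) (hV1 : IV1) (hV2 : IV2)
    (hNF : INF) : IY4 := by
  intro θ h g0 g1 g2
  obtain ⟨d0, d1, p2, f1, f2, f3⟩ := nums h g0 g1 g2
  have f4 := ge3_le hP (n := 5) (by omega) h.fol g0 g1 g2
  have hgH := gen_H h g0 g1 g2
  rcases Nat.lt_or_ge (ge θ 3 3) 6 with h3 | h3
  · obtain ⟨φ, a1, a2, a3, a4, a5, a6, a7⟩ := hgH.exists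
    exact hH1 _ a1 a2 a3 a4 a5 (by rw [a6]; omega) (by rw [a7]; omega)
  · have h36 : ge θ 3 3 = 6 := by omega
    rcases Nat.lt_or_ge (ge θ 4 3) 6 with h4 | h4
    · have h45 : ge θ 4 3 = 5 := by omega
      refine hB1 θ h g0 g1 g2 h36 p2 h45 (by omega) (hgH.mono ?_)
      rintro φ ⟨a1, a2, a3, a4, a5, a6, a7⟩
      exact hH2 _ a1 a2 a3 a4 a5 (by rw [a6, h45]) (by rw [a7, h36])
    · have h46 : ge θ 4 3 = 6 := by omega
      rcases Nat.lt_or_ge (Module.finrank ℂ (EE θ 3)) 6 with h5 | h5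
      · exact hV1 θ h g0 g1 g2 h36 p2 h46 (by omega)
      · have h56 : Module.finrank ℂ (EE θ 3) = 6 := by omega
        obtain ⟨r5, Bt, hne, hx, hker, hgen⟩ := hV2 θ h g0 g1 g2 h36 p2 h46 h56
        have hkereq : LinearMap.ker ((RL θ).subtype ∘ₗ Bt) = LinearMap.ker Bt := by
          rw [LinearMap.ker_comp, Submodule.ker_subtype, Submodule.comap_bot]
        rcases Nat.eq_or_lt_of_le hker with hk | hk
        · exact ker_one hNF h h56 r5 ((RL θ).subtype ∘ₗ Bt) (fun v => (Bt v).2) hx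
            (by rw [hkereq]; exact hk)
        · have hbot : LinearMap.ker Bt = ⊥ := Submodule.finrank_eq_zero.mp (by omega)
          have hi : ∀ v, Bt v = 0 → v = 0 := by
            intro v hv
            have hm : v ∈ LinearMap.ker Bt := hv
            rw [hbot] at hm
            exact (Submodule.mem_bot ℂ).1 hm
          refine Pool.Agent.Helper50.FC.z4_ii h h56 ((RL θ).subtype ∘ₗ Bt) hx
            (fun v x i => (Bt v).2 x i) ?_ ?_ ?_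
          · intro v hv
            apply hi
            apply Subtype.ext
            exact hv
          · intro Ψ hΨ
            obtain ⟨z, hz⟩ := RL_surj Bt hi r5 ⟨Ψ, fun x i => hΨ x i⟩
            exact ⟨z, (congrArg Subtype.val hz).symm⟩
          · refine Gen.mono hgen ?_
            intro x hx' u hu
            obtain ⟨c, hc⟩ := hx' _ (Bt u).2 hu
            have h7 : u + (-c) • x = 0 := by
              apply hi
              rw [map_add, map_smul]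
              apply Subtype.ext
              show (Bt u : (Fin 5 → ℂ) →ₗ[ℂ] EE θ 3) +
                (-c) • (Bt x : (Fin 5 → ℂ) →ₗ[ℂ] EE θ 3) = 0
              rw [hc, ← add_smul, add_neg_cancel, zero_smul]
            refine ⟨c, ?_⟩
            rw [neg_smul, ← sub_eq_add_neg] at h7
            exact sub_eq_zero.mp h7

end Pool.Agent.Helper12.Z4
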