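import Pool.Agent.Helper12.Z4.Main
import Pool.Agent.Helper57.ZH.Fin2
import Pool.Agent.Helper53.TK.PlK
import Pool.Agent.Helper34.B1.Input
import Pool.Agent.Helper71.ZV.Fin
import Pool.Agent.Helper28.Z4.S123

/-! Z4-Fin: the case `z = 4`, all inputs plugged in: `IY4_holds`. -/

set_option autoImplicit false

namespace Pool.Agent.Helper12.Z4

open MvPolynomial
open scoped BigOperators
open Pool.Agent.Helper71.FL (w12 pf ct Dec Closed dd at0 emb res)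
open Pool.Agent.Helper93 (lsub lmap OF pb)
open Pool.Agent.Helper71.FC

theorem ip1 : IP1 := fun _ hF h0 h1 h2 => Pool.Agent.Helper53.TK.pl_e3 hF h0 h1 h2

theorem pf3 : Pool.Agent.Helper57.ZH.PF3 := by
  intro θ hF h0 h1 h2 h3
  refine ⟨?_, fun X hX => Pool.Agent.Helper53.TK.pl_kos hF h0 h1 h2 h3 hX⟩
  have h4 := Pool.Agent.Helper53.TK.pl_step hF h0 h1 h2 1
  have e1 : Module.finrank ℂ (EE θ (1 + 3)) = Module.finrank ℂ (EE θ 4) := rfl
  have e2 : Module.finrank ℂ (EE θ (1 + 2)) = Module.finrank ℂ (EE θ 3) := rfl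
  omega

theorem ih1 : IH1 := fun _ hF h2 g0 g1 g2 e3 g3 =>
  Pool.Agent.Helper57.ZH.h1 pf3 hF h2 g0 g1 g2 g3 e3

theorem ih2 : IH2 := fun _ hF h2 g0 g1 g2 e3 g3 =>
  Pool.Agent.Helper57.ZH.h2_final hF h2 g0 g1 g2 g3 e3

theorem ib1 : IB1 := fun _ h g0 g1 g2 g3 g42 g43 e3 _ =>
  Pool.Agent.Helper34.B1.b1_input Pool.Agent.Helper57.ZH.planeGen Pool.Agent.Helper57.ZH.hRel
    h g0 g1 g2 g3 g42 g43 e3

theorem inf : INF := fun _ h hc h2 b E W hE hW hf =>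
  Pool.Agent.Helper28.Z4.no_Fm (b := b) (E := E) (W := W) h hc h2 hE hW hf

/-- the case `z = 4` -/
theorem IY4_holds : IY4 :=
  iy4_of ip1 ih1 ih2 ib1 Pool.Agent.Helper71.ZV.iv1 Pool.Agent.Helper71.ZV.iv2 inf

end Pool.Agent.Helper12.Z4
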