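import Mathlib

/-! Z4-LA: linear algebra on a 4-dimensional space `N` with an alternating bilinear map `B : N × N → F`.
`R6 B e`: the six `B (e i) (e j)`, `i < j`, are independent (`B` induces an injective map `Λ²N → F`); `R5 B e`: the kernel of `Λ²N → F` is spanned
by the non-degenerate bivector `e0∧e1 + e2∧e3`.
* `dich`.  `L : ℂ^6 → F`, `a ↦ Σ_(i<j) a_ij B (e i) (e j)`.  A 2-dimensional space of `a`'s contains a zero of the Pfaffian
  `a01 a23 - a02 a13 + a03 a12` other than `0`, i.e. a decomposable bivector `x ∧ y`; so `dim ker L ≤ 1`, and a generator is non-degenerate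
  and has the normal form `e0∧e1 + e2∧e3` in a suitable basis (if `a01 ≠ 0`: `a = (e0 - (a12/a01) e2 - (a13/a01) e3) ∧ (a01 e1 + a02 e2 + a03 e3) + (pf/a01) e2∧e3`).
* `LA1` (case R6): for `{i,j,k,l} = {0,1,2,3}` the component `B (e i) (e l)` of the relation for `(e i, e j, e k)` gives `β(jk)_l = 0`; so
  `β(jk) = a_jk e_j - a_kj e_k` and the component `B (e i) (e j)` gives `a_jk + a_ik = 0`; three indices `≠ k` give `a = 0`.
  It is a linear system of 24 equations for 24 unknowns.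
* `LA4` (case R5): the relation says `D(e i, e j, e k) = φ_ijk (e0∧e1 + e2∧e3)` in `Λ²N`.  Linear system: by LA1 `β` is determined by the four numbers
  `φ_ijk`, linearly; for `φ_123 = 1`, others `0`: `β(x,v) = a(x,v) e0 + c(v) x - c(x) v`, `a = - e0*∧e1* - e2*∧e3*`, `c = e1*/2`, so
  `β(e0,e1) + β(e2,e3) = -(3/2) e0`; similarly for the other three (`-(3/2) φ_123 e0 + ..`): the last hypothesis gives `φ = 0`, then LA1.
* `LA2`: R6: `x ∧ Y(x) = 0` for all `x`, in coordinates.  R5: lift `Y(x) ∈ im B = Λ²N/Θ` to `Ỹ(x) ∈ Λ²N` (linear in `x`), `x ∧ Ỹ(x) = l(x) x∧Θ`, the four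
  coordinates of `x ∧ Θ` are independent linear forms `y_i`, those of `x ∧ Ỹ(x)` are quadrics `q_i` with `q_i y_j = q_j y_i`, so `q_i = l y_i` with a
  linear form `l`, `x ∧ (Ỹ(x) - l(x) Θ) = 0`, and R6 case.  With `V` instead of `N`: for `e0 ∈ ker π` one has `Y(x + t e0) = Y(x) + t Y(e0) ∈ B(N, π x)` for all `t`,
  so `Y(e0) ∈ B(N, π x)` for all `x` with `π x ≠ 0`, so `Y(e0) = 0` (`B(N,x) ∩ B(N,y) = ℂ B(x,y)` for R6; for R5 three or four general `x`). -/

set_option autoImplicit false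

namespace Pool.Agent.Helper12.Z4

open scoped BigOperators

variable {N F : Type} [AddCommGroup N] [Module ℂ N] [AddCommGroup F] [Module ℂ F]

/-- no decomposable bivector in the kernel -/
def ND (B : N →ₗ[ℂ] N →ₗ[ℂ] F) : Prop := ∀ x y, B x y = 0 → ¬ LinearIndependent ℂ ![x, y]

/-- `Λ²N → F` is injective -/
def R6 (B : N →ₗ[ℂ] N →ₗ[ℂ] F) (e : Module.Basis (Fin 4) ℂ N) : Prop :=
  LinearIndependent ℂ ![B (e 0) (e 1), B (e 0) (e 2), B (e 0) (e 3), B (e 1) (e 2), B (e 1) (e 3),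
    B (e 2) (e 3)]

/-- the kernel of `Λ²N → F` is spanned by `e0∧e1 + e2∧e3` -/
def R5 (B : N →ₗ[ℂ] N →ₗ[ℂ] F) (e : Module.Basis (Fin 4) ℂ N) : Prop :=
  B (e 0) (e 1) + B (e 2) (e 3) = 0 ∧
    LinearIndependent ℂ ![B (e 0) (e 1), B (e 0) (e 2), B (e 0) (e 3), B (e 1) (e 2), B (e 1) (e 3)]

private theorem skB {B : N →ₗ[ℂ] N →ₗ[ℂ] F} (hB : ∀ x, B x x = 0) (x y : N) :
    B x y = - B y x := by
  have h := hB (x + y)
  simp only [map_add, LinearMap.add_apply, hB, zero_add, add_zero] at h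
  exact eq_neg_of_add_eq_zero_right h

private theorem expd {B : N →ₗ[ℂ] N →ₗ[ℂ] F} (hB : ∀ x, B x x = 0) (e : Fin 4 → N)
    (u v : Fin 4 → ℂ) : B (∑ i, u i • e i) (∑ i, v i • e i) =
      (u 0 * v 1 - u 1 * v 0) • B (e 0) (e 1) + (u 0 * v 2 - u 2 * v 0) • B (e 0) (e 2) +
      (u 0 * v 3 - u 3 * v 0) • B (e 0) (e 3) + (u 1 * v 2 - u 2 * v 1) • B (e 1) (e 2) +
      (u 1 * v 3 - u 3 * v 1) • B (e 1) (e 3) + (u 2 * v 3 - u 3 * v 2) • B (e 2) (e 3) := by
  have h10 := skB hB (e 1) (e 0)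
  have h20 := skB hB (e 2) (e 0)
  have h30 := skB hB (e 3) (e 0)
  have h21 := skB hB (e 2) (e 1)
  have h31 := skB hB (e 3) (e 1)
  have h32 := skB hB (e 3) (e 2)
  simp only [Fin.sum_univ_four, map_add, map_smul, LinearMap.add_apply, LinearMap.smul_apply, hB,
    h10, h20, h30, h21, h31, h32]
  module

/-- dependent from vanishing minors -/
private theorem dep_of {e : Module.Basis (Fin 4) ℂ N} {x y : N}
    (h : ∀ i j, e.repr x i * e.repr y j = e.repr x j * e.repr y i) :
    ¬ LinearIndependent ℂ ![x, y] := by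
  intro hli
  have hx : x ≠ 0 := hli.ne_zero 0
  have h1 : ∃ i, e.repr x i ≠ 0 := by
    by_contra hcon
    push Not at hcon
    apply hx
    rw [← e.sum_repr x]
    exact Finset.sum_eq_zero fun i _ => by rw [hcon i, zero_smul]
  obtain ⟨i, hi⟩ := h1
  rw [LinearIndependent.pair_iff] at hli
  have h2 : (e.repr y i) • x + (-(e.repr x i)) • y = 0 := by
    apply e.repr.injective
    ext j
    rw [map_add, map_smul, map_smul, map_zero, Finsupp.add_apply, Finsupp.smul_apply,
      Finsupp.smul_apply, Finsupp.zero_apply, smul_eq_mul, smul_eq_mul]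
    linear_combination -(h i j)
  exact hi (neg_eq_zero.mp (hli _ _ h2).2)

theorem R6.nd {B : N →ₗ[ℂ] N →ₗ[ℂ] F} (hB : ∀ x, B x x = 0) {e : Module.Basis (Fin 4) ℂ N}
    (h : R6 B e) : ND B := by
  intro x y hxy
  have h1 := expd hB e (e.repr x) (e.repr y)
  rw [e.sum_repr, e.sum_repr, hxy] at h1
  have h2 := (Fintype.linearIndependent_iff.mp h) ![e.repr x 0 * e.repr y 1 - e.repr x 1 * e.repr y 0,
    e.repr x 0 * e.repr y 2 - e.repr x 2 * e.repr y 0,
    e.repr x 0 * e.repr y 3 - e.repr x 3 * e.repr y 0,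
    e.repr x 1 * e.repr y 2 - e.repr x 2 * e.repr y 1,
    e.repr x 1 * e.repr y 3 - e.repr x 3 * e.repr y 1,
    e.repr x 2 * e.repr y 3 - e.repr x 3 * e.repr y 2] (by
      rw [Fin.sum_univ_six]
      exact h1.symm)
  have m01 : e.repr x 0 * e.repr y 1 - e.repr x 1 * e.repr y 0 = 0 := h2 0
  have m02 : e.repr x 0 * e.repr y 2 - e.repr x 2 * e.repr y 0 = 0 := h2 1
  have m03 : e.repr x 0 * e.repr y 3 - e.repr x 3 * e.repr y 0 = 0 := h2 2
  have m12 : e.repr x 1 * e.repr y 2 - e.repr x 2 * e.repr y 1 = 0 := h2 3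
  have m13 : e.repr x 1 * e.repr y 3 - e.repr x 3 * e.repr y 1 = 0 := h2 4
  have m23 : e.repr x 2 * e.repr y 3 - e.repr x 3 * e.repr y 2 = 0 := h2 5
  apply dep_of (e := e)
  intro i j
  fin_cases i <;> fin_cases j <;>
    simp only [Fin.zero_eta, Fin.mk_one, Fin.reduceFinMk, Fin.isValue] <;>
    first
    | linear_combination m01
    | linear_combination m02
    | linear_combination m03
    | linear_combination m12
    | linear_combination m13
    | linear_combination m23
    | linear_combination -m01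
    | linear_combination -m02
    | linear_combination -m03
    | linear_combination -m12
    | linear_combination -m13
    | linear_combination -m23

theorem R5.nd {B : N →ₗ[ℂ] N →ₗ[ℂ] F} (hB : ∀ x, B x x = 0) {e : Module.Basis (Fin 4) ℂ N}
    (h : R5 B e) : ND B := by
  intro x y hxy
  obtain ⟨h0, h⟩ := h
  have h1 := expd hB e (e.repr x) (e.repr y)
  rw [e.sum_repr, e.sum_repr, hxy] at h1
  have h23 : B (e 2) (e 3) = - B (e 0) (e 1) := eq_neg_of_add_eq_zero_right h0
  have h2 := (Fintype.linearIndependent_iff.mp h)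
    ![(e.repr x 0 * e.repr y 1 - e.repr x 1 * e.repr y 0) -
      (e.repr x 2 * e.repr y 3 - e.repr x 3 * e.repr y 2),
    e.repr x 0 * e.repr y 2 - e.repr x 2 * e.repr y 0,
    e.repr x 0 * e.repr y 3 - e.repr x 3 * e.repr y 0,
    e.repr x 1 * e.repr y 2 - e.repr x 2 * e.repr y 1,
    e.repr x 1 * e.repr y 3 - e.repr x 3 * e.repr y 1] (by
      rw [Fin.sum_univ_five, h1, h23]
      show ((e.repr x 0 * e.repr y 1 - e.repr x 1 * e.repr y 0) -
        (e.repr x 2 * e.repr y 3 - e.repr x 3 * e.repr y 2)) • B (e 0) (e 1) +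
        (e.repr x 0 * e.repr y 2 - e.repr x 2 * e.repr y 0) • B (e 0) (e 2) +
        (e.repr x 0 * e.repr y 3 - e.repr x 3 * e.repr y 0) • B (e 0) (e 3) +
        (e.repr x 1 * e.repr y 2 - e.repr x 2 * e.repr y 1) • B (e 1) (e 2) +
        (e.repr x 1 * e.repr y 3 - e.repr x 3 * e.repr y 1) • B (e 1) (e 3) = _
      module)
  have m : (e.repr x 0 * e.repr y 1 - e.repr x 1 * e.repr y 0) -
      (e.repr x 2 * e.repr y 3 - e.repr x 3 * e.repr y 2) = 0 := h2 0
  have m02 : e.repr x 0 * e.repr y 2 - e.repr x 2 * e.repr y 0 = 0 := h2 1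
  have m03 : e.repr x 0 * e.repr y 3 - e.repr x 3 * e.repr y 0 = 0 := h2 2
  have m12 : e.repr x 1 * e.repr y 2 - e.repr x 2 * e.repr y 1 = 0 := h2 3
  have m13 : e.repr x 1 * e.repr y 3 - e.repr x 3 * e.repr y 1 = 0 := h2 4
  have m01 : e.repr x 0 * e.repr y 1 - e.repr x 1 * e.repr y 0 = 0 := by
    have h3 : (e.repr x 0 * e.repr y 1 - e.repr x 1 * e.repr y 0) *
        (e.repr x 0 * e.repr y 1 - e.repr x 1 * e.repr y 0) = 0 := by
      linear_combination (e.repr x 0 * e.repr y 1 - e.repr x 1 * e.repr y 0) * m +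
        (e.repr x 0 * e.repr y 2 - e.repr x 2 * e.repr y 0) * m13 -
        (e.repr x 0 * e.repr y 3 - e.repr x 3 * e.repr y 0) * m12
    exact mul_self_eq_zero.mp h3
  have m23 : e.repr x 2 * e.repr y 3 - e.repr x 3 * e.repr y 2 = 0 := by
    linear_combination m01 - m
  apply dep_of (e := e)
  intro i j
  fin_cases i <;> fin_cases j <;>
    simp only [Fin.zero_eta, Fin.mk_one, Fin.reduceFinMk, Fin.isValue] <;>
    first
    | linear_combination m01
    | linear_combination m02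
    | linear_combination m03
    | linear_combination m12
    | linear_combination m13
    | linear_combination m23
    | linear_combination -m01
    | linear_combination -m02
    | linear_combination -m03
    | linear_combination -m12
    | linear_combination -m13
    | linear_combination -m23

private theorem span_eq {B : N →ₗ[ℂ] N →ₗ[ℂ] F} (hB : ∀ x, B x x = 0)
    (e : Module.Basis (Fin 4) ℂ N) :
    Submodule.span ℂ (Set.range ![B (e 0) (e 1), B (e 0) (e 2), B (e 0) (e 3), B (e 1) (e 2),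
      B (e 1) (e 3), B (e 2) (e 3)]) = Submodule.span ℂ {f | ∃ x y, f = B x y} := by
  apply le_antisymm
  · rw [Submodule.span_le]
    rintro f ⟨i, rfl⟩
    apply Submodule.subset_span
    fin_cases i
    exacts [⟨_, _, rfl⟩, ⟨_, _, rfl⟩, ⟨_, _, rfl⟩, ⟨_, _, rfl⟩, ⟨_, _, rfl⟩, ⟨_, _, rfl⟩]
  · rw [Submodule.span_le]
    rintro f ⟨x, y, rfl⟩
    have h1 := expd hB e (e.repr x) (e.repr y)
    rw [e.sum_repr, e.sum_repr] at h1
    rw [h1]
    have hm : ∀ i, (![B (e 0) (e 1), B (e 0) (e 2), B (e 0) (e 3), B (e 1) (e 2),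
      B (e 1) (e 3), B (e 2) (e 3)] : Fin 6 → F) i ∈ Submodule.span ℂ (Set.range ![B (e 0) (e 1),
      B (e 0) (e 2), B (e 0) (e 3), B (e 1) (e 2), B (e 1) (e 3), B (e 2) (e 3)]) :=
      fun i => Submodule.subset_span ⟨i, rfl⟩
    exact Submodule.add_mem _ (Submodule.add_mem _ (Submodule.add_mem _ (Submodule.add_mem _
      (Submodule.add_mem _ (Submodule.smul_mem _ _ (hm 0)) (Submodule.smul_mem _ _ (hm 1)))
      (Submodule.smul_mem _ _ (hm 2))) (Submodule.smul_mem _ _ (hm 3)))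
      (Submodule.smul_mem _ _ (hm 4))) (Submodule.smul_mem _ _ (hm 5))

theorem R6.any {B : N →ₗ[ℂ] N →ₗ[ℂ] F} (hB : ∀ x, B x x = 0) {e : Module.Basis (Fin 4) ℂ N}
    (h : R6 B e) (e' : Module.Basis (Fin 4) ℂ N) : R6 B e' := by
  unfold R6 at h ⊢
  rw [linearIndependent_iff_card_eq_finrank_span] at h ⊢
  rw [h]
  unfold Set.finrank
  rw [span_eq hB e, span_eq hB e']

/-- skew matrices with Pfaffian zero -/
private theorem pf_all {S : Fin 4 → Fin 4 → ℂ} (hs : ∀ a b, S a b = - S b a)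
    (h : S 0 1 * S 2 3 - S 0 2 * S 1 3 + S 0 3 * S 1 2 = 0) (c d a b : Fin 4) :
    S c d * S a b = S c a * S d b - S c b * S d a := by
  have hd : ∀ a, S a a = 0 := by
    intro a
    have := hs a a
    linear_combination this / 2
  have h10 := hs 1 0
  have h20 := hs 2 0
  have h30 := hs 3 0
  have h21 := hs 2 1
  have h31 := hs 3 1
  have h32 := hs 3 2
  have d0 := hd 0
  have d1 := hd 1
  have d2 := hd 2
  have d3 := hd 3
  fin_cases c <;> fin_cases d <;> fin_cases a <;> fin_cases b <;>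
    simp only [Fin.zero_eta, Fin.mk_one, Fin.reduceFinMk, Fin.isValue, h10, h20, h30, h21, h31,
      h32, d0, d1, d2, d3] <;>
    first
    | ring1
    | linear_combination h
    | linear_combination -h

/-- skew matrices from six numbers -/
private def sk (c : Fin 6 → ℂ) : Fin 4 → Fin 4 → ℂ :=
  ![![0, c 0, c 1, c 2], ![- c 0, 0, c 3, c 4], ![- c 1, - c 3, 0, c 5], ![- c 2, - c 4, - c 5, 0]]

private theorem sk_skew (c : Fin 6 → ℂ) (a b : Fin 4) : sk c a b = - sk c b a := by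
  fin_cases a <;> fin_cases b <;> simp [sk]

/-- the linear map `Λ²N → F` -/
private def LL (B : N →ₗ[ℂ] N →ₗ[ℂ] F) (e : Fin 4 → N) (a : Fin 6 → ℂ) : F :=
  a 0 • B (e 0) (e 1) + a 1 • B (e 0) (e 2) + a 2 • B (e 0) (e 3) + a 3 • B (e 1) (e 2) +
    a 4 • B (e 1) (e 3) + a 5 • B (e 2) (e 3)

private theorem dec {B : N →ₗ[ℂ] N →ₗ[ℂ] F} (hB : ∀ x, B x x = 0) (hn : ND B)
    (e : Module.Basis (Fin 4) ℂ N) {a : Fin 6 → ℂ} (h0 : LL B e a = 0)
    (hp : a 0 * a 5 - a 1 * a 4 + a 2 * a 3 = 0) (i : Fin 6) : a i = 0 := by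
  have hpa := pf_all (sk_skew a) (show sk a 0 1 * sk a 2 3 - sk a 0 2 * sk a 1 3 +
    sk a 0 3 * sk a 1 2 = 0 from hp)
  have hz : ∀ c d, sk a c d = 0 := by
    by_contra hcon
    push Not at hcon
    obtain ⟨c, d, hcd⟩ := hcon
    have hab : ∀ k l, sk a k l = sk a c k * (sk a d l / sk a c d) -
        sk a c l * (sk a d k / sk a c d) := by
      intro k l
      have := hpa c d k l
      field_simp
      linear_combination this
    have hB0 : B (∑ k, sk a c k • e k) (∑ l, (sk a d l / sk a c d) • e l) = 0 := by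
      rw [expd hB e (fun k => sk a c k) (fun l => sk a d l / sk a c d), ← h0]
      unfold LL
      rw [← hab 0 1, ← hab 0 2, ← hab 0 3, ← hab 1 2, ← hab 1 3, ← hab 2 3]
      rfl
    refine hn _ _ hB0 ?_
    rw [LinearIndependent.pair_iff]
    intro α β hαβ
    have h2 : ∀ k, α * sk a c k + β * (sk a d k / sk a c d) = 0 := by
      intro k
      have := congrArg (fun x => e.repr x k) hαβ
      simp only [map_add, map_smul, Finsupp.add_apply, Finsupp.smul_apply, map_zero,
        Finsupp.zero_apply, e.repr_sum_self, smul_eq_mul] at this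
      exact this
    have h3 := hab c d
    constructor
    · have : α * sk a c d = 0 := by
        rw [h3]
        linear_combination (sk a d d / sk a c d) * h2 c - (sk a d c / sk a c d) * h2 d
      exact (mul_eq_zero.mp this).resolve_right hcd
    · have : β * sk a c d = 0 := by
        rw [h3]
        linear_combination (sk a c c) * h2 d - (sk a c d) * h2 c
      exact (mul_eq_zero.mp this).resolve_right hcd
  fin_cases i
  · exact hz 0 1
  · exact hz 0 2
  · exact hz 0 3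
  · exact hz 1 2
  · exact hz 1 3
  · exact hz 2 3

private theorem quad_root (R S : ℂ) : ∃ s : ℂ, s * s + R * s + S = 0 := by
  obtain ⟨r, hr⟩ := IsAlgClosed.exists_pow_nat_eq (R ^ 2 - 4 * S) (n := 2) (by norm_num)
  refine ⟨(-R + r) / 2, ?_⟩
  linear_combination hr / 4

private theorem R5_of {B : N →ₗ[ℂ] N →ₗ[ℂ] F} (hB : ∀ x, B x x = 0) (hn : ND B)
    (e : Module.Basis (Fin 4) ℂ N) (h : B (e 0) (e 1) + B (e 2) (e 3) = 0) : R5 B e := by
  refine ⟨h, ?_⟩
  rw [Fintype.linearIndependent_iff]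
  intro g hg
  rw [Fin.sum_univ_five] at hg
  have hg' : g 0 • B (e 0) (e 1) + g 1 • B (e 0) (e 2) + g 2 • B (e 0) (e 3) +
      g 3 • B (e 1) (e 2) + g 4 • B (e 1) (e 3) = 0 := hg
  obtain ⟨t, ht⟩ := quad_root (g 0) (-(g 1 * g 4) + g 2 * g 3)
  have h23 : B (e 2) (e 3) = - B (e 0) (e 1) := eq_neg_of_add_eq_zero_right h
  have key := dec hB hn e (a := ![g 0 + t, g 1, g 2, g 3, g 4, t]) (by
    unfold LL
    show (g 0 + t) • B (e 0) (e 1) + g 1 • B (e 0) (e 2) + g 2 • B (e 0) (e 3) +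
      g 3 • B (e 1) (e 2) + g 4 • B (e 1) (e 3) + t • B (e 2) (e 3) = 0
    rw [← hg', h23]
    module) (by
    show (g 0 + t) * t - g 1 * g 4 + g 2 * g 3 = 0
    linear_combination ht)
  have k0 : g 0 + t = 0 := key 0
  have k1 : g 1 = 0 := key 1
  have k2 : g 2 = 0 := key 2
  have k3 : g 3 = 0 := key 3
  have k4 : g 4 = 0 := key 4
  have k5 : t = 0 := key 5
  rw [k5, add_zero] at k0
  intro i
  fin_cases i
  · exact k0
  · exact k1
  · exact k2
  · exact k3
  · exact k4

/-- the normal form when `a 0 ≠ 0` -/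
private theorem norm01 {B : N →ₗ[ℂ] N →ₗ[ℂ] F} (hB : ∀ x, B x x = 0)
    (e : Module.Basis (Fin 4) ℂ N) {a : Fin 6 → ℂ} (h0 : LL B e a = 0)
    (hp : a 0 * a 5 - a 1 * a 4 + a 2 * a 3 ≠ 0) (ha : a 0 ≠ 0) :
    ∃ f : Module.Basis (Fin 4) ℂ N, B (f 0) (f 1) + B (f 2) (f 3) = 0 := by
  obtain ⟨P, hP⟩ : ∃ P : ℂ, P = a 0 * a 5 - a 1 * a 4 + a 2 * a 3 := ⟨_, rfl⟩
  rw [← hP] at hp
  let w : Fin 4 → N := ![e 0 - (a 3 / a 0) • e 2 - (a 4 / a 0) • e 3,
    a 0 • e 1 + a 1 • e 2 + a 2 • e 3, (P / a 0) • e 2, e 3]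
  have hw : LinearIndependent ℂ w := by
    rw [Fintype.linearIndependent_iff]
    intro g hg
    rw [Fin.sum_univ_four] at hg
    have hg' : g 0 • (e 0 - (a 3 / a 0) • e 2 - (a 4 / a 0) • e 3) +
      g 1 • (a 0 • e 1 + a 1 • e 2 + a 2 • e 3) + g 2 • ((P / a 0) • e 2) + g 3 • e 3 = 0 := hg
    have h1 := (Fintype.linearIndependent_iff.mp e.linearIndependent) ![g 0, g 1 * a 0,
      -(g 0 * (a 3 / a 0)) + g 1 * a 1 + g 2 * (P / a 0),
      -(g 0 * (a 4 / a 0)) + g 1 * a 2 + g 3] (by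
        rw [Fin.sum_univ_four, ← hg']
        show g 0 • e 0 + (g 1 * a 0) • e 1 +
          (-(g 0 * (a 3 / a 0)) + g 1 * a 1 + g 2 * (P / a 0)) • e 2 +
          (-(g 0 * (a 4 / a 0)) + g 1 * a 2 + g 3) • e 3 = _
        module)
    have k0 : g 0 = 0 := h1 0
    have k1 : g 1 * a 0 = 0 := h1 1
    have k1' : g 1 = 0 := (mul_eq_zero.mp k1).resolve_right ha
    have k2 : -(g 0 * (a 3 / a 0)) + g 1 * a 1 + g 2 * (P / a 0) = 0 := h1 2
    rw [k0, k1', zero_mul, neg_zero, zero_mul, zero_add, zero_add] at k2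
    have k2' : g 2 = 0 := (mul_eq_zero.mp k2).resolve_right (div_ne_zero hp ha)
    have k3 : -(g 0 * (a 4 / a 0)) + g 1 * a 2 + g 3 = 0 := h1 3
    rw [k0, k1', zero_mul, neg_zero, zero_mul, zero_add, zero_add] at k3
    intro i
    fin_cases i
    · exact k0
    · exact k1'
    · exact k2'
    · exact k3
  have hN : Fintype.card (Fin 4) = Module.finrank ℂ N := by
    rw [Module.finrank_eq_card_basis e]
  refine ⟨basisOfLinearIndependentOfCardEqFinrank hw hN, ?_⟩
  rw [coe_basisOfLinearIndependentOfCardEqFinrank]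
  have e0 : w 0 = ∑ i, (![1, 0, -(a 3 / a 0), -(a 4 / a 0)] : Fin 4 → ℂ) i • e i := by
    rw [Fin.sum_univ_four]
    show e 0 - (a 3 / a 0) • e 2 - (a 4 / a 0) • e 3 =
      (1 : ℂ) • e 0 + (0 : ℂ) • e 1 + (-(a 3 / a 0)) • e 2 + (-(a 4 / a 0)) • e 3
    module
  have e1 : w 1 = ∑ i, (![0, a 0, a 1, a 2] : Fin 4 → ℂ) i • e i := by
    rw [Fin.sum_univ_four]
    show a 0 • e 1 + a 1 • e 2 + a 2 • e 3 =
      (0 : ℂ) • e 0 + a 0 • e 1 + a 1 • e 2 + a 2 • e 3
    module
  have e23 : B (w 2) (w 3) = (P / a 0) • B (e 2) (e 3) := by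
    show B ((P / a 0) • e 2) (e 3) = _
    rw [map_smul, LinearMap.smul_apply]
  rw [e0, e1, expd hB e, e23]
  show ((1 : ℂ) * a 0 - 0 * 0) • B (e 0) (e 1) + ((1 : ℂ) * a 1 - (-(a 3 / a 0)) * 0) • B (e 0) (e 2) +
    ((1 : ℂ) * a 2 - (-(a 4 / a 0)) * 0) • B (e 0) (e 3) +
    ((0 : ℂ) * a 1 - (-(a 3 / a 0)) * a 0) • B (e 1) (e 2) +
    ((0 : ℂ) * a 2 - (-(a 4 / a 0)) * a 0) • B (e 1) (e 3) +
    ((-(a 3 / a 0)) * a 2 - (-(a 4 / a 0)) * a 1) • B (e 2) (e 3) + (P / a 0) • B (e 2) (e 3) = 0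
  have c3 : (0 : ℂ) * a 1 - (-(a 3 / a 0)) * a 0 = a 3 := by
    field_simp
    ring
  have c4 : (0 : ℂ) * a 2 - (-(a 4 / a 0)) * a 0 = a 4 := by
    field_simp
    ring
  have c5 : ((-(a 3 / a 0)) * a 2 - (-(a 4 / a 0)) * a 1) + P / a 0 = a 5 := by
    rw [hP]
    field_simp
    ring
  rw [c3, c4, ← h0, add_assoc _ _ ((P / a 0) • B (e 2) (e 3)), ← add_smul, c5]
  unfold LL
  module

theorem dich (hN : Module.finrank ℂ N = 4) {B : N →ₗ[ℂ] N →ₗ[ℂ] F} (hB : ∀ x, B x x = 0)
    (hn : ND B) : (∀ e : Module.Basis (Fin 4) ℂ N, R6 B e) ∨ ∃ e : Module.Basis (Fin 4) ℂ N, R5 B e := by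
  have : FiniteDimensional ℂ N := FiniteDimensional.of_finrank_eq_succ (n := 3) hN
  let e : Module.Basis (Fin 4) ℂ N := Module.finBasisOfFinrankEq ℂ N hN
  by_cases h6 : R6 B e
  · exact Or.inl fun e' => h6.any hB e'
  · right
    unfold R6 at h6
    rw [Fintype.linearIndependent_iff] at h6
    push Not at h6
    obtain ⟨a, ha, i, hi⟩ := h6
    have h0 : LL B e a = 0 := by
      rw [Fin.sum_univ_six] at ha
      exact ha
    have hp : a 0 * a 5 - a 1 * a 4 + a 2 * a 3 ≠ 0 := by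
      intro hp
      exact hi (dec hB hn e h0 hp i)
    have hf : ∃ f : Module.Basis (Fin 4) ℂ N, B (f 0) (f 1) + B (f 2) (f 3) = 0 := by
      by_cases a0 : a 0 = 0
      · by_cases a1 : a 1 = 0
        · have a2 : a 2 ≠ 0 := by
            intro a2
            apply hp
            rw [a0, a1, a2]
            ring
          let e' : Module.Basis (Fin 4) ℂ N := e.reindex (Equiv.swap 1 3)
          have e'0 : e' 0 = e 0 := by
            rw [Module.Basis.reindex_apply]
            rfl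
          have e'1 : e' 1 = e 3 := by
            rw [Module.Basis.reindex_apply]
            rfl
          have e'2 : e' 2 = e 2 := by
            rw [Module.Basis.reindex_apply]
            rfl
          have e'3 : e' 3 = e 1 := by
            rw [Module.Basis.reindex_apply]
            rfl
          refine norm01 hB e' (a := ![a 2, a 1, a 0, - a 5, - a 4, - a 3]) ?_ ?_ a2
          · unfold LL
            rw [e'0, e'1, e'2, e'3, skB hB (e 3) (e 2), skB hB (e 3) (e 1), skB hB (e 2) (e 1)]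
            show a 2 • B (e 0) (e 3) + a 1 • B (e 0) (e 2) + a 0 • B (e 0) (e 1) +
              (- a 5) • (- B (e 2) (e 3)) + (- a 4) • (- B (e 1) (e 3)) +
              (- a 3) • (- B (e 1) (e 2)) = 0
            rw [← h0]
            unfold LL
            module
          · show a 2 * (- a 3) - a 1 * (- a 4) + a 0 * (- a 5) ≠ 0
            intro h
            apply hp
            linear_combination -h
        · let e' : Module.Basis (Fin 4) ℂ N := e.reindex (Equiv.swap 1 2)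
          have e'0 : e' 0 = e 0 := by
            rw [Module.Basis.reindex_apply]
            rfl
          have e'1 : e' 1 = e 2 := by
            rw [Module.Basis.reindex_apply]
            rfl
          have e'2 : e' 2 = e 1 := by
            rw [Module.Basis.reindex_apply]
            rfl
          have e'3 : e' 3 = e 3 := by
            rw [Module.Basis.reindex_apply]
            rfl
          refine norm01 hB e' (a := ![a 1, a 0, a 2, - a 3, a 5, a 4]) ?_ ?_ a1
          · unfold LL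
            rw [e'0, e'1, e'2, e'3, skB hB (e 2) (e 1)]
            show a 1 • B (e 0) (e 2) + a 0 • B (e 0) (e 1) + a 2 • B (e 0) (e 3) +
              (- a 3) • (- B (e 1) (e 2)) + a 5 • B (e 2) (e 3) + a 4 • B (e 1) (e 3) = 0
            rw [← h0]
            unfold LL
            module
          · show a 1 * a 4 - a 0 * a 5 + a 2 * (- a 3) ≠ 0
            intro h
            apply hp
            linear_combination -h
      · exact norm01 hB e h0 hp a0
    obtain ⟨f, hf⟩ := hf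
    exact ⟨f, R5_of hB hn f hf⟩

end Pool.Agent.Helper12.Z4
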