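import Pool.Agent.Helper12.Z4.LA

/-! Z4-LA1: see the header of `LA.lean` (LA1, LA4). -/

set_option autoImplicit false

namespace Pool.Agent.Helper12.Z4

open scoped BigOperators

variable {N F : Type} [AddCommGroup N] [Module ℂ N] [AddCommGroup F] [Module ℂ F]

private theorem exp4 (e : Module.Basis (Fin 4) ℂ N) (x : N) :
    ∃ c0 c1 c2 c3 : ℂ, x = c0 • e 0 + c1 • e 1 + c2 • e 2 + c3 • e 3 := by
  refine ⟨e.repr x 0, e.repr x 1, e.repr x 2, e.repr x 3, ?_⟩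
  have h := e.sum_repr x
  rw [Fin.sum_univ_four] at h
  exact h.symm

theorem LA1 {B : N →ₗ[ℂ] N →ₗ[ℂ] F} (hB : ∀ x, B x x = 0) {e : Module.Basis (Fin 4) ℂ N}
    (h : R6 B e) {β : N →ₗ[ℂ] N →ₗ[ℂ] N} (hβ : ∀ x, β x x = 0)
    (hD : ∀ v w x, B v (β w x) + B w (β x v) + B x (β v w) = 0) : β = 0 := by
  have sB : ∀ x y, B x y = - B y x := by
    intro x y
    have h1 := hB (x + y)
    simp only [map_add, LinearMap.add_apply, hB, zero_add, add_zero] at h1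
    exact eq_neg_of_add_eq_zero_right h1
  have sβ : ∀ x y, β x y = - β y x := by
    intro x y
    have h1 := hβ (x + y)
    simp only [map_add, LinearMap.add_apply, hβ, zero_add, add_zero] at h1
    exact eq_neg_of_add_eq_zero_right h1
  have s10 := sB (e 1) (e 0)
  have s20 := sB (e 2) (e 0)
  have s30 := sB (e 3) (e 0)
  have s21 := sB (e 2) (e 1)
  have s31 := sB (e 3) (e 1)
  have s32 := sB (e 3) (e 2)
  obtain ⟨a0, a1, a2, a3, h01⟩ : ∃ a0 a1 a2 a3 : ℂ, β (e 0) (e 1) = a0 • e 0 + a1 • e 1 + a2 • e 2 + a3 • e 3 := exp4 e _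
  obtain ⟨b0, b1, b2, b3, h02⟩ : ∃ b0 b1 b2 b3 : ℂ, β (e 0) (e 2) = b0 • e 0 + b1 • e 1 + b2 • e 2 + b3 • e 3 := exp4 e _
  obtain ⟨c0, c1, c2, c3, h03⟩ : ∃ c0 c1 c2 c3 : ℂ, β (e 0) (e 3) = c0 • e 0 + c1 • e 1 + c2 • e 2 + c3 • e 3 := exp4 e _
  obtain ⟨d0, d1, d2, d3, h12⟩ : ∃ d0 d1 d2 d3 : ℂ, β (e 1) (e 2) = d0 • e 0 + d1 • e 1 + d2 • e 2 + d3 • e 3 := exp4 e _
  obtain ⟨f0, f1, f2, f3, h13⟩ : ∃ f0 f1 f2 f3 : ℂ, β (e 1) (e 3) = f0 • e 0 + f1 • e 1 + f2 • e 2 + f3 • e 3 := exp4 e _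
  obtain ⟨g0, g1, g2, g3, h23⟩ : ∃ g0 g1 g2 g3 : ℂ, β (e 2) (e 3) = g0 • e 0 + g1 • e 1 + g2 • e 2 + g3 • e 3 := exp4 e _
  have D012 := hD (e 0) (e 1) (e 2)
  rw [sβ (e 2) (e 0), h12, h02, h01] at D012
  simp only [map_add, map_smul, map_neg, hB, s10, s20, s30, s21, s31, s32] at D012
  have G012 := Fintype.linearIndependent_iff.1 h ![b0 + d1, -a0 + d2, d3, -a1 - b2, -b3, a3] (by
    rw [Fin.sum_univ_six]
    show (b0 + d1) • B (e 0) (e 1) + (-a0 + d2) • B (e 0) (e 2) + (d3) • B (e 0) (e 3) + (-a1 - b2) • B (e 1) (e 2) + (-b3) • B (e 1) (e 3) + (a3) • B (e 2) (e 3) = 0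
    refine Eq.trans ?_ D012
    module)
  have E012_0 : b0 + d1 = 0 := G012 0
  have E012_1 : -a0 + d2 = 0 := G012 1
  have E012_2 : d3 = 0 := G012 2
  have E012_3 : -a1 - b2 = 0 := G012 3
  have E012_4 : -b3 = 0 := G012 4
  have E012_5 : a3 = 0 := G012 5
  have D013 := hD (e 0) (e 1) (e 3)
  rw [sβ (e 3) (e 0), h13, h03, h01] at D013
  simp only [map_add, map_smul, map_neg, hB, s10, s20, s30, s21, s31, s32] at D013
  have G013 := Fintype.linearIndependent_iff.1 h ![c0 + f1, f2, -a0 + f3, -c2, -a1 - c3, -a2] (by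
    rw [Fin.sum_univ_six]
    show (c0 + f1) • B (e 0) (e 1) + (f2) • B (e 0) (e 2) + (-a0 + f3) • B (e 0) (e 3) + (-c2) • B (e 1) (e 2) + (-a1 - c3) • B (e 1) (e 3) + (-a2) • B (e 2) (e 3) = 0
    refine Eq.trans ?_ D013
    module)
  have E013_0 : c0 + f1 = 0 := G013 0
  have E013_1 : f2 = 0 := G013 1
  have E013_2 : -a0 + f3 = 0 := G013 2
  have E013_3 : -c2 = 0 := G013 3
  have E013_4 : -a1 - c3 = 0 := G013 4
  have E013_5 : -a2 = 0 := G013 5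
  have D023 := hD (e 0) (e 2) (e 3)
  rw [sβ (e 3) (e 0), h23, h03, h02] at D023
  simp only [map_add, map_smul, map_neg, hB, s10, s20, s30, s21, s31, s32] at D023
  have G023 := Fintype.linearIndependent_iff.1 h ![g1, c0 + g2, -b0 + g3, c1, -b1, -b2 - c3] (by
    rw [Fin.sum_univ_six]
    show (g1) • B (e 0) (e 1) + (c0 + g2) • B (e 0) (e 2) + (-b0 + g3) • B (e 0) (e 3) + (c1) • B (e 1) (e 2) + (-b1) • B (e 1) (e 3) + (-b2 - c3) • B (e 2) (e 3) = 0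
    refine Eq.trans ?_ D023
    module)
  have E023_0 : g1 = 0 := G023 0
  have E023_1 : c0 + g2 = 0 := G023 1
  have E023_2 : -b0 + g3 = 0 := G023 2
  have E023_3 : c1 = 0 := G023 3
  have E023_4 : -b1 = 0 := G023 4
  have E023_5 : -b2 - c3 = 0 := G023 5
  have D123 := hD (e 1) (e 2) (e 3)
  rw [sβ (e 3) (e 1), h23, h13, h12] at D123
  simp only [map_add, map_smul, map_neg, hB, s10, s20, s30, s21, s31, s32] at D123
  have G123 := Fintype.linearIndependent_iff.1 h ![-g0, f0, -d0, f1 + g2, -d1 + g3, -d2 - f3] (by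
    rw [Fin.sum_univ_six]
    show (-g0) • B (e 0) (e 1) + (f0) • B (e 0) (e 2) + (-d0) • B (e 0) (e 3) + (f1 + g2) • B (e 1) (e 2) + (-d1 + g3) • B (e 1) (e 3) + (-d2 - f3) • B (e 2) (e 3) = 0
    refine Eq.trans ?_ D123
    module)
  have E123_0 : -g0 = 0 := G123 0
  have E123_1 : f0 = 0 := G123 1
  have E123_2 : -d0 = 0 := G123 2
  have E123_3 : f1 + g2 = 0 := G123 3
  have E123_4 : -d1 + g3 = 0 := G123 4
  have E123_5 : -d2 - f3 = 0 := G123 5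
  have za0 : a0 = 0 := by linear_combination (-1/2 : ℂ) * E012_1 + (-1/2 : ℂ) * E013_2 + (-1/2 : ℂ) * E123_5
  have za1 : a1 = 0 := by linear_combination (-1/2 : ℂ) * E012_3 + (-1/2 : ℂ) * E013_4 + (1/2 : ℂ) * E023_5
  have za2 : a2 = 0 := by linear_combination (-1 : ℂ) * E013_5
  have za3 : a3 = 0 := by linear_combination (1 : ℂ) * E012_5
  have zb0 : b0 = 0 := by linear_combination (1/2 : ℂ) * E012_0 + (-1/2 : ℂ) * E023_2 + (1/2 : ℂ) * E123_4
  have zb1 : b1 = 0 := by linear_combination (-1 : ℂ) * E023_4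
  have zb2 : b2 = 0 := by linear_combination (-1/2 : ℂ) * E012_3 + (1/2 : ℂ) * E013_4 + (-1/2 : ℂ) * E023_5
  have zb3 : b3 = 0 := by linear_combination (-1 : ℂ) * E012_4
  have zc0 : c0 = 0 := by linear_combination (1/2 : ℂ) * E013_0 + (1/2 : ℂ) * E023_1 + (-1/2 : ℂ) * E123_3
  have zc1 : c1 = 0 := by linear_combination (1 : ℂ) * E023_3
  have zc2 : c2 = 0 := by linear_combination (-1 : ℂ) * E013_3
  have zc3 : c3 = 0 := by linear_combination (1/2 : ℂ) * E012_3 + (-1/2 : ℂ) * E013_4 + (-1/2 : ℂ) * E023_5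
  have zd0 : d0 = 0 := by linear_combination (-1 : ℂ) * E123_2
  have zd1 : d1 = 0 := by linear_combination (1/2 : ℂ) * E012_0 + (1/2 : ℂ) * E023_2 + (-1/2 : ℂ) * E123_4
  have zd2 : d2 = 0 := by linear_combination (1/2 : ℂ) * E012_1 + (-1/2 : ℂ) * E013_2 + (-1/2 : ℂ) * E123_5
  have zd3 : d3 = 0 := by linear_combination (1 : ℂ) * E012_2
  have zf0 : f0 = 0 := by linear_combination (1 : ℂ) * E123_1
  have zf1 : f1 = 0 := by linear_combination (1/2 : ℂ) * E013_0 + (-1/2 : ℂ) * E023_1 + (1/2 : ℂ) * E123_3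
  have zf2 : f2 = 0 := by linear_combination (1 : ℂ) * E013_1
  have zf3 : f3 = 0 := by linear_combination (-1/2 : ℂ) * E012_1 + (1/2 : ℂ) * E013_2 + (-1/2 : ℂ) * E123_5
  have zg0 : g0 = 0 := by linear_combination (-1 : ℂ) * E123_0
  have zg1 : g1 = 0 := by linear_combination (1 : ℂ) * E023_0
  have zg2 : g2 = 0 := by linear_combination (-1/2 : ℂ) * E013_0 + (1/2 : ℂ) * E023_1 + (1/2 : ℂ) * E123_3
  have zg3 : g3 = 0 := by linear_combination (1/2 : ℂ) * E012_0 + (1/2 : ℂ) * E023_2 + (1/2 : ℂ) * E123_4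
  have y01 : β (e 0) (e 1) = 0 := by rw [h01, za0, za1, za2, za3]; simp
  have y10 : β (e 1) (e 0) = 0 := by rw [sβ, y01, neg_zero]
  have y02 : β (e 0) (e 2) = 0 := by rw [h02, zb0, zb1, zb2, zb3]; simp
  have y20 : β (e 2) (e 0) = 0 := by rw [sβ, y02, neg_zero]
  have y03 : β (e 0) (e 3) = 0 := by rw [h03, zc0, zc1, zc2, zc3]; simp
  have y30 : β (e 3) (e 0) = 0 := by rw [sβ, y03, neg_zero]
  have y12 : β (e 1) (e 2) = 0 := by rw [h12, zd0, zd1, zd2, zd3]; simp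
  have y21 : β (e 2) (e 1) = 0 := by rw [sβ, y12, neg_zero]
  have y13 : β (e 1) (e 3) = 0 := by rw [h13, zf0, zf1, zf2, zf3]; simp
  have y31 : β (e 3) (e 1) = 0 := by rw [sβ, y13, neg_zero]
  have y23 : β (e 2) (e 3) = 0 := by rw [h23, zg0, zg1, zg2, zg3]; simp
  have y32 : β (e 3) (e 2) = 0 := by rw [sβ, y23, neg_zero]
  refine e.ext fun i => e.ext fun j => ?_
  rw [LinearMap.zero_apply, LinearMap.zero_apply]
  fin_cases i <;> fin_cases j <;>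
    first
      | exact hβ _
      | exact y01
      | exact y02
      | exact y03
      | exact y12
      | exact y13
      | exact y23
      | exact y10
      | exact y20
      | exact y30
      | exact y21
      | exact y31
      | exact y32

theorem LA4 {B : N →ₗ[ℂ] N →ₗ[ℂ] F} (hB : ∀ x, B x x = 0) {e : Module.Basis (Fin 4) ℂ N}
    (h : R5 B e) {β : N →ₗ[ℂ] N →ₗ[ℂ] N} (hβ : ∀ x, β x x = 0)
    (hk : β (e 0) (e 1) + β (e 2) (e 3) = 0)
    (hD : ∀ v w x, B v (β w x) + B w (β x v) + B x (β v w) = 0) : β = 0 := by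
  have sB : ∀ x y, B x y = - B y x := by
    intro x y
    have h1 := hB (x + y)
    simp only [map_add, LinearMap.add_apply, hB, zero_add, add_zero] at h1
    exact eq_neg_of_add_eq_zero_right h1
  have sβ : ∀ x y, β x y = - β y x := by
    intro x y
    have h1 := hβ (x + y)
    simp only [map_add, LinearMap.add_apply, hβ, zero_add, add_zero] at h1
    exact eq_neg_of_add_eq_zero_right h1
  have s10 := sB (e 1) (e 0)
  have s20 := sB (e 2) (e 0)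
  have s30 := sB (e 3) (e 0)
  have s21 := sB (e 2) (e 1)
  have s31 := sB (e 3) (e 1)
  have s32 := sB (e 3) (e 2)
  have t23 : B (e 2) (e 3) = - B (e 0) (e 1) := eq_neg_of_add_eq_zero_right h.1
  obtain ⟨a0, a1, a2, a3, h01⟩ : ∃ a0 a1 a2 a3 : ℂ, β (e 0) (e 1) = a0 • e 0 + a1 • e 1 + a2 • e 2 + a3 • e 3 := exp4 e _
  obtain ⟨b0, b1, b2, b3, h02⟩ : ∃ b0 b1 b2 b3 : ℂ, β (e 0) (e 2) = b0 • e 0 + b1 • e 1 + b2 • e 2 + b3 • e 3 := exp4 e _
  obtain ⟨c0, c1, c2, c3, h03⟩ : ∃ c0 c1 c2 c3 : ℂ, β (e 0) (e 3) = c0 • e 0 + c1 • e 1 + c2 • e 2 + c3 • e 3 := exp4 e _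
  obtain ⟨d0, d1, d2, d3, h12⟩ : ∃ d0 d1 d2 d3 : ℂ, β (e 1) (e 2) = d0 • e 0 + d1 • e 1 + d2 • e 2 + d3 • e 3 := exp4 e _
  obtain ⟨f0, f1, f2, f3, h13⟩ : ∃ f0 f1 f2 f3 : ℂ, β (e 1) (e 3) = f0 • e 0 + f1 • e 1 + f2 • e 2 + f3 • e 3 := exp4 e _
  obtain ⟨g0, g1, g2, g3, h23⟩ : ∃ g0 g1 g2 g3 : ℂ, β (e 2) (e 3) = g0 • e 0 + g1 • e 1 + g2 • e 2 + g3 • e 3 := exp4 e _
  rw [h01, h23] at hk
  have KK := Fintype.linearIndependent_iff.1 e.linearIndependent ![a0 + g0, a1 + g1, a2 + g2, a3 + g3] (by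
    rw [Fin.sum_univ_four]
    show (a0 + g0) • e 0 + (a1 + g1) • e 1 + (a2 + g2) • e 2 + (a3 + g3) • e 3 = 0
    refine Eq.trans ?_ hk
    module)
  have K0 : a0 + g0 = 0 := KK 0
  have K1 : a1 + g1 = 0 := KK 1
  have K2 : a2 + g2 = 0 := KK 2
  have K3 : a3 + g3 = 0 := KK 3
  have D012 := hD (e 0) (e 1) (e 2)
  rw [sβ (e 2) (e 0), h12, h02, h01] at D012
  simp only [map_add, map_smul, map_neg, hB, s10, s20, s30, s21, s31, s32, t23] at D012
  have G012 := Fintype.linearIndependent_iff.1 h.2 ![b0 + d1 - a3, -a0 + d2, d3, -a1 - b2, -b3] (by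
    rw [Fin.sum_univ_five]
    show (b0 + d1 - a3) • B (e 0) (e 1) + (-a0 + d2) • B (e 0) (e 2) + (d3) • B (e 0) (e 3) + (-a1 - b2) • B (e 1) (e 2) + (-b3) • B (e 1) (e 3) = 0
    refine Eq.trans ?_ D012
    module)
  have E012_0 : b0 + d1 - a3 = 0 := G012 0
  have E012_1 : -a0 + d2 = 0 := G012 1
  have E012_2 : d3 = 0 := G012 2
  have E012_3 : -a1 - b2 = 0 := G012 3
  have E012_4 : -b3 = 0 := G012 4
  have D013 := hD (e 0) (e 1) (e 3)
  rw [sβ (e 3) (e 0), h13, h03, h01] at D013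
  simp only [map_add, map_smul, map_neg, hB, s10, s20, s30, s21, s31, s32, t23] at D013
  have G013 := Fintype.linearIndependent_iff.1 h.2 ![c0 + f1 + a2, f2, -a0 + f3, -c2, -a1 - c3] (by
    rw [Fin.sum_univ_five]
    show (c0 + f1 + a2) • B (e 0) (e 1) + (f2) • B (e 0) (e 2) + (-a0 + f3) • B (e 0) (e 3) + (-c2) • B (e 1) (e 2) + (-a1 - c3) • B (e 1) (e 3) = 0
    refine Eq.trans ?_ D013
    module)
  have E013_0 : c0 + f1 + a2 = 0 := G013 0
  have E013_1 : f2 = 0 := G013 1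
  have E013_2 : -a0 + f3 = 0 := G013 2
  have E013_3 : -c2 = 0 := G013 3
  have E013_4 : -a1 - c3 = 0 := G013 4
  have D023 := hD (e 0) (e 2) (e 3)
  rw [sβ (e 3) (e 0), h23, h03, h02] at D023
  simp only [map_add, map_smul, map_neg, hB, s10, s20, s30, s21, s31, s32, t23] at D023
  have G023 := Fintype.linearIndependent_iff.1 h.2 ![g1 + b2 + c3, c0 + g2, -b0 + g3, c1, -b1] (by
    rw [Fin.sum_univ_five]
    show (g1 + b2 + c3) • B (e 0) (e 1) + (c0 + g2) • B (e 0) (e 2) + (-b0 + g3) • B (e 0) (e 3) + (c1) • B (e 1) (e 2) + (-b1) • B (e 1) (e 3) = 0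
    refine Eq.trans ?_ D023
    module)
  have E023_0 : g1 + b2 + c3 = 0 := G023 0
  have E023_1 : c0 + g2 = 0 := G023 1
  have E023_2 : -b0 + g3 = 0 := G023 2
  have E023_3 : c1 = 0 := G023 3
  have E023_4 : -b1 = 0 := G023 4
  have D123 := hD (e 1) (e 2) (e 3)
  rw [sβ (e 3) (e 1), h23, h13, h12] at D123
  simp only [map_add, map_smul, map_neg, hB, s10, s20, s30, s21, s31, s32, t23] at D123
  have G123 := Fintype.linearIndependent_iff.1 h.2 ![-g0 + d2 + f3, f0, -d0, f1 + g2, -d1 + g3] (by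
    rw [Fin.sum_univ_five]
    show (-g0 + d2 + f3) • B (e 0) (e 1) + (f0) • B (e 0) (e 2) + (-d0) • B (e 0) (e 3) + (f1 + g2) • B (e 1) (e 2) + (-d1 + g3) • B (e 1) (e 3) = 0
    refine Eq.trans ?_ D123
    module)
  have E123_0 : -g0 + d2 + f3 = 0 := G123 0
  have E123_1 : f0 = 0 := G123 1
  have E123_2 : -d0 = 0 := G123 2
  have E123_3 : f1 + g2 = 0 := G123 3
  have E123_4 : -d1 + g3 = 0 := G123 4
  have za0 : a0 = 0 := by linear_combination (-1/3 : ℂ) * E012_1 + (-1/3 : ℂ) * E013_2 + (1/3 : ℂ) * E123_0 + (1/3 : ℂ) * K0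
  have za1 : a1 = 0 := by linear_combination (-1/3 : ℂ) * E012_3 + (-1/3 : ℂ) * E013_4 + (-1/3 : ℂ) * E023_0 + (1/3 : ℂ) * K1
  have za2 : a2 = 0 := by linear_combination (1/3 : ℂ) * E013_0 + (-1/3 : ℂ) * E023_1 + (-1/3 : ℂ) * E123_3 + (2/3 : ℂ) * K2
  have za3 : a3 = 0 := by linear_combination (-1/3 : ℂ) * E012_0 + (-1/3 : ℂ) * E023_2 + (-1/3 : ℂ) * E123_4 + (2/3 : ℂ) * K3
  have zb0 : b0 = 0 := by linear_combination (1/3 : ℂ) * E012_0 + (-2/3 : ℂ) * E023_2 + (1/3 : ℂ) * E123_4 + (1/3 : ℂ) * K3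
  have zb1 : b1 = 0 := by linear_combination (-1 : ℂ) * E023_4
  have zb2 : b2 = 0 := by linear_combination (-2/3 : ℂ) * E012_3 + (1/3 : ℂ) * E013_4 + (1/3 : ℂ) * E023_0 + (-1/3 : ℂ) * K1
  have zb3 : b3 = 0 := by linear_combination (-1 : ℂ) * E012_4
  have zc0 : c0 = 0 := by linear_combination (1/3 : ℂ) * E013_0 + (2/3 : ℂ) * E023_1 + (-1/3 : ℂ) * E123_3 + (-1/3 : ℂ) * K2
  have zc1 : c1 = 0 := by linear_combination (1 : ℂ) * E023_3
  have zc2 : c2 = 0 := by linear_combination (-1 : ℂ) * E013_3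
  have zc3 : c3 = 0 := by linear_combination (1/3 : ℂ) * E012_3 + (-2/3 : ℂ) * E013_4 + (1/3 : ℂ) * E023_0 + (-1/3 : ℂ) * K1
  have zd0 : d0 = 0 := by linear_combination (-1 : ℂ) * E123_2
  have zd1 : d1 = 0 := by linear_combination (1/3 : ℂ) * E012_0 + (1/3 : ℂ) * E023_2 + (-2/3 : ℂ) * E123_4 + (1/3 : ℂ) * K3
  have zd2 : d2 = 0 := by linear_combination (2/3 : ℂ) * E012_1 + (-1/3 : ℂ) * E013_2 + (1/3 : ℂ) * E123_0 + (1/3 : ℂ) * K0
  have zd3 : d3 = 0 := by linear_combination (1 : ℂ) * E012_2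
  have zf0 : f0 = 0 := by linear_combination (1 : ℂ) * E123_1
  have zf1 : f1 = 0 := by linear_combination (1/3 : ℂ) * E013_0 + (-1/3 : ℂ) * E023_1 + (2/3 : ℂ) * E123_3 + (-1/3 : ℂ) * K2
  have zf2 : f2 = 0 := by linear_combination (1 : ℂ) * E013_1
  have zf3 : f3 = 0 := by linear_combination (-1/3 : ℂ) * E012_1 + (2/3 : ℂ) * E013_2 + (1/3 : ℂ) * E123_0 + (1/3 : ℂ) * K0
  have zg0 : g0 = 0 := by linear_combination (1/3 : ℂ) * E012_1 + (1/3 : ℂ) * E013_2 + (-1/3 : ℂ) * E123_0 + (2/3 : ℂ) * K0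
  have zg1 : g1 = 0 := by linear_combination (1/3 : ℂ) * E012_3 + (1/3 : ℂ) * E013_4 + (1/3 : ℂ) * E023_0 + (2/3 : ℂ) * K1
  have zg2 : g2 = 0 := by linear_combination (-1/3 : ℂ) * E013_0 + (1/3 : ℂ) * E023_1 + (1/3 : ℂ) * E123_3 + (1/3 : ℂ) * K2
  have zg3 : g3 = 0 := by linear_combination (1/3 : ℂ) * E012_0 + (1/3 : ℂ) * E023_2 + (1/3 : ℂ) * E123_4 + (1/3 : ℂ) * K3
  have y01 : β (e 0) (e 1) = 0 := by rw [h01, za0, za1, za2, za3]; simp
  have y10 : β (e 1) (e 0) = 0 := by rw [sβ, y01, neg_zero]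
  have y02 : β (e 0) (e 2) = 0 := by rw [h02, zb0, zb1, zb2, zb3]; simp
  have y20 : β (e 2) (e 0) = 0 := by rw [sβ, y02, neg_zero]
  have y03 : β (e 0) (e 3) = 0 := by rw [h03, zc0, zc1, zc2, zc3]; simp
  have y30 : β (e 3) (e 0) = 0 := by rw [sβ, y03, neg_zero]
  have y12 : β (e 1) (e 2) = 0 := by rw [h12, zd0, zd1, zd2, zd3]; simp
  have y21 : β (e 2) (e 1) = 0 := by rw [sβ, y12, neg_zero]
  have y13 : β (e 1) (e 3) = 0 := by rw [h13, zf0, zf1, zf2, zf3]; simp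
  have y31 : β (e 3) (e 1) = 0 := by rw [sβ, y13, neg_zero]
  have y23 : β (e 2) (e 3) = 0 := by rw [h23, zg0, zg1, zg2, zg3]; simp
  have y32 : β (e 3) (e 2) = 0 := by rw [sβ, y23, neg_zero]
  refine e.ext fun i => e.ext fun j => ?_
  rw [LinearMap.zero_apply, LinearMap.zero_apply]
  fin_cases i <;> fin_cases j <;>
    first
      | exact hβ _
      | exact y01
      | exact y02
      | exact y03
      | exact y12
      | exact y13
      | exact y23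
      | exact y10
      | exact y20
      | exact y30
      | exact y21
      | exact y31
      | exact y32

end Pool.Agent.Helper12.Z4
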