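import Pool.Agent.Helper12.Z4.LA

/-! Z4-LA2: see the header of `LA.lean` (LA2).  `LA2_cl`: for `ND B` and `π x ≠ 0` the space `B(N, π x)` has dimension 3, so the condition
`Y x ∈ B(N, π x)` is the vanishing of 4 × 4 minors of the matrix with columns `Y x, B (e i) (π x)`, polynomial in `x`. -/

set_option autoImplicit false

namespace Pool.Agent.Helper12.Z4

open MvPolynomial
open scoped BigOperators

variable {N F : Type} [AddCommGroup N] [Module ℂ N] [AddCommGroup F] [Module ℂ F]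

private theorem skB {B : N →ₗ[ℂ] N →ₗ[ℂ] F} (hB : ∀ x, B x x = 0) (x y : N) :
    B x y = - B y x := by
  have h := hB (x + y)
  simp only [map_add, LinearMap.add_apply, hB, zero_add, add_zero] at h
  exact eq_neg_of_add_eq_zero_right h

private theorem expd {B : N →ₗ[ℂ] N →ₗ[ℂ] F} (hB : ∀ x, B x x = 0) (e : Fin 4 → N)
    (u v : Fin 4 → ℂ) : B (∑ i, u i • e i) (∑ i, v i • e i) =
      (u 0 * v 1 - u 1 * v 0) • B (e 0) (e 1) + (u 0 * v 2 - u 2 * v 0) • B (e 0) (e 2) +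
      (u 0 * v 3 - u 3 * v 0) • B (e 0) (e 3) + (u 1 * v 2 - u 2 * v 1) • B (e 1) (e 2) +
      (u 1 * v 3 - u 3 * v 1) • B (e 1) (e 3) + (u 2 * v 3 - u 3 * v 2) • B (e 2) (e 3) := by
  have h10 := skB hB (e 1) (e 0)
  have h20 := skB hB (e 2) (e 0)
  have h30 := skB hB (e 3) (e 0)
  have h21 := skB hB (e 2) (e 1)
  have h31 := skB hB (e 3) (e 1)
  have h32 := skB hB (e 3) (e 2)
  simp only [Fin.sum_univ_four, map_add, map_smul, LinearMap.add_apply, LinearMap.smul_apply, hB,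
    h10, h20, h30, h21, h31, h32]
  module

/-- a linear functional as a polynomial -/
private noncomputable def lp {m : ℕ} (f : (Fin m → ℂ) →ₗ[ℂ] ℂ) : MvPolynomial (Fin m) ℂ :=
  ∑ i, C (f (Pi.single i 1)) * X i

private theorem eval_lp {m : ℕ} (f : (Fin m → ℂ) →ₗ[ℂ] ℂ) (x : Fin m → ℂ) :
    eval x (lp f) = f x := by
  have h1 : x = ∑ i, x i • (Pi.single i 1 : Fin m → ℂ) := by
    funext j
    rw [Finset.sum_apply, Finset.sum_eq_single j]
    · rw [Pi.smul_apply, Pi.single_eq_same, smul_eq_mul, mul_one]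
    · intro b _ hb
      rw [Pi.smul_apply, Pi.single_eq_of_ne (Ne.symm hb), smul_zero]
    · intro hj
      exact absurd (Finset.mem_univ j) hj
  conv_rhs => rw [h1, map_sum]
  unfold lp
  rw [map_sum]
  refine Finset.sum_congr rfl fun i _ => ?_
  rw [map_mul, eval_C, eval_X, map_smul, smul_eq_mul, mul_comm]

/-- four vectors of `B(N, y)` are dependent -/
private theorem dep4 (hN : Module.finrank ℂ N = 4) {B : N →ₗ[ℂ] N →ₗ[ℂ] F} (hB : ∀ x, B x x = 0)
    (y : N) (g : Fin 4 → N) : ¬ LinearIndependent ℂ (fun i => B (g i) y) := by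
  have : FiniteDimensional ℂ N := FiniteDimensional.of_finrank_eq_succ (n := 3) hN
  intro hli
  have h1 : Module.finrank ℂ (LinearMap.range (B.flip y)) +
      Module.finrank ℂ (LinearMap.ker (B.flip y)) = 4 := by
    rw [LinearMap.finrank_range_add_finrank_ker, hN]
  have h2 : 4 ≤ Module.finrank ℂ (LinearMap.range (B.flip y)) := by
    let w : Fin 4 → LinearMap.range (B.flip y) := fun i => ⟨B (g i) y, ⟨g i, rfl⟩⟩
    have hw : LinearIndependent ℂ w := by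
      apply LinearIndependent.of_comp (LinearMap.range (B.flip y)).subtype
      exact hli
    have h3 := hw.fintype_card_le_finrank
    rw [Fintype.card_fin] at h3
    exact h3
  have h4 : Module.finrank ℂ (LinearMap.ker (B.flip y)) = 0 := by omega
  rw [Submodule.finrank_eq_zero] at h4
  have h5 : y ∈ LinearMap.ker (B.flip y) := by
    rw [LinearMap.mem_ker, LinearMap.flip_apply, hB]
  rw [h4, Submodule.mem_bot] at h5
  apply hli.ne_zero 0
  show B (g 0) y = 0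
  rw [h5, map_zero]

/-- the dichotomy -/
private theorem gen_aux {m : ℕ} (hN : Module.finrank ℂ N = 4) {B : N →ₗ[ℂ] N →ₗ[ℂ] F}
    (hB : ∀ x, B x x = 0) (hn : ND B) (π : (Fin m → ℂ) →ₗ[ℂ] N)
    (Y : (Fin m → ℂ) →ₗ[ℂ] F) :
    (∃ p : MvPolynomial (Fin m) ℂ, p ≠ 0 ∧ ∀ x, eval x p ≠ 0 → ∀ n, Y x ≠ B n (π x)) ∨
      ∀ x, π x ≠ 0 → ∃ n, Y x = B n (π x) := by
  by_cases hall : ∀ x, π x ≠ 0 → ∃ n, Y x = B n (π x)
  · exact Or.inr hall
  left
  push Not at hall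
  obtain ⟨x0, hx0, hY⟩ := hall
  have hfd : FiniteDimensional ℂ N := FiniteDimensional.of_finrank_eq_succ (n := 3) hN
  -- the kernel of `B(., π x0)` is a line
  have hker : Module.finrank ℂ (LinearMap.ker (B.flip (π x0))) = 1 := by
    have h1 : LinearMap.ker (B.flip (π x0)) = Submodule.span ℂ {π x0} := by
      apply le_antisymm
      · intro n hnk
        rw [LinearMap.mem_ker, LinearMap.flip_apply] at hnk
        by_contra hcon
        refine hn _ _ hnk ?_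
        rw [LinearIndependent.pair_symm_iff, LinearIndependent.pair_iff' hx0]
        intro a ha
        exact hcon (Submodule.mem_span_singleton.mpr ⟨a, ha⟩)
      · rw [Submodule.span_singleton_le_iff_mem, LinearMap.mem_ker, LinearMap.flip_apply, hB]
    rw [h1]
    exact finrank_span_singleton hx0
  have hran : Module.finrank ℂ (LinearMap.range (B.flip (π x0))) = 3 := by
    have h1 := LinearMap.finrank_range_add_finrank_ker (B.flip (π x0))
    omega
  let b := Module.finBasisOfFinrankEq ℂ (LinearMap.range (B.flip (π x0))) hran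
  have hb : ∀ i, ∃ n, B n (π x0) = (b i : F) := fun i => (b i).2
  choose g hg using hb
  have hli : LinearIndependent ℂ (Fin.cons (Y x0) (fun i => B (g i) (π x0)) : Fin 4 → F) := by
    rw [linearIndependent_finCons]
    constructor
    · have h1 : (fun i => B (g i) (π x0)) = fun i => ((b i : LinearMap.range (B.flip (π x0))) : F) := by
        funext i
        exact hg i
      rw [h1]
      exact b.linearIndependent.map' (LinearMap.range (B.flip (π x0))).subtype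
        (Submodule.ker_subtype _)
    · intro hmem
      have h1 : Submodule.span ℂ (Set.range fun i => B (g i) (π x0)) ≤
          LinearMap.range (B.flip (π x0)) := by
        rw [Submodule.span_le]
        rintro _ ⟨i, rfl⟩
        exact ⟨g i, rfl⟩
      obtain ⟨n, hn'⟩ := h1 hmem
      exact hY n hn'.symm
  -- coordinates
  obtain ⟨φ, hφ⟩ : ∃ φ : F →ₗ[ℂ] (Fin 4 → ℂ), ∀ j,
      φ ((Fin.cons (Y x0) (fun i => B (g i) (π x0)) : Fin 4 → F) j) = Pi.single j 1 := by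
    have hinj : LinearMap.ker (Fintype.linearCombination ℂ
        (Fin.cons (Y x0) (fun i => B (g i) (π x0)) : Fin 4 → F)) = ⊥ := by
      rw [LinearMap.ker_eq_bot]
      exact hli.fintypeLinearCombination_injective
    obtain ⟨φ, hφ⟩ := LinearMap.exists_leftInverse_of_injective _ hinj
    refine ⟨φ, fun j => ?_⟩
    have h1 := LinearMap.congr_fun hφ (Pi.single j 1)
    rw [LinearMap.comp_apply, Fintype.linearCombination_apply_single, one_smul] at h1
    exact h1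
  let col : Fin 4 → ((Fin m → ℂ) →ₗ[ℂ] F) := Fin.cons Y (fun i => (B (g i)) ∘ₗ π)
  let M : Matrix (Fin 4) (Fin 4) (MvPolynomial (Fin m) ℂ) :=
    Matrix.of fun i j => lp ((LinearMap.proj i) ∘ₗ φ ∘ₗ (col j))
  have hM : ∀ x, eval x M.det = Matrix.det (Matrix.of fun i j => φ (col j x) i) := by
    intro x
    rw [RingHom.map_det]
    congr 1
    ext i j
    rw [RingHom.mapMatrix_apply, Matrix.map_apply, Matrix.of_apply]
    show eval x (lp ((LinearMap.proj i) ∘ₗ φ ∘ₗ (col j))) = _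
    rw [eval_lp]
    rfl
  refine ⟨M.det, ?_, ?_⟩
  · intro h0
    have h1 := hM x0
    rw [h0, map_zero] at h1
    have h2 : (Matrix.of fun i j => φ (col j x0) i) = (1 : Matrix (Fin 4) (Fin 4) ℂ) := by
      ext i j
      rw [Matrix.of_apply]
      have h3 : col j x0 = (Fin.cons (Y x0) (fun i => B (g i) (π x0)) : Fin 4 → F) j := by
        refine Fin.cases ?_ (fun k => ?_) j
        · rfl
        · rfl
      rw [h3, hφ j, Matrix.one_apply, Pi.single_apply]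
    rw [h2, Matrix.det_one] at h1
    exact zero_ne_one h1
  · intro x hx n hYn
    rw [hM x] at hx
    have h1 : LinearIndependent ℂ (Matrix.of fun i j => φ (col j x) i).col := by
      rw [Matrix.linearIndependent_cols_iff_isUnit, Matrix.isUnit_iff_isUnit_det]
      exact isUnit_iff_ne_zero.mpr hx
    have h2 : LinearIndependent ℂ (fun j => col j x) := by
      apply LinearIndependent.of_comp φ
      exact h1
    apply dep4 hN hB (π x) (Fin.cons n g)
    have h3 : (fun i => B ((Fin.cons n g : Fin 4 → N) i) (π x)) = fun j => col j x := by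
      funext j
      refine Fin.cases ?_ (fun k => ?_) j
      · exact hYn.symm
      · rfl
    rw [h3]
    exact h2

/-- the coordinates of a vanishing combination, in both cases -/
private def HH (B : N →ₗ[ℂ] N →ₗ[ℂ] F) (e : Fin 4 → N) : Prop :=
  ∀ c0 c1 c2 c3 c4 c5 : ℂ, c0 • B (e 0) (e 1) + c1 • B (e 0) (e 2) + c2 • B (e 0) (e 3) +
    c3 • B (e 1) (e 2) + c4 • B (e 1) (e 3) + c5 • B (e 2) (e 3) = 0 →
    c0 = c5 ∧ c1 = 0 ∧ c2 = 0 ∧ c3 = 0 ∧ c4 = 0

private theorem HH_of_R6 {B : N →ₗ[ℂ] N →ₗ[ℂ] F} {e : Module.Basis (Fin 4) ℂ N} (h : R6 B e) :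
    HH B e := by
  intro c0 c1 c2 c3 c4 c5 hc
  have h2 := (Fintype.linearIndependent_iff.mp h) ![c0, c1, c2, c3, c4, c5] (by
    rw [Fin.sum_univ_six]
    exact hc)
  have k0 : c0 = 0 := h2 0
  have k1 : c1 = 0 := h2 1
  have k2 : c2 = 0 := h2 2
  have k3 : c3 = 0 := h2 3
  have k4 : c4 = 0 := h2 4
  have k5 : c5 = 0 := h2 5
  exact ⟨by rw [k0, k5], k1, k2, k3, k4⟩

private theorem HH_of_R5 {B : N →ₗ[ℂ] N →ₗ[ℂ] F} {e : Module.Basis (Fin 4) ℂ N} (h : R5 B e) :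
    HH B e := by
  intro c0 c1 c2 c3 c4 c5 hc
  obtain ⟨h0, h⟩ := h
  have h23 : B (e 2) (e 3) = - B (e 0) (e 1) := eq_neg_of_add_eq_zero_right h0
  have h2 := (Fintype.linearIndependent_iff.mp h) ![c0 - c5, c1, c2, c3, c4] (by
    rw [Fin.sum_univ_five]
    show (c0 - c5) • B (e 0) (e 1) + c1 • B (e 0) (e 2) + c2 • B (e 0) (e 3) +
      c3 • B (e 1) (e 2) + c4 • B (e 1) (e 3) = 0
    rw [← hc, h23]
    module)
  have k0 : c0 - c5 = 0 := h2 0
  have k1 : c1 = 0 := h2 1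
  have k2 : c2 = 0 := h2 2
  have k3 : c3 = 0 := h2 3
  have k4 : c4 = 0 := h2 4
  exact ⟨sub_eq_zero.mp k0, k1, k2, k3, k4⟩

/-- closure: a condition on a dense set holds everywhere -/
theorem LA2_cl {m : ℕ} [Module.Finite ℂ F] (hN : Module.finrank ℂ N = 4) {B : N →ₗ[ℂ] N →ₗ[ℂ] F}
    (hB : ∀ x, B x x = 0) (hn : ND B) (π : (Fin m → ℂ) →ₗ[ℂ] N) (hπ : Function.Surjective π)
    (Y : (Fin m → ℂ) →ₗ[ℂ] F) {p : MvPolynomial (Fin m) ℂ} (hp : p ≠ 0)
    (h : ∀ x, eval x p ≠ 0 → ∃ n, Y x = B n (π x)) : ∀ x, π x ≠ 0 → ∃ n, Y x = B n (π x) := by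
  have _ := hπ
  rcases gen_aux hN hB hn π Y with ⟨q, hq, hqn⟩ | h1
  · exfalso
    have h2 : p * q ≠ 0 := mul_ne_zero hp hq
    apply h2
    apply MvPolynomial.funext
    intro x
    rw [map_zero, map_mul]
    by_contra hcon
    obtain ⟨n, hnx⟩ := h x (left_ne_zero_of_mul hcon)
    exact hqn x (right_ne_zero_of_mul hcon) n hnx
  · exact h1

/-- the dichotomy form of `LA2_cl` -/
theorem LA2_gen {m : ℕ} [Module.Finite ℂ F] (hN : Module.finrank ℂ N = 4) {B : N →ₗ[ℂ] N →ₗ[ℂ] F}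
    (hB : ∀ x, B x x = 0) (hn : ND B) (π : (Fin m → ℂ) →ₗ[ℂ] N) (hπ : Function.Surjective π)
    (Y : (Fin m → ℂ) →ₗ[ℂ] F) :
    (∃ p : MvPolynomial (Fin m) ℂ, p ≠ 0 ∧ ∀ x, eval x p ≠ 0 → ∀ n, Y x ≠ B n (π x)) ∨
      ∀ x, π x ≠ 0 → ∃ n, Y x = B n (π x) := by
  have _ := hπ
  exact gen_aux hN hB hn π Y

theorem LA2 {V : Type} [AddCommGroup V] [Module ℂ V] (hN : Module.finrank ℂ N = 4)
    {B : N →ₗ[ℂ] N →ₗ[ℂ] F} (hB : ∀ x, B x x = 0) (hn : ND B) (π : V →ₗ[ℂ] N)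
    (hπ : Function.Surjective π) (Y : V →ₗ[ℂ] F) (h : ∀ x, π x ≠ 0 → ∃ n, Y x = B n (π x)) :
    ∃ z, ∀ x, Y x = B z (π x) := by
  have hfd : FiniteDimensional ℂ N := FiniteDimensional.of_finrank_eq_succ (n := 3) hN
  obtain ⟨e, he⟩ : ∃ e : Module.Basis (Fin 4) ℂ N, HH B e := by
    rcases dich hN hB hn with h1 | ⟨e, h1⟩
    · exact ⟨Module.finBasisOfFinrankEq ℂ N hN, HH_of_R6 (h1 _)⟩
    · exact ⟨e, HH_of_R5 h1⟩
  -- `Y` vanishes on the kernel of `π`
  have hk : ∀ u, π u = 0 → Y u = 0 := by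
    intro u hu
    have hm : ∀ y : N, y ≠ 0 → ∃ n, Y u = B n y := by
      intro y hy
      obtain ⟨x, rfl⟩ := hπ y
      obtain ⟨n1, hn1⟩ := h x hy
      obtain ⟨n2, hn2⟩ := h (x + u) (by rwa [map_add, hu, add_zero])
      refine ⟨n2 - n1, ?_⟩
      rw [map_add π, hu, add_zero, map_add] at hn2
      rw [map_sub, LinearMap.sub_apply, ← hn2, ← hn1]
      abel
    have hcomb : ∀ v : Fin 4 → ℂ, v ≠ 0 → ∃ w : Fin 4 → ℂ,
        Y u = B (∑ i, w i • e i) (∑ i, v i • e i) := by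
      intro v hv
      obtain ⟨n, hn'⟩ := hm (∑ i, v i • e i) (by
        intro h0
        apply hv
        funext i
        exact (Fintype.linearIndependent_iff.mp e.linearIndependent) v h0 i)
      exact ⟨e.repr n, by rw [e.sum_repr]; exact hn'⟩
    obtain ⟨a, ha⟩ := hcomb ![1, 0, 0, 0] (fun h0 => one_ne_zero (congrFun h0 0))
    obtain ⟨b, hb⟩ := hcomb ![0, 1, 0, 0] (fun h0 => one_ne_zero (congrFun h0 1))
    obtain ⟨c, hc⟩ := hcomb ![1, 0, 1, 0] (fun h0 => one_ne_zero (congrFun h0 0))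
    rw [expd hB] at ha hb hc
    have ha' : Y u = (-(a 1)) • B (e 0) (e 1) + (-(a 2)) • B (e 0) (e 2) +
        (-(a 3)) • B (e 0) (e 3) := by
      rw [ha]
      show (a 0 * 0 - a 1 * 1) • B (e 0) (e 1) + (a 0 * 0 - a 2 * 1) • B (e 0) (e 2) +
        (a 0 * 0 - a 3 * 1) • B (e 0) (e 3) + (a 1 * 0 - a 2 * 0) • B (e 1) (e 2) +
        (a 1 * 0 - a 3 * 0) • B (e 1) (e 3) + (a 2 * 0 - a 3 * 0) • B (e 2) (e 3) = _
      module
    have hb' : Y u = (b 0) • B (e 0) (e 1) + (-(b 2)) • B (e 1) (e 2) +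
        (-(b 3)) • B (e 1) (e 3) := by
      rw [hb]
      show (b 0 * 1 - b 1 * 0) • B (e 0) (e 1) + (b 0 * 0 - b 2 * 0) • B (e 0) (e 2) +
        (b 0 * 0 - b 3 * 0) • B (e 0) (e 3) + (b 1 * 0 - b 2 * 1) • B (e 1) (e 2) +
        (b 1 * 0 - b 3 * 1) • B (e 1) (e 3) + (b 2 * 0 - b 3 * 0) • B (e 2) (e 3) = _
      module
    have hc' : Y u = (-(c 1)) • B (e 0) (e 1) + (c 0 - c 2) • B (e 0) (e 2) +
        (-(c 3)) • B (e 0) (e 3) + (c 1) • B (e 1) (e 2) + (-(c 3)) • B (e 2) (e 3) := by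
      rw [hc]
      show (c 0 * 0 - c 1 * 1) • B (e 0) (e 1) + (c 0 * 1 - c 2 * 1) • B (e 0) (e 2) +
        (c 0 * 0 - c 3 * 1) • B (e 0) (e 3) + (c 1 * 1 - c 2 * 0) • B (e 1) (e 2) +
        (c 1 * 0 - c 3 * 0) • B (e 1) (e 3) + (c 2 * 0 - c 3 * 1) • B (e 2) (e 3) = _
      module
    obtain ⟨p0, p1, p2, p3, p4⟩ := he (-(a 1) - b 0) (-(a 2)) (-(a 3)) (b 2) (b 3) 0 (by
      have h1 : Y u - Y u = 0 := sub_self _
      have h2 : (-(a 1)) • B (e 0) (e 1) + (-(a 2)) • B (e 0) (e 2) + (-(a 3)) • B (e 0) (e 3) -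
        ((b 0) • B (e 0) (e 1) + (-(b 2)) • B (e 1) (e 2) + (-(b 3)) • B (e 1) (e 3)) = 0 := by
        rw [← ha', ← hb', h1]
      rw [← h2]
      module)
    obtain ⟨q0, q1, q2, q3, q4⟩ := he (-(a 1) + c 1) (-(a 2) - (c 0 - c 2)) (-(a 3) + c 3) (- c 1) 0
      (c 3) (by
      have h1 : Y u - Y u = 0 := sub_self _
      have h2 : (-(a 1)) • B (e 0) (e 1) + (-(a 2)) • B (e 0) (e 2) + (-(a 3)) • B (e 0) (e 3) -
        ((-(c 1)) • B (e 0) (e 1) + (c 0 - c 2) • B (e 0) (e 2) +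
        (-(c 3)) • B (e 0) (e 3) + (c 1) • B (e 1) (e 2) + (-(c 3)) • B (e 2) (e 3)) = 0 := by
        rw [← ha', ← hc', h1]
      rw [← h2]
      module)
    have r1 : a 1 = 0 := by
      linear_combination -q0 - q2 + p2 - q3
    rw [ha', r1, p1, p2]
    module
  -- coordinates of `Y x`
  have hm : ∀ y : N, y ≠ 0 → ∀ x, π x = y → ∃ w : Fin 4 → ℂ, Y x = B (∑ i, w i • e i) y := by
    rintro y hy x rfl
    obtain ⟨n, hn'⟩ := h x hy
    exact ⟨e.repr n, by rw [e.sum_repr]; exact hn'⟩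
  have hx : ∀ i, ∃ x, π x = e i := fun i => hπ (e i)
  choose x hx using hx
  have hz : ∀ i, ∃ w : Fin 4 → ℂ, Y (x i) = B (∑ j, w j • e j) (e i) :=
    fun i => hm (e i) (e.ne_zero i) (x i) (hx i)
  choose z hz using hz
  have h10 := skB hB (e 1) (e 0)
  have h20 := skB hB (e 2) (e 0)
  have h30 := skB hB (e 3) (e 0)
  have h21 := skB hB (e 2) (e 1)
  have h31 := skB hB (e 3) (e 1)
  have h32 := skB hB (e 3) (e 2)
  have hG : ∀ v : Fin 4 → ℂ, v ≠ 0 → ∃ w : Fin 4 → ℂ,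
      v 1 * (z 1 0 - w 0) - v 0 * (z 0 1 - w 1) = v 3 * (z 3 2 - w 2) - v 2 * (z 2 3 - w 3) ∧
      v 2 * (z 2 0 - w 0) - v 0 * (z 0 2 - w 2) = 0 ∧
      v 3 * (z 3 0 - w 0) - v 0 * (z 0 3 - w 3) = 0 ∧
      v 2 * (z 2 1 - w 1) - v 1 * (z 1 2 - w 2) = 0 ∧
      v 3 * (z 3 1 - w 1) - v 1 * (z 1 3 - w 3) = 0 := by
    intro v hv
    have hy : ∑ i, v i • e i ≠ 0 := by
      intro h0
      apply hv
      funext i
      exact (Fintype.linearIndependent_iff.mp e.linearIndependent) v h0 i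
    obtain ⟨w, hw⟩ := hm _ hy (∑ i, v i • x i) (by
      rw [map_sum]
      exact Finset.sum_congr rfl fun i _ => by rw [map_smul, hx i])
    refine ⟨w, he _ _ _ _ _ _ ?_⟩
    rw [expd hB, map_sum, Fin.sum_univ_four, map_smul, map_smul, map_smul, map_smul, hz 0, hz 1,
      hz 2, hz 3] at hw
    rw [← sub_eq_zero] at hw
    rw [← hw]
    simp only [Fin.sum_univ_four, map_add, map_smul, LinearMap.add_apply, LinearMap.smul_apply, hB,
      h10, h20, h30, h21, h31, h32]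
    module
  have n1 : (1 : ℂ) ≠ 0 := one_ne_zero
  -- the six pairs
  obtain ⟨a, -, a1, a2, a3, a4⟩ := hG ![1, 1, 0, 0] (fun h0 => n1 (congrFun h0 0))
  change 0 * (z 2 0 - a 0) - 1 * (z 0 2 - a 2) = 0 at a1
  change 0 * (z 3 0 - a 0) - 1 * (z 0 3 - a 3) = 0 at a2
  change 0 * (z 2 1 - a 1) - 1 * (z 1 2 - a 2) = 0 at a3
  change 0 * (z 3 1 - a 1) - 1 * (z 1 3 - a 3) = 0 at a4
  obtain ⟨b, -, b1, b2, b3, b4⟩ := hG ![0, 0, 1, 1] (fun h0 => n1 (congrFun h0 2))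
  change 1 * (z 2 0 - b 0) - 0 * (z 0 2 - b 2) = 0 at b1
  change 1 * (z 3 0 - b 0) - 0 * (z 0 3 - b 3) = 0 at b2
  change 1 * (z 2 1 - b 1) - 0 * (z 1 2 - b 2) = 0 at b3
  change 1 * (z 3 1 - b 1) - 0 * (z 1 3 - b 3) = 0 at b4
  -- (0,2)
  have k02 : ∀ t : ℂ, t ≠ 0 → z 0 1 - z 2 1 = t * (z 2 3 - z 0 3) := by
    intro t ht
    obtain ⟨c, c0, c1, c2, c3, c4⟩ := hG ![1, 0, t, 0] (fun h0 => n1 (congrFun h0 0))
    change 0 * (z 1 0 - c 0) - 1 * (z 0 1 - c 1) = 0 * (z 3 2 - c 2) - t * (z 2 3 - c 3) at c0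
    change 0 * (z 3 0 - c 0) - 1 * (z 0 3 - c 3) = 0 at c2
    change t * (z 2 1 - c 1) - 0 * (z 1 2 - c 2) = 0 at c3
    have c3' : z 2 1 - c 1 = 0 := by
      have : t * (z 2 1 - c 1) = 0 := by linear_combination c3
      exact (mul_eq_zero.mp this).resolve_left ht
    linear_combination -c0 - c3' - t * c2
  have k03 : ∀ t : ℂ, t ≠ 0 → z 0 1 - z 3 1 = t * (z 0 2 - z 3 2) := by
    intro t ht
    obtain ⟨c, c0, c1, c2, c3, c4⟩ := hG ![1, 0, 0, t] (fun h0 => n1 (congrFun h0 0))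
    change 0 * (z 1 0 - c 0) - 1 * (z 0 1 - c 1) = t * (z 3 2 - c 2) - 0 * (z 2 3 - c 3) at c0
    change 0 * (z 2 0 - c 0) - 1 * (z 0 2 - c 2) = 0 at c1
    change t * (z 3 1 - c 1) - 0 * (z 1 3 - c 3) = 0 at c4
    have c4' : z 3 1 - c 1 = 0 := by
      have : t * (z 3 1 - c 1) = 0 := by linear_combination c4
      exact (mul_eq_zero.mp this).resolve_left ht
    linear_combination -c0 - c4' + t * c1
  have k12 : ∀ t : ℂ, t ≠ 0 → z 1 0 - z 2 0 = t * (z 1 3 - z 2 3) := by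
    intro t ht
    obtain ⟨c, c0, c1, c2, c3, c4⟩ := hG ![0, 1, t, 0] (fun h0 => n1 (congrFun h0 1))
    change 1 * (z 1 0 - c 0) - 0 * (z 0 1 - c 1) = 0 * (z 3 2 - c 2) - t * (z 2 3 - c 3) at c0
    change t * (z 2 0 - c 0) - 0 * (z 0 2 - c 2) = 0 at c1
    change 0 * (z 3 1 - c 1) - 1 * (z 1 3 - c 3) = 0 at c4
    have c1' : z 2 0 - c 0 = 0 := by
      have : t * (z 2 0 - c 0) = 0 := by linear_combination c1
      exact (mul_eq_zero.mp this).resolve_left ht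
    linear_combination c0 - c1' + t * c4
  have k13 : ∀ t : ℂ, t ≠ 0 → z 1 0 - z 3 0 = t * (z 3 2 - z 1 2) := by
    intro t ht
    obtain ⟨c, c0, c1, c2, c3, c4⟩ := hG ![0, 1, 0, t] (fun h0 => n1 (congrFun h0 1))
    change 1 * (z 1 0 - c 0) - 0 * (z 0 1 - c 1) = t * (z 3 2 - c 2) - 0 * (z 2 3 - c 3) at c0
    change t * (z 3 0 - c 0) - 0 * (z 0 3 - c 3) = 0 at c2
    change 0 * (z 2 1 - c 1) - 1 * (z 1 2 - c 2) = 0 at c3
    have c2' : z 3 0 - c 0 = 0 := by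
      have : t * (z 3 0 - c 0) = 0 := by linear_combination c2
      exact (mul_eq_zero.mp this).resolve_left ht
    linear_combination c0 - c2' - t * c3
  have m1 : (-1 : ℂ) ≠ 0 := neg_ne_zero.mpr n1
  have k02a := k02 1 n1
  have k02b := k02 (-1) m1
  have k03a := k03 1 n1
  have k03b := k03 (-1) m1
  have k12a := k12 1 n1
  have k12b := k12 (-1) m1
  have k13a := k13 1 n1
  have k13b := k13 (-1) m1
  -- all coordinates
  have e20 : z 2 0 = z 1 0 := by linear_combination -(k12a + k12b) / 2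
  have e30 : z 3 0 = z 1 0 := by linear_combination -(k13a + k13b) / 2
  have e21 : z 2 1 = z 0 1 := by linear_combination -(k02a + k02b) / 2
  have e31 : z 3 1 = z 0 1 := by linear_combination -(k03a + k03b) / 2
  have e12 : z 1 2 = z 0 2 := by linear_combination a1 - a3
  have e32 : z 3 2 = z 0 2 := by linear_combination (k03a - k03b) / 2
  have e13 : z 1 3 = z 0 3 := by linear_combination a2 - a4
  have e23 : z 2 3 = z 0 3 := by linear_combination -(k02a - k02b) / 2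
  let Z : N := ∑ j, (![z 1 0, z 0 1, z 0 2, z 0 3] : Fin 4 → ℂ) j • e j
  have hZ : ∀ i, Y (x i) = B Z (e i) := by
    intro i
    rw [hz i]
    show _ = B (∑ j, (![z 1 0, z 0 1, z 0 2, z 0 3] : Fin 4 → ℂ) j • e j) (e i)
    rw [Fin.sum_univ_four, Fin.sum_univ_four]
    show _ = B (z 1 0 • e 0 + z 0 1 • e 1 + z 0 2 • e 2 + z 0 3 • e 3) (e i)
    simp only [map_add, map_smul, LinearMap.add_apply, LinearMap.smul_apply]
    fin_cases i
    · show z 0 0 • B (e 0) (e 0) + z 0 1 • B (e 1) (e 0) + z 0 2 • B (e 2) (e 0) +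
        z 0 3 • B (e 3) (e 0) = z 1 0 • B (e 0) (e 0) + z 0 1 • B (e 1) (e 0) +
        z 0 2 • B (e 2) (e 0) + z 0 3 • B (e 3) (e 0)
      rw [hB, smul_zero, smul_zero]
    · show z 1 0 • B (e 0) (e 1) + z 1 1 • B (e 1) (e 1) + z 1 2 • B (e 2) (e 1) +
        z 1 3 • B (e 3) (e 1) = z 1 0 • B (e 0) (e 1) + z 0 1 • B (e 1) (e 1) +
        z 0 2 • B (e 2) (e 1) + z 0 3 • B (e 3) (e 1)
      rw [hB, smul_zero, smul_zero, e12, e13]
    · show z 2 0 • B (e 0) (e 2) + z 2 1 • B (e 1) (e 2) + z 2 2 • B (e 2) (e 2) +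
        z 2 3 • B (e 3) (e 2) = z 1 0 • B (e 0) (e 2) + z 0 1 • B (e 1) (e 2) +
        z 0 2 • B (e 2) (e 2) + z 0 3 • B (e 3) (e 2)
      rw [hB, smul_zero, smul_zero, e20, e21, e23]
    · show z 3 0 • B (e 0) (e 3) + z 3 1 • B (e 1) (e 3) + z 3 2 • B (e 2) (e 3) +
        z 3 3 • B (e 3) (e 3) = z 1 0 • B (e 0) (e 3) + z 0 1 • B (e 1) (e 3) +
        z 0 2 • B (e 2) (e 3) + z 0 3 • B (e 3) (e 3)
      rw [hB, smul_zero, smul_zero, e30, e31, e32]
  refine ⟨Z, fun u => ?_⟩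
  have hu : π (u - ∑ i, e.repr (π u) i • x i) = 0 := by
    have h1 : ∑ i, e.repr (π u) i • π (x i) = π u := by
      simp only [hx]
      exact e.sum_repr (π u)
    rw [map_sub, map_sum]
    simp only [map_smul]
    rw [h1, sub_self]
  have h2 := hk _ hu
  rw [map_sub, map_sum, sub_eq_zero] at h2
  rw [h2]
  conv_rhs => rw [← e.sum_repr (π u), map_sum]
  refine Finset.sum_congr rfl fun i _ => ?_
  rw [map_smul, map_smul, hZ i]

end Pool.Agent.Helper12.Z4
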