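import Mathlib

/-! Z4-LA3: alternating forms on a 4-dimensional space.
* `rank4`: normal form of an alternating form `c` on `N`, `dim N = 4`: `c = 0`, or rank 2, or a symplectic basis.
* `LA3`: in a symplectic basis (`c(e0,e1) = c(e2,e3) = 1`) the trilinear map `C(v,w,x) = c(v,w)x + c(w,x)v + c(x,v)w` has
  `C(e0,e1,e2) = e2, C(e0,e1,e3) = e3, C(e0,e2,e3) = e0, C(e1,e2,e3) = e1`; put `Ψ(e2) := D(e0,e1,e2)` etc. -/

set_option autoImplicit false

namespace Pool.Agent.Helper12.Z4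

open scoped BigOperators

variable {N F : Type} [AddCommGroup N] [Module ℂ N] [AddCommGroup F] [Module ℂ F]

private theorem la3_sk {c : N →ₗ[ℂ] N →ₗ[ℂ] ℂ} (hc : ∀ x, c x x = 0) (x y : N) :
    c y x = -c x y := by
  have h := hc (x + y)
  simp only [map_add, LinearMap.add_apply, hc] at h
  linear_combination h

private theorem la3_mk (hN : Module.finrank ℂ N = 4) {c : N →ₗ[ℂ] N →ₗ[ℂ] ℂ}
    (hc : ∀ x, c x x = 0) {x y q0 q1 : N} (hxy : c x y = 1) (h1 : c x q0 = 0) (h2 : c x q1 = 0)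
    (h3 : c y q0 = 0) (h4 : c y q1 = 0) (hq : ∀ a b : ℂ, a • q0 + b • q1 = 0 → a = 0 ∧ b = 0) :
    ∃ e : Module.Basis (Fin 4) ℂ N, e 0 = q0 ∧ e 1 = q1 ∧ e 2 = x ∧ e 3 = y := by
  have hli : LinearIndependent ℂ ![q0, q1, x, y] := by
    rw [Fintype.linearIndependent_iff]
    intro g hg
    rw [Fin.sum_univ_four] at hg
    have hg' : g 0 • q0 + g 1 • q1 + g 2 • x + g 3 • y = 0 := hg
    have hyx : c y x = -1 := by rw [la3_sk hc, hxy]
    have a3 : g 3 = 0 := by
      have h := congrArg (c x) hg'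
      simp only [map_add, map_smul, h1, h2, hc, hxy, smul_eq_mul, map_zero] at h
      linear_combination h
    have a2 : g 2 = 0 := by
      have h := congrArg (c y) hg'
      simp only [map_add, map_smul, h3, h4, hc, hyx, smul_eq_mul, map_zero] at h
      linear_combination -h
    rw [a2, a3, zero_smul, zero_smul, add_zero, add_zero] at hg'
    obtain ⟨a0, a1⟩ := hq (g 0) (g 1) hg'
    intro i
    fin_cases i
    · exact a0
    · exact a1
    · exact a2
    · exact a3
  let e := basisOfLinearIndependentOfCardEqFinrank hli (by rw [hN]; simp)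
  have he : ∀ i, e i = ![q0, q1, x, y] i := fun i => by
    simp only [e, coe_basisOfLinearIndependentOfCardEqFinrank]
  exact ⟨e, he 0, he 1, he 2, he 3⟩

/-- an alternating trilinear map which vanishes on the four increasing triples vanishes -/
private theorem la3_zero (e : Module.Basis (Fin 4) ℂ N) (E : N →ₗ[ℂ] N →ₗ[ℂ] N →ₗ[ℂ] F)
    (h1 : ∀ v x, E v v x = 0) (h2 : ∀ v x, E x v v = 0) (k012 : E (e 0) (e 1) (e 2) = 0)
    (k013 : E (e 0) (e 1) (e 3) = 0) (k023 : E (e 0) (e 2) (e 3) = 0)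
    (k123 : E (e 1) (e 2) (e 3) = 0) : E = 0 := by
  have s1 : ∀ v w x, E w v x = -E v w x := by
    intro v w x
    have h := h1 (v + w) x
    simp only [map_add, LinearMap.add_apply, h1, zero_add, add_zero] at h
    exact eq_neg_of_add_eq_zero_left h
  have s2 : ∀ v w x, E v x w = -E v w x := by
    intro v w x
    have h := h2 (w + x) v
    simp only [map_add, LinearMap.add_apply, h2, zero_add, add_zero] at h
    exact eq_neg_of_add_eq_zero_left h
  have h3 : ∀ v x, E v x v = 0 := by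
    intro v x
    rw [s2, h1, neg_zero]
  have perm : ∀ a b c, E a b c = 0 →
      E b a c = 0 ∧ E a c b = 0 ∧ E b c a = 0 ∧ E c a b = 0 ∧ E c b a = 0 := by
    intro a b c h
    have t1 : E b a c = 0 := by rw [s1, h, neg_zero]
    have t2 : E a c b = 0 := by rw [s2, h, neg_zero]
    have t3 : E b c a = 0 := by rw [s2, t1, neg_zero]
    have t4 : E c a b = 0 := by rw [s1, t2, neg_zero]
    have t5 : E c b a = 0 := by rw [s1, t3, neg_zero]
    exact ⟨t1, t2, t3, t4, t5⟩
  obtain ⟨a1, a2, a3, a4, a5⟩ := perm _ _ _ k012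
  obtain ⟨b1, b2, b3, b4, b5⟩ := perm _ _ _ k013
  obtain ⟨c1, c2, c3, c4, c5⟩ := perm _ _ _ k023
  obtain ⟨d1, d2, d3, d4, d5⟩ := perm _ _ _ k123
  refine e.ext fun i => e.ext fun j => e.ext fun k => ?_
  simp only [LinearMap.zero_apply]
  fin_cases i <;> fin_cases j <;> fin_cases k <;>
    simp only [Fin.zero_eta, Fin.mk_one, Fin.reduceFinMk, h1, h2, h3, k012, k013, k023, k123, a1, a2,
      a3, a4, a5, b1, b2, b3, b4, b5, c1, c2, c3, c4, c5, d1, d2, d3, d4, d5]

/-- the trilinear map `(v, w, x) ↦ c(v,w)x + c(w,x)v + c(x,v)w` -/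
private def la3_C (c : N →ₗ[ℂ] N →ₗ[ℂ] ℂ) : N →ₗ[ℂ] N →ₗ[ℂ] N →ₗ[ℂ] N where
  toFun v := LinearMap.mk₂ ℂ (fun w x => c v w • x + c w x • v + c x v • w)
    (fun a b x => by simp only [map_add, LinearMap.add_apply]; module)
    (fun a b x => by simp only [map_smul, LinearMap.smul_apply, smul_eq_mul]; module)
    (fun a b x => by simp only [map_add, LinearMap.add_apply]; module)
    (fun a b x => by simp only [map_smul, LinearMap.smul_apply, smul_eq_mul]; module)
  map_add' a b := by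
    refine LinearMap.ext fun w => LinearMap.ext fun x => ?_
    simp only [LinearMap.mk₂_apply, map_add, LinearMap.add_apply]
    module
  map_smul' a b := by
    refine LinearMap.ext fun w => LinearMap.ext fun x => ?_
    simp only [LinearMap.mk₂_apply, map_smul, LinearMap.smul_apply, smul_eq_mul,
      RingHom.id_apply]
    module

private theorem la3_C_apply (c : N →ₗ[ℂ] N →ₗ[ℂ] ℂ) (v w x : N) :
    la3_C c v w x = c v w • x + c w x • v + c x v • w := rfl

/-- composition of a trilinear map with a linear map -/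
private def la3_comp (Ψ : N →ₗ[ℂ] F) (C : N →ₗ[ℂ] N →ₗ[ℂ] N →ₗ[ℂ] N) :
    N →ₗ[ℂ] N →ₗ[ℂ] N →ₗ[ℂ] F where
  toFun v := LinearMap.mk₂ ℂ (fun w x => Ψ (C v w x))
    (fun a b x => by simp only [map_add, LinearMap.add_apply])
    (fun a b x => by simp only [map_smul, LinearMap.smul_apply])
    (fun a b x => by simp only [map_add])
    (fun a b x => by simp only [map_smul])
  map_add' a b := by
    refine LinearMap.ext fun w => LinearMap.ext fun x => ?_
    simp only [LinearMap.mk₂_apply, map_add, LinearMap.add_apply]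
  map_smul' a b := by
    refine LinearMap.ext fun w => LinearMap.ext fun x => ?_
    simp only [LinearMap.mk₂_apply, map_smul, LinearMap.smul_apply, RingHom.id_apply]

private theorem la3_comp_apply (Ψ : N →ₗ[ℂ] F) (C : N →ₗ[ℂ] N →ₗ[ℂ] N →ₗ[ℂ] N) (v w x : N) :
    la3_comp Ψ C v w x = Ψ (C v w x) := rfl

theorem rank4 (hN : Module.finrank ℂ N = 4) {c : N →ₗ[ℂ] N →ₗ[ℂ] ℂ} (hc : ∀ x, c x x = 0) :
    (∀ x y, c x y = 0) ∨
    (∃ e : Module.Basis (Fin 4) ℂ N, (∀ x, c (e 0) x = 0) ∧ (∀ x, c (e 1) x = 0) ∧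
      c (e 2) (e 3) = 1) ∨
    (∃ e : Module.Basis (Fin 4) ℂ N, c (e 0) (e 1) = 1 ∧ c (e 2) (e 3) = 1 ∧ c (e 0) (e 2) = 0 ∧
      c (e 0) (e 3) = 0 ∧ c (e 1) (e 2) = 0 ∧ c (e 1) (e 3) = 0) := by
  classical
  by_cases h0 : ∀ x y, c x y = 0
  · exact Or.inl h0
  right
  push Not at h0
  obtain ⟨x, y', hxy'⟩ := h0
  obtain ⟨y, hxy⟩ : ∃ y, c x y = 1 :=
    ⟨(c x y')⁻¹ • y', by rw [map_smul, smul_eq_mul, inv_mul_cancel₀ hxy']⟩
  have hyx : c y x = -1 := by rw [la3_sk hc, hxy]
  have hfd : Module.Finite ℂ N := Module.finite_of_finrank_pos (by omega)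
  have hsurj : Function.Surjective ((c x).prod (c y)) := by
    intro p
    refine ⟨p.1 • y - p.2 • x, ?_⟩
    apply Prod.ext
    · simp [hxy, hc]
    · simp [hyx, hc]
  have hk : Module.finrank ℂ (LinearMap.ker ((c x).prod (c y))) = 2 := by
    have h1 := LinearMap.finrank_range_add_finrank_ker ((c x).prod (c y))
    rw [LinearMap.range_eq_top.2 hsurj, finrank_top, hN, Module.finrank_prod,
      Module.finrank_self] at h1
    omega
  let b := Module.finBasisOfFinrankEq ℂ (LinearMap.ker ((c x).prod (c y))) hk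
  have hb : ∀ i, c x (b i : N) = 0 ∧ c y (b i : N) = 0 := by
    intro i
    have h1 : ((c x).prod (c y)) (b i : N) = 0 := (b i).2
    exact ⟨congrArg Prod.fst h1, congrArg Prod.snd h1⟩
  have hq : ∀ s t : ℂ, s • (b 0 : N) + t • (b 1 : N) = 0 → s = 0 ∧ t = 0 := by
    intro s t h1
    have h2 := Fintype.linearIndependent_iff.1 b.linearIndependent ![s, t] (by
      rw [Fin.sum_univ_two]
      apply Subtype.ext
      exact h1)
    exact ⟨h2 0, h2 1⟩
  by_cases hz : c (b 0 : N) (b 1 : N) = 0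
  · left
    obtain ⟨e, e0, e1, e2, e3⟩ := la3_mk hN hc hxy (hb 0).1 (hb 1).1 (hb 0).2 (hb 1).2 hq
    have z0 : c (e 0) = 0 := by
      apply e.ext
      intro i
      fin_cases i
      · exact hc _
      · show c (e 0) (e 1) = 0
        rw [e0, e1, hz]
      · show c (e 0) (e 2) = 0
        rw [e0, e2, la3_sk hc, (hb 0).1, neg_zero]
      · show c (e 0) (e 3) = 0
        rw [e0, e3, la3_sk hc, (hb 0).2, neg_zero]
    have z1 : c (e 1) = 0 := by
      apply e.ext
      intro i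
      fin_cases i
      · show c (e 1) (e 0) = 0
        rw [e0, e1, la3_sk hc, hz, neg_zero]
      · exact hc _
      · show c (e 1) (e 2) = 0
        rw [e1, e2, la3_sk hc, (hb 1).1, neg_zero]
      · show c (e 1) (e 3) = 0
        rw [e1, e3, la3_sk hc, (hb 1).2, neg_zero]
    refine ⟨e, fun x => by rw [z0]; rfl, fun x => by rw [z1]; rfl, ?_⟩
    rw [e2, e3, hxy]
  · right
    set q1 : N := (c (b 0 : N) (b 1 : N))⁻¹ • (b 1 : N) with hq1
    have h1 : c (b 0 : N) q1 = 1 := by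
      rw [hq1, map_smul, smul_eq_mul, inv_mul_cancel₀ hz]
    have h2 : c q1 x = 0 := by
      rw [la3_sk hc, hq1, map_smul, (hb 1).1, smul_zero, neg_zero]
    have h3 : c q1 y = 0 := by
      rw [la3_sk hc, hq1, map_smul, (hb 1).2, smul_zero, neg_zero]
    obtain ⟨e, e0, e1, e2, e3⟩ := la3_mk hN hc h1
      (by rw [la3_sk hc, (hb 0).1, neg_zero]) (by rw [la3_sk hc, (hb 0).2, neg_zero]) h2 h3
      (by
        intro s t hst
        constructor
        · have h := congrArg (c y) hst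
          simp only [map_add, map_smul, hc, hyx, smul_eq_mul, map_zero] at h
          linear_combination -h
        · have h := congrArg (c x) hst
          simp only [map_add, map_smul, hc, hxy, smul_eq_mul, map_zero] at h
          linear_combination h)
    refine ⟨e, ?_, ?_, ?_, ?_, ?_, ?_⟩
    · rw [e0, e1, hxy]
    · rw [e2, e3, h1]
    · rw [e0, e2, (hb 0).1]
    · rw [e0, e3, la3_sk hc, h2, neg_zero]
    · rw [e1, e2, (hb 0).2]
    · rw [e1, e3, la3_sk hc, h3, neg_zero]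

theorem LA3 {c : N →ₗ[ℂ] N →ₗ[ℂ] ℂ} (hc : ∀ x, c x x = 0) {e : Module.Basis (Fin 4) ℂ N}
    (h01 : c (e 0) (e 1) = 1) (h23 : c (e 2) (e 3) = 1) (h02 : c (e 0) (e 2) = 0)
    (h03 : c (e 0) (e 3) = 0) (h12 : c (e 1) (e 2) = 0) (h13 : c (e 1) (e 3) = 0)
    {D : N →ₗ[ℂ] N →ₗ[ℂ] N →ₗ[ℂ] F} (hD1 : ∀ v x, D v v x = 0) (hD2 : ∀ v x, D x v v = 0) :
    ∃ Ψ : N →ₗ[ℂ] F, ∀ v w x, D v w x = Ψ (c v w • x + c w x • v + c x v • w) := by
  have h20 : c (e 2) (e 0) = 0 := by rw [la3_sk hc, h02, neg_zero]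
  have h30 : c (e 3) (e 0) = 0 := by rw [la3_sk hc, h03, neg_zero]
  have h21 : c (e 2) (e 1) = 0 := by rw [la3_sk hc, h12, neg_zero]
  have h31 : c (e 3) (e 1) = 0 := by rw [la3_sk hc, h13, neg_zero]
  let Ψ : N →ₗ[ℂ] F := e.constr ℂ ![D (e 0) (e 2) (e 3), D (e 1) (e 2) (e 3), D (e 0) (e 1) (e 2),
    D (e 0) (e 1) (e 3)]
  have p0 : Ψ (e 0) = D (e 0) (e 2) (e 3) := by simp only [Ψ, Module.Basis.constr_basis]; rfl
  have p1 : Ψ (e 1) = D (e 1) (e 2) (e 3) := by simp only [Ψ, Module.Basis.constr_basis]; rfl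
  have p2 : Ψ (e 2) = D (e 0) (e 1) (e 2) := by simp only [Ψ, Module.Basis.constr_basis]; rfl
  have p3 : Ψ (e 3) = D (e 0) (e 1) (e 3) := by simp only [Ψ, Module.Basis.constr_basis]; rfl
  have key : D - la3_comp Ψ (la3_C c) = 0 := by
    apply la3_zero e
    · intro v x
      simp only [LinearMap.sub_apply, la3_comp_apply, la3_C_apply, hD1, hc]
      rw [la3_sk hc v x]
      simp
    · intro v x
      simp only [LinearMap.sub_apply, la3_comp_apply, la3_C_apply, hD2, hc]
      rw [la3_sk hc v x]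
      simp
    · simp only [LinearMap.sub_apply, la3_comp_apply, la3_C_apply, h01, h12, h20, one_smul,
        zero_smul, add_zero, p2, sub_self]
    · simp only [LinearMap.sub_apply, la3_comp_apply, la3_C_apply, h01, h13, h30, one_smul,
        zero_smul, add_zero, p3, sub_self]
    · simp only [LinearMap.sub_apply, la3_comp_apply, la3_C_apply, h02, h23, h30, one_smul,
        zero_smul, add_zero, zero_add, p0, sub_self]
    · simp only [LinearMap.sub_apply, la3_comp_apply, la3_C_apply, h12, h23, h31, one_smul,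
        zero_smul, add_zero, zero_add, p1, sub_self]
  refine ⟨Ψ, fun v w x => ?_⟩
  have h1 := LinearMap.congr_fun (LinearMap.congr_fun (LinearMap.congr_fun key v) w) x
  simp only [LinearMap.sub_apply, la3_comp_apply, la3_C_apply, LinearMap.zero_apply] at h1
  exact sub_eq_zero.1 h1

/-- for `x ≠ 0` there are `v, w ∈ x^⊥` with `c(v,w) = 1`; hence `C(v,w,x) = x` -/
theorem LA3_x {c : N →ₗ[ℂ] N →ₗ[ℂ] ℂ} (hc : ∀ x, c x x = 0) {e : Module.Basis (Fin 4) ℂ N}
    (h01 : c (e 0) (e 1) = 1) (h23 : c (e 2) (e 3) = 1) (h02 : c (e 0) (e 2) = 0)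
    (h03 : c (e 0) (e 3) = 0) (h12 : c (e 1) (e 2) = 0) (h13 : c (e 1) (e 3) = 0) (x : N) :
    ∃ v w, c v x = 0 ∧ c w x = 0 ∧ c v w = 1 := by
  have h20 : c (e 2) (e 0) = 0 := by rw [la3_sk hc, h02, neg_zero]
  have h30 : c (e 3) (e 0) = 0 := by rw [la3_sk hc, h03, neg_zero]
  have h21 : c (e 2) (e 1) = 0 := by rw [la3_sk hc, h12, neg_zero]
  have h31 : c (e 3) (e 1) = 0 := by rw [la3_sk hc, h13, neg_zero]
  by_cases a0 : c (e 0) x = 0
  · by_cases a1 : c (e 1) x = 0
    · exact ⟨e 0, e 1, a0, a1, h01⟩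
    · refine ⟨e 2 - (c (e 2) x / c (e 1) x) • e 1, e 3 - (c (e 3) x / c (e 1) x) • e 1, ?_, ?_, ?_⟩
      · simp only [map_sub, map_smul, LinearMap.sub_apply, LinearMap.smul_apply, smul_eq_mul]
        field_simp
        ring
      · simp only [map_sub, map_smul, LinearMap.sub_apply, LinearMap.smul_apply, smul_eq_mul]
        field_simp
        ring
      · simp only [map_sub, map_smul, LinearMap.sub_apply, LinearMap.smul_apply, smul_eq_mul, h23,
          h21, h13, hc]
        ring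
  · refine ⟨e 2 - (c (e 2) x / c (e 0) x) • e 0, e 3 - (c (e 3) x / c (e 0) x) • e 0, ?_, ?_, ?_⟩
    · simp only [map_sub, map_smul, LinearMap.sub_apply, LinearMap.smul_apply, smul_eq_mul]
      field_simp
      ring
    · simp only [map_sub, map_smul, LinearMap.sub_apply, LinearMap.smul_apply, smul_eq_mul]
      field_simp
      ring
    · simp only [map_sub, map_smul, LinearMap.sub_apply, LinearMap.smul_apply, smul_eq_mul, h23,
        h20, h03, hc]
      ring

end Pool.Agent.Helper12.Z4
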