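import Pool.Agent.Helper12.Z4.Pers
import Pool.Agent.Helper12.Z4.Defs
import Pool.Agent.Helper53.TK.In

/-! Z4-Num: generic dimensions in case Y, `z = 4`, and passage to a general hyperplane. -/

set_option autoImplicit false

namespace Pool.Agent.Helper12.Z4

open MvPolynomial
open scoped BigOperators
open Pool.Agent.Helper71.FL (w12 pf ct Dec Closed dd at0 emb res)
open Pool.Agent.Helper93 (lsub lmap OF pb)
open Pool.Agent.Helper71.FC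
open Pool.Agent.Helper57.SC

/-- block [P] -/
def IP1 : Prop := ∀ θ : F2 3, Fol θ → EE θ 0 = ⊥ → EE θ 1 = ⊥ → Module.finrank ℂ (EE θ 2) = 1 →
  Module.finrank ℂ (EE θ 3) ≤ 6

private theorem nm_bot {n : ℕ} {θ : F2 n} {k : ℕ} (h : Module.finrank ℂ (EE θ k) = 0) :
    EE θ k = ⊥ := by
  have := finite_EE θ k
  exact Submodule.finrank_eq_zero.mp h

theorem ge3_le (hP : IP1) {n : ℕ} (hn : 3 ≤ n) {θ : F2 n} (hF : Fol θ) (g0 : ge θ 3 0 = 0)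
    (g1 : ge θ 3 1 = 0) (g2 : ge θ 3 2 = 1) : ge θ 3 3 ≤ 6 := by
  obtain ⟨φ, ⟨⟨h0, h1⟩, h2⟩, h3⟩ := ((((ge_gen θ 3 0).and (ge_gen θ 3 1)).and
    (ge_gen θ 3 2)).and (Fol_gen le_rfl hn hF)).exists
  exact (ge_le θ 3 3 φ).trans (hP _ h3 (nm_bot (h0.trans g0)) (nm_bot (h1.trans g1)) (h2.trans g2))

/-- the generic dimensions of hyperplane sections -/
theorem nums {θ : F2 5} (h : CY θ) (g0 : ge θ 3 0 = 0) (g1 : ge θ 3 1 = 0) (g2 : ge θ 3 2 = 1) :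
    ge θ 4 0 = 0 ∧ ge θ 4 1 = 0 ∧ ge θ 4 2 = 0 ∧ 5 ≤ Module.finrank ℂ (EE θ 3) ∧
      Module.finrank ℂ (EE θ 3) ≤ ge θ 4 3 ∧ ge θ 4 3 ≤ ge θ 3 3 := by
  have p2 := pers h.fol h.e2 g0 g1 g2
  -- one flag
  obtain ⟨ψ, hψ⟩ := ((Fol_gen (m := 4) (by omega) (by omega) h.fol).and
    (((ge_gen θ 4 0).and (ge_gen θ 4 1)).and ((ge_gen θ 4 2).and (ge_gen θ 4 3)))).and
    (((ge_pb2 θ (m := 3) (k := 4) (by omega) (by omega) 0).and
      (ge_pb2 θ (m := 3) (k := 4) (by omega) (by omega) 1)).and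
      (ge_pb2 θ (m := 3) (k := 4) (by omega) (by omega) 3)) |>.exists
  obtain ⟨⟨hFψ, ⟨⟨a0, a1⟩, a2, a3⟩⟩, ⟨b0, b1⟩, b3⟩ := hψ
  obtain ⟨g, g', hg, -, hq, hFg, -, hFr⟩ := exists_flag1 (n := 3) le_rfl hFψ
    (p := fun _ => True) ⟨1, one_ne_zero, fun _ _ => trivial⟩
    (((ge_gen (pb2 ψ θ) 3 0).and (ge_gen (pb2 ψ θ) 3 1)).and (ge_gen (pb2 ψ θ) 3 3))
  have e : ∀ k, Module.finrank ℂ (EE (rs2 (pb2 g (pb2 ψ θ))) k) =
      Module.finrank ℂ (EE (pb2 (fun i (j : Fin 3) => g i j.succ) (pb2 ψ θ)) k) := by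
    intro k
    rw [Pool.Agent.Helper71.FC.rs2_pb2]
  have nz : ∃ i j, rs2 (pb2 g (pb2 ψ θ)) i j ≠ 0 := by
    by_contra hcon
    push Not at hcon
    have := hFr.prim 0 (fun i j => by rw [hcon])
    exact not_isUnit_zero this
  have c0 : Module.finrank ℂ (EE (rs2 (pb2 g (pb2 ψ θ))) 0) = 0 := by
    rw [e, hq.1.1, b0, g0]
  have c1 : Module.finrank ℂ (EE (rs2 (pb2 g (pb2 ψ θ))) 1) = 0 := by
    rw [e, hq.1.2, b1, g1]
  have c3 : Module.finrank ℂ (EE (rs2 (pb2 g (pb2 ψ θ))) 3) = ge θ 3 3 := by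
    rw [e, hq.2, b3]
  have d := finrank_EE_zero_of_rs nz (k := 1) (fun l hl => by
    interval_cases l
    · exact c0
    · exact c1)
  have d0 := d 0 (by omega)
  have d1 := d 1 le_rfl
  rw [finrank_EE_pb2 _ _ hg, a0] at d0
  rw [finrank_EE_pb2 _ _ hg, a1] at d1
  have d2 : Module.finrank ℂ (EE (pb2 g (pb2 ψ θ)) 2) = 0 := by
    rw [finrank_EE_pb2 _ _ hg, a2, p2]
  have d3 := finrank_EE_le_rs nz d2
  rw [finrank_EE_pb2 _ _ hg, a3, c3] at d3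
  have f1 := Pool.Agent.Helper53.TK.le_finrank_EE_three h.fol h.nc
  have f2 := Pool.Agent.Helper53.TK.finrank_EE_le_ge 3 (m := 4) (n := 5) (by omega) (by omega) h.fol
    (fun d hd => by
      interval_cases d
      · exact d0
      · exact d1
      · exact p2)
  exact ⟨d0, d1, p2, f1, f2, d3⟩

/-- the data of a general hyperplane section -/
theorem gen_H {θ : F2 5} (h : CY θ) (g0 : ge θ 3 0 = 0) (g1 : ge θ 3 1 = 0) (g2 : ge θ 3 2 = 1) :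
    GenM (fun φ : Fin 5 → Fin 4 → ℂ => Fol (pb2 φ θ) ∧ EE (pb2 φ θ) 2 = ⊥ ∧
      ge (pb2 φ θ) 3 0 = 0 ∧ ge (pb2 φ θ) 3 1 = 0 ∧ ge (pb2 φ θ) 3 2 = 1 ∧
      Module.finrank ℂ (EE (pb2 φ θ) 3) = ge θ 4 3 ∧ ge (pb2 φ θ) 3 3 = ge θ 3 3) := by
  obtain ⟨-, -, p2, -, -, -⟩ := nums h g0 g1 g2
  refine ((((((Fol_gen (m := 4) (by omega) (by omega) h.fol).and (ge_gen θ 4 2)).and
    (ge_gen θ 4 3)).and (ge_pb2 θ (m := 3) (k := 4) (by omega) (by omega) 0)).and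
    (ge_pb2 θ (m := 3) (k := 4) (by omega) (by omega) 1)).and
    ((ge_pb2 θ (m := 3) (k := 4) (by omega) (by omega) 2).and
      (ge_pb2 θ (m := 3) (k := 4) (by omega) (by omega) 3))).mono ?_
  rintro φ ⟨⟨⟨⟨⟨a, b⟩, c⟩, d⟩, e⟩, f, g⟩
  exact ⟨a, nm_bot (b.trans p2), d.trans g0, e.trans g1, f.trans g2, c, g⟩

end Pool.Agent.Helper12.Z4
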