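import Pool.Agent.Helper57.SC.IYN
import Pool.Agent.Helper71.FC.CaseY

/-! Z4-Pers: in case Y with `e_2(P) = 1` one has `e_2(H) = 0` (LEMMA S of helper57). -/

set_option autoImplicit false

namespace Pool.Agent.Helper12.Z4

open MvPolynomial
open scoped BigOperators
open Pool.Agent.Helper71.FL (w12 pf ct Dec Closed dd at0 emb res)
open Pool.Agent.Helper93 (lsub lmap OF pb)
open Pool.Agent.Helper71.FC
open Pool.Agent.Helper57.SC

private theorem ps_nz {n : ℕ} {θ : F2 (n + 1)} (h : GP θ) : ∃ i j, rs2 θ i j ≠ 0 := by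
  by_contra hcon
  push Not at hcon
  have := h.prim 0 (fun i j => by rw [hcon])
  exact not_isUnit_zero this

theorem pers {θ : F2 5} (hF : Fol θ) (h2 : EE θ 2 = ⊥) (g0 : ge θ 3 0 = 0) (g1 : ge θ 3 1 = 0)
    (g2 : ge θ 3 2 = 1) : ge θ 4 2 = 0 := by
  have hq : ∀ m, 3 ≤ m → m ≤ 2 + 3 → GenM (fun φ : Fin (2 + 3) → Fin m → ℂ =>
      qG (ge θ) m (pb2 φ θ)) := by
    intro m hm3 hm5
    refine (((ge_gen θ m 0).and (ge_gen θ m 1)).and (ge_gen θ m 2)).mono fun φ hφ => ?_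
    intro d hd
    interval_cases d
    · exact hφ.1.1
    · exact hφ.1.2
    · exact hφ.2
  have hinv : ∀ (m : ℕ) (θ' : F2 m) (g g' : Fin m → Fin m → ℂ), Fol θ' → Inv g g' →
      qG (ge θ) m θ' → qG (ge θ) m (pb2 g θ') := by
    intro m θ' g g' _ hg h d hd
    rw [finrank_EE_pb2 θ' d hg]
    exact h d hd
  obtain ⟨g, g', hg, hfl⟩ := exists_flag hinv 2 θ hF hq
  have gp : GP (pb2 g θ) := hfl.2.2.1
  have hH : Flag (qG (ge θ)) 1 (rs2 (pb2 g θ)) := hfl.2.2.2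
  have gpH : GP (rs2 (pb2 g θ)) := hH.2.2.1
  have hP : Flag (qG (ge θ)) 0 (rs2 (rs2 (pb2 g θ))) := hH.2.2.2
  have p0 : Module.finrank ℂ (EE (rs2 (rs2 (pb2 g θ))) 0) = 0 := (hP.2 0 (by omega)).trans g0
  have p1 : Module.finrank ℂ (EE (rs2 (rs2 (pb2 g θ))) 1) = 0 := (hP.2 1 (by omega)).trans g1
  have p2 : Module.finrank ℂ (EE (rs2 (rs2 (pb2 g θ))) 2) = 1 := (hP.2 2 (by omega)).trans g2
  have h1H := finrank_EE_zero_of_rs (ps_nz gpH) (k := 1) (fun l hl => by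
    interval_cases l
    · exact p0
    · exact p1)
  have h2H : Module.finrank ℂ (EE (rs2 (pb2 g θ)) 2) = ge θ 4 2 := hH.2.1 2 (by omega)
  have hle := finrank_EE_le_rs (ps_nz gpH) (h1H 1 le_rfl)
  rw [p2, h2H] at hle
  by_contra hne
  have he : Module.finrank ℂ (EE (rs2 (pb2 g θ)) 2) =
      Module.finrank ℂ (EE (rs2 (rs2 (pb2 g θ))) 2) := by
    rw [p2, h2H]
    omega
  have hl : ∀ k ≤ 2, LiftAt (rs2 (pb2 g θ)) k := by
    intro k hk
    interval_cases k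
    · exact liftAt_of_zero p0
    · exact liftAt_of_zero p1
    · exact liftAt_of_finrank (ps_nz gpH) (h1H 1 le_rfl) he
  have hV := lemmaS (n := 3) le_rfl hfl.1 gp gpH hl 2 le_rfl
  have h2' : EE (pb2 g θ) 2 = ⊥ := by
    have := finite_EE (pb2 g θ) 2
    apply Submodule.finrank_eq_zero.mp
    rw [finrank_EE_pb2 θ 2 hg, h2, finrank_bot]
  have hbot : EE (rs2 (pb2 g θ)) 2 = ⊥ := by
    rw [eq_bot_iff]
    intro ζ hζ
    obtain ⟨ξ, hξ, hr⟩ := hV ζ hζ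
    rw [h2'] at hξ
    have hξ0 : ξ = 0 := (Submodule.mem_bot ℂ).1 hξ
    rw [Submodule.mem_bot]
    funext i
    rw [← hr i, hξ0]
    exact map_zero _
  rw [hbot, finrank_bot] at h2H
  exact hne h2H.symm

end Pool.Agent.Helper12.Z4
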