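import Pool.Agent.Helper12.Z4.R4a

/-! Z4-R2a: `c` of rank 2, radical `R = <e0, e1>`.  For `r ∈ R` the field `Y x := p (B r (π x))` is tangent: `q (B r n) = 0`, so `ι (Y x) = B r (π x) ∈ K x`.
TANG (`tang`) for `Y`, applied to `X = B v ∘ π` (`n = π x`): `B v (β(r,n)) - B r (β(v,n)) + c(v,n) m_r ∈ K x`, linear in `x`; by `all`
(1)  `B v (β(r,n)) - B r (β(v,n)) + c(v,n) m_r = B u_v n + g_v Λ x`  for all `x`, `n = π x`.
For `x ∈ ker π`: `g_v Λ x = 0`.  If `Λ` does not vanish on `ker π` then `g = 0`.  Otherwise `Λ = Λ' ∘ π`; adding `B n (β(v,r))` the left side becomes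
`D(v,r,n) + c(v,n) m_r`, alternating in `(v,n)`: for `v = n`: `B n (u_n - β(n,r)) = g_n Λ' n`; if `g ≠ 0` then `Λ' n ∈ B(N,n)` whenever `g_n ≠ 0`
(`u_v, g_v` are unique, so linear in `v`: `nl`, `B_nd`), so `Λ = B z ∘ π` (`LA2_cl`, `LA2`): contradiction to `nl`.  So `g = 0`,
`u_n - β(n,r) ∈ ℂ n` (`B_nd`), `= s_r n` (linear in `n`), i.e.
(2)  `D(v,r,n) + c(v,n) m_r = s_r B v n`  for all `v, n ∈ N`, `r ∈ R` (`s_r` and `m_r` for `r = e0, e1` suffice).
For `v = e1, r = e0` and `v = e0, r = e1` (`c = 0`): `D(e1,e0,n) = s_0 B e1 n`, `D(e0,e1,n) = s_1 B e0 n`, sum 0 (`D` is alternating): `B (s_0 e1 + s_1 e0) n = 0` for all `n`: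
`s_0 = s_1 = 0`. -/

set_option autoImplicit false

namespace Pool.Agent.Helper12.Z4

open MvPolynomial
open scoped BigOperators
open Pool.Agent.Helper71.FC

variable {N F : Type} [AddCommGroup N] [Module ℂ N] [AddCommGroup F] [Module ℂ F]

/-- rank 2 -/
structure Rk2 (c : N →ₗ[ℂ] N →ₗ[ℂ] ℂ) (e : Module.Basis (Fin 4) ℂ N) : Prop where
  h0 : ∀ x, c (e 0) x = 0
  h1 : ∀ x, c (e 1) x = 0
  h23 : c (e 2) (e 3) = 1

private lemma nd0 {B : N →ₗ[ℂ] N →ₗ[ℂ] F} (hn : ND B) (e : Module.Basis (Fin 4) ℂ N) {w : N}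
    (h : ∀ i, B w (e i) = 0) : w = 0 := by
  by_contra hw
  have h1 : ∀ i j : Fin 4, j ≠ i → e.repr w j = 0 := by
    intro i j hij
    have h2 := hn w (e i) (h i)
    rw [LinearIndependent.pair_iff] at h2
    push Not at h2
    obtain ⟨s, t, hst, hne⟩ := h2
    have h3 : ∀ k, s * e.repr w k + t * (if k = i then 1 else 0) = 0 := by
      intro k
      have h4 := congrArg (fun x => e.repr x k) hst
      simp only [map_add, map_smul, Finsupp.add_apply, Finsupp.smul_apply, smul_eq_mul, map_zero,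
        Finsupp.zero_apply, Module.Basis.repr_self] at h4
      rw [Finsupp.single_apply] at h4
      simpa [eq_comm] using h4
    by_cases hs : s = 0
    · exfalso
      have h5 := h3 i
      rw [hs, zero_mul, zero_add, if_pos rfl, mul_one] at h5
      exact hne hs h5
    · have h5 := h3 j
      rw [if_neg hij, mul_zero, add_zero] at h5
      exact (mul_eq_zero.mp h5).resolve_left hs
  apply hw
  apply e.ext_elem
  intro k
  rw [map_zero, Finsupp.zero_apply]
  by_cases hk : k = 0
  · subst hk; exact h1 1 0 (by decide)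
  · exact h1 0 k hk

theorem YS.R2_star (d : YS N F) {p : F →ₗ[ℂ] V5} (hp : ∀ v, p (d.ι v) = v)
    {e : Module.Basis (Fin 4) ℂ N} (hs : Rk2 d.c e) :
    ∃ m0 m1 : F, (∀ v x, d.D p v (e 0) x = -(d.c v x • m0)) ∧
      ∀ v x, d.D p v (e 1) x = -(d.c v x • m1) := by
  classical
  have hfin : Module.Finite ℂ F := Module.finite_of_finrank_pos (by rw [d.dimF]; norm_num)
  have hBs : ∀ x y, d.B x y = - d.B y x := by
    intro x y
    have h := d.B_alt (x + y)
    simp only [map_add, LinearMap.add_apply, d.B_alt, zero_add, add_zero] at h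
    exact eq_neg_of_add_eq_zero_right h
  have hβs : ∀ x y, d.β p x y = - d.β p y x := by
    intro x y
    rw [d.β_apply, d.β_apply, hBs x y, map_neg, map_neg]
  have hβ0 : ∀ x, d.β p x x = 0 := by
    intro x
    rw [d.β_apply, d.B_alt, map_zero, map_zero]
  have hc0 : ∀ x, d.c x x = 0 := by
    intro x
    rw [d.c_apply, d.B_alt, map_zero]
  have key : ∀ r : N, (∀ x, d.c r x = 0) → ∃ (m : F) (s : ℂ), ∀ v n,
      d.D p v r n + d.c v n • m = s • d.B v n := by
    intro r hr
    set Y : V5 →ₗ[ℂ] V5 := p ∘ₗ (d.B r) ∘ₗ d.π with hYd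
    have hYB : ∀ n, d.ι (p (d.B r n)) = d.B r n := fun n => d.eq_ι hp (hr n)
    obtain ⟨m, hm⟩ := d.tang p hp Y (fun x => by
      show d.ι (p (d.B r (d.π x))) ∈ d.K x
      rw [hYB]; exact d.hB r x)
    have h1 : ∀ v, ∃ (u : N) (g : ℂ), ∀ x, d.D p v r (d.π x) + d.c v (d.π x) • m =
        d.B u (d.π x) + g • d.Λ x := by
      intro v
      obtain ⟨u, g, hu⟩ := d.all (((d.B v) ∘ₗ d.π) ∘ₗ Y - d.ι ∘ₗ Y ∘ₗ p ∘ₗ (d.B v) ∘ₗ d.π +
        (LinearMap.toSpanSingleton ℂ F m) ∘ₗ d.q ∘ₗ (d.B v) ∘ₗ d.π)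
        (fun x => hm ((d.B v) ∘ₗ d.π) (fun x => d.hB v x) x)
      refine ⟨u - d.β p v r, g, fun x => ?_⟩
      have h2 : d.B v (d.β p r (d.π x)) - d.B r (d.β p v (d.π x)) + d.c v (d.π x) • m =
          d.B u (d.π x) + g • d.Λ x := by
        rw [← hu x]
        show _ = d.B v (d.π (p (d.B r (d.π x)))) -
          d.ι (p (d.B r (d.π (p (d.B v (d.π x)))))) + d.q (d.B v (d.π x)) • m
        rw [hYB]
        rfl
      unfold YS.D
      rw [map_sub, LinearMap.sub_apply, hBs (d.π x) (d.β p v r), hβs (d.π x) v, map_neg]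
      rw [sub_eq_add_neg] at h2
      rw [sub_add_eq_add_sub, ← h2]
      abel
    choose u g hug using h1
    set U : N →ₗ[ℂ] N := e.constr ℂ (fun i => u (e i)) with hU
    set G : N →ₗ[ℂ] ℂ := e.constr ℂ (fun i => g (e i)) with hG
    have h2 : ∀ x v, d.D p v r (d.π x) + d.c v (d.π x) • m =
        d.B (U v) (d.π x) + G v • d.Λ x := by
      intro x
      have h3 : d.B.flip (d.β p r (d.π x)) + (d.B r) ∘ₗ (d.β p (d.π x)) +
          (d.B (d.π x)) ∘ₗ (d.β p).flip r +
          (LinearMap.toSpanSingleton ℂ F m) ∘ₗ (d.c.flip (d.π x)) =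
          (d.B.flip (d.π x)) ∘ₗ U + (LinearMap.toSpanSingleton ℂ F (d.Λ x)) ∘ₗ G := by
        apply e.ext
        intro i
        have h4 := hug (e i) x
        show d.D p (e i) r (d.π x) + d.c (e i) (d.π x) • m =
          d.B (U (e i)) (d.π x) + G (e i) • d.Λ x
        rw [h4, hU, hG, Module.Basis.constr_basis, Module.Basis.constr_basis]
      intro v
      exact congrArg (fun L : N →ₗ[ℂ] F => L v) h3
    have hA0 : ∀ n, d.D p n r n + d.c n n • m = 0 := by
      intro n
      unfold YS.D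
      rw [hc0, hβ0, map_zero, zero_smul, hβs r n, map_neg]
      abel
    have hG0 : G = 0 := by
      by_contra hGne
      obtain ⟨n0, hn0⟩ : ∃ n0, G n0 ≠ 0 := by
        by_contra hcon
        push Not at hcon
        exact hGne (LinearMap.ext hcon)
      obtain ⟨x0, hx0⟩ := d.π_surj n0
      set P : MvPolynomial (Fin 5) ℂ :=
        ∑ i : Fin 5, C (G (d.π (Pi.single i 1))) * X i with hP
      have hPe : ∀ x, eval x P = G (d.π x) := by
        intro x
        rw [hP, map_sum]
        simp only [map_mul, eval_C, eval_X]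
        have : x = ∑ i : Fin 5, x i • (Pi.single i (1 : ℂ) : V5) := by
          funext j
          rw [Finset.sum_apply]
          simp [Pi.single_apply]
        conv_rhs => rw [this, map_sum, map_sum]
        refine Finset.sum_congr rfl fun i _ => ?_
        rw [map_smul, map_smul, smul_eq_mul, mul_comm]
      have hP0 : P ≠ 0 := by
        intro h
        have := hPe x0
        rw [h, map_zero, hx0] at this
        exact hn0 this.symm
      have h5 := LA2_cl d.dimN d.B_alt d.B_nd d.π d.π_surj d.Λ hP0 (fun x hx => by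
        rw [hPe] at hx
        refine ⟨-((G (d.π x))⁻¹ • U (d.π x)), ?_⟩
        have h6 := h2 x (d.π x)
        rw [hA0] at h6
        rw [map_neg, map_smul, LinearMap.neg_apply, LinearMap.smul_apply]
        have h7 : d.B (U (d.π x)) (d.π x) = -(G (d.π x) • d.Λ x) :=
          eq_neg_of_add_eq_zero_left h6.symm
        rw [h7, smul_neg, smul_smul, inv_mul_cancel₀ hx, one_smul, neg_neg])
      obtain ⟨z, hz⟩ := LA2 d.dimN d.B_alt d.B_nd d.π d.π_surj d.Λ h5
      obtain ⟨x, hx⟩ := d.nl z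
      exact hx (hz x)
    have h8 : ∀ v n, d.D p v r n + d.c v n • m = d.B (U v) n := by
      intro v n
      obtain ⟨x, rfl⟩ := d.π_surj n
      rw [h2 x v, hG0, LinearMap.zero_apply, zero_smul, add_zero]
    have hfree : Module.Free ℂ N := Module.Free.of_divisionRing ℂ N
    obtain ⟨s, hsU⟩ := LinearMap.exists_eq_smul_id_of_forall_notLinearIndependent (f := U) (by
      intro v hv
      have h9 := h8 v v
      rw [hA0] at h9
      have h10 : d.B v (U v) = 0 := by rw [hBs, ← h9, neg_zero]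
      exact d.B_nd v (U v) h10 hv)
    refine ⟨m, s, fun v n => ?_⟩
    rw [h8, hsU]
    simp
  obtain ⟨m0, s0, h0⟩ := key (e 0) hs.h0
  obtain ⟨m1, s1, h1⟩ := key (e 1) hs.h1
  have hcs : ∀ x y, d.c x y = - d.c y x := by
    intro x y
    rw [d.c_apply, d.c_apply, hBs x y, map_neg]
  have hz : ∀ n, d.B (s0 • e 1 + s1 • e 0) n = 0 := by
    intro n
    have a0 := h0 (e 1) n
    have a1 := h1 (e 0) n
    rw [hs.h1, zero_smul, add_zero] at a0
    rw [hs.h0, zero_smul, add_zero] at a1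
    rw [map_add, map_smul, map_smul, LinearMap.add_apply, LinearMap.smul_apply,
      LinearMap.smul_apply, ← a0, ← a1]
    unfold YS.D
    rw [hβs (e 0) n, hβs (e 1) n, hβs (e 1) (e 0), map_neg, map_neg, map_neg]
    abel
  have hw := nd0 d.B_nd e (fun i => hz (e i))
  have c0 := congrArg (fun x => e.repr x 1) hw
  have c1 := congrArg (fun x => e.repr x 0) hw
  simp only [map_add, map_smul, Finsupp.add_apply, Finsupp.smul_apply, smul_eq_mul, map_zero,
    Finsupp.zero_apply, Module.Basis.repr_self] at c0 c1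
  have e0 : s0 = 0 := by simpa [Finsupp.single_apply] using c0
  have e1 : s1 = 0 := by simpa [Finsupp.single_apply] using c1
  refine ⟨m0, m1, fun v x => ?_, fun v x => ?_⟩
  · have := h0 v x
    rw [e0, zero_smul] at this
    exact eq_neg_of_add_eq_zero_left this
  · have := h1 v x
    rw [e1, zero_smul] at this
    exact eq_neg_of_add_eq_zero_left this

end Pool.Agent.Helper12.Z4
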