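import Pool.Agent.Helper12.Z4.YS

/-! Z4-R4a: `c` of rank 4, the constant-coefficient form of the Jacobian (POINT').
`D(v,w,x) := B v (β(w,x)) + B w (β(x,v)) + B x (β(v,w))`, `β = π p B`, `C(v,w,x) = c(v,w)x + c(w,x)v + c(x,v)w`.
* `R4D`: `D = Ψ ∘ C` by `LA3`.  For `x ∈ V`, `π x ≠ 0`, take `v, w` from `LA3_x` (for `π x`): `C(v,w,πx) = πx`.  `X := B v ∘ π`, `X' := B w ∘ π` are relations
  (`hB`), `q (X x) = c v (π x) = 0`, so `X x = ι u`, `u = p (B v (π x))`, `X' x = ι u'`; `point`: `B w (β(v,πx)) - B v (β(w,πx)) ∈ K x`; also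
  `B (πx) (β(v,w)) = - B (β(v,w)) (πx) ∈ K x`.  So `Ψ(πx) = D(v,w,πx) ∈ K x` for all `x`, and `all` gives `z, g`.
* `R4_zero`: `β' := β + c ⊗ z` satisfies `Σ_cyc B v (β'(w,x)) = B z (C) + Σ_cyc c(w,x) B v z = 0`, and in case R5 `β'(e0,e1) + β'(e2,e3) = 0` because
  `B (e0,e1) + B (e2,e3) = 0`: `LA1`, `LA4` give `β' = 0`, so `β = -c ⊗ z` spans at most a line: `β_span`.
* `R4_R5`: `Ψ (π x) = B z (π x) + g Λ x`.  For `x ∈ ker π`: `g Λ x = 0`.  `D` takes values in `U' = span B(N,N)` and `C` is onto, so `Ψ` has values in `U'` and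
  `g Λ x ∈ U'` for all `x`: `g = 0` by `Λ_notin`; then `R4_zero`.
* `R4_norm` (R6): `g ≠ 0` by `R4_zero`.  `c` is non-degenerate: choose `u ∈ V` with `q (Ψ n) = c (π u) n` for all `n`; replace `p` by `p + q ⊗ u`
  (`β` by `β + c ⊗ π u`, `D` by `D - B (π u) ∘ C`) and `Ψ` by `Ψ' = Ψ - B (π u)`: `q Ψ' = 0`, `Ψ' = ι Y`. -/

set_option autoImplicit false

namespace Pool.Agent.Helper12.Z4

open MvPolynomial
open scoped BigOperators
open Pool.Agent.Helper71.FC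

variable {N F : Type} [AddCommGroup N] [Module ℂ N] [AddCommGroup F] [Module ℂ F]

/-- `C(v,w,x)` -/
def CC (c : N →ₗ[ℂ] N →ₗ[ℂ] ℂ) (v w x : N) : N := c v w • x + c w x • v + c x v • w

/-- symplectic basis -/
structure Symp (c : N →ₗ[ℂ] N →ₗ[ℂ] ℂ) (e : Module.Basis (Fin 4) ℂ N) : Prop where
  h01 : c (e 0) (e 1) = 1
  h23 : c (e 2) (e 3) = 1
  h02 : c (e 0) (e 2) = 0
  h03 : c (e 0) (e 3) = 0
  h12 : c (e 1) (e 2) = 0
  h13 : c (e 1) (e 3) = 0

/-- the cyclic sum `D` -/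
noncomputable def YS.D (d : YS N F) (p : F →ₗ[ℂ] V5) (v w x : N) : F :=
  d.B v (d.β p w x) + d.B w (d.β p x v) + d.B x (d.β p v w)

private theorem r4_Bs (d : YS N F) (v w : N) : d.B v w = - d.B w v := by
  have h := d.B_alt (v + w)
  simp only [map_add, LinearMap.add_apply, d.B_alt, zero_add, add_zero] at h
  first
    | exact eq_neg_of_add_eq_zero_left h
    | exact eq_neg_of_add_eq_zero_right h

private theorem r4_cs (d : YS N F) (v w : N) : d.c v w = - d.c w v := by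
  rw [d.c_apply, d.c_apply, r4_Bs, map_neg]

private theorem r4_c0 (d : YS N F) (v : N) : d.c v v = 0 := by
  rw [d.c_apply, d.B_alt, map_zero]

private theorem r4_bs (d : YS N F) (p : F →ₗ[ℂ] V5) (v w : N) : d.β p v w = - d.β p w v := by
  rw [d.β_apply, d.β_apply, r4_Bs, map_neg, map_neg]

private theorem r4_b0 (d : YS N F) (p : F →ₗ[ℂ] V5) (v : N) : d.β p v v = 0 := by
  rw [d.β_apply, d.B_alt, map_zero, map_zero]

/-- `D` as a trilinear map -/
private noncomputable def r4_DL (d : YS N F) (p : F →ₗ[ℂ] V5) : N →ₗ[ℂ] N →ₗ[ℂ] N →ₗ[ℂ] F :=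
  LinearMap.mk₂ ℂ (fun v w => (d.B v) ∘ₗ (d.β p w) + (d.B w) ∘ₗ ((d.β p).flip v) +
      d.B.flip (d.β p v w))
    (fun v v' w => by
      ext x
      simp only [LinearMap.add_apply, LinearMap.comp_apply, LinearMap.flip_apply, map_add]
      abel)
    (fun c v w => by
      ext x
      simp only [LinearMap.add_apply, LinearMap.comp_apply, LinearMap.flip_apply, map_smul,
        LinearMap.smul_apply, smul_add])
    (fun v w w' => by
      ext x
      simp only [LinearMap.add_apply, LinearMap.comp_apply, LinearMap.flip_apply, map_add]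
      abel)
    (fun c v w => by
      ext x
      simp only [LinearMap.add_apply, LinearMap.comp_apply, LinearMap.flip_apply, map_smul,
        LinearMap.smul_apply, smul_add])

private theorem r4_DL_apply (d : YS N F) (p : F →ₗ[ℂ] V5) (v w x : N) :
    r4_DL d p v w x = d.D p v w x := rfl

private theorem r4_ex (d : YS N F) {e : Module.Basis (Fin 4) ℂ N} (hs : Symp d.c e) (x : N) :
    ∃ v w, d.c v x = 0 ∧ d.c w x = 0 ∧ CC d.c v w x = x := by
  obtain ⟨v, w, h1, h2, h3⟩ := LA3_x (r4_c0 d) hs.h01 hs.h23 hs.h02 hs.h03 hs.h12 hs.h13 x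
  refine ⟨v, w, h1, h2, ?_⟩
  rw [CC, h3, h2, r4_cs d x v, h1, one_smul, zero_smul, neg_zero, zero_smul, add_zero, add_zero]

theorem YS.R4D (d : YS N F) {p : F →ₗ[ℂ] V5} (hp : ∀ v, p (d.ι v) = v)
    {e : Module.Basis (Fin 4) ℂ N} (hs : Symp d.c e) :
    ∃ (z : N) (g : ℂ) (Ψ : N →ₗ[ℂ] F), (∀ x, Ψ (d.π x) = d.B z (d.π x) + g • d.Λ x) ∧
      ∀ v w x, d.D p v w x = Ψ (CC d.c v w x) := by
  obtain ⟨Ψ, hΨ⟩ := LA3 (D := r4_DL d p) (r4_c0 d) hs.h01 hs.h23 hs.h02 hs.h03 hs.h12 hs.h13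
    (fun v x => by
      rw [r4_DL_apply, YS.D, r4_b0, map_zero, r4_bs d p x v, map_neg]
      abel)
    (fun v x => by
      rw [r4_DL_apply, YS.D, r4_b0, map_zero, r4_bs d p x v, map_neg]
      abel)
  have hΨ' : ∀ v w x, d.D p v w x = Ψ (CC d.c v w x) := hΨ
  have hK : ∀ x, (Ψ ∘ₗ d.π) x ∈ d.K x := by
    intro x
    obtain ⟨v, w, h1, h2, h3⟩ := r4_ex d hs (d.π x)
    rw [LinearMap.comp_apply, ← h3, ← hΨ', YS.D]
    have e1 : (d.B v ∘ₗ d.π) x = d.ι (p (d.B v (d.π x))) := (d.eq_ι hp h1).symm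
    have e2 : (d.B w ∘ₗ d.π) x = d.ι (p (d.B w (d.π x))) := (d.eq_ι hp h2).symm
    have h4 := d.point (d.B v ∘ₗ d.π) (d.B w ∘ₗ d.π) (fun x => d.hB v x) (fun x => d.hB w x) x
      _ _ e1 e2
    have h5 : d.B w (d.β p v (d.π x)) - d.B v (d.β p w (d.π x)) ∈ d.K x := h4
    have h6 := d.hB (d.β p v w) x
    have h7 : d.B v (d.β p w (d.π x)) + d.B w (d.β p (d.π x) v) + d.B (d.π x) (d.β p v w) =
        -(d.B w (d.β p v (d.π x)) - d.B v (d.β p w (d.π x))) + -(d.B (d.β p v w) (d.π x)) := by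
      rw [r4_bs d p (d.π x) v, map_neg, r4_Bs d (d.π x) (d.β p v w)]
      abel
    rw [h7]
    exact (d.K x).add_mem ((d.K x).neg_mem h5) ((d.K x).neg_mem h6)
  obtain ⟨z, g, hz⟩ := d.all (Ψ ∘ₗ d.π) hK
  exact ⟨z, g, Ψ, hz, hΨ'⟩

theorem YS.R4_zero (d : YS N F) {p : F →ₗ[ℂ] V5} (hp : ∀ v, p (d.ι v) = v)
    {e : Module.Basis (Fin 4) ℂ N} (hs : Symp d.c e) {z : N}
    (h : ∀ v w x, d.D p v w x = d.B z (CC d.c v w x)) : False := by
  let β' : N →ₗ[ℂ] N →ₗ[ℂ] N := d.β p + d.c.compr₂ (LinearMap.toSpanSingleton ℂ N z)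
  have hβ : ∀ v w, β' v w = d.β p v w + d.c v w • z := fun v w => rfl
  have h0 : ∀ x, β' x x = 0 := fun x => by
    rw [hβ, r4_b0, r4_c0, zero_smul, add_zero]
  have hD : ∀ v w x, d.B v (β' w x) + d.B w (β' x v) + d.B x (β' v w) = 0 := by
    intro v w x
    have h1 := h v w x
    rw [YS.D, CC] at h1
    simp only [map_add, map_smul] at h1
    simp only [hβ, map_add, map_smul]
    rw [r4_Bs d v z, r4_Bs d w z, r4_Bs d x z, smul_neg, smul_neg, smul_neg]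
    have h2 : d.B v (d.β p w x) + d.B w (d.β p x v) + d.B x (d.β p v w) -
        (d.c v w • d.B z x + d.c w x • d.B z v + d.c x v • d.B z w) = 0 := sub_eq_zero.mpr h1
    rw [← h2]
    abel
  have hz : β' = 0 := by
    rcases d.dich with h6 | ⟨e', h5⟩
    · exact LA1 d.B_alt (h6 e) h0 hD
    · refine LA4 d.B_alt h5 h0 ?_ hD
      have h7 : ∀ v w, β' v w = d.π (p (d.B v w)) + d.q (d.B v w) • z := fun v w => rfl
      rw [h7, h7]
      have h8 : d.π (p (d.B (e' 0) (e' 1))) + d.q (d.B (e' 0) (e' 1)) • z +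
          (d.π (p (d.B (e' 2) (e' 3))) + d.q (d.B (e' 2) (e' 3)) • z) =
          d.π (p (d.B (e' 0) (e' 1) + d.B (e' 2) (e' 3))) +
            d.q (d.B (e' 0) (e' 1) + d.B (e' 2) (e' 3)) • z := by
        rw [map_add, map_add, map_add, add_smul]
        abel
      rw [h8, h5.1, map_zero, map_zero, map_zero, zero_smul, add_zero]
  have h3 := d.β_span hp
  have h4 : Submodule.span ℂ {x | ∃ n m, x = d.β p n m} ≤ Submodule.span ℂ {z} := by
    rw [Submodule.span_le]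
    rintro _ ⟨n, m, rfl⟩
    have h5 := hβ n m
    rw [hz] at h5
    have h6 : d.β p n m = (- d.c n m) • z := by
      rw [neg_smul]
      exact eq_neg_of_add_eq_zero_left h5.symm
    rw [h6]
    exact Submodule.smul_mem _ _ (Submodule.mem_span_singleton_self z)
  have h5 : Module.finrank ℂ (Submodule.span ℂ ({z} : Set N)) ≤ 1 := by
    have := finrank_span_le_card (R := ℂ) ({z} : Set N)
    simpa using this
  have h6 := Submodule.finrank_mono h4
  omega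

theorem YS.R4_R5 (d : YS N F) {e e' : Module.Basis (Fin 4) ℂ N} (hs : Symp d.c e)
    (h5 : R5 d.B e') : False := by
  obtain ⟨p, hp⟩ := d.exists_p
  obtain ⟨z, g, Ψ, h1, h2⟩ := d.R4D hp hs
  obtain ⟨x0, hx0⟩ := d.Λ_notin h5
  have hmem : ∀ v w, d.B v w ∈ Submodule.span ℂ {f | ∃ n m, f = d.B n m} := fun v w =>
    Submodule.subset_span ⟨v, w, rfl⟩
  have hg : g = 0 := by
    by_contra hg
    apply hx0
    obtain ⟨v, w, -, -, h3⟩ := r4_ex d hs (d.π x0)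
    have h4 := h1 x0
    rw [← h3, ← h2] at h4
    have h6 : d.Λ x0 = g⁻¹ • (d.D p v w (d.π x0) - d.B z (CC d.c v w (d.π x0))) := by
      rw [h4, add_sub_cancel_left, smul_smul, inv_mul_cancel₀ hg, one_smul]
    rw [h6]
    refine Submodule.smul_mem _ _ (Submodule.sub_mem _ ?_ (hmem _ _))
    exact Submodule.add_mem _ (Submodule.add_mem _ (hmem _ _) (hmem _ _)) (hmem _ _)
  refine d.R4_zero hp hs (z := z) fun v w x => ?_
  rw [h2]
  obtain ⟨y, hy⟩ := d.π_surj (CC d.c v w x)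
  rw [← hy, h1, hg, zero_smul, add_zero]

theorem YS.R4_norm (d : YS N F) {e : Module.Basis (Fin 4) ℂ N} (hs : Symp d.c e)
    (h6 : R6 d.B e) : ∃ (p : F →ₗ[ℂ] V5) (Y : N →ₗ[ℂ] V5), (∀ v, p (d.ι v) = v) ∧
      (∀ x, d.ι (Y (d.π x)) ∈ d.K x) ∧ (∀ v w x, d.D p v w x = d.ι (Y (CC d.c v w x))) ∧
      ∀ n, ∃ x, d.ι (Y x) ≠ d.B n x := by
  obtain ⟨p, hp⟩ := d.exists_p
  obtain ⟨z, g, Ψ, h1, h2⟩ := d.R4D hp hs
  have hg : g ≠ 0 := by
    rintro rfl
    refine d.R4_zero hp hs (z := z) fun v w x => ?_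
    rw [h2]
    obtain ⟨y, hy⟩ := d.π_surj (CC d.c v w x)
    rw [← hy, h1, zero_smul, add_zero]
  -- `q (Ψ n) = c a n`
  obtain ⟨a, ha⟩ : ∃ a, ∀ n, d.q (Ψ n) = d.c a n := by
    refine ⟨d.q (Ψ (e 1)) • e 0 - d.q (Ψ (e 0)) • e 1 + d.q (Ψ (e 3)) • e 2 - d.q (Ψ (e 2)) • e 3, ?_⟩
    intro n
    have h3 : d.q ∘ₗ Ψ = d.c (d.q (Ψ (e 1)) • e 0 - d.q (Ψ (e 0)) • e 1 + d.q (Ψ (e 3)) • e 2 -
        d.q (Ψ (e 2)) • e 3) := by
      apply e.ext
      have c10 : d.c (e 1) (e 0) = -1 := by rw [r4_cs, hs.h01]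
      have c32 : d.c (e 3) (e 2) = -1 := by rw [r4_cs, hs.h23]
      have c20 : d.c (e 2) (e 0) = 0 := by rw [r4_cs, hs.h02, neg_zero]
      have c30 : d.c (e 3) (e 0) = 0 := by rw [r4_cs, hs.h03, neg_zero]
      have c21 : d.c (e 2) (e 1) = 0 := by rw [r4_cs, hs.h12, neg_zero]
      have c31 : d.c (e 3) (e 1) = 0 := by rw [r4_cs, hs.h13, neg_zero]
      intro i
      fin_cases i <;>
        simp [LinearMap.comp_apply, LinearMap.sub_apply, LinearMap.add_apply, r4_c0, c10, c32, c20,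
          c30, c21, c31, hs.h01, hs.h23, hs.h02, hs.h03, hs.h12, hs.h13]
    exact LinearMap.congr_fun h3 n
  obtain ⟨u, hu⟩ := d.π_surj a
  have hp' : ∀ v, (p + (LinearMap.toSpanSingleton ℂ V5 u) ∘ₗ d.q) (d.ι v) = v := d.p_add hp u
  have hβ : ∀ v w, d.β (p + (LinearMap.toSpanSingleton ℂ V5 u) ∘ₗ d.q) v w =
      d.β p v w + d.c v w • a := by
    intro v w
    rw [d.β_apply, d.β_apply, d.c_apply, ← hu, LinearMap.add_apply, map_add,
      LinearMap.comp_apply, LinearMap.toSpanSingleton_apply, map_smul]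
  have hι : ∀ n, d.ι (p ((Ψ - d.B a) n)) = Ψ n - d.B a n := by
    intro n
    have h3 : d.q ((Ψ - d.B a) n) = 0 := by
      rw [LinearMap.sub_apply, map_sub, ha n, d.c_apply, sub_self]
    exact d.eq_ι hp h3
  refine ⟨p + (LinearMap.toSpanSingleton ℂ V5 u) ∘ₗ d.q, p ∘ₗ (Ψ - d.B a), hp', ?_, ?_, ?_⟩
  · intro x
    rw [LinearMap.comp_apply, hι, h1]
    exact (d.K x).sub_mem ((d.K x).add_mem (d.hB z x) ((d.K x).smul_mem g (d.hΛ x))) (d.hB a x)
  · intro v w x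
    rw [LinearMap.comp_apply, hι, ← h2, YS.D, YS.D, hβ, hβ, hβ, CC]
    simp only [map_add, map_smul]
    rw [r4_Bs d v a, r4_Bs d w a, r4_Bs d x a, smul_neg, smul_neg, smul_neg]
    abel
  · intro n
    by_contra hcon
    push Not at hcon
    obtain ⟨x, hx⟩ := d.nl (g⁻¹ • (n + a - z))
    apply hx
    have h3 := hcon (d.π x)
    rw [LinearMap.comp_apply, hι, h1] at h3
    rw [map_smul, LinearMap.smul_apply, map_sub, map_add, LinearMap.sub_apply,
      LinearMap.add_apply, ← h3]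
    have h4 : d.B z (d.π x) + g • d.Λ x - d.B a (d.π x) + d.B a (d.π x) - d.B z (d.π x) =
        g • d.Λ x := by abel
    rw [h4, smul_smul, inv_mul_cancel₀ hg, one_smul]

end Pool.Agent.Helper12.Z4
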