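import Pool.Agent.Helper12.Z4.R4a

/-! Z4-R4b: `c` of rank 4, case R6: the field `Y` acts as a derivation.  `e := π ∘ Y`.
TANG (`tang` for the field `x ↦ Y (π x)`) applied to `X = B v ∘ π`: `B v (e n) - ι Y (β(v,n)) + c(v,n) m ∈ K x` for `n = π x`, linear in `x`, so by `all`
(and because `ι Y π = B z' π + g' Λ` with `g' ≠ 0`, again by `all` and `hYn`) for every `v` there are `u_v, g_v` with
(1)  `B v (e n) - ι Y (β(v,n)) + c(v,n) m = B u_v n + g_v ι Y n`  for all `n`.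
`(u_v, g_v)` is unique (`hYn`, `B_nd`), hence linear in `v`.  `n = v`: `B v (e v + u_v) = g_v ι Y v`.  If `g ≠ 0` then `ι Y v ∈ B(N, v)` for all `v` with
`g_v ≠ 0`, so `ι Y = B z` by `LA2_cl`, `LA2` (with `V = ℂ^5`, `π`): contradiction to `hYn`.  So `g = 0`, `e v + u_v ∈ ℂ v` for all `v` by `B_nd`, so
`u_v = s v - e v` with a constant `s`, and (1) is the assertion. -/

set_option autoImplicit false

namespace Pool.Agent.Helper12.Z4

open MvPolynomial
open scoped BigOperators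
open Pool.Agent.Helper71.FC

variable {N F : Type} [AddCommGroup N] [Module ℂ N] [AddCommGroup F] [Module ℂ F]

theorem YS.R4_tang (d : YS N F) {p : F →ₗ[ℂ] V5} (hp : ∀ v, p (d.ι v) = v) {Y : N →ₗ[ℂ] V5}
    (hY : ∀ x, d.ι (Y (d.π x)) ∈ d.K x) (hYn : ∀ n, ∃ x, d.ι (Y x) ≠ d.B n x) :
    ∃ (s : ℂ) (m : F), ∀ v w, d.ι (Y (d.β p v w)) =
      d.B (d.π (Y v)) w + d.B v (d.π (Y w)) - s • d.B v w + d.c v w • m := by
  classical
  have : Module.Finite ℂ F := Module.finite_of_finrank_pos (by rw [d.dimF]; norm_num)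
  have : Module.Finite ℂ N := Module.finite_of_finrank_pos (by rw [d.dimN]; norm_num)
  have hBs : ∀ v w, d.B v w = - d.B w v := by
    intro v w
    have h := d.B_alt (v + w)
    simp only [map_add, LinearMap.add_apply, d.B_alt, zero_add, add_zero] at h
    exact eq_neg_of_add_eq_zero_right h
  have hB0 : ∀ u, (∀ n, d.B u n = 0) → u = 0 := by
    intro u hu
    by_contra hne
    obtain ⟨n, hn⟩ : ∃ n, n ∉ Submodule.span ℂ {u} := by
      by_contra hcon
      push Not at hcon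
      have htop : Submodule.span ℂ {u} = ⊤ := eq_top_iff.2 fun x _ => hcon x
      have h1 := finrank_span_singleton (K := ℂ) hne
      rw [htop, finrank_top, d.dimN] at h1
      norm_num at h1
    refine d.B_nd u n (hu n) ((LinearIndependent.pair_iff' hne).2 fun a ha => hn ?_)
    exact Submodule.mem_span_singleton.2 ⟨a, ha⟩
  -- uniqueness of the pairs
  have huniq : ∀ (u : N) (G : ℂ), (∀ n, d.B u n + G • d.ι (Y n) = 0) → G = 0 ∧ u = 0 := by
    intro u G h
    have hG : G = 0 := by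
      by_contra hG
      obtain ⟨x, hx⟩ := hYn (-(G⁻¹ • u))
      apply hx
      have h2 : G • d.ι (Y x) = - d.B u x := eq_neg_of_add_eq_zero_right (h x)
      rw [map_neg, LinearMap.neg_apply, map_smul, LinearMap.smul_apply, ← smul_neg, ← h2,
        smul_smul, inv_mul_cancel₀ hG, one_smul]
    refine ⟨hG, hB0 u fun n => ?_⟩
    have h1 := h n
    rwa [hG, zero_smul, add_zero] at h1
  obtain ⟨m, hm⟩ := d.tang p hp (Y ∘ₗ d.π) hY
  obtain ⟨z, g, hz⟩ := d.all (d.ι ∘ₗ Y ∘ₗ d.π) hY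
  have hg : g ≠ 0 := by
    intro hg
    obtain ⟨n, hn⟩ := hYn z
    obtain ⟨x, rfl⟩ := d.π_surj n
    apply hn
    have h1 := hz x
    rw [hg, zero_smul, add_zero] at h1
    exact h1
  have hΛ : ∀ x, d.Λ x = g⁻¹ • (d.ι (Y (d.π x)) - d.B z (d.π x)) := by
    intro x
    have h1 : d.ι (Y (d.π x)) = d.B z (d.π x) + g • d.Λ x := hz x
    rw [h1, add_sub_cancel_left, smul_smul, inv_mul_cancel₀ hg, one_smul]
  obtain ⟨Z, hZ⟩ : ∃ Z : N →ₗ[ℂ] N →ₗ[ℂ] F, ∀ v n, Z v n =
      d.B v (d.π (Y n)) - d.ι (Y (d.β p v n)) + d.c v n • m :=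
    ⟨d.B.compl₂ (d.π ∘ₗ Y) - (d.β p).compr₂ (d.ι ∘ₗ Y) +
      d.c.compr₂ (LinearMap.toSpanSingleton ℂ F m), fun v n => rfl⟩
  -- (1)
  have hex : ∀ v, ∃ (u : N) (G : ℂ), ∀ n, Z v n = d.B u n + G • d.ι (Y n) := by
    intro v
    obtain ⟨n0, g0, h0⟩ := d.all (Z v ∘ₗ d.π) (by
      intro x
      have h1 := hm (d.B v ∘ₗ d.π) (d.hB v) x
      have h2 : (Z v ∘ₗ d.π) x = (d.B v ∘ₗ d.π) ((Y ∘ₗ d.π) x) -
          d.ι ((Y ∘ₗ d.π) (p ((d.B v ∘ₗ d.π) x))) + d.q ((d.B v ∘ₗ d.π) x) • m := by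
        rw [LinearMap.comp_apply, hZ]
        rfl
      rw [h2]
      exact h1)
    refine ⟨n0 - (g0 * g⁻¹) • z, g0 * g⁻¹, fun n => ?_⟩
    obtain ⟨x, rfl⟩ := d.π_surj n
    have h3 : Z v (d.π x) = d.B n0 (d.π x) + g0 • d.Λ x := h0 x
    rw [h3, hΛ, map_sub, LinearMap.sub_apply, map_smul, LinearMap.smul_apply, smul_smul, smul_sub]
    abel
  choose u G hu using hex
  have hadd : ∀ v w, G (v + w) = G v + G w ∧ u (v + w) = u v + u w := by
    intro v w
    have h := huniq (u (v + w) - (u v + u w)) (G (v + w) - (G v + G w)) (by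
      intro n
      have h1 := hu (v + w) n
      rw [map_add, LinearMap.add_apply, hu v n, hu w n] at h1
      rw [map_sub, map_add, LinearMap.sub_apply, LinearMap.add_apply, sub_smul, add_smul]
      have h2 : d.B (u (v + w)) n + G (v + w) • d.ι (Y n) -
          (d.B (u v) n + G v • d.ι (Y n) + (d.B (u w) n + G w • d.ι (Y n))) = 0 := by
        rw [h1, sub_self]
      rw [← h2]
      abel)
    exact ⟨sub_eq_zero.1 h.1, sub_eq_zero.1 h.2⟩
  have hsm : ∀ (c : ℂ) (v : N), G (c • v) = c * G v ∧ u (c • v) = c • u v := by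
    intro c v
    have h := huniq (u (c • v) - c • u v) (G (c • v) - c * G v) (by
      intro n
      have h1 := hu (c • v) n
      rw [map_smul, LinearMap.smul_apply, hu v n, smul_add, smul_smul] at h1
      rw [map_sub, map_smul, LinearMap.sub_apply, LinearMap.smul_apply, sub_smul]
      have h2 : d.B (u (c • v)) n + G (c • v) • d.ι (Y n) -
          (c • d.B (u v) n + (c * G v) • d.ι (Y n)) = 0 := by
        rw [h1, sub_self]
      rw [← h2]
      abel)
    exact ⟨sub_eq_zero.1 h.1, sub_eq_zero.1 h.2⟩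
  obtain ⟨T, hT⟩ : ∃ T : N →ₗ[ℂ] N, ∀ v, T v = d.π (Y v) + u v :=
    ⟨d.π ∘ₗ Y + { toFun := u
                  map_add' := fun v w => (hadd v w).2
                  map_smul' := fun c v => (hsm c v).2 }, fun v => rfl⟩
  obtain ⟨Γ, hΓ⟩ : ∃ Γ : N →ₗ[ℂ] ℂ, ∀ v, Γ v = G v :=
    ⟨{ toFun := G
       map_add' := fun v w => (hadd v w).1
       map_smul' := fun c v => (hsm c v).1 }, fun v => rfl⟩
  -- `n = v`
  have hv : ∀ v, d.B v (T v) = G v • d.ι (Y v) := by
    intro v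
    have h1 := hu v v
    rw [hZ, d.β_apply, d.c_apply, d.B_alt, map_zero, map_zero, map_zero, map_zero, map_zero,
      sub_zero, zero_smul, add_zero] at h1
    rw [hT, map_add, h1, hBs v (u v)]
    abel
  -- `G = 0`
  have hG0 : ∀ v, G v = 0 := by
    by_contra hcon
    push Not at hcon
    obtain ⟨v0, hv0⟩ := hcon
    obtain ⟨x0, rfl⟩ := d.π_surj v0
    obtain ⟨P, hP⟩ : ∃ P : MvPolynomial (Fin 5) ℂ, ∀ x, eval x P = G (d.π x) := by
      refine ⟨∑ i, C (Γ (d.π (Pi.single i 1))) * X i, fun x => ?_⟩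
      rw [← hΓ]
      have h1 : x = ∑ i, x i • (Pi.single i 1 : Fin 5 → ℂ) := by
        rw [← Finset.univ_sum_single x]
        refine Finset.sum_congr rfl fun i _ => ?_
        rw [← Pi.single_smul, smul_eq_mul, mul_one]
        simp
      conv_rhs => rw [h1]
      simp only [map_sum, map_mul, eval_C, eval_X, map_smul, smul_eq_mul]
      exact Finset.sum_congr rfl fun i _ => mul_comm _ _
    have hP0 : P ≠ 0 := by
      rintro rfl
      have h1 := hP x0
      rw [map_zero] at h1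
      exact hv0 h1.symm
    have h1 := LA2_cl d.dimN d.B_alt d.B_nd d.π d.π_surj (d.ι ∘ₗ Y ∘ₗ d.π) hP0 (by
      intro x hx
      rw [hP] at hx
      refine ⟨-((G (d.π x))⁻¹ • T (d.π x)), ?_⟩
      have h2 := hv (d.π x)
      rw [hBs] at h2
      rw [map_neg, LinearMap.neg_apply, map_smul, LinearMap.smul_apply, ← smul_neg, h2, smul_smul,
        inv_mul_cancel₀ hx, one_smul]
      rfl)
    obtain ⟨z', hz'⟩ := LA2 d.dimN d.B_alt d.B_nd d.π d.π_surj (d.ι ∘ₗ Y ∘ₗ d.π) h1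
    obtain ⟨n, hn⟩ := hYn z'
    obtain ⟨x, rfl⟩ := d.π_surj n
    exact hn (hz' x)
  obtain ⟨s, hs⟩ := LinearMap.exists_eq_smul_id_of_forall_notLinearIndependent (f := T) (by
    intro v
    refine d.B_nd v (T v) ?_
    rw [hv, hG0, zero_smul])
  refine ⟨s, m, fun v w => ?_⟩
  have h1 := hu v w
  rw [hZ, hG0, zero_smul, add_zero] at h1
  have h2 : u v = s • v - d.π (Y v) := by
    rw [eq_sub_iff_add_eq, add_comm, ← hT, hs]
    rfl
  rw [h2, map_sub, map_smul, LinearMap.sub_apply, LinearMap.smul_apply] at h1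
  have h3 : d.ι (Y (d.β p v w)) = d.B v (d.π (Y w)) + d.c v w • m -
      (d.B v (d.π (Y w)) - d.ι (Y (d.β p v w)) + d.c v w • m) := by abel
  rw [h3, h1]
  abel

end Pool.Agent.Helper12.Z4
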