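import Pool.Agent.Helper12.Z4.R4b

/-! Z4-R4c: `c` of rank 4, case R6: the constants vanish.  `e := π Y`, `β = π p B`, `mb := π (p m)`.
Applying `π p` and `q` to (D) `D(v,w,x) = ι Y (C(v,w,x))`:
(J) `β(v,β(w,x)) + cyc = e (C(v,w,x))`,  (C) `c(v,β(w,x)) + cyc = 0`.
Applying `q` and `π p` to (L0) `ι Y (β(v,w)) = B(e v,w) + B(v,e w) - s B(v,w) + c(v,w) m`:
(M) `c(e v,w) + c(v,e w) = μ c(v,w)`, `μ = s - q m`;  (L) `e β(v,w) = β(e v,w) + β(v,e w) - s β(v,w) + c(v,w) mb`.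
On `N × ℂ` put `br (v,a) (w,b) := (β v w + a e w - b e v, c v w)` (`E = (0,1)`, `[E,v] = e v`).  (J), (C): `Jac br` vanishes on `N`;
`Jac br E v w = -s β(v,w) + c(v,w) mb - μ c(v,w) E`.  `four_term` on the symplectic basis `e0, e1, e2, e3` (its right side is 0, and
`br x_i x_j = β(x_i,x_j) + c(x_i,x_j) E`, so only the pairs `(0,1), (2,3)` contribute): `-s (β(e0,e1) + β(e2,e3)) + 2 mb - 2 μ E = 0`.  So `μ = 0`.
TRACE: (M) with `μ = 0` gives `tr e = 0` (`tr e = 2 μ`).  `T := ι ∘ Y ∘ π ∘ p : F → F` has `tr T = tr (π p ι Y) = tr e`; in the basis `B(e_i,e_j)`, `i < j`, of `F`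
(R6 and `dimF`) (L0) says `T = e_* - s + q(.) m`, `tr e_* = 3 tr e`: `tr e = 3 tr e - 6 s + q m`, and `q m = s - μ = s`: `s = 0`.  Then `mb = 0`. -/

set_option autoImplicit false

namespace Pool.Agent.Helper12.Z4

open MvPolynomial
open scoped BigOperators
open Pool.Agent.Helper71.FC

variable {N F : Type} [AddCommGroup N] [Module ℂ N] [AddCommGroup F] [Module ℂ F]

/-- the bracket on `N × ℂ` -/
noncomputable def brE (β : N →ₗ[ℂ] N →ₗ[ℂ] N) (c : N →ₗ[ℂ] N →ₗ[ℂ] ℂ) (e : N →ₗ[ℂ] N) :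
    (N × ℂ) →ₗ[ℂ] (N × ℂ) →ₗ[ℂ] (N × ℂ) :=
  LinearMap.mk₂ ℂ (fun x y => (β x.1 y.1 + x.2 • e y.1 - y.2 • e x.1, c x.1 y.1))
    (by
      intro a b y
      ext
      · simp only [Prod.fst_add, Prod.snd_add, map_add, LinearMap.add_apply, add_smul, smul_add]
        abel
      · simp only [Prod.fst_add, map_add, LinearMap.add_apply, Prod.snd_add])
    (by
      intro r a y
      ext
      · simp only [Prod.smul_fst, Prod.smul_snd, map_smul, LinearMap.smul_apply, smul_eq_mul,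
          smul_sub, smul_add, mul_smul, smul_comm r y.2]
      · simp only [Prod.smul_fst, map_smul, LinearMap.smul_apply, Prod.smul_snd])
    (by
      intro a y z
      ext
      · simp only [Prod.fst_add, Prod.snd_add, map_add, add_smul, smul_add]
        abel
      · simp only [Prod.fst_add, map_add, Prod.snd_add])
    (by
      intro r a y
      ext
      · simp only [Prod.smul_fst, Prod.smul_snd, map_smul, smul_eq_mul,
          smul_sub, smul_add, mul_smul, smul_comm r a.2]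
      · simp only [Prod.smul_fst, map_smul, Prod.smul_snd])

theorem brE_apply (β : N →ₗ[ℂ] N →ₗ[ℂ] N) (c : N →ₗ[ℂ] N →ₗ[ℂ] ℂ) (e : N →ₗ[ℂ] N) (x y : N × ℂ) :
    brE β c e x y = (β x.1 y.1 + x.2 • e y.1 - y.2 • e x.1, c x.1 y.1) := rfl

private theorem rc_anti {M : Type} [AddCommGroup M] [Module ℂ M] {f : N →ₗ[ℂ] N →ₗ[ℂ] M}
    (h : ∀ x, f x x = 0) (x y : N) : f x y = - f y x := by
  have h1 := h (x + y)
  simp only [map_add, LinearMap.add_apply, h, zero_add, add_zero] at h1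
  exact eq_neg_of_add_eq_zero_right h1

private theorem rc_jac {β : N →ₗ[ℂ] N →ₗ[ℂ] N} {c : N →ₗ[ℂ] N →ₗ[ℂ] ℂ} (e : N →ₗ[ℂ] N)
    (hβ : ∀ v w, β v w = - β w v) (hc : ∀ v w, c v w = - c w v)
    (hJ : ∀ v w x, β v (β w x) + β w (β x v) + β x (β v w) = e (CC c v w x))
    (hC : ∀ v w x, c v (β w x) + c w (β x v) + c x (β v w) = 0) (x y z : N × ℂ) :
    Jac (brE β c e) x y z =
      (x.2 • (e (β y.1 z.1) - β (e y.1) z.1 - β y.1 (e z.1)) +
        y.2 • (e (β z.1 x.1) - β (e z.1) x.1 - β z.1 (e x.1)) +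
        z.2 • (e (β x.1 y.1) - β (e x.1) y.1 - β x.1 (e y.1)),
       - (x.2 * (c (e y.1) z.1 + c y.1 (e z.1)) + y.2 * (c (e z.1) x.1 + c z.1 (e x.1)) +
        z.2 * (c (e x.1) y.1 + c x.1 (e y.1)))) := by
  unfold Jac
  simp only [brE_apply]
  ext
  · have h1 := hJ x.1 y.1 z.1
    unfold CC at h1
    simp only [map_add, map_smul] at h1
    simp only [Prod.fst_add, map_add, map_sub, map_smul]
    rw [hβ (e y.1) z.1, hβ (e z.1) x.1, hβ (e x.1) y.1]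
    linear_combination (norm := module) h1
  · have h1 := hC x.1 y.1 z.1
    simp only [Prod.snd_add, map_add, map_sub, map_smul, smul_eq_mul]
    rw [hc (e y.1) z.1, hc (e z.1) x.1, hc (e x.1) y.1]
    linear_combination h1

/-- the consequences of the two hypotheses -/
private theorem rc_facts (d : YS N F) {p : F →ₗ[ℂ] V5} (hp : ∀ v, p (d.ι v) = v)
    {Y : N →ₗ[ℂ] V5}
    (hD : ∀ v w x, d.D p v w x = d.ι (Y (CC d.c v w x))) {s : ℂ} {m : F}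
    (hL : ∀ v w, d.ι (Y (d.β p v w)) =
      d.B (d.π (Y v)) w + d.B v (d.π (Y w)) - s • d.B v w + d.c v w • m) :
    (∀ v w, d.β p v w = - d.β p w v) ∧ (∀ v w, d.c v w = - d.c w v) ∧
    (∀ v w x, d.β p v (d.β p w x) + d.β p w (d.β p x v) + d.β p x (d.β p v w) =
      (d.π ∘ₗ Y) (CC d.c v w x)) ∧
    (∀ v w x, d.c v (d.β p w x) + d.c w (d.β p x v) + d.c x (d.β p v w) = 0) ∧
    (∀ v w, (d.π ∘ₗ Y) (d.β p v w) = d.β p ((d.π ∘ₗ Y) v) w + d.β p v ((d.π ∘ₗ Y) w) -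
      s • d.β p v w + d.c v w • d.π (p m)) ∧
    (∀ v w, d.c ((d.π ∘ₗ Y) v) w + d.c v ((d.π ∘ₗ Y) w) = (s - d.q m) * d.c v w) := by
  have hq : ∀ v, d.q (d.ι v) = 0 := fun v => (d.q_iff _).mpr ⟨v, rfl⟩
  refine ⟨rc_anti fun v => ?_, rc_anti fun v => ?_, fun v w x => ?_, fun v w x => ?_,
    fun v w => ?_, fun v w => ?_⟩
  · rw [d.β_apply, d.B_alt, map_zero, map_zero]
  · rw [d.c_apply, d.B_alt, map_zero]
  · have h1 := congrArg (fun f => d.π (p f)) (hD v w x)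
    simp only [YS.D, map_add, hp] at h1
    exact h1
  · have h1 := congrArg d.q (hD v w x)
    simp only [YS.D, map_add, hq] at h1
    exact h1
  · have h1 := congrArg (fun f => d.π (p f)) (hL v w)
    simp only [map_add, map_sub, map_smul, hp] at h1
    exact h1
  · have h1 := congrArg d.q (hL v w)
    simp only [map_add, map_sub, map_smul, hq, smul_eq_mul] at h1
    show d.q (d.B (d.π (Y v)) w) + d.q (d.B v (d.π (Y w))) = (s - d.q m) * d.q (d.B v w)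
    have h2 : d.c v w = d.q (d.B v w) := rfl
    rw [h2] at h1
    linear_combination -h1

/-- the trace argument -/
private theorem rc_tr (d : YS N F) {p : F →ₗ[ℂ] V5} (hp : ∀ v, p (d.ι v) = v)
    {b : Module.Basis (Fin 4) ℂ N} (hs : Symp d.c b) (h6 : R6 d.B b) {Y : N →ₗ[ℂ] V5}
    {s : ℂ} {m : F}
    (hL : ∀ v w, d.ι (Y (d.β p v w)) =
      d.B (d.π (Y v)) w + d.B v (d.π (Y w)) - s • d.B v w + d.c v w • m)
    (hm : d.q m = s)
    (hM : ∀ v w, d.c ((d.π ∘ₗ Y) v) w + d.c v ((d.π ∘ₗ Y) w) = 0) : s = 0 := by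
  have hFN : Module.Finite ℂ N := Module.finite_of_finrank_pos (by rw [d.dimN]; norm_num)
  have hFF : Module.Finite ℂ F := Module.finite_of_finrank_pos (by rw [d.dimF]; norm_num)
  let g : Module.Basis (Fin 6) ℂ F := basisOfLinearIndependentOfCardEqFinrank h6
    (by rw [d.dimF, Fintype.card_fin])
  have hg : ⇑g = ![d.B (b 0) (b 1), d.B (b 0) (b 2), d.B (b 0) (b 3), d.B (b 1) (b 2),
    d.B (b 1) (b 3), d.B (b 2) (b 3)] := coe_basisOfLinearIndependentOfCardEqFinrank _ _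
  have hB := rc_anti d.B_alt
  have g0 : d.B (b 0) (b 1) = g 0 := by rw [hg]; rfl
  have g1 : d.B (b 0) (b 2) = g 1 := by rw [hg]; rfl
  have g2 : d.B (b 0) (b 3) = g 2 := by rw [hg]; rfl
  have g3 : d.B (b 1) (b 2) = g 3 := by rw [hg]; rfl
  have g4 : d.B (b 1) (b 3) = g 4 := by rw [hg]; rfl
  have g5 : d.B (b 2) (b 3) = g 5 := by rw [hg]; rfl
  have g0' : d.B (b 1) (b 0) = - g 0 := by rw [hB, g0]
  have g1' : d.B (b 2) (b 0) = - g 1 := by rw [hB, g1]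
  have g2' : d.B (b 3) (b 0) = - g 2 := by rw [hB, g2]
  have g3' : d.B (b 2) (b 1) = - g 3 := by rw [hB, g3]
  have g4' : d.B (b 3) (b 1) = - g 4 := by rw [hB, g4]
  have g5' : d.B (b 3) (b 2) = - g 5 := by rw [hB, g5]
  obtain ⟨E, hE⟩ : ∃ E : Fin 4 → Fin 4 → ℂ, ∀ i l, E l i = b.repr ((d.π ∘ₗ Y) (b i)) l :=
    ⟨fun l i => b.repr ((d.π ∘ₗ Y) (b i)) l, fun _ _ => rfl⟩
  have he : ∀ i, d.π (Y (b i)) = E 0 i • b 0 + E 1 i • b 1 + E 2 i • b 2 + E 3 i • b 3 := by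
    intro i
    have h1 := b.sum_repr ((d.π ∘ₗ Y) (b i))
    rw [Fin.sum_univ_four] at h1
    rw [hE, hE, hE, hE]
    exact h1.symm
  have hT : ∀ v w, (d.ι ∘ₗ Y ∘ₗ d.π ∘ₗ p) (d.B v w) =
      d.B (d.π (Y v)) w + d.B v (d.π (Y w)) - s • d.B v w + d.c v w • m := hL
  have htr : LinearMap.trace ℂ F (d.ι ∘ₗ Y ∘ₗ d.π ∘ₗ p) = LinearMap.trace ℂ N (d.π ∘ₗ Y) := by
    have h1 := LinearMap.trace_comp_comm' (d.π ∘ₗ p) (d.ι ∘ₗ Y)
    have h2 : (d.π ∘ₗ p) ∘ₗ (d.ι ∘ₗ Y) = d.π ∘ₗ Y := by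
      ext v
      show d.π (p (d.ι (Y v))) = d.π (Y v)
      rw [hp]
    rw [h2] at h1
    first
      | exact h1
      | exact h1.symm
  rw [LinearMap.trace_eq_matrix_trace ℂ g, LinearMap.trace_eq_matrix_trace ℂ b] at htr
  simp only [Matrix.trace, Matrix.diag_apply, LinearMap.toMatrix_apply, Fin.sum_univ_four,
    Fin.sum_univ_six, ← hE] at htr
  have t0 : g.repr ((d.ι ∘ₗ Y ∘ₗ d.π ∘ₗ p) (g 0)) 0 = E 0 0 + E 1 1 - s + g.repr m 0 := by
    rw [← g0, hT, he 0, he 1, hs.h01]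
    simp [d.B_alt, g0, g1, g2, g3, g4, g5, g0', g1', g2', g3', g4', g5', Finsupp.single_apply]
  have t1 : g.repr ((d.ι ∘ₗ Y ∘ₗ d.π ∘ₗ p) (g 1)) 1 = E 0 0 + E 2 2 - s := by
    rw [← g1, hT, he 0, he 2, hs.h02]
    simp [d.B_alt, g0, g1, g2, g3, g4, g5, g0', g1', g2', g3', g4', g5', Finsupp.single_apply]
  have t2 : g.repr ((d.ι ∘ₗ Y ∘ₗ d.π ∘ₗ p) (g 2)) 2 = E 0 0 + E 3 3 - s := by
    rw [← g2, hT, he 0, he 3, hs.h03]
    simp [d.B_alt, g0, g1, g2, g3, g4, g5, g0', g1', g2', g3', g4', g5', Finsupp.single_apply]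
  have t3 : g.repr ((d.ι ∘ₗ Y ∘ₗ d.π ∘ₗ p) (g 3)) 3 = E 1 1 + E 2 2 - s := by
    rw [← g3, hT, he 1, he 2, hs.h12]
    simp [d.B_alt, g0, g1, g2, g3, g4, g5, g0', g1', g2', g3', g4', g5', Finsupp.single_apply]
  have t4 : g.repr ((d.ι ∘ₗ Y ∘ₗ d.π ∘ₗ p) (g 4)) 4 = E 1 1 + E 3 3 - s := by
    rw [← g4, hT, he 1, he 3, hs.h13]
    simp [d.B_alt, g0, g1, g2, g3, g4, g5, g0', g1', g2', g3', g4', g5', Finsupp.single_apply]
  have t5 : g.repr ((d.ι ∘ₗ Y ∘ₗ d.π ∘ₗ p) (g 5)) 5 = E 2 2 + E 3 3 - s + g.repr m 5 := by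
    rw [← g5, hT, he 2, he 3, hs.h23]
    simp [d.B_alt, g0, g1, g2, g3, g4, g5, g0', g1', g2', g3', g4', g5', Finsupp.single_apply]
  rw [t0, t1, t2, t3, t4, t5] at htr
  have hqm : d.q m = g.repr m 0 + g.repr m 5 := by
    have h1 := congrArg d.q (g.sum_repr m)
    rw [Fin.sum_univ_six] at h1
    simp only [map_add, map_smul, smul_eq_mul] at h1
    have c0 : d.q (g 0) = 1 := by rw [← g0]; exact hs.h01
    have c1 : d.q (g 1) = 0 := by rw [← g1]; exact hs.h02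
    have c2 : d.q (g 2) = 0 := by rw [← g2]; exact hs.h03
    have c3 : d.q (g 3) = 0 := by rw [← g3]; exact hs.h12
    have c4 : d.q (g 4) = 0 := by rw [← g4]; exact hs.h13
    have c5 : d.q (g 5) = 1 := by rw [← g5]; exact hs.h23
    rw [c0, c1, c2, c3, c4, c5] at h1
    linear_combination -h1
  have hca := rc_anti (f := d.c) (fun v => by rw [d.c_apply, d.B_alt, map_zero])
  have hc0 : ∀ v, d.c v v = 0 := fun v => by rw [d.c_apply, d.B_alt, map_zero]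
  have m01 : E 0 0 + E 1 1 = 0 := by
    have h1 := hM (b 0) (b 1)
    have h2 : (d.π ∘ₗ Y) (b 0) = _ := he 0
    have h3 : (d.π ∘ₗ Y) (b 1) = _ := he 1
    rw [h2, h3] at h1
    simp only [map_add, map_smul, LinearMap.add_apply, LinearMap.smul_apply, smul_eq_mul,
      hs.h01, hs.h02, hs.h03, hc0, hca (b 2) (b 1), hca (b 3) (b 1), hs.h12, hs.h13] at h1
    linear_combination h1
  have m23 : E 2 2 + E 3 3 = 0 := by
    have h1 := hM (b 2) (b 3)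
    have h2 : (d.π ∘ₗ Y) (b 2) = _ := he 2
    have h3 : (d.π ∘ₗ Y) (b 3) = _ := he 3
    rw [h2, h3] at h1
    simp only [map_add, map_smul, LinearMap.add_apply, LinearMap.smul_apply, smul_eq_mul,
      hs.h23, hs.h03, hs.h13, hc0, hca (b 2) (b 1), hca (b 2) (b 0), hs.h12, hs.h02] at h1
    linear_combination h1
  have h5 : 5 * s = 0 := by
    linear_combination -htr + 2 * m01 + 2 * m23 - hqm + hm
  exact (mul_eq_zero.1 h5).resolve_left (by norm_num)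

theorem YS.R4_s (d : YS N F) {p : F →ₗ[ℂ] V5} (hp : ∀ v, p (d.ι v) = v)
    {b : Module.Basis (Fin 4) ℂ N} (hs : Symp d.c b) (h6 : R6 d.B b) {Y : N →ₗ[ℂ] V5}
    (hD : ∀ v w x, d.D p v w x = d.ι (Y (CC d.c v w x))) {s : ℂ} {m : F}
    (hL : ∀ v w, d.ι (Y (d.β p v w)) =
      d.B (d.π (Y v)) w + d.B v (d.π (Y w)) - s • d.B v w + d.c v w • m) :
    s = 0 ∧ d.π (p m) = 0 ∧ ∀ v w, d.c (d.π (Y v)) w + d.c v (d.π (Y w)) = 0 := by
  obtain ⟨hβ, hc, hJ, hC, hL', hM⟩ := rc_facts d hp hD hL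
  have hc0 : ∀ v, d.c v v = 0 := fun v => by rw [d.c_apply, d.B_alt, map_zero]
  have hβ0 : ∀ v, d.β p v v = 0 := fun v => by rw [d.β_apply, d.B_alt, map_zero, map_zero]
  have hjac := rc_jac (d.π ∘ₗ Y) hβ hc hJ hC
  have hbr : ∀ x, brE (d.β p) d.c (d.π ∘ₗ Y) x x = 0 := by
    intro x
    rw [brE_apply, hβ0, hc0]
    ext
    · show 0 + x.2 • (d.π ∘ₗ Y) x.1 - x.2 • (d.π ∘ₗ Y) x.1 = 0
      rw [zero_add, sub_self]
    · rfl
  -- Jacobians
  have hN : ∀ u v w : N, Jac (brE (d.β p) d.c (d.π ∘ₗ Y)) (u, 0) (v, 0) (w, 0) = 0 := by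
    intro u v w
    rw [hjac]
    ext
    · simp
    · simp
  have hE : ∀ u v w x : N, Jac (brE (d.β p) d.c (d.π ∘ₗ Y))
      (brE (d.β p) d.c (d.π ∘ₗ Y) (u, 0) (v, 0)) (w, 0) (x, 0) =
      (d.c u v • (- s • d.β p w x + d.c w x • d.π (p m)), - (s - d.q m) * d.c u v * d.c w x) := by
    intro u v w x
    rw [hjac, brE_apply]
    ext
    · simp only [zero_smul, add_zero]
      rw [hL' w x]
      module
    · simp only [zero_mul, add_zero]
      rw [hM w x]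
      ring
  have h4 := four_term hbr (b 0, (0 : ℂ)) (b 1, (0 : ℂ)) (b 2, (0 : ℂ)) (b 3, (0 : ℂ))
  rw [hE, hE, hE, hE, hE, hE, hN, hN, hN, hN, hs.h01, hs.h02, hs.h03, hs.h12, hs.h13, hs.h23] at h4
  have h41 := congrArg Prod.fst h4
  have h42 := congrArg Prod.snd h4
  simp only [map_zero, sub_zero, add_zero, Prod.fst_add, Prod.snd_add, Prod.fst_sub, Prod.snd_sub,
    Prod.fst_zero, Prod.snd_zero, zero_smul, one_smul, mul_zero, mul_one] at h41 h42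
  have hμ : s - d.q m = 0 := by linear_combination (-1/2 : ℂ) * h42
  have hM' : ∀ v w, d.c ((d.π ∘ₗ Y) v) w + d.c v ((d.π ∘ₗ Y) w) = 0 := by
    intro v w
    rw [hM, hμ, zero_mul]
  have hs0 : s = 0 := rc_tr d hp hs h6 hL (by linear_combination -hμ) hM'
  refine ⟨hs0, ?_, hM'⟩
  rw [hs0] at h41
  have h5 : (2 : ℂ) • d.π (p m) = 0 := by
    linear_combination (norm := module) h41
  exact (smul_eq_zero.1 h5).resolve_left (by norm_num)

/-- hence `N × ℂ` is a Lie algebra -/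
theorem YS.R4_lie (d : YS N F) {p : F →ₗ[ℂ] V5} (hp : ∀ v, p (d.ι v) = v)
    {b : Module.Basis (Fin 4) ℂ N} (hs : Symp d.c b) (h6 : R6 d.B b) {Y : N →ₗ[ℂ] V5}
    (hD : ∀ v w x, d.D p v w x = d.ι (Y (CC d.c v w x))) {s : ℂ} {m : F}
    (hL : ∀ v w, d.ι (Y (d.β p v w)) =
      d.B (d.π (Y v)) w + d.B v (d.π (Y w)) - s • d.B v w + d.c v w • m) (x y z : N × ℂ) :
    Jac (brE (d.β p) d.c (d.π ∘ₗ Y)) x y z = 0 := by
  obtain ⟨hβ, hc, hJ, hC, hL', hM⟩ := rc_facts d hp hD hL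
  obtain ⟨hs0, hm0, hM0⟩ := d.R4_s hp hs h6 hD hL
  rw [rc_jac (d.π ∘ₗ Y) hβ hc hJ hC]
  have h1 : ∀ v w, (d.π ∘ₗ Y) (d.β p v w) - d.β p ((d.π ∘ₗ Y) v) w -
      d.β p v ((d.π ∘ₗ Y) w) = 0 := by
    intro v w
    rw [hL' v w, hs0, hm0]
    module
  have h2 : ∀ v w, d.c ((d.π ∘ₗ Y) v) w + d.c v ((d.π ∘ₗ Y) w) = 0 := hM0
  rw [h1, h1, h1, h2, h2, h2]
  simp

end Pool.Agent.Helper12.Z4
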