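import Pool.Agent.Helper12.Z4.Defs
import Pool.Agent.Helper34.B1.Two
import Pool.Agent.Helper18.LB.Alg

/-! Z4-Rank.
* `rank3`: `X x = l1(x) f1 + l2(x) f2` with `f1, f2` independent and linear forms `l1, l2`; the polynomial identity `l1 f1 + l2 f2 = 0` (all points `x`,
  `MvPolynomial.funext`).  `l1, l2` dependent: `X` has rank `≤ 1`: `l f = 0`, so `f = 0` or `l = 0`.  Independent: `l1` is prime and does not divide `l2`
  (`prime_of_hom_one`), so `f2 = l1 ζ`, `ζ` homogeneous of degree 2, `ζ ∈ EE θ 2 = ⊥`: `f2 = 0`.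
* `prop_no`: two independent members of `EE θ 3` with `w11 f f' = 0`: by helper28's `prim3` (Z4/Div.lean) members are primitive, `f_i f'_j = f_j f'_i`, so
  `f = c f'` (`c` a constant): contradiction.
* `finrank_KX`: the values `f(x)`, `f ∈ EE θ 3`, at a point with `θ_x ≠ 0` satisfy `f(x) ∧ θ_x = 0`, a 2-dimensional space because `θ_x` is decomposable
  (`Dec`), spanned by the `a_v(x)`.
* `RK_lin`: `X ↦` the linear forms `c_i` with `X x = ∑ c_i(x) ε_i`, for a basis `ε` of `EE θ 3`: `finrank (RL θ) = finrank (RK ε 1)`. -/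

set_option autoImplicit false

namespace Pool.Agent.Helper12.Z4

open MvPolynomial
open scoped BigOperators
open Pool.Agent.Helper71.FL (w12 pf ct Dec Closed dd at0 emb res)
open Pool.Agent.Helper93 (lsub lmap OF pb)
open Pool.Agent.Helper71.FC

variable {n : ℕ}

private theorem eval_lf (a x : Fin n → ℂ) : eval x (lf a) = ∑ i, a i * x i := by
  unfold lf
  rw [map_sum]
  refine Finset.sum_congr rfl fun i _ => ?_
  rw [map_mul, eval_C, eval_X]

private theorem lf_hom (a : Fin n → ℂ) : (lf a).IsHomogeneous 1 := by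
  unfold lf
  apply IsHomogeneous.sum
  intro i _
  have := (isHomogeneous_C (Fin n) (a i)).mul (isHomogeneous_X ℂ i)
  rwa [zero_add] at this

/-- the coefficient vector of a functional -/
private noncomputable def cvec (l : (Fin n → ℂ) →ₗ[ℂ] ℂ) : Fin n → ℂ := fun k => l (Pi.single k 1)

private theorem eval_cvec (l : (Fin n → ℂ) →ₗ[ℂ] ℂ) (x : Fin n → ℂ) :
    eval x (lf (cvec l)) = l x := by
  rw [eval_lf, LinearMap.pi_apply_eq_sum_univ l x]
  refine Finset.sum_congr rfl fun i _ => ?_
  rw [smul_eq_mul, mul_comm]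
  congr 1
  unfold cvec
  congr 1
  funext j
  rw [Pi.single_apply]
  simp only [eq_comm]

/-- the main step of `rank3` -/
private theorem rank_aux {θ : F2 n} (h2 : EE θ 2 = ⊥) {X : (Fin n → ℂ) →ₗ[ℂ] EE θ 3}
    (hX : X ∈ RL θ) (l1 l2 : (Fin n → ℂ) →ₗ[ℂ] ℂ) (f1 f2 : EE θ 3)
    (h : ∀ x, X x = l1 x • f1 + l2 x • f2) : X = 0 := by
  have hpol : ∀ j, lf (cvec l1) * (f1 : F1 n) j + lf (cvec l2) * (f2 : F1 n) j = 0 := by
    intro j
    apply MvPolynomial.funext
    intro x
    have h3 := hX x j
    rw [h x] at h3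
    have h4 : ((l1 x • f1 + l2 x • f2 : EE θ 3) : F1 n) j =
        l1 x • (f1 : F1 n) j + l2 x • (f2 : F1 n) j := rfl
    rw [h4, smul_eq_C_mul, smul_eq_C_mul, map_add, map_mul, map_mul, eval_C, eval_C] at h3
    rw [map_add, map_mul, map_mul, eval_cvec, eval_cvec, map_zero]
    exact h3
  by_cases hli : LinearIndependent ℂ ![cvec l1, cvec l2]
  · obtain ⟨ζ, hζ, hz⟩ := Pool.Agent.Helper34.B1.two_syz_hom hli (k := 2) (ξ := (f1 : F1 n))
      (η := (f2 : F1 n)) (fun j => f1.2.1 j) hpol
    have hl2 : lf (cvec l2) ≠ 0 := by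
      intro h0
      rw [LinearIndependent.pair_iff] at hli
      have h5 : cvec l2 = 0 := by
        funext k
        have := eval_lf (cvec l2) (Pi.single k 1)
        rw [h0, map_zero, Finset.sum_eq_single k] at this
        · rw [Pi.single_eq_same, mul_one] at this
          exact this.symm
        · intro i _ hi
          rw [Pi.single_eq_of_ne hi, mul_zero]
        · intro hk
          exact absurd (Finset.mem_univ _) hk
      exact one_ne_zero (hli 0 1 (by rw [h5]; simp)).2
    have hzE : ζ ∈ EE θ 2 := by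
      refine ⟨hζ, fun i j k => ?_⟩
      have h6 := f1.2.2 i j k
      have h7 : (f1 : F1 n) = fun j => lf (cvec l2) * ζ j := funext fun j => (hz j).1
      rw [h7, Pool.Agent.Helper71.FL.w12_smul] at h6
      exact (mul_eq_zero.mp h6).resolve_left hl2
    rw [h2, Submodule.mem_bot] at hzE
    have g1 : f1 = 0 := by
      apply Subtype.ext
      funext j
      rw [(hz j).1, hzE]
      simp
    have g2 : f2 = 0 := by
      apply Subtype.ext
      funext j
      rw [(hz j).2, hzE]
      simp
    apply LinearMap.ext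
    intro x
    rw [h, g1, g2, smul_zero, smul_zero, add_zero]
    rfl
  · rw [LinearIndependent.pair_iff] at hli
    push Not at hli
    obtain ⟨s, t, hst, hne⟩ := hli
    have hst' : ∀ x, s * l1 x + t * l2 x = 0 := by
      intro x
      rw [← eval_cvec l1, ← eval_cvec l2, eval_lf, eval_lf, Finset.mul_sum, Finset.mul_sum,
        ← Finset.sum_add_distrib]
      refine Finset.sum_eq_zero fun i _ => ?_
      have := congrFun hst i
      simp only [Pi.add_apply, Pi.smul_apply, smul_eq_mul, Pi.zero_apply] at this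
      linear_combination x i * this
    -- one term
    have key : ∀ (l : (Fin n → ℂ) →ₗ[ℂ] ℂ) (f : EE θ 3), (∀ x, X x = l x • f) → X = 0 := by
      intro l f hl
      by_cases hf : f = 0
      · apply LinearMap.ext
        intro x
        rw [hl, hf, smul_zero]
        rfl
      · have hj : ∃ j, (f : F1 n) j ≠ 0 := by
          by_contra hcon
          push Not at hcon
          exact hf (Subtype.ext (funext hcon))
        obtain ⟨j, hj⟩ := hj
        have h8 : lf (cvec l) * (f : F1 n) j = 0 := by
          apply MvPolynomial.funext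
          intro x
          have h3 := hX x j
          rw [hl x] at h3
          have h4 : ((l x • f : EE θ 3) : F1 n) j = l x • (f : F1 n) j := rfl
          rw [h4, smul_eq_C_mul, map_mul, eval_C] at h3
          rw [map_mul, eval_cvec, map_zero]
          exact h3
        have h9 := (mul_eq_zero.mp h8).resolve_right hj
        apply LinearMap.ext
        intro x
        have h10 : l x = 0 := by rw [← eval_cvec, h9, map_zero]
        rw [hl, h10, zero_smul]
        rfl
    by_cases hs : s = 0
    · have ht := hne hs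
      refine key l1 f1 fun x => ?_
      have h5 := hst' x
      rw [hs, zero_mul, zero_add] at h5
      rw [h x, (mul_eq_zero.mp h5).resolve_left ht, zero_smul, add_zero]
    · refine key l2 (f2 - (t / s) • f1) fun x => ?_
      have h5 : l1 x = -(t / s) * l2 x := by
        have := hst' x
        field_simp
        linear_combination this
      rw [h x, h5]
      module

private theorem two_gen {E : Type} [AddCommGroup E] [Module ℂ E] (X : (Fin n → ℂ) →ₗ[ℂ] E)
    (hr : Module.finrank ℂ (LinearMap.range X) ≤ 2) :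
    ∃ (l1 l2 : (Fin n → ℂ) →ₗ[ℂ] ℂ) (f1 f2 : E), ∀ x, X x = l1 x • f1 + l2 x • f2 := by
  obtain ⟨r, hr'⟩ : ∃ r, r = Module.finrank ℂ (LinearMap.range X) := ⟨_, rfl⟩
  rw [← hr'] at hr
  interval_cases r
  · have h0 : LinearMap.range X = ⊥ := Submodule.finrank_eq_zero.mp hr'.symm
    refine ⟨0, 0, 0, 0, fun x => ?_⟩
    rw [LinearMap.range_eq_bot.mp h0]
    simp
  · let b := Module.finBasisOfFinrankEq ℂ (LinearMap.range X) hr'.symm
    refine ⟨(b.coord 0) ∘ₗ X.rangeRestrict, 0, (b 0), 0, fun x => ?_⟩
    have h3 := b.sum_repr (X.rangeRestrict x)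
    rw [Fin.sum_univ_one] at h3
    have h4 := congrArg Subtype.val h3
    rw [LinearMap.zero_apply, zero_smul, add_zero]
    exact h4.symm
  · let b := Module.finBasisOfFinrankEq ℂ (LinearMap.range X) hr'.symm
    refine ⟨(b.coord 0) ∘ₗ X.rangeRestrict, (b.coord 1) ∘ₗ X.rangeRestrict, (b 0), (b 1),
      fun x => ?_⟩
    have h3 := b.sum_repr (X.rangeRestrict x)
    rw [Fin.sum_univ_two] at h3
    have h4 := congrArg Subtype.val h3
    exact h4.symm

theorem rank3 {θ : F2 n} (h2 : EE θ 2 = ⊥) {X : (Fin n → ℂ) →ₗ[ℂ] EE θ 3} (hX : X ∈ RL θ)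
    (hr : Module.finrank ℂ (LinearMap.range X) ≤ 2) : X = 0 := by
  obtain ⟨l1, l2, f1, f2, h⟩ := two_gen X hr
  exact rank_aux h2 hX l1 l2 f1 f2 h

theorem prop_no {θ : F2 n} (h : Fol θ) (h2 : ∀ k ≤ 2, EE θ k = ⊥) {f f' : F1 n} (hf : f ∈ EE θ 3)
    (hf' : f' ∈ EE θ 3) (hi : LinearIndependent ℂ ![f, f']) (hw : ∀ i j, w11 f f' i j = 0) :
    False := by
  have hf0 : ∃ i, f' i ≠ 0 := by
    by_contra hcon
    push Not at hcon
    exact hi.ne_zero 1 (funext hcon)
  obtain ⟨e, e', a, b, ρ, hd, ha, hb, hρ, hs, ht, hrel⟩ :=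
    Pool.Agent.Helper18.LB.prop_vec (s := f) (t := f') hf.1 hf'.1 (fun i j => by
      have := hw i j
      unfold w11 at this
      exact sub_eq_zero.mp this) hf0
  obtain ⟨i0, hi0⟩ := hf0
  have ha0 : a ≠ 0 := by
    rintro rfl
    exact hi0 (by rw [ht, zero_mul])
  by_cases he : e = 0
  · subst he
    have hc : ∀ p : Pn n, p.IsHomogeneous 0 → ∃ c : ℂ, p = C c := by
      intro p hp
      rw [← totalDegree_zero_iff_isHomogeneous, totalDegree_eq_zero_iff_eq_C] at hp
      exact ⟨_, hp⟩
    obtain ⟨ca, hca⟩ := hc a ha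
    obtain ⟨cb, hcb⟩ := hc b hb
    rw [LinearIndependent.pair_iff] at hi
    have h5 := (hi ca (-cb) (by
      funext i
      simp only [Pi.add_apply, Pi.smul_apply, Pi.zero_apply, smul_eq_C_mul, C_neg]
      rw [hs, ht, ← hca, ← hcb]
      ring)).1
    exact ha0 (by rw [hca, h5, C_0])
  · have hρE : ρ ∈ EE θ e' := by
      refine ⟨hρ, fun i j k => ?_⟩
      have h6 := hf'.2 i j k
      have h7 : f' = fun j => a * ρ j := funext ht
      rw [h7, Pool.Agent.Helper71.FL.w12_smul] at h6
      exact (mul_eq_zero.mp h6).resolve_left ha0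
    rw [h2 e' (by omega), Submodule.mem_bot] at hρE
    exact hi0 (by rw [ht, hρE]; simp)

/-- evaluation at a point -/
private noncomputable def evx (θ : F2 n) (x : Fin n → ℂ) : EE θ 3 →ₗ[ℂ] (Fin n → ℂ) where
  toFun f := fun j => eval x ((f : F1 n) j)
  map_add' f g := by
    funext j
    exact map_add _ _ _
  map_smul' c f := by
    funext j
    show eval x (c • (f : F1 n) j) = c * eval x ((f : F1 n) j)
    rw [smul_eq_C_mul, map_mul, eval_C]

theorem finrank_KX {θ : F2 n} (h : Fol θ) :
    Gen (fun x : Fin n → ℂ => Module.finrank ℂ (KX θ x) + 2 = Module.finrank ℂ (EE θ 3)) := by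
  have hne : ∃ i j, θ i j ≠ 0 := by
    by_contra hc
    push Not at hc
    exact not_isUnit_zero (h.prim 0 (fun i j => by rw [hc i j]))
  obtain ⟨i0, j0, hij⟩ := hne
  refine ⟨θ i0 j0, hij, fun x hx => ?_⟩
  have : Module.Finite ℂ (EE θ 3) := finite_EE θ 3
  have hK : KX θ x = LinearMap.ker (evx θ x) := by
    ext f
    rw [mem_KX, LinearMap.mem_ker]
    constructor
    · intro hf
      funext j
      exact hf j
    · intro hf j
      exact congrFun hf j
  have hr : Module.finrank ℂ (LinearMap.range (evx θ x)) = 2 := by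
    let w : Fin 2 → (Fin n → ℂ) := ![fun j => eval x (θ i0 j), fun j => eval x (θ j0 j)]
    have hli : LinearIndependent ℂ w := by
      rw [LinearIndependent.pair_iff]
      intro s t hst
      have e1 := congrFun hst j0
      have e2 := congrFun hst i0
      simp only [Pi.add_apply, Pi.smul_apply, smul_eq_mul, Pi.zero_apply] at e1 e2
      rw [h.dec.1 j0, map_zero, mul_zero, add_zero] at e1
      rw [h.dec.1 i0, map_zero, mul_zero, zero_add, h.dec.2.1 j0 i0, map_neg] at e2
      refine ⟨(mul_eq_zero.mp e1).resolve_right hx, ?_⟩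
      have e3 : t * eval x (θ i0 j0) = 0 := by linear_combination -e2
      exact (mul_eq_zero.mp e3).resolve_right hx
    have hsp : LinearMap.range (evx θ x) = Submodule.span ℂ (Set.range w) := by
      have hav : ∀ k : Fin n, (fun j => eval x (θ k j)) ∈ LinearMap.range (evx θ x) := by
        intro k
        refine ⟨avE θ h (Pi.single k 1), ?_⟩
        funext j
        show eval x (av θ (Pi.single k 1) j) = eval x (θ k j)
        unfold av ct cv
        rw [Finset.sum_eq_single k]
        · rw [Pi.single_eq_same, C_1, one_mul]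
        · intro i _ hi
          rw [Pi.single_eq_of_ne hi, C_0, zero_mul]
        · intro hk
          exact absurd (Finset.mem_univ _) hk
      apply le_antisymm
      · rintro ξ ⟨f, rfl⟩
        have h5 : evx θ x f = (eval x ((f : F1 n) j0) / eval x (θ i0 j0)) • w 0 +
            (-(eval x ((f : F1 n) i0) / eval x (θ i0 j0))) • w 1 := by
          funext i
          have h6 := congrArg (eval x) (f.2.2 i i0 j0)
          unfold w12 at h6
          rw [map_add, map_add, map_mul, map_mul, map_mul, map_zero, h.dec.2.1 i i0,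
            map_neg] at h6
          show eval x ((f : F1 n) i) = (eval x ((f : F1 n) j0) / eval x (θ i0 j0)) *
            eval x (θ i0 i) + (-(eval x ((f : F1 n) i0) / eval x (θ i0 j0))) * eval x (θ j0 i)
          field_simp
          linear_combination h6
        rw [h5]
        exact Submodule.add_mem _ (Submodule.smul_mem _ _ (Submodule.subset_span ⟨0, rfl⟩))
          (Submodule.smul_mem _ _ (Submodule.subset_span ⟨1, rfl⟩))
      · rw [Submodule.span_le]
        rintro ξ ⟨i, rfl⟩
        fin_cases i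
        · exact hav i0
        · exact hav j0
    rw [hsp, finrank_span_eq_card hli, Fintype.card_fin]
  have h3 := LinearMap.finrank_range_add_finrank_ker (evx θ x)
  rw [hr, ← hK] at h3
  show Module.finrank ℂ (KX θ x) + 2 = Module.finrank ℂ (EE θ 3)
  omega

theorem RK_lin {θ : F2 n} {e : ℕ} (ε : Module.Basis (Fin e) ℂ (EE θ 3)) :
    Module.finrank ℂ (RL θ) = Module.finrank ℂ (RK (fun i => (ε i : F1 n)) 1) := by
  have hcoe : ∀ (c : Fin e → ℂ) (j : Fin n) (x : Fin n → ℂ),
      eval x (((∑ i, c i • ε i : EE θ 3) : F1 n) j) = ∑ i, c i * eval x ((ε i : F1 n) j) := by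
    intro c j x
    rw [Submodule.coe_sum, Finset.sum_apply, map_sum]
    refine Finset.sum_congr rfl fun i _ => ?_
    show eval x (c i • (ε i : F1 n) j) = _
    rw [smul_eq_C_mul, map_mul, eval_C]
  let Φ : RL θ →ₗ[ℂ] RK (fun i => (ε i : F1 n)) 1 :=
    { toFun := fun X => ⟨fun i => lf (cvec ((ε.coord i) ∘ₗ X.1)), fun i => lf_hom _, fun j => by
        apply MvPolynomial.funext
        intro x
        rw [map_zero, map_sum, ← X.2 x j]
        have h3 : X.1 x = ∑ i, (ε.repr (X.1 x) i) • ε i := (ε.sum_repr _).symm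
        conv_rhs => rw [h3]
        rw [hcoe]
        refine Finset.sum_congr rfl fun i _ => ?_
        rw [map_mul, eval_cvec]
        rfl⟩
      map_add' := fun X Y => by
        apply Subtype.ext
        funext i
        apply MvPolynomial.funext
        intro x
        show eval x (lf (cvec ((ε.coord i) ∘ₗ (X.1 + Y.1)))) =
          eval x (lf (cvec ((ε.coord i) ∘ₗ X.1)) + lf (cvec ((ε.coord i) ∘ₗ Y.1)))
        rw [map_add, eval_cvec, eval_cvec, eval_cvec]
        simp
      map_smul' := fun c X => by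
        apply Subtype.ext
        funext i
        apply MvPolynomial.funext
        intro x
        show eval x (lf (cvec ((ε.coord i) ∘ₗ (c • X.1)))) =
          eval x (c • lf (cvec ((ε.coord i) ∘ₗ X.1)))
        rw [smul_eq_C_mul, map_mul, eval_C, eval_cvec, eval_cvec]
        simp }
  have hinj : Function.Injective Φ := by
    intro X Y hXY
    apply Subtype.ext
    apply LinearMap.ext
    intro x
    apply ε.repr.injective
    ext i
    have h4 := congrArg (eval x) (congrFun (congrArg Subtype.val hXY) i)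
    have h5 : eval x (lf (cvec ((ε.coord i) ∘ₗ X.1))) =
      eval x (lf (cvec ((ε.coord i) ∘ₗ Y.1))) := h4
    rw [eval_cvec, eval_cvec] at h5
    exact h5
  have hsurj : Function.Surjective Φ := by
    intro c
    have h1 : ∀ i, ∃ a : Fin n → ℂ, c.1 i = lf a := fun i => lf_of_hom (c.2.1 i)
    choose a ha using h1
    let X0 : (Fin n → ℂ) →ₗ[ℂ] EE θ 3 := Fintype.linearCombination ℂ (fun k => ∑ i, a i k • ε i)
    have hX0 : ∀ x, X0 x = ∑ i, (∑ k, a i k * x k) • ε i := by
      intro x
      show Fintype.linearCombination ℂ (fun k => ∑ i, a i k • ε i) x = _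
      rw [Fintype.linearCombination_apply]
      simp only [Finset.smul_sum, Finset.sum_smul, smul_smul]
      rw [Finset.sum_comm]
      refine Finset.sum_congr rfl fun i _ => Finset.sum_congr rfl fun k _ => ?_
      rw [mul_comm]
    have hmem : X0 ∈ RL θ := by
      intro x j
      rw [hX0, hcoe]
      have h3 := congrArg (eval x) (c.2.2 j)
      rw [map_zero, map_sum] at h3
      rw [← h3]
      refine Finset.sum_congr rfl fun i _ => ?_
      rw [map_mul, ha, eval_lf]
    refine ⟨⟨X0, hmem⟩, ?_⟩
    apply Subtype.ext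
    funext i
    apply MvPolynomial.funext
    intro x
    show eval x (lf (cvec ((ε.coord i) ∘ₗ X0))) = eval x (c.1 i)
    rw [eval_cvec, ha, eval_lf]
    show ε.repr (X0 x) i = _
    rw [hX0, ε.repr_sum_self]
  exact (LinearEquiv.ofBijective Φ ⟨hinj, hsurj⟩).finrank_eq

end Pool.Agent.Helper12.Z4
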