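import Pool.Agent.Helper12.Z4.Defs
import Pool.Agent.Helper12.Z4.LA1
import Pool.Agent.Helper12.Z4.LA2
import Pool.Agent.Helper12.Z4.LA3
import Pool.Agent.Helper12.Z4.Cart

/-! Z4-YS: the algebraic data of the last case (`e_3(V) = 6`, `B(e0, .) = 0`), `V = ℂ^5`.
`F` is `EE θ 3` (dimension 6), `K x` the members of `F` vanishing at `x`, `ι v = a_v`, `q : F → F / ι(V) = ℂ`, `N = V / ℂ e0` (dimension 4),
all linear `X : V → F` with `X x ∈ K x` are `x ↦ B n (π x) + g Λ x`. -/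

set_option autoImplicit false

namespace Pool.Agent.Helper12.Z4

open MvPolynomial
open scoped BigOperators
open Pool.Agent.Helper71.FC

/-- `V = ℂ^5` -/
abbrev V5 : Type := Fin 5 → ℂ

/-- the data -/
structure YS (N F : Type) [AddCommGroup N] [Module ℂ N] [AddCommGroup F] [Module ℂ F] where
  /-- values vanishing at `x` -/
  K : V5 → Submodule ℂ F
  /-- `v ↦ a_v` -/
  ι : V5 →ₗ[ℂ] F
  /-- quotient map by the `a_v` -/
  q : F →ₗ[ℂ] ℂ
  /-- projection -/
  π : V5 →ₗ[ℂ] N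
  /-- the relations `x ↦ B n (π x)` -/
  B : N →ₗ[ℂ] N →ₗ[ℂ] F
  /-- the fifth relation -/
  Λ : V5 →ₗ[ℂ] F
  dimN : Module.finrank ℂ N = 4
  dimF : Module.finrank ℂ F = 6
  ι_inj : ∀ v, ι v = 0 → v = 0
  q_iff : ∀ f, q f = 0 ↔ ∃ v, ι v = f
  q_ne : ∃ f, q f = 1
  π_surj : Function.Surjective π
  B_alt : ∀ n, B n n = 0
  B_nd : ND B
  hB : ∀ n x, B n (π x) ∈ K x
  hΛ : ∀ x, Λ x ∈ K x
  all : ∀ X : V5 →ₗ[ℂ] F, (∀ x, X x ∈ K x) → ∃ (n : N) (g : ℂ), ∀ x, X x = B n (π x) + g • Λ x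
  nl : ∀ n, ∃ x, Λ x ≠ B n (π x)
  point : ∀ X X' : V5 →ₗ[ℂ] F, (∀ x, X x ∈ K x) → (∀ x, X' x ∈ K x) →
    ∀ x u u', X x = ι u → X' x = ι u' → X' u - X u' ∈ K x
  tang : ∀ p : F →ₗ[ℂ] V5, (∀ v, p (ι v) = v) → ∀ Y : V5 →ₗ[ℂ] V5, (∀ x, ι (Y x) ∈ K x) →
    ∃ m : F, ∀ X : V5 →ₗ[ℂ] F, (∀ x, X x ∈ K x) → ∀ x, X (Y x) - ι (Y (p (X x))) + q (X x) • m ∈ K x
  gen4 : Gen (fun x : V5 => Module.finrank ℂ (K x) = 4)
  quad : ∀ κ : V5 →ₗ[ℂ] V5 →ₗ[ℂ] ℂ, Gen (fun x : V5 => ∀ v, ι v ∈ K x → κ x v = 0) → κ = 0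
  noU : ∀ U : Submodule ℂ F, Module.finrank ℂ U = 5 → ¬ Gen (fun x : V5 => K x ≤ U)
  nodiv : ∀ y : Fin 4 → (V5 →ₗ[ℂ] ℂ), LinearIndependent ℂ y → ∀ X : Fin 4 → (V5 →ₗ[ℂ] V5),
    (∀ i x, ι (X i x) ∈ K x) → (∀ x, ∑ i, y i x • X i x = 0) →
    (∃ x, LinearIndependent ℂ ![X 0 x, X 1 x, X 2 x]) → False

variable {N F : Type} [AddCommGroup N] [Module ℂ N] [AddCommGroup F] [Module ℂ F]

/-- the form `c = q ∘ B` -/
noncomputable def YS.c (d : YS N F) : N →ₗ[ℂ] N →ₗ[ℂ] ℂ := d.B.compr₂ d.q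

theorem YS.c_apply (d : YS N F) (v w : N) : d.c v w = d.q (d.B v w) := rfl

/-- the product `β = π p B` on `N` belonging to a retraction `p : F → V` -/
noncomputable def YS.β (d : YS N F) (p : F →ₗ[ℂ] V5) : N →ₗ[ℂ] N →ₗ[ℂ] N := d.B.compr₂ (d.π ∘ₗ p)

theorem YS.β_apply (d : YS N F) (p : F →ₗ[ℂ] V5) (v w : N) : d.β p v w = d.π (p (d.B v w)) := rfl

private theorem ys_skew {B : N →ₗ[ℂ] N →ₗ[ℂ] F} (hB : ∀ x, B x x = 0) (x y : N) :
    B y x = - B x y := by
  have h := hB (x + y)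
  simp only [map_add, LinearMap.add_apply, hB, zero_add, add_zero] at h
  first
  | exact eq_neg_of_add_eq_zero_left h
  | exact eq_neg_of_add_eq_zero_right h

private theorem ys_mem {B : N →ₗ[ℂ] N →ₗ[ℂ] F} (hB : ∀ x, B x x = 0)
    (e : Module.Basis (Fin 4) ℂ N) (S : Submodule ℂ F)
    (h01 : B (e 0) (e 1) ∈ S) (h02 : B (e 0) (e 2) ∈ S) (h03 : B (e 0) (e 3) ∈ S)
    (h12 : B (e 1) (e 2) ∈ S) (h13 : B (e 1) (e 3) ∈ S) (h23 : B (e 2) (e 3) ∈ S) (n m : N) :
    B n m ∈ S := by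
  have hij : ∀ i j : Fin 4, B (e i) (e j) ∈ S := by
    have h0 : ∀ i : Fin 4, B (e i) (e i) ∈ S := fun i => by rw [hB]; exact S.zero_mem
    have hs : ∀ i j : Fin 4, B (e i) (e j) ∈ S → B (e j) (e i) ∈ S := fun i j h => by
      rw [ys_skew hB]; exact S.neg_mem h
    intro i j
    fin_cases i <;> fin_cases j
    · exact h0 0
    · exact h01
    · exact h02
    · exact h03
    · exact hs _ _ h01
    · exact h0 1
    · exact h12
    · exact h13
    · exact hs _ _ h02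
    · exact hs _ _ h12
    · exact h0 2
    · exact h23
    · exact hs _ _ h03
    · exact hs _ _ h13
    · exact hs _ _ h23
    · exact h0 3
  rw [← e.sum_repr n, ← e.sum_repr m]
  simp only [map_sum, LinearMap.sum_apply, map_smul, LinearMap.smul_apply]
  refine S.sum_mem fun i _ => ?_
  first
  | exact S.sum_mem fun j _ => S.smul_mem _ (S.smul_mem _ (hij _ _))
  | exact S.smul_mem _ (S.sum_mem fun j _ => S.smul_mem _ (hij _ _))

private theorem ys_R5 {B : N →ₗ[ℂ] N →ₗ[ℂ] F} (hB : ∀ x, B x x = 0)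
    {e : Module.Basis (Fin 4) ℂ N} (h : R5 B e) :
    Module.finrank ℂ (Submodule.span ℂ {f | ∃ n m, f = B n m}) = 5 := by
  have h1 : Submodule.span ℂ {f | ∃ n m, f = B n m} = Submodule.span ℂ (Set.range
      ![B (e 0) (e 1), B (e 0) (e 2), B (e 0) (e 3), B (e 1) (e 2), B (e 1) (e 3)]) := by
    apply le_antisymm
    · rw [Submodule.span_le]
      rintro f ⟨n, m, rfl⟩
      have hs : ∀ i : Fin 5, (![B (e 0) (e 1), B (e 0) (e 2), B (e 0) (e 3), B (e 1) (e 2),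
          B (e 1) (e 3)] : Fin 5 → F) i ∈ Submodule.span ℂ (Set.range
          ![B (e 0) (e 1), B (e 0) (e 2), B (e 0) (e 3), B (e 1) (e 2), B (e 1) (e 3)]) :=
        fun i => Submodule.subset_span ⟨i, rfl⟩
      refine ys_mem hB e _ (hs 0) (hs 1) (hs 2) (hs 3) (hs 4) ?_ n m
      have h2 : B (e 2) (e 3) = - B (e 0) (e 1) := by
        rw [eq_neg_iff_add_eq_zero, add_comm]; exact h.1
      rw [h2]
      exact Submodule.neg_mem _ (hs 0)
    · rw [Submodule.span_le]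
      rintro f ⟨i, rfl⟩
      apply Submodule.subset_span
      fin_cases i
      · exact ⟨e 0, e 1, rfl⟩
      · exact ⟨e 0, e 2, rfl⟩
      · exact ⟨e 0, e 3, rfl⟩
      · exact ⟨e 1, e 2, rfl⟩
      · exact ⟨e 1, e 3, rfl⟩
  rw [h1, finrank_span_eq_card h.2, Fintype.card_fin]

private theorem ys_R6 {B : N →ₗ[ℂ] N →ₗ[ℂ] F} [Module.Finite ℂ F]
    {e : Module.Basis (Fin 4) ℂ N} (h : R6 B e) :
    6 ≤ Module.finrank ℂ (Submodule.span ℂ {f | ∃ n m, f = B n m}) := by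
  have h1 : Submodule.span ℂ (Set.range
      ![B (e 0) (e 1), B (e 0) (e 2), B (e 0) (e 3), B (e 1) (e 2), B (e 1) (e 3),
        B (e 2) (e 3)]) ≤ Submodule.span ℂ {f | ∃ n m, f = B n m} := by
    rw [Submodule.span_le]
    rintro f ⟨i, rfl⟩
    apply Submodule.subset_span
    fin_cases i
    · exact ⟨e 0, e 1, rfl⟩
    · exact ⟨e 0, e 2, rfl⟩
    · exact ⟨e 0, e 3, rfl⟩
    · exact ⟨e 1, e 2, rfl⟩
    · exact ⟨e 1, e 3, rfl⟩
    · exact ⟨e 2, e 3, rfl⟩
  have h2 := Submodule.finrank_mono h1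
  rwa [finrank_span_eq_card h, Fintype.card_fin] at h2

private theorem ys_finF (d : YS N F) : Module.Finite ℂ F :=
  Module.finite_of_finrank_pos (by rw [d.dimF]; norm_num)

private theorem ys_finN (d : YS N F) : Module.Finite ℂ N :=
  Module.finite_of_finrank_pos (by rw [d.dimN]; norm_num)

/-- a linear function which does not vanish identically is general -/
private theorem ys_gen_lin (g : V5 →ₗ[ℂ] ℂ) {x0 : V5} (h : g x0 ≠ 0) :
    Gen (fun x : V5 => g x ≠ 0) := by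
  have key : ∀ x : V5, eval x (∑ i : Fin 5, C (g (Pi.single i 1)) * X i) = g x := by
    intro x
    conv_rhs => rw [← Finset.univ_sum_single x]
    rw [map_sum, map_sum]
    refine Finset.sum_congr rfl fun i _ => ?_
    rw [map_mul, eval_C, eval_X]
    have h1 : (Pi.single i (x i) : V5) = x i • (Pi.single i 1 : V5) := by
      rw [← Pi.single_smul, smul_eq_mul, mul_one]
    rw [h1, map_smul, smul_eq_mul, mul_comm]
  refine ⟨∑ i : Fin 5, C (g (Pi.single i 1)) * X i, ?_, fun x hx => ?_⟩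
  · intro h0
    apply h
    rw [← key, h0, map_zero]
  · rwa [key] at hx

private theorem ys_gen_pi (d : YS N F) : Gen (fun x : V5 => d.π x ≠ 0) := by
  have hN := ys_finN d
  have hnt : Nontrivial N := Module.nontrivial_of_finrank_pos (R := ℂ) (by rw [d.dimN]; norm_num)
  obtain ⟨n0, hn0⟩ := exists_ne (0 : N)
  obtain ⟨x0, rfl⟩ := d.π_surj n0
  obtain ⟨φ, hφ⟩ : ∃ φ : Module.Dual ℂ N, φ (d.π x0) ≠ 0 := by
    by_contra hcon
    push Not at hcon
    exact hn0 ((Module.forall_dual_apply_eq_zero_iff ℂ _).1 hcon)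
  refine (ys_gen_lin (φ ∘ₗ d.π) (x0 := x0) hφ).mono fun x hx h => hx ?_
  rw [LinearMap.comp_apply, h, map_zero]

/-- retractions exist -/
theorem YS.exists_p (d : YS N F) : ∃ p : F →ₗ[ℂ] V5, ∀ v, p (d.ι v) = v := by
  obtain ⟨p, hp⟩ := d.ι.exists_leftInverse_of_injective (LinearMap.ker_eq_bot'.2 d.ι_inj)
  exact ⟨p, fun v => congrArg (fun f : V5 →ₗ[ℂ] V5 => f v) hp⟩

/-- `F = V ⊕ ℂ`: what `q` and a retraction `p` tell about `f` -/
theorem YS.eq_ι (d : YS N F) {p : F →ₗ[ℂ] V5} (hp : ∀ v, p (d.ι v) = v) {f : F} (hf : d.q f = 0) :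
    d.ι (p f) = f := by
  obtain ⟨v, hv⟩ := (d.q_iff f).mp hf
  rw [← hv, hp]

/-- retractions `p + q ⊗ u` -/
theorem YS.p_add (d : YS N F) {p : F →ₗ[ℂ] V5} (hp : ∀ v, p (d.ι v) = v) (u v : V5) :
    (p + (LinearMap.toSpanSingleton ℂ V5 u) ∘ₗ d.q) (d.ι v) = v := by
  have h : d.q (d.ι v) = 0 := (d.q_iff _).mpr ⟨v, rfl⟩
  simp [h, hp]

/-- either `R6` for all bases or `R5` for one -/
theorem YS.dich (d : YS N F) : (∀ e : Module.Basis (Fin 4) ℂ N, R6 d.B e) ∨
    ∃ e : Module.Basis (Fin 4) ℂ N, R5 d.B e := Z4.dich d.dimN d.B_alt d.B_nd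

/-- `Λ x ∉ B(N, π x)` for general `x` (`LA2_gen`, `LA2`, `nl`) -/
theorem YS.nlgen (d : YS N F) : Gen (fun x : V5 => ∀ n, d.Λ x ≠ d.B n (d.π x)) := by
  have hF := ys_finF d
  rcases LA2_gen d.dimN d.B_alt d.B_nd d.π d.π_surj d.Λ with ⟨p, hp, h⟩ | h
  · exact ⟨p, hp, h⟩
  · exfalso
    obtain ⟨z, hz⟩ := LA2 d.dimN d.B_alt d.B_nd d.π d.π_surj d.Λ h
    obtain ⟨x, hx⟩ := d.nl z
    exact hx (hz x)

/-- `K x = B(N, π x) + ℂ Λ x` for general `x` (`gen4`, `nlgen`, dimensions `3 + 1 = 4`) -/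
theorem YS.Kform (d : YS N F) : Gen (fun x : V5 => ∀ f ∈ d.K x, ∃ (n : N) (g : ℂ), f = d.B n (d.π x) + g • d.Λ x) := by
  have hF := ys_finF d
  have hN := ys_finN d
  refine ((d.gen4.and d.nlgen).and (ys_gen_pi d)).mono fun x hx f hf => ?_
  obtain ⟨⟨h4, hnl⟩, hπ⟩ := hx
  let φ : N →ₗ[ℂ] F := d.B.flip (d.π x)
  have hφ : ∀ n, φ n = d.B n (d.π x) := fun n => rfl
  have hker : LinearMap.ker φ ≤ Submodule.span ℂ {d.π x} := by
    intro n hn
    have h1 : d.B n (d.π x) = 0 := hn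
    by_contra hcon
    apply d.B_nd _ _ h1
    rw [LinearIndependent.pair_iff]
    intro s t hst
    have hs : s = 0 := by
      by_contra hs
      apply hcon
      rw [Submodule.mem_span_singleton]
      refine ⟨-(s⁻¹ * t), ?_⟩
      have h2 : s⁻¹ • (s • n + t • d.π x) = 0 := by rw [hst, smul_zero]
      rw [smul_add, smul_smul, smul_smul, inv_mul_cancel₀ hs, one_smul] at h2
      rw [neg_smul, ← eq_neg_iff_add_eq_zero.2 h2]
    refine ⟨hs, ?_⟩
    rw [hs, zero_smul, zero_add] at hst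
    exact (smul_eq_zero.1 hst).resolve_right hπ
  have hk1 : Module.finrank ℂ (LinearMap.ker φ) ≤ 1 := by
    refine (Submodule.finrank_mono hker).trans ?_
    have := finrank_span_singleton (K := ℂ) hπ
    omega
  have hrn := LinearMap.finrank_range_add_finrank_ker φ
  rw [d.dimN] at hrn
  have hW : LinearMap.range φ ⊔ Submodule.span ℂ {d.Λ x} ≤ d.K x := by
    refine sup_le ?_ ?_
    · rintro _ ⟨n, rfl⟩
      exact d.hB n x
    · rw [Submodule.span_singleton_le_iff_mem]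
      exact d.hΛ x
  have hlt : LinearMap.range φ < LinearMap.range φ ⊔ Submodule.span ℂ {d.Λ x} := by
    refine lt_of_le_of_ne le_sup_left fun h => ?_
    have h1 : d.Λ x ∈ LinearMap.range φ := by
      rw [h]
      exact Submodule.mem_sup_right (Submodule.mem_span_singleton_self _)
    obtain ⟨n, hn⟩ := h1
    exact hnl n hn.symm
  have hlt2 := Submodule.finrank_lt_finrank_of_lt hlt
  have heq : LinearMap.range φ ⊔ Submodule.span ℂ {d.Λ x} = d.K x :=
    Submodule.eq_of_le_of_finrank_le hW (by omega)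
  rw [← heq, Submodule.mem_sup] at hf
  obtain ⟨_, ⟨n, rfl⟩, z, hz, rfl⟩ := hf
  obtain ⟨g, rfl⟩ := Submodule.mem_span_singleton.1 hz
  exact ⟨n, g, rfl⟩

/-- R5: `Λ` does not take values in the 5-dimensional space `B(N,N)` (`Kform`, `noU`) -/
theorem YS.Λ_notin (d : YS N F) {e : Module.Basis (Fin 4) ℂ N} (h : R5 d.B e) :
    ∃ x, d.Λ x ∉ Submodule.span ℂ {f | ∃ n m, f = d.B n m} := by
  by_contra hcon
  push Not at hcon
  refine d.noU _ (ys_R5 d.B_alt h) (d.Kform.mono fun x hx f hf => ?_)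
  obtain ⟨n, g, rfl⟩ := hx f hf
  exact Submodule.add_mem _ (Submodule.subset_span ⟨n, d.π x, rfl⟩)
    (Submodule.smul_mem _ _ (hcon x))

/-- the products `π p B(v,w)` span a space of dimension at least 3 (`dim span B(N,N) ≥ 5`, `ker (π p)` has dimension 2) -/
theorem YS.β_span (d : YS N F) {p : F →ₗ[ℂ] V5} (hp : ∀ v, p (d.ι v) = v) :
    3 ≤ Module.finrank ℂ (Submodule.span ℂ {x | ∃ n m, x = d.β p n m}) := by
  have hF := ys_finF d
  have hN := ys_finN d
  set U : Submodule ℂ F := Submodule.span ℂ {f | ∃ n m, f = d.B n m} with hU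
  have h5 : 5 ≤ Module.finrank ℂ U := by
    rcases d.dich with h | ⟨e, h⟩
    · have h6 := ys_R6 (h (Module.finBasisOfFinrankEq ℂ N d.dimN))
      rw [hU]
      omega
    · exact (ys_R5 d.B_alt h).ge
  let f : F →ₗ[ℂ] N := d.π ∘ₗ p
  have hspan : Submodule.span ℂ {x | ∃ n m, x = d.β p n m} = U.map f := by
    rw [hU, Submodule.map_span]
    congr 1
    ext x
    constructor
    · rintro ⟨n, m, rfl⟩
      exact ⟨d.B n m, ⟨n, m, rfl⟩, rfl⟩
    · rintro ⟨_, ⟨n, m, rfl⟩, rfl⟩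
      exact ⟨n, m, rfl⟩
  have hsurj : Function.Surjective f := by
    intro n
    obtain ⟨v, rfl⟩ := d.π_surj n
    exact ⟨d.ι v, by show d.π (p (d.ι v)) = d.π v; rw [hp]⟩
  have hkf := LinearMap.finrank_range_add_finrank_ker f
  rw [LinearMap.range_eq_top.2 hsurj, finrank_top, d.dimN, d.dimF] at hkf
  have h1 := LinearMap.finrank_range_add_finrank_ker (f.domRestrict U)
  rw [LinearMap.range_domRestrict] at h1
  have h2 : Module.finrank ℂ (LinearMap.ker (f.domRestrict U)) ≤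
      Module.finrank ℂ (LinearMap.ker f) := by
    have h3 : (LinearMap.ker (f.domRestrict U)).map U.subtype ≤ LinearMap.ker f := by
      rintro _ ⟨x, hx, rfl⟩
      exact hx
    have h4 := Submodule.finrank_mono h3
    rwa [Submodule.finrank_map_subtype_eq] at h4
  rw [hspan]
  omega

/-- `c ≠ 0`: otherwise all `B n (π x)` lie in `ι V`; with a basis `e i` of `N`, `y i` the coordinates of `π x` and `ι (X i x) = B (e i) (π x)` one has
`∑ y i x • X i x = 0`: `nodiv`, as `B t (π x) = 0` only for `t ∈ ℂ π x` (`B_nd`). -/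
theorem YS.c_ne (d : YS N F) : ¬ ∀ x y, d.c x y = 0 := by
  intro hc
  obtain ⟨p, hp⟩ := d.exists_p
  have hN := ys_finN d
  let e : Module.Basis (Fin 4) ℂ N := Module.finBasisOfFinrankEq ℂ N d.dimN
  have hιp : ∀ v w, d.ι (p (d.B v w)) = d.B v w := fun v w => d.eq_ι hp (hc v w)
  let y : Fin 4 → (V5 →ₗ[ℂ] ℂ) := fun i => e.coord i ∘ₗ d.π
  let X : Fin 4 → (V5 →ₗ[ℂ] V5) := fun i => p ∘ₗ (d.B (e i)) ∘ₗ d.π
  have hX : ∀ i x, X i x = p (d.B (e i) (d.π x)) := fun i x => rfl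
  have hy : ∀ i x, y i x = e.coord i (d.π x) := fun i x => rfl
  refine d.nodiv y ?_ X (fun i x => ?_) (fun x => ?_) ?_
  · rw [Fintype.linearIndependent_iff]
    intro g hg i
    obtain ⟨x, hx⟩ := d.π_surj (e i)
    have h1 := congrArg (fun f : V5 →ₗ[ℂ] ℂ => f x) hg
    simp only [LinearMap.sum_apply, LinearMap.smul_apply, hy, hx, LinearMap.zero_apply,
      Module.Basis.coord_apply, Module.Basis.repr_self, smul_eq_mul] at h1
    rw [Finset.sum_eq_single i] at h1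
    · simpa using h1
    · intro j _ hj
      rw [Finsupp.single_eq_of_ne hj, mul_zero]
    · intro h; exact absurd (Finset.mem_univ _) h
  · rw [hX, hιp]
    exact d.hB _ x
  · have h1 : ∑ i, y i x • X i x = p (d.B (∑ i, e.repr (d.π x) i • e i) (d.π x)) := by
      rw [map_sum, LinearMap.sum_apply, map_sum]
      refine Finset.sum_congr rfl fun i _ => ?_
      rw [map_smul, LinearMap.smul_apply, map_smul, hX, hy, Module.Basis.coord_apply]
    rw [h1, e.sum_repr, d.B_alt, map_zero]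
  · obtain ⟨x, hx⟩ := d.π_surj (e 3)
    refine ⟨x, ?_⟩
    rw [Fintype.linearIndependent_iff]
    intro g hg
    rw [Fin.sum_univ_three] at hg
    have h1 : p (d.B (g 0 • e 0 + g 1 • e 1 + g 2 • e 2) (e 3)) = 0 := by
      rw [← hg, ← hx]
      simp only [map_add, map_smul, LinearMap.add_apply, LinearMap.smul_apply]
      rfl
    have h2 : d.B (g 0 • e 0 + g 1 • e 1 + g 2 • e 2) (e 3) = 0 := by
      rw [← hιp, h1, map_zero]
    have h3 := d.B_nd _ _ h2
    have h4 : ∀ i : Fin 3, e.repr (g 0 • e 0 + g 1 • e 1 + g 2 • e 2) (Fin.castSucc i) = g i := by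
      intro i
      simp only [map_add, map_smul, Module.Basis.repr_self, Finsupp.add_apply, Finsupp.smul_apply,
        smul_eq_mul]
      fin_cases i <;> simp [Finsupp.single_apply]
    by_contra hcon
    push Not at hcon
    obtain ⟨i, hi⟩ := hcon
    apply h3
    rw [LinearIndependent.pair_iff]
    intro s t hst
    have h5 := congrArg (fun z => e.repr z (Fin.castSucc i)) hst
    simp only [map_add, map_smul, map_zero, Finsupp.add_apply, Finsupp.smul_apply,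
      Finsupp.zero_apply, smul_eq_mul] at h5
    have h6 := h4 i
    simp only [map_add, map_smul, Finsupp.add_apply, Finsupp.smul_apply, smul_eq_mul] at h6
    have h7 : ∀ i : Fin 3, Fin.castSucc i ≠ (3 : Fin 4) := by decide
    rw [h6, Module.Basis.repr_self, Finsupp.single_eq_of_ne (h7 i), mul_zero, add_zero] at h5
    have hs : s = 0 := (mul_eq_zero.1 h5).resolve_right hi
    refine ⟨hs, ?_⟩
    rw [hs, zero_smul, zero_add] at hst
    exact (smul_eq_zero.1 hst).resolve_right (e.ne_zero 3)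

end Pool.Agent.Helper12.Z4
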